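import Pool.Agent.Lib.MP_f61260_nt.Sl.Rk

/-! Twisting a circuit. -/

set_option autoImplicit false
set_option maxHeartbeats 400000

namespace Pool.Agent.Lib.MP_f61260_nt

open Module Submodule

variable {σ : Type} [Fintype σ] {P : σ → Qb} {k : σ → ℕ} {μ : ℕ}

lemma tw_zsmul (P : σ → Qb) (s : ℤ) (a : σ → ℤ) : mon P (s • a) = mon P a ^ s := by
  simp only [mon, ← Finset.prod_zpow, Pi.smul_apply, smul_eq_mul]
  exact Finset.prod_congr rfl fun i _ => by rw [mul_comm, zpow_mul]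

lemma tw_span (hP : ∀ i, P i ≠ 0) {κ : Type} {f : κ → σ → ℤ} {u : GA}
    (h : ∀ j, u (mon P (f j)) = mon P (f j)) : u ∈ SL P (span ℤ (Set.range f)) := by
  intro a ha
  induction ha using span_induction with
  | mem x hx => obtain ⟨j, rfl⟩ := hx; exact h j
  | zero => rw [mon_zero, map_one]
  | add x y _ _ hx hy => rw [mon_add hP, map_mul, hx, hy]
  | smul s x _ hx => rw [tw_zsmul, map_zpow₀, hx]

lemma tw_fx {U : Subgroup GA} (h : ∀ i, Fx U (P i ^ k i)) {a : σ → ℤ} (ha : a ∈ latK k) :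
    Fx U (mon P a) := by
  obtain ⟨e, -, he⟩ := mon_lat P ha
  rw [he]
  exact Fx.prod _ fun i _ => (h i).zpow _

lemma tw_SL {g : GA} : g ∈ SL P (latK k) ↔ ∀ i, g (P i ^ k i) = P i ^ k i := by
  classical
  refine ⟨fun h i => ?_, fun h a ha => ?_⟩
  · rw [← (single_lat P k i).2]
    exact h _ (single_lat P k i).1
  · exact tw_fx (U := ⨅ i, St ℚ (P i ^ k i)) (fun i => Fx.of_le (iInf_le _ i)) ha g
      (Subgroup.mem_iInf.2 h)

lemma tw_uniq {U : Subgroup GA} {κ : Type} [Fintype κ] {y c d : κ → Qb}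
    (hy : LinearIndependent (Kf U) y) (hc : ∀ j, Fx U (c j)) (hd : ∀ j, Fx U (d j))
    (h : ∑ j, c j * y j = ∑ j, d j * y j) (j : κ) : c j = d j := by
  have h1 := Fintype.linearIndependent_iff.1 hy
    (fun j => ⟨c j - d j, mem_Kf.2 ((hc j).sub (hd j))⟩) (by
      simp only [IntermediateField.smul_def, smul_eq_mul, sub_mul, Finset.sum_sub_distrib]
      exact sub_eq_zero.2 h) j
  exact sub_eq_zero.1 (congrArg Subtype.val h1)

omit [Fintype σ] in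
lemma tw_root (hk : ∀ i, 0 < k i) (c : σ → Qb) : ∃ ε : σ → Qb, ∀ i, ε i ^ k i = c i := by
  choose ε hε using fun i => IsAlgClosed.exists_pow_nat_eq (c i) (hk i)
  exact ⟨ε, hε⟩

lemma tw_one {p : ℕ} (hp : p.Prime) {X H : Subgroup GA} {β ζ : Qb} (hβ : β ≠ 0)
    (hζ : IsPrimitiveRoot ζ p) (hX : X ≤ Mu p) (ab : ∀ τ ∈ H, ∀ w ∈ H, τ⁻¹ * w * τ * w⁻¹ ∈ X)
    (h1 : ∀ w ∈ H, w ζ = ζ → w ∈ X) (h2 : Fx H (β ^ p)) (hr : ∀ w ∈ H, w ∈ X → w β = β) :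
    ∃ ξ : Qb, ξ ^ p = 1 ∧ Fx H (ξ * β) := by
  have : NeZero p := ⟨hp.ne_zero⟩
  have hζ0 := hζ.ne_zero hp.ne_zero
  by_cases hc : ∀ h ∈ H, h ζ = ζ
  · exact ⟨1, one_pow p, fun h hh => by rw [one_mul, hr h hh (h1 h hh (hc h hh))]⟩
  push Not at hc
  obtain ⟨h0, h3, h4⟩ := hc
  obtain ⟨ω0, h5, h6⟩ := mult_ex h0 hβ (h2 h0 h3)
  obtain ⟨e, -, he⟩ := (prim_of_ne hp (ω := h0 ζ / ζ) (by
    rw [div_pow, ← map_pow, hζ.pow_eq_one, map_one, div_one]) fun h =>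
      h4 ((div_eq_one_iff_eq hζ0).1 h)).eq_pow_of_pow_eq_one (ξ := ω0⁻¹) (by
        rw [inv_pow, h5, inv_one])
  have h7 : (ζ ^ e) ^ p = 1 := by rw [← pow_mul, mul_comm, pow_mul, hζ.pow_eq_one, one_pow]
  have h8 : h0 (ζ ^ e * β) = ζ ^ e * β := by
    have : ω0 ≠ 0 := fun h => by simp [h, hp.ne_zero] at h5
    rw [div_pow, div_eq_iff (pow_ne_zero _ hζ0)] at he
    rw [map_mul, map_pow, h6, he]
    field_simp
  refine ⟨ζ ^ e, h7, fun h hh => (St ℚ _).inv_mem_iff.1 ?_⟩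
  have h9 := mul_ne_zero (pow_ne_zero e hζ0) hβ
  obtain ⟨ω, h10, h11⟩ := mult_ex h⁻¹ h9 (n := p) (by
    rw [mul_pow, h7, one_mul]; exact h2 _ (H.inv_mem hh))
  have h12 := ab _ h3 _ hh
  have h13 : (h0⁻¹ * h * h0 * h⁻¹) (ζ ^ e * β) = ζ ^ e * β := by
    rw [map_mul, hX h12 _ h7, hr _ (H.mul_mem (H.mul_mem (H.mul_mem (H.inv_mem h3) hh) h3)
      (H.inv_mem hh)) h12]
  have h14 : h0 (h⁻¹ (ζ ^ e * β)) = h⁻¹ (h0 (ζ ^ e * β)) := by
    conv_rhs => rw [← h13]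
    simp only [← AlgEquiv.mul_apply]
    congr 1
    group
  rw [h8, h11, map_mul, h8, mul_left_inj' h9] at h14
  by_contra hc
  exact h4 (fix_root hp.pos (prim_of_ne hp h10 fun h' => hc (by rw [mem_St, h11, h', one_mul]))
    h14 dvd_rfl hζ.pow_eq_one)

theorem Circ.rig {U : Subgroup GA} (h : Circ U P k μ) {q : ℕ} (hq : 0 < q) (hU : U ≤ Mu q)
    {u : GA} (hu : u ∈ U) (h1 : ∀ a ∈ latK k, u (mon P a ^ q) = mon P a ^ q) :
    u ∈ SL P (latK k) := by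
  obtain ⟨κ, _, -, f, d, h2, h3, h4, h5⟩ := h.ex
  choose ξ h6 h7 using fun j => mult_ex u (mon_ne h.ne (f j)) (h1 _ (mem_bx.1 (h3 j).1).1)
  have h8 : ∑ j, d j * ξ j * mon P (f j) = ∑ j, d j * mon P (f j) := by
    rw [h5, ← map_one u, ← h5, map_sum]
    exact Finset.sum_congr rfl fun j _ => by rw [map_mul, (h3 j).2.2.1 u hu, h7, mul_assoc]
  have h9 := tw_uniq h4 (fun j => (h3 j).2.2.1.mul fun v hv => hU hv _ (h6 j))
    (fun j => (h3 j).2.2.1) h8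
  have _ := hq
  rw [← h2]
  refine tw_span h.ne fun j => ?_
  rw [h7, mul_left_cancel₀ (h3 j).2.2.2 ((h9 j).trans (mul_one _).symm), one_mul]

theorem Circ.cover {U V : Subgroup GA} (h : Circ U P k μ) (hUV : U ≤ V)
    (nU : ∀ τ ∈ V, ∀ u ∈ U, τ⁻¹ * u * τ ∈ U) {ε : σ → Qb} (h0 : ∀ i, ε i ≠ 0)
    (h1 : ∀ i, Fx U (ε i ^ k i))
    (h2 : ∀ x ∈ V, ∃ u ∈ U, u⁻¹ * x ∈ SL (P * ε) (latK k)) : Circ V (P * ε) k μ := by
  obtain ⟨κ, _, hκ, f, d, h3, h4, h5, h6⟩ := h.ex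
  have h7 : ∀ j, Fx U (mon ε (f j)) := fun j => tw_fx h1 (mem_bx.1 (h4 j).1).1
  have h8 : ∀ j, Fx U (d j / mon ε (f j)) := fun j => (h4 j).2.2.1.div (h7 j)
  have h9 : LinearIndependent (Kf U) fun j => mon (P * ε) (f j) :=
    Fintype.linearIndependent_iff.2 fun c hc j => by
      have := tw_uniq h5 (c := fun j => c j * mon ε (f j)) (d := fun _ => 0)
        (fun j => (kf_fx (c j)).mul (h7 j)) (fun _ => Fx.zero) (by
          simp only [zero_mul, Finset.sum_const_zero]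
          rw [← hc]
          exact Finset.sum_congr rfl fun j _ => by
            rw [IntermediateField.smul_def, smul_eq_mul, mon_mul]; ring) j
      exact Subtype.ext ((mul_eq_zero.1 this).resolve_right (mon_ne h0 _))
  have h10 : ∑ j, d j / mon ε (f j) * mon (P * ε) (f j) = 1 := by
    rw [← h6]
    exact Finset.sum_congr rfl fun j _ => by
      have := mon_ne h0 (f j)
      rw [mon_mul]
      field_simp
  refine ⟨fun i => mul_ne_zero (h.ne i) (h0 i), h.pos, h.le, κ, inferInstance, hκ, f,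
    fun j => d j / mon ε (f j), h3, fun j => ⟨(h4 j).1, (h4 j).2.1, fun x hx => ?_,
      div_ne_zero (h4 j).2.2.2 (mon_ne h0 _)⟩, li_field hUV h9, h10⟩
  obtain ⟨u, hu, hs⟩ := h2 x hx
  have h11 : u⁻¹ * x ∈ V := V.mul_mem (V.inv_mem (hUV hu)) hx
  have h12 := tw_uniq h9 (c := fun j => (u⁻¹ * x) (d j / mon ε (f j))) (fun j v hv => by
      have := congrArg (u⁻¹ * x) (h8 j _ (nU _ h11 v hv))
      rwa [← AlgEquiv.mul_apply, mul_assoc _ v, mul_inv_cancel_left, AlgEquiv.mul_apply] at this)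
    h8 (by
      rw [h10, ← map_one (u⁻¹ * x), ← h10, map_sum]
      exact Finset.sum_congr rfl fun j _ => by rw [map_mul, hs _ (mem_bx.1 (h4 j).1).1]) j
  have h13 := congrArg u h12
  rwa [← AlgEquiv.mul_apply, mul_inv_cancel_left, h8 j u hu] at h13

theorem Circ.desc {κ : Type} [Fintype κ] {V : Subgroup GA} {y : κ → Qb} (hy0 : ∀ a, y a ≠ 0)
    {p m q : ℕ} (hp : p.Prime) (hm : 0 < m) (hV : V ≤ Mu m) (hq : q ∣ m) (hpm : p ∣ m)
    (hy : ∀ a, Fx V (y a ^ p)) (h : Circ (V ⊓ ⨅ a, St ℚ (y a)) P k μ) (g : κ → GA)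
    (h1 : ∀ a, g a ∈ V) (h2 : ∀ a, g a (y a) ≠ y a) (h3 : ∀ a a', a' ≠ a → g a (y a') = y a')
    (h4 : ∀ a, ∀ x ∈ latK k, g a (mon P x ^ q) = mon P x ^ q) :
    ∃ ε : σ → Qb, (∀ i, ∃ e : κ → ℕ, ε i ^ k i = ∏ a, y a ^ e a) ∧ Circ V (P * ε) k μ := by
  classical
  have : NeZero p := ⟨hp.ne_zero⟩
  have hq0 : 0 < q := Nat.pos_of_dvd_of_pos hq hm
  have hVq : V ≤ Mu q := hV.trans (Mu_mono hq)
  have hmul : ∀ x ∈ V, ∀ a, ∃ ω, ω ^ p = 1 ∧ Fx V ω ∧ x (y a) = ω * y a := fun x hx a => by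
    obtain ⟨ω, h5, h6⟩ := mult_ex x (hy0 a) (hy a x hx)
    exact ⟨ω, h5, fun τ hτ => Mu_mono hpm (hV hτ) ω h5, h6⟩
  choose ω hω1 hω2 hω3 using fun a => hmul _ (h1 a) a
  have hprim : ∀ a, IsPrimitiveRoot (ω a) p := fun a =>
    prim_of_ne hp (hω1 a) fun h' => h2 a (by rw [hω3, h', one_mul])
  have hpow : ∀ a, g a ^ p ∈ SL P (latK k) := fun a =>
    h.rig hq0 (inf_le_left.trans hVq) ⟨V.pow_mem (h1 a) p, Subgroup.mem_iInf.2 fun a' => by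
      by_cases h' : a' = a
      · rw [h', mem_St, pow_act (hω3 a) (hω2 a _ (h1 a)), hω1, one_mul]
      · exact (St ℚ (y a')).pow_mem (h3 a a' h') p⟩
      fun x hx => (St ℚ (mon P x ^ q)).pow_mem (h4 a x hx) p
  have h5 : ∀ i a, ∃ e : ℕ, g a (P i ^ k i * y a ^ e) = P i ^ k i * y a ^ e := by
    intro i a
    have hα := pow_ne_zero (k i) (h.ne i)
    obtain ⟨ξ, h6, h7⟩ := mult_ex (g a) hα (n := q) (by
      rw [← (single_lat P k i).2]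
      exact h4 a _ (single_lat P k i).1)
    have h8 := pow_act h7 (hVq (h1 a) ξ h6) p
    rw [tw_SL.1 (hpow a) i] at h8
    obtain ⟨e, -, he⟩ := (hprim a).eq_pow_of_pow_eq_one (ξ := ξ⁻¹) (by
      rw [inv_pow, mul_right_cancel₀ hα (h8.symm.trans (one_mul _).symm), inv_one])
    have hξ : ξ ≠ 0 := fun h' => by simp [h', hq0.ne'] at h6
    exact ⟨e, by rw [map_mul, h7, map_pow, hω3, mul_pow, he]; field_simp⟩
  choose e he using h5
  obtain ⟨ε, hε⟩ := tw_root h.pos fun i => ∏ a, y a ^ e i a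
  have h6 : ∀ a, g a ∈ SL (P * ε) (latK k) := fun a => tw_SL.2 fun i => by
    rw [Pi.mul_apply, mul_pow, hε, ← Finset.mul_prod_erase _ _ (Finset.mem_univ a), ← mul_assoc,
      map_mul, he, map_prod,
      Finset.prod_congr rfl fun a' ha' => by rw [map_pow, h3 a a' (Finset.ne_of_mem_erase ha')]]
  have h7 : ∀ s : Finset κ, ∀ x ∈ V, (∀ a ∉ s, x (y a) = y a) →
      ∃ u ∈ V ⊓ ⨅ a, St ℚ (y a), u⁻¹ * x ∈ SL (P * ε) (latK k) := by
    intro s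
    induction s using Finset.induction_on with
    | empty => exact fun x hx h' => ⟨x, ⟨hx, Subgroup.mem_iInf.2 fun a => h' a (by simp)⟩, by
        rw [inv_mul_cancel]; exact one_mem _⟩
    | insert a s ha ih =>
      intro x hx h'
      obtain ⟨ω', h8, h9, h10⟩ := hmul x⁻¹ (V.inv_mem hx) a
      obtain ⟨l, -, hl⟩ := (hprim a).eq_pow_of_pow_eq_one h8
      obtain ⟨u, hu, hu'⟩ := ih (x * g a ^ l) (V.mul_mem hx (V.pow_mem (h1 a) l)) fun a' ha' => by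
        rw [AlgEquiv.mul_apply]
        by_cases h'' : a' = a
        · rw [h'', pow_act (hω3 a) (hω2 a _ (h1 a)), hl, ← h10, ← AlgEquiv.mul_apply,
            mul_inv_cancel, AlgEquiv.one_apply]
        · rw [mem_St.1 ((St ℚ (y a')).pow_mem (h3 a a' h'') l), h' a' (by simp [h'', ha'])]
      refine ⟨u, hu, ?_⟩
      have h11 := mul_mem hu' (inv_mem (pow_mem (h6 a) l))
      rwa [mul_assoc, mul_inv_cancel_right] at h11
  refine ⟨ε, fun i => ⟨e i, hε i⟩, h.cover inf_le_left (fun τ hτ u hu => ⟨V.mul_mem (V.mul_mem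
    (V.inv_mem hτ) hu.1) hτ, Subgroup.mem_iInf.2 fun a => ?_⟩) (fun i h' => ?_) (fun i => ?_)
    fun x hx => h7 Finset.univ x hx (by simp)⟩
  · obtain ⟨ω', -, h8, h9⟩ := hmul τ hτ a
    have h10 : u (τ (y a)) = τ (y a) := by
      rw [h9, map_mul, h8 u hu.1, mem_St.1 (Subgroup.mem_iInf.1 hu.2 a)]
    rw [mem_St, AlgEquiv.mul_apply, AlgEquiv.mul_apply, h10, ← AlgEquiv.mul_apply,
      inv_mul_cancel, AlgEquiv.one_apply]
  · have h8 := hε i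
    rw [h', zero_pow (h.pos i).ne'] at h8
    exact Finset.prod_ne_zero_iff.2 (fun a _ => pow_ne_zero _ (hy0 a)) h8.symm
  · rw [hε]
    exact Fx.prod _ fun a _ =>
      (Fx.of_le (inf_le_right.trans (iInf_le (fun a => St ℚ (y a)) a))).pow _

theorem Circ.tw {p : ℕ} (hp : p.Prime) {X Y : Subgroup GA} {ζ : Qb} (hζ : IsPrimitiveRoot ζ p)
    (hX : X ≤ Mu p) (hXY : X ≤ Y) (ab : ∀ τ ∈ Y, ∀ w ∈ Y, τ⁻¹ * w * τ * w⁻¹ ∈ X)
    (h1 : ∀ w ∈ Y, w ζ = ζ → w ∈ X) (h : Circ X P k μ)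
    (h2 : ∀ w ∈ Y, ∃ v ∈ X, ∀ a ∈ latK k, w (mon P a ^ p) = v (mon P a ^ p)) :
    ∃ ε : σ → Qb, (∀ i, (ε i ^ k i) ^ p = 1) ∧
      ∀ w ∈ Y, ∃ v ∈ X, v⁻¹ * w ∈ SL (P * ε) (latK k) := by
  classical
  have h3 : ∀ w, w ∈ SL (fun i => P i ^ p) (latK k) ↔
      ∀ a ∈ latK k, w (mon P a ^ p) = mon P a ^ p := fun w => by
    simp only [mem_SL, mon_pw]
  choose ξ h4 h5 using fun i => tw_one hp (X := X) (H := Y ⊓ SL (fun i => P i ^ p) (latK k))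
    (pow_ne_zero (k i) (h.ne i)) hζ hX (fun τ hτ w hw => ab τ hτ.1 w hw.1)
    (fun w hw => h1 w hw.1) (fun w hw => by
      rw [← (single_lat P k i).2]
      exact (h3 w).1 hw.2 _ (single_lat P k i).1)
    fun w hw hw' => tw_SL.1 (h.rig hp.pos hX hw' ((h3 w).1 hw.2)) i
  obtain ⟨ε, hε⟩ := tw_root h.pos ξ
  refine ⟨ε, fun i => by rw [hε, h4], fun w hw => ?_⟩
  obtain ⟨v, hv, h6⟩ := h2 w hw
  refine ⟨v, hv, tw_SL.2 fun i => ?_⟩
  rw [Pi.mul_apply, mul_pow, hε, mul_comm (P i ^ k i)]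
  refine h5 i _ ⟨Y.mul_mem (Y.inv_mem (hXY hv)) hw, (h3 _).2 fun a ha => ?_⟩
  rw [AlgEquiv.mul_apply, h6 a ha, ← AlgEquiv.mul_apply, inv_mul_cancel, AlgEquiv.one_apply]

theorem Circ.dep {U : Subgroup GA} (h : Circ U P k μ) :
    ¬ LinearIndependent (Kf U) fun a : bx (latK k) μ => mon P a := by
  intro h1
  obtain ⟨κ, _, -, f, d, -, h3, -, h5⟩ := h.ex
  refine h1.notMem_span_image (s := {a | a.1 ≠ 0}) (x := ⟨0, zero_bx _ _⟩) (fun h' => h' rfl) ?_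
  rw [mon_zero, ← h5]
  exact sum_mem fun j _ => smul_mem _ (⟨d j, mem_Kf.2 (h3 j).2.2.1⟩ : Kf U)
    (subset_span ⟨⟨f j, (h3 j).1⟩, (h3 j).2.1, rfl⟩)

end Pool.Agent.Lib.MP_f61260_nt
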