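import Pool.Agent.Lib.MP_f61260_nt.Sl.Core
import Pool.Agent.Lib.MP_f61260_nt.Sl.Tw

/-! Cyclotomic descent of circuits: one step and the wild part. -/

set_option autoImplicit false
set_option maxHeartbeats 400000

namespace Pool.Agent.Lib.MP_f61260_nt

open Module Submodule Real

variable {σ : Type} [Fintype σ] {k : σ → ℕ} {μ T J : ℕ} {H : ℝ}

lemma ab1_mul {p m j : ℕ} (hp : p.Prime) (hm : ¬ p ∣ m) {g : GA} (h1 : g ∈ Mu m)
    (h2 : g ∈ Mu (p ^ j)) : g ∈ Mu (m * p ^ j) := by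
  obtain ⟨c⟩ := exists_ctx
  have hm0 : 0 < m := Nat.pos_of_ne_zero fun h' => hm (h' ▸ dvd_zero p)
  have hj := pow_pos hp.pos j
  rw [← c.St_z (Nat.mul_pos hm0 hj)]
  exact c.hz.fix_mul hm0 hj (Nat.Coprime.pow_right _
    ((Nat.Prime.coprime_iff_not_dvd hp).2 hm).symm) (h1 _ (c.prim _ hm0).pow_eq_one)
    (h2 _ (c.prim _ hj).pow_eq_one)

theorem ab_step {p : ℕ} (hp : p.Prime) {m a : ℕ} (hm : ¬ p ∣ m) {P : σ → Qb}
    (h : Circ (Mu (m * p ^ (a + 1))) P k μ) (hH : ∑ i, ht (P i) ≤ H)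
    (par : Num (Fintype.card σ) 1 p 1 T J 1 μ H) :
    ∃ Y : Subgroup GA, Mu (m * p ^ (a + 1)) ≤ Y ∧ Y ≤ Mu (m * p ^ a) ∧
      IdxLe (Mu (m * p ^ a)) Y J ∧ ∀ w ∈ Y, ∃ u ∈ Mu (m * p ^ (a + 1)), ∀ x ∈ latK k,
        w (mon P x ^ p) = u (mon P x ^ p) := by
  have := Fact.mk hp
  obtain ⟨c⟩ := exists_ctx
  have hm0 : 0 < m := Nat.pos_of_ne_zero fun h' => hm (h' ▸ dvd_zero p)
  have hM := Nat.mul_pos hm0 (pow_pos hp.pos (a + 1))
  have hz := (c.cyc (p := p)).loc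
  have nM : ∀ (n : ℕ) (τ : GA), ∀ u ∈ Mu n, τ⁻¹ * u * τ ∈ Mu n := fun n τ u hu =>
    (inferInstance : (Mu n).Normal).conj_mem' u hu τ
  obtain ⟨τ, -, hτ⟩ := mcore (G := ⊤) (U := Mu (m * p ^ (a + 1))) (W := Mu (m * p ^ a))
    (Γ := Mu (m * p ^ a)) (c := 1) (b := 1) (E := 1) (idxLe_of_le le_rfl)
    (Mu_mono (mul_dvd_mul_left _ (pow_dvd_pow p (by omega)))) le_rfl le_top
    (fun τ _ => nM _ τ) (fun τ _ => nM _ τ)
    (fun x _ y _ => by simpa using ab_mu hM x y⁻¹) (idxLe_of_le le_rfl) h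
    (Mu_mono ((pow_dvd_pow p (by omega)).mul_left _)) (fun _ => one_ne_zero)
    (fun τ _ i => ⟨1, ⟨1, one_pos, one_pow 1⟩, by simp⟩)
    (norm_nonneg (io p (c.z (p ^ 1)) - 1)) (by
      rw [← hz.b0, pow_one p]
      exact pow_le_pow_of_le_one (norm_nonneg _) (by simpa using (hz.b_lt 1).le) (Nat.sub_le _ _))
    (fun w hw => by
      obtain ⟨s, e1, e2⟩ := ine_onto (p := p) w a
      have e3 : res p s (c.z (p ^ a)) = c.z (p ^ a) := by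
        have e0 := (c.prim _ (pow_pos hp.pos a)).pow_eq_one
        have e4 := e2 _ (((c.prim _ (pow_pos hp.pos a)).pow_eq_one_iff_dvd _).2
          (pow_dvd_pow p (Nat.le_succ a)))
        rw [AlgEquiv.mul_apply, Mu_mono (dvd_mul_left _ m) hw _ e0] at e4
        exact (St ℚ _).inv_mem_iff.1 e4
      refine ⟨res p s, ab1_mul hp hm (Subgroup.mul_mem _ (Subgroup.inv_mem _ (ine_mu e1 hm))
        (Mu_mono (dvd_mul_right m _) hw)) e2, fun x hx b hb => ?_⟩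
      rw [mon_one, map_one, norm_one] at hb ⊢
      rw [mul_one, io_res]
      refine hz.close a e1 (by rw [← io_res, e3]) ⟨fun t ht => ?_, hb⟩
      rw [← io_res, hx _ (ab1_mul hp hm (ine_mu ht.1 hm) ?_)]
      rw [← c.St_z (pow_pos hp.pos _)]
      exact (io p).injective ((io_res _ _).trans ht.2))
    (by simpa using hH) par (Subgroup.mem_top 1)
  obtain ⟨Y, h1, h2, h3, h4⟩ := hτ τ (by simp)
  refine ⟨Y, h1, h2, h3, fun w hw => ?_⟩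
  obtain ⟨u, hu, h5⟩ := h4 w hw
  refine ⟨(w⁻¹)⁻¹ * τ⁻¹ * w⁻¹ * τ * (τ⁻¹ * u * τ),
    Subgroup.mul_mem _ (ab_mu hM _ _) (nM _ τ u hu), fun x hx => ?_⟩
  have h6 := h5 x hx
  rw [pow_one] at h6
  rw [show (w⁻¹)⁻¹ * τ⁻¹ * w⁻¹ * τ * (τ⁻¹ * u * τ) = w * τ⁻¹ * w⁻¹ * (u * τ) by group,
    AlgEquiv.mul_apply, AlgEquiv.mul_apply u, ← h6, ← AlgEquiv.mul_apply w, ← AlgEquiv.mul_apply]
  congr 1
  group

theorem ab_wild {S : Finset ℕ} (hS : ∀ p ∈ S, p.Prime ∧ Num (Fintype.card σ) 1 p 1 T J 1 μ H)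
    (m : ℕ) (hm : 0 < m) (h1 : ∀ p ∈ S, p ∣ m) {P : σ → Qb} (h : Circ (Mu m) P k μ)
    (hH : ∑ i, ht (P i) ≤ H) : ∃ (m' : ℕ) (ε : σ → Qb), 0 < m' ∧ (∀ i, Tor (ε i)) ∧
      (∀ p ∈ S, p ∣ m' ∧ ¬ p ^ 2 ∣ m') ∧ Circ (Mu m') (P * ε) k μ := by
  induction m using Nat.strong_induction_on generalizing P with
  | _ m ih =>
  have t1 : ∀ i, Tor ((1 : σ → Qb) i) := fun _ => ⟨1, one_pos, one_pow 1⟩
  by_cases hc : ∀ p ∈ S, ¬ p ^ 2 ∣ m
  · exact ⟨m, 1, hm, t1, fun p hp => ⟨h1 p hp, hc p hp⟩, by rwa [mul_one]⟩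
  push Not at hc
  obtain ⟨p, hpS, h5⟩ := hc
  obtain ⟨hp, par⟩ := hS p hpS
  have h7 : J < p := by
    have := par.e2
    rw [pow_one] at this
    omega
  obtain ⟨c⟩ := exists_ctx
  obtain ⟨r, m', hm', rfl⟩ := Nat.exists_eq_pow_mul_and_not_dvd hm.ne' p hp.ne_one
  have hcop : ∀ {a : ℕ} (l : ℕ), ¬ p ∣ a → a.Coprime (p ^ l) := fun l h =>
    Nat.Coprime.pow_right l ((Nat.Prime.coprime_iff_not_dvd hp).2 h).symm
  obtain ⟨a, rfl⟩ : ∃ a, r = a + 1 + 1 := ⟨r - 2, by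
    have := (Nat.pow_dvd_pow_iff_le_right hp.one_lt).1
      ((hcop 2 hm').symm.dvd_of_dvd_mul_right h5)
    omega⟩
  rw [mul_comm] at hm h1 h ih
  have hm0 : 0 < m' := Nat.pos_of_ne_zero fun h' => hm' (h' ▸ dvd_zero p)
  have hM := Nat.mul_pos hm0 (pow_pos hp.pos (a + 1))
  have hXW : Mu (m' * p ^ (a + 1 + 1)) ≤ Mu (m' * p ^ (a + 1)) :=
    Mu_mono (mul_dvd_mul_left _ (pow_dvd_pow p (by omega)))
  obtain ⟨ε, h13, h14⟩ : ∃ ε : σ → Qb, (∀ i, Tor (ε i)) ∧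
      Circ (Mu (m' * p ^ (a + 1))) (P * ε) k μ := by
    by_cases hc : ∀ w ∈ Mu (m' * p ^ (a + 1)),
      w (c.z (m' * p ^ (a + 1 + 1))) = c.z (m' * p ^ (a + 1 + 1))
    · have e : Mu (m' * p ^ (a + 1)) = Mu (m' * p ^ (a + 1 + 1)) :=
        le_antisymm (fun w hw => c.St_z hm ▸ hc w hw) hXW
      exact ⟨1, t1, by rwa [mul_one, e]⟩
    push Not at hc
    obtain ⟨w, hw, hw'⟩ := hc
    obtain ⟨Y, -, e2, e3, e4⟩ := ab_step hp hm' h hH par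
    obtain ⟨N, e5, e6, e7⟩ := e3.exists_pow' hw
    obtain ⟨v, e8, e9⟩ := e4 _ e7
    have e10 : Fx (Mu (m' * p ^ (a + 1))) (c.z (m' * p ^ (a + 1 + 1)) ^ p) := by
      rw [pow_succ p (a + 1), ← mul_assoc, c.hz.pw _ _ hM hp.pos]
      exact Fx.of_le (c.St_z hM).ge
    have hpM : p ∣ m' * p ^ (a + 1) := (dvd_pow_self p (by omega)).mul_left _
    have hU : Mu (m' * p ^ (a + 1)) ⊓ ⨅ _ : Unit, St ℚ (c.z (m' * p ^ (a + 1 + 1))) =
        Mu (m' * p ^ (a + 1 + 1)) := by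
      rw [iInf_const, c.St_z hm]
      exact inf_eq_right.2 hXW
    obtain ⟨ε, he, he'⟩ := Circ.desc (κ := Unit) (y := fun _ => c.z (m' * p ^ (a + 1 + 1)))
      (fun _ => c.hz.ne _) hp hM le_rfl hpM hpM (fun _ => e10) (hU ▸ h) (fun _ => v⁻¹ * w ^ N)
      (fun _ => Subgroup.mul_mem _ (Subgroup.inv_mem _ (hXW e8)) (e2 e7)) (fun _ e11 => by
        obtain ⟨ω, e12, e13⟩ := mult_ex w (c.hz.ne _) (e10 w hw)
        have e14 := mem_St.1 ((St ℚ _).mul_mem ((c.St_z hm).ge e8) e11)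
        rw [mul_inv_cancel_left, pow_act e13 (Mu_mono hpM hw _ e12), mul_eq_right₀ (c.hz.ne _),
          (prim_of_ne hp e12 fun h' => hw' (by rw [e13, h', one_mul])).pow_eq_one_iff_dvd] at e14
        exact absurd (Nat.le_of_dvd e5 e14) (by omega)) (fun _ _ h => absurd rfl h)
      fun _ x hx => by
        rw [AlgEquiv.mul_apply, e9 x hx, ← AlgEquiv.mul_apply, inv_mul_cancel, AlgEquiv.one_apply]
    refine ⟨ε, fun i => ?_, he'⟩
    obtain ⟨e, he⟩ := he i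
    exact Tor.of_pow (h.pos i) (he ▸ Tor.prod _ fun _ _ =>
      Tor.pow ⟨_, hm, (c.prim _ hm).pow_eq_one⟩ _)
  obtain ⟨m1, ε1, e1, e2, e3, e4⟩ := ih _ (Nat.mul_lt_mul_of_pos_left
    (Nat.pow_lt_pow_right hp.one_lt (by omega)) hm0) hM
    (fun q hq => by
      have := h1 q hq
      rw [pow_succ, ← mul_assoc, (hS q hq).1.dvd_mul] at this
      exact this.elim id fun h' => ((Nat.prime_dvd_prime_iff_eq (hS q hq).1 hp).1 h').symm ▸
        (dvd_pow_self p (by omega)).mul_left _) h14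
    (le_of_eq_of_le (Finset.sum_congr rfl fun i _ => by
      rw [Pi.mul_apply, mul_comm, (h13 i).ht]) hH)
  exact ⟨m1, ε * ε1, e1, fun i => (h13 i).mul (e2 i), e3, by rwa [← mul_assoc]⟩

end Pool.Agent.Lib.MP_f61260_nt
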