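import Mathlib

/-! Reduced bases of lattices. -/

set_option autoImplicit false
set_option maxHeartbeats 400000

namespace Pool.Agent.Lib.MP_f61260_nt

/-- The values whose infimum is the quotient norm. -/
def redSet {L : Type} [AddCommGroup L] (p : Submodule ℤ L) (N : L → ℝ) (q : L ⧸ p) : Set ℝ :=
  {x | ∃ n : ℤ, 0 < n ∧ ∃ w : L, p.mkQ w = n • q ∧ x = N w / n}

section
variable {L : Type} [AddCommGroup L] (p : Submodule ℤ L) {N : L → ℝ}

theorem red_nonneg (hadd : ∀ v w, N (v + w) ≤ N v + N w)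
    (hmul : ∀ (n : ℤ) v, N (n • v) = |(n : ℝ)| * N v) (v : L) : 0 ≤ N v := by
  have h0 : N 0 = 0 := by simpa using hmul 0 0
  have h1 : N (-v) = N v := by simpa using hmul (-1) v
  have := hadd v (-v)
  rw [add_neg_cancel, h0, h1] at this
  linarith

theorem red_mem (v : L) : N v ∈ redSet p N (p.mkQ v) :=
  ⟨1, one_pos, v, by simp, by simp⟩

theorem red_ne (q : L ⧸ p) : (redSet p N q).Nonempty := by
  obtain ⟨v, rfl⟩ := p.mkQ_surjective q
  exact ⟨_, red_mem p v⟩

theorem red_lb (h0 : ∀ v, 0 ≤ N v) (q : L ⧸ p) : ∀ x ∈ redSet p N q, 0 ≤ x := by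
  rintro _ ⟨n, hn, w, -, rfl⟩
  exact div_nonneg (h0 w) (by exact_mod_cast hn.le)

theorem red_le (h0 : ∀ v, 0 ≤ N v) {q : L ⧸ p} {x : ℝ} (hx : x ∈ redSet p N q) :
    sInf (redSet p N q) ≤ x := csInf_le ⟨0, red_lb p h0 q⟩ hx

theorem red_add (hadd : ∀ v w, N (v + w) ≤ N v + N w)
    (hmul : ∀ (n : ℤ) v, N (n • v) = |(n : ℝ)| * N v) (q q' : L ⧸ p) :
    sInf (redSet p N (q + q')) ≤ sInf (redSet p N q) + sInf (redSet p N q') := by
  have h0 := red_nonneg hadd hmul
  have key : ∀ x ∈ redSet p N q, ∀ y ∈ redSet p N q', sInf (redSet p N (q + q')) ≤ x + y := by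
    rintro _ ⟨n, hn, w, hw, rfl⟩ _ ⟨n', hn', w', hw', rfl⟩
    have hn1 : (0 : ℝ) < n := by exact_mod_cast hn
    have hn2 : (0 : ℝ) < n' := by exact_mod_cast hn'
    refine (red_le p h0 ⟨n * n', mul_pos hn hn', n' • w + n • w', ?_, rfl⟩).trans ?_
    · rw [map_add, map_smul, map_smul, hw, hw', smul_add, smul_smul, smul_smul, mul_comm n' n]
    · have := hadd (n' • w) (n • w')
      rw [hmul, hmul, abs_of_pos hn1, abs_of_pos hn2] at this
      rw [div_add_div _ _ hn1.ne' hn2.ne', Int.cast_mul]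
      exact div_le_div_of_nonneg_right (by linarith) (by positivity)
  have h1 : ∀ y ∈ redSet p N q', sInf (redSet p N (q + q')) - sInf (redSet p N q) ≤ y := by
    intro y hy
    have : sInf (redSet p N (q + q')) - y ≤ sInf (redSet p N q) :=
      le_csInf (red_ne p q) fun x hx => by linarith [key x hx y hy]
    linarith
  linarith [le_csInf (red_ne p q') h1]

theorem red_mul (hadd : ∀ v w, N (v + w) ≤ N v + N w)
    (hmul : ∀ (n : ℤ) v, N (n • v) = |(n : ℝ)| * N v) (k : ℤ) (q : L ⧸ p) :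
    sInf (redSet p N (k • q)) = |(k : ℝ)| * sInf (redSet p N q) := by
  have h0 := red_nonneg hadd hmul
  rcases eq_or_ne k 0 with rfl | hk
  · have h00 : N 0 = 0 := by simpa using hmul 0 0
    have h1 := red_le p h0 (red_mem (N := N) p 0)
    rw [map_zero, h00] at h1
    have h2 := le_csInf (red_ne (N := N) p 0) (red_lb p h0 0)
    simp only [zero_smul, Int.cast_zero, abs_zero, zero_mul]
    exact le_antisymm h1 h2
  have hk1 : (0 : ℝ) < |(k : ℝ)| := abs_pos.mpr (by exact_mod_cast hk)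
  apply le_antisymm
  · rw [← div_le_iff₀' hk1]
    refine le_csInf (red_ne p q) ?_
    rintro _ ⟨n, hn, w, hw, rfl⟩
    rw [div_le_iff₀' hk1]
    refine red_le p h0 ⟨n, hn, k • w, ?_, ?_⟩
    · rw [map_smul, hw, smul_comm]
    · rw [hmul, mul_div_assoc]
  · refine le_csInf (red_ne p _) ?_
    rintro _ ⟨n, hn, w, hw, rfl⟩
    rw [← le_div_iff₀' hk1]
    have hn1 : (0 : ℝ) < n := by exact_mod_cast hn
    refine red_le p h0 ⟨n * (k * k), mul_pos hn (mul_self_pos.mpr hk), k • w, ?_, ?_⟩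
    · rw [map_smul, hw, smul_smul, smul_smul]
      congr 1
      ring
    · rw [hmul]
      push_cast
      rw [← abs_mul_abs_self (k : ℝ)]
      field_simp

theorem red_lift (hadd : ∀ v w, N (v + w) ≤ N v + N w)
    (hmul : ∀ (n : ℤ) v, N (n • v) = |(n : ℝ)| * N v) (b : L) (q : L ⧸ Submodule.span ℤ {b})
    {x : ℝ} (hx : x ∈ redSet (Submodule.span ℤ {b}) N q) :
    ∃ u, (Submodule.span ℤ {b}).mkQ u = q ∧ N u ≤ x + N b / 2 := by
  obtain ⟨n, hn, w, hw, rfl⟩ := hx
  obtain ⟨v, rfl⟩ := (Submodule.span ℤ {b}).mkQ_surjective q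
  have hn1 : (0 : ℝ) < n := by exact_mod_cast hn
  have hb : (Submodule.span ℤ {b}).mkQ b = 0 := by
    rw [Submodule.mkQ_apply, Submodule.Quotient.mk_eq_zero]
    exact Submodule.mem_span_singleton_self b
  rw [← map_smul, Submodule.mkQ_apply, Submodule.mkQ_apply, Submodule.Quotient.eq,
    Submodule.mem_span_singleton] at hw
  obtain ⟨j, hj⟩ := hw
  refine ⟨v + round ((j : ℝ) / n) • b, by rw [map_add, map_smul, hb, smul_zero, add_zero], ?_⟩
  set t := round ((j : ℝ) / n) with ht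
  have e : n • (v + t • b) = w + (n * t - j) • b := by
    rw [sub_smul, hj, smul_add, smul_smul]
    abel
  have h1 := hmul n (v + t • b)
  have h2 := hadd w ((n * t - j) • b)
  rw [← e, h1, hmul, abs_of_pos hn1] at h2
  have h3 : |((n * t - j : ℤ) : ℝ)| ≤ n / 2 := by
    have := abs_sub_round ((j : ℝ) / n)
    rw [← ht] at this
    have e2 : ((n * t - j : ℤ) : ℝ) = -(n * ((j : ℝ) / n - t)) := by
      push_cast
      field_simp
      ring
    rw [e2, abs_neg, abs_mul, abs_of_pos hn1]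
    nlinarith
  have h4 := mul_le_mul_of_nonneg_right h3 (red_nonneg hadd hmul b)
  rw [div_add' _ _ _ hn1.ne', le_div_iff₀ hn1]
  nlinarith

theorem red_sum (hadd : ∀ v w, N (v + w) ≤ N v + N w)
    (hmul : ∀ (n : ℤ) v, N (n • v) = |(n : ℝ)| * N v) {ι : Type} (s : Finset ι) (f : ι → L) :
    N (∑ i ∈ s, f i) ≤ ∑ i ∈ s, N (f i) :=
  Finset.le_sum_of_subadditive N (by simpa using (hmul 0 0).le) hadd s f

end

theorem red_aux (r : ℕ) : ∃ C : ℕ, 0 < C ∧ ∀ (L : Type) [AddCommGroup L] [Module.Finite ℤ L],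
    Module.finrank ℤ L ≤ r → ∀ N : L → ℝ, (∀ v w, N (v + w) ≤ N v + N w) →
    (∀ (n : ℤ) v, N (n • v) = |(n : ℝ)| * N v) → (∃ ε : ℝ, 0 < ε ∧ ∀ v, v ≠ 0 → ε ≤ N v) →
    ∃ ρ ≤ r, ∃ b : Fin ρ → L, (∀ i, b i ≠ 0) ∧ ⊤ ≤ Submodule.span ℤ (Set.range b) ∧
      ∀ (c : Fin ρ → ℤ) i, |(c i : ℝ)| * N (b i) ≤ C * N (∑ j, c j • b j) := by
  have tf : ∀ (L : Type) [AddCommGroup L] (N : L → ℝ),
      (∀ (n : ℤ) v, N (n • v) = |(n : ℝ)| * N v) → (∃ ε : ℝ, 0 < ε ∧ ∀ v, v ≠ 0 → ε ≤ N v) →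
      ∀ (a : ℤ) (v : L), a ≠ 0 → a • v = 0 → v = 0 := by
    rintro L _ N hmul ⟨ε, hε, hN⟩ a v ha hv
    by_contra h
    have h1 := hmul a v
    have h00 : N 0 = 0 := by simpa using hmul 0 0
    rw [hv, h00] at h1
    have : (0 : ℝ) < |(a : ℝ)| := abs_pos.mpr (by exact_mod_cast ha)
    nlinarith [hN v h]
  induction r with
  | zero =>
    refine ⟨1, one_pos, fun L _ _ hL N _ hmul hε => ⟨0, le_rfl, Fin.elim0, fun i => i.elim0,
      fun v _ => ?_, fun _ i => i.elim0⟩⟩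
    obtain ⟨a, ha, hv⟩ := Module.finrank_eq_zero_iff.mp (Nat.le_zero.mp hL) v
    rw [tf L N hmul hε a v ha hv]
    exact zero_mem _
  | succ r ih =>
    obtain ⟨C, hC, ih⟩ := ih
    refine ⟨1 + 5 * C * (r + 1), by positivity, fun L _ _ hL N hadd hmul hε => ?_⟩
    have h0 := red_nonneg hadd hmul
    by_cases hz : ∀ v : L, v = 0
    · exact ⟨0, Nat.zero_le _, Fin.elim0, fun i => i.elim0, fun v _ => by
        rw [hz v]; exact zero_mem _, fun _ i => i.elim0⟩
    have hne : (N '' {v | v ≠ 0}).Nonempty := by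
      obtain ⟨v, hv⟩ := not_forall.mp hz
      exact ⟨_, v, hv, rfl⟩
    set m := sInf (N '' {v | v ≠ 0}) with hm
    have hm0 : 0 < m := by
      obtain ⟨ε, hε, hN⟩ := hε
      exact hε.trans_le (le_csInf hne (by rintro _ ⟨v, hv, rfl⟩; exact hN v hv))
    have hmle : ∀ v, v ≠ 0 → m ≤ N v := fun v hv =>
      csInf_le ⟨0, by rintro _ ⟨v, -, rfl⟩; exact h0 v⟩ ⟨v, hv, rfl⟩
    obtain ⟨_, ⟨b0, hb0, rfl⟩, hb⟩ := exists_lt_of_csInf_lt hne (show m < 3 / 2 * m by linarith)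
    set p := Submodule.span ℤ {b0} with hp
    have hb0p : b0 ∈ p := Submodule.mem_span_singleton_self b0
    have hlow : ∀ q : L ⧸ p, q ≠ 0 → m / 4 ≤ sInf (redSet p N q) := by
      intro q hq
      refine le_csInf (red_ne p q) fun x hx => ?_
      obtain ⟨u, hu, hN⟩ := red_lift hadd hmul b0 q hx
      have := hmle u (by rintro rfl; exact hq (by rw [← hu, map_zero]))
      linarith
    have hrk : Module.finrank ℤ (L ⧸ p) ≤ r := by
      have h1 := p.finrank_quotient_add_finrank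
      have h2 : Module.finrank ℤ p ≠ 0 := by
        intro h
        obtain ⟨a, ha, hv⟩ := Module.finrank_eq_zero_iff.mp h ⟨b0, hb0p⟩
        exact hb0 (tf L N hmul hε a b0 ha (congrArg Subtype.val hv))
      omega
    obtain ⟨ρ, hρ, bq, hbq, hsp, hc⟩ := ih (L ⧸ p) hrk (fun q => sInf (redSet p N q))
      (red_add p hadd hmul) (red_mul p hadd hmul) ⟨m / 4, by positivity, hlow⟩
    have hl : ∀ i, ∃ u, p.mkQ u = bq i ∧ N u ≤ 5 * sInf (redSet p N (bq i)) := by
      intro i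
      have h1 := hlow _ (hbq i)
      obtain ⟨x, hx, hx2⟩ := exists_lt_of_csInf_lt (red_ne (N := N) p (bq i))
        (show sInf (redSet p N (bq i)) < 2 * sInf (redSet p N (bq i)) by linarith)
      obtain ⟨u, hu, hN⟩ := red_lift hadd hmul b0 _ hx
      exact ⟨u, hu, by linarith⟩
    choose u hu hN using hl
    have hmk : ∀ c : Fin ρ → ℤ, p.mkQ (∑ j, c j • u j) = ∑ j, c j • bq j := fun c => by
      simp only [map_sum, map_smul, hu]
    refine ⟨ρ + 1, by omega, Fin.cons b0 u, ?_, fun v _ => ?_, fun c => ?_⟩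
    · refine Fin.cases hb0 fun i => ?_
      rw [Fin.cons_succ]
      intro h
      exact hbq i (by rw [← hu, h, map_zero])
    · obtain ⟨c, hc⟩ := (Submodule.mem_span_range_iff_exists_fun ℤ).mp
        (hsp (Submodule.mem_top (x := p.mkQ v)))
      rw [← hmk, Submodule.mkQ_apply, Submodule.mkQ_apply, Submodule.Quotient.eq,
        Submodule.mem_span_singleton] at hc
      obtain ⟨j, hj⟩ := hc
      refine (Submodule.mem_span_range_iff_exists_fun ℤ).mpr ⟨Fin.cons (-j) c, ?_⟩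
      simp only [Fin.sum_univ_succ, Fin.cons_zero, Fin.cons_succ, neg_smul, hj]
      abel
    · simp only [Fin.sum_univ_succ, Fin.cons_zero, Fin.cons_succ]
      set v := c 0 • b0 + ∑ j : Fin ρ, c j.succ • u j with hv
      have hq : p.mkQ v = ∑ j : Fin ρ, c j.succ • bq j := by
        rw [hv, map_add, hmk, map_smul, Submodule.mkQ_apply,
          (Submodule.Quotient.mk_eq_zero p).mpr hb0p, smul_zero, zero_add]
      have hv0 := h0 v
      have hC0 : (0 : ℝ) ≤ C := Nat.cast_nonneg C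
      have h1 : ∀ i : Fin ρ, |(c i.succ : ℝ)| * N (u i) ≤ 5 * C * N v := by
        intro i
        have h2 := hc (fun j => c j.succ) i
        rw [← hq] at h2
        have h3 := mul_le_mul_of_nonneg_left (red_le p h0 (red_mem p v)) hC0
        have h4 := mul_le_mul_of_nonneg_left (hN i) (abs_nonneg (c i.succ : ℝ))
        linarith
      have hCv : 0 ≤ (C : ℝ) * N v := mul_nonneg hC0 hv0
      refine Fin.cases ?_ fun i => ?_
      · rw [Fin.cons_zero, ← hmul]
        have e : c 0 • b0 = v + ∑ j : Fin ρ, (-c j.succ) • u j := by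
          simp only [hv, neg_smul, Finset.sum_neg_distrib]
          abel
        have h2 := red_sum hadd hmul Finset.univ fun j : Fin ρ => (-c j.succ) • u j
        have h3 : ∑ j : Fin ρ, N ((-c j.succ) • u j) ≤ ∑ _j : Fin ρ, 5 * C * N v :=
          Finset.sum_le_sum fun j _ => by rw [hmul, Int.cast_neg, abs_neg]; exact h1 j
        rw [Finset.sum_const, Finset.card_univ, Fintype.card_fin, nsmul_eq_mul] at h3
        have h4 : (ρ : ℝ) ≤ r := by exact_mod_cast hρ
        have h5 := hadd v (∑ j : Fin ρ, (-c j.succ) • u j)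
        rw [e]
        push_cast
        nlinarith
      · rw [Fin.cons_succ]
        push_cast
        have h4 : (0 : ℝ) ≤ r := Nat.cast_nonneg r
        nlinarith [h1 i]

theorem red_basis (n : ℕ) : ∃ C : ℕ, 0 < C ∧ ∀ (σ : Type) [Fintype σ], Fintype.card σ ≤ n →
    ∀ L : Submodule ℤ (σ → ℤ), ∃ ρ ≤ n, ∃ b : Module.Basis (Fin ρ) ℤ L, ∀ (v : L) (ν : ℕ),
      (∀ j, |v.1 j| ≤ ν) → ∀ i j, |b.repr v i| * |(b i).1 j| ≤ C * ν := by
  obtain ⟨C, hC, h⟩ := red_aux n
  refine ⟨C, hC, fun σ _ hσ L => ?_⟩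
  have hco : ∀ (v : L) j, |((v.1 j : ℤ) : ℝ)| ≤ ‖v.1‖ := fun v j => by
    rw [← Int.norm_eq_abs]
    exact norm_le_pi_norm v.1 j
  have hε : ∀ v : L, v ≠ 0 → (1 : ℝ) ≤ ‖v.1‖ := by
    intro v hv
    obtain ⟨j, hj⟩ := Function.ne_iff.mp (show v.1 ≠ 0 from fun h => hv (Subtype.ext h))
    refine le_trans ?_ (hco v j)
    exact_mod_cast Int.one_le_abs hj
  obtain ⟨ρ, hρ, b, hb, hsp, hc⟩ := h L
    (L.finrank_le.trans (by rw [Module.finrank_fintype_fun_eq_card]; exact hσ))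
    (fun v => ‖v.1‖) (fun v w => norm_add_le v.1 w.1)
    (fun k v => by rw [← Int.norm_eq_abs]; exact norm_smul k v.1) ⟨1, one_pos, hε⟩
  have hli : LinearIndependent ℤ b := by
    refine Fintype.linearIndependent_iff.mpr fun c h0 i => ?_
    have h1 := hc c i
    rw [h0, ZeroMemClass.coe_zero, norm_zero, mul_zero] at h1
    have h2 : |(c i : ℝ)| ≤ 0 := by nlinarith [hε _ (hb i), abs_nonneg (c i : ℝ)]
    exact_mod_cast abs_nonpos_iff.mp h2
  refine ⟨ρ, hρ, Module.Basis.mk hli hsp, fun v ν hv i j => ?_⟩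
  have h1 := hc ((Module.Basis.mk hli hsp).repr v) i
  have h2 := (Module.Basis.mk hli hsp).sum_repr v
  simp only [Module.Basis.mk_apply] at h2 ⊢
  rw [h2] at h1
  have h3 : ‖v.1‖ ≤ ν := (pi_norm_le_iff_of_nonneg (Nat.cast_nonneg ν)).mpr fun j => by
    rw [Int.norm_eq_abs]
    exact_mod_cast hv j
  have h4 := mul_le_mul_of_nonneg_left (hco (b i) j)
    (abs_nonneg (((Module.Basis.mk hli hsp).repr v i : ℤ) : ℝ))
  have h5 := mul_le_mul_of_nonneg_left h3 (Nat.cast_nonneg (α := ℝ) C)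
  exact_mod_cast h4.trans (h1.trans h5)

end Pool.Agent.Lib.MP_f61260_nt
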