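import Pool.Agent.Lib.MP_f61260_nt.Sl.Defs
import Pool.Agent.Lib.MP_f61260_nt.Sl.Red

/-! From a linear dependence to a circuit in a reduced basis. -/

set_option autoImplicit false
set_option maxHeartbeats 400000

namespace Pool.Agent.Lib.MP_f61260_nt

open Module Submodule

theorem ht_root_le {σ : Type} [Fintype σ] {P : σ → Qb} {b : σ → ℤ} {k : ℕ} (hk : 0 < k)
    (hb : ∀ j, |b j| ≤ k) {y : Qb} (h : y ^ k = mon P b) : ht y ≤ ∑ j, ht (P j) := by
  refine le_of_mul_le_mul_left ?_ (Nat.cast_pos.2 hk : (0 : ℝ) < k)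
  rw [← ht_pow, h, Finset.mul_sum]
  refine (ht_prod _ _).trans (Finset.sum_le_sum fun j _ => ?_)
  rw [ht_zpow]
  exact mul_le_mul_of_nonneg_right (by exact_mod_cast hb j) (ht_nonneg _)

lemma circ_mon_sum {σ ι : Type} [Fintype σ] {P : σ → Qb} (hP : ∀ i, P i ≠ 0) (s : Finset ι)
    (r : ι → ℤ) (w : ι → σ → ℤ) : mon P (∑ i ∈ s, r i • w i) = ∏ i ∈ s, mon P (w i) ^ r i := by
  classical
  induction s using Finset.induction_on with
  | empty => simp [mon_zero]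
  | insert a s ha ih =>
    rw [Finset.sum_insert ha, Finset.prod_insert ha, mon_add hP, ih]
    congr 1
    simp only [mon, ← Finset.prod_zpow, ← zpow_mul, Pi.smul_apply, smul_eq_mul, mul_comm]

theorem circ_of_dep (σ : Type) [Fintype σ] : ∃ C : ℕ, 0 < C ∧ ∀ (U : Subgroup GA) (P : σ → Qb)
    (Λ : Submodule ℤ (σ → ℤ)) (δ : ℕ), (∀ i, P i ≠ 0) →
    ¬ LinearIndependent (Kf U) (fun a : bx Λ δ => mon P a) →
    ∃ ρ ≤ Fintype.card σ, ∃ (P' : Fin ρ → Qb) (k : Fin ρ → ℕ) (b : Fin ρ → σ → ℤ),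
      Circ U P' k (C * δ) ∧ (∀ i, P' i ^ k i = mon P (b i)) ∧ (∀ i j, |b i j| ≤ k i) ∧
      ∀ a ∈ latK k, a ≠ 0 → ∃ a' ∈ Λ, a' ≠ 0 ∧ mon P' a = mon P a' := by
  obtain ⟨C, hC, hred⟩ := red_basis (Fintype.card σ)
  refine ⟨C * 2, by omega, fun U P Λ δ hP h => ?_⟩
  obtain ⟨κ, _, hκ, f, d, hf, hli, hs⟩ := circuit hP h
  obtain ⟨ρ, hρ, b, hb⟩ := hred σ le_rfl (span ℤ (Set.range f))
  obtain ⟨j0⟩ := id hκ
  obtain ⟨a0, -⟩ := Function.ne_iff.1 (hf j0).2.1
  have : Nonempty σ := ⟨a0⟩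
  choose m hm using fun i => Finite.exists_max fun j => |(b i).1 j|
  obtain ⟨k, hk⟩ : ∃ k : Fin ρ → ℕ, ∀ i, (k i : ℤ) = |(b i).1 (m i)| :=
    ⟨fun i => ((b i).1 (m i)).natAbs, fun i => Int.natCast_natAbs _⟩
  have hk1 : ∀ i j, |(b i).1 j| ≤ k i := fun i j => hk i ▸ hm i j
  have hk0 : ∀ i, 0 < k i := fun i => Nat.pos_of_ne_zero fun h0 => b.ne_zero i
    (Subtype.ext (funext fun j => by simpa [h0] using hk1 i j))
  choose P' hP' using fun i => IsAlgClosed.exists_pow_nat_eq (mon P (b i).1) (hk0 i)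
  let T : span ℤ (Set.range f) →ₗ[ℤ] Fin ρ → ℤ :=
    LinearMap.pi fun i => (k i : ℤ) • b.coord i
  have hT : ∀ v i, T v i = k i * b.repr v i := fun _ _ => rfl
  have hmon : ∀ v, mon P' (T v) = mon P v.1 := fun v => by
    conv_rhs => rw [← b.sum_repr v, AddSubmonoidClass.coe_finsetSum]
    simp only [SetLike.val_smul]
    rw [circ_mon_sum hP, mon]
    exact Finset.prod_congr rfl fun i _ => by rw [hT, zpow_mul, zpow_natCast, hP']
  have hrange : LinearMap.range T = latK k := by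
    ext a
    refine ⟨?_, fun ha => ?_⟩
    · rintro ⟨v, rfl⟩ i
      exact Dvd.intro _ rfl
    · choose e he using ha
      refine ⟨b.equivFun.symm e, funext fun i => ?_⟩
      rw [hT, ← b.equivFun_apply, LinearEquiv.apply_symm_apply, he]
  let g : κ → span ℤ (Set.range f) := fun j => ⟨f j, subset_span ⟨j, rfl⟩⟩
  have hg : span ℤ (Set.range g) = ⊤ := (span_range_subtype_eq_top_iff _ _).2 rfl
  have hbd : ∀ j i, |b.repr (g j) i| * k i ≤ (C * 2 * δ : ℕ) := fun j i => by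
    have := hb (g j) (2 * δ) (mem_bx.1 (hf j).1).2 i (m i)
    rw [← hk] at this
    exact this.trans_eq (by push_cast; ring)
  have hinj : ∀ v, T v = 0 → v = 0 := fun v hv => b.ext_elem fun i => by
    have := congrFun hv i
    rw [hT] at this
    simpa [(hk0 i).ne'] using this
  refine ⟨ρ, hρ, P', k, fun i => (b i).1, ⟨fun i h0 => ?_, hk0, fun i => ?_, κ, inferInstance, hκ,
    fun j => T (g j), d, ?_, fun j => ⟨mem_bx.2 ⟨hrange ▸ LinearMap.mem_range_self T _,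
      fun i => ?_⟩, fun h0 => (hf j).2.1 (congrArg Subtype.val (hinj _ h0)), (hf j).2.2⟩, ?_, ?_⟩,
    hP', hk1, fun a ha h0 => ?_⟩
  · exact mon_ne hP _ (by rw [← hP' i, h0, zero_pow (hk0 i).ne'])
  · obtain ⟨j, hj⟩ : ∃ j, b.repr (g j) i ≠ 0 := by
      by_contra hc
      push Not at hc
      have := LinearMap.congr_fun (LinearMap.ext_on_range hg (f := b.coord i) (g := 0) hc) (b i)
      simp at this
    have h1 := (le_mul_of_one_le_left (Nat.cast_nonneg (k i)) (Int.one_le_abs hj)).trans (hbd j i)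
    exact_mod_cast h1
  · rw [← hrange, show (Set.range fun j => T (g j)) = T '' Set.range g from Set.range_comp _ _,
      ← map_span, hg, Submodule.map_top]
  · show |T (g j) i| ≤ _
    rw [hT, abs_mul, Nat.abs_cast, mul_comm]
    exact hbd j i
  · simpa only [hmon] using hli
  · simpa only [hmon] using hs
  · obtain ⟨v, rfl⟩ := hrange ▸ ha
    refine ⟨v.1, span_le.2 ?_ v.2, fun e => h0 ?_, hmon v⟩
    · rintro _ ⟨j, rfl⟩
      exact (mem_bx.1 (hf j).1).1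
    · rw [show v = 0 from Subtype.ext e, map_zero]

theorem Ctx.HT.root {σ ι : Type} [Fintype σ] [Fintype ι] {c : Ctx ι} {P : σ → Qb} {H : ℝ}
    (h : c.HT P H) {ρ : ℕ} (hρ : ρ ≤ Fintype.card σ) {P' : Fin ρ → Qb} {k : Fin ρ → ℕ}
    {b : Fin ρ → σ → ℤ} (h0 : ∀ i, 0 < k i) (h1 : ∀ i, P' i ^ k i = mon P (b i))
    (h2 : ∀ i j, |b i j| ≤ k i) : c.HT P' (Fintype.card σ * H) := by
  obtain ⟨e, he, hH⟩ := h
  choose e' he' using fun i => IsAlgClosed.exists_pow_nat_eq (mon e (b i)) (h0 i)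
  refine ⟨e', fun i => Ctx.Dv.of_pow (h0 i) (he' i ▸ Ctx.dv_mon he _), ?_⟩
  have h3 : 0 ≤ H := (Finset.sum_nonneg fun _ _ => ht_nonneg _).trans hH
  have h4 : ∀ i, ht (P' i * e' i) ≤ H := fun i =>
    (ht_root_le (P := P * e) (h0 i) (h2 i) (by rw [mul_pow, h1, he', mon_mul])).trans hH
  refine (Finset.sum_le_card_nsmul _ _ _ fun i _ => h4 i).trans ?_
  rw [Finset.card_univ, Fintype.card_fin, nsmul_eq_mul]
  exact mul_le_mul_of_nonneg_right (by exact_mod_cast hρ) h3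

end Pool.Agent.Lib.MP_f61260_nt
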