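import Pool.Agent.Lib.MP_f61260_nt.Sl.Ab1
import Pool.Agent.Lib.MP_f61260_nt.Sl.Circ

/-! Cyclotomic descent of circuits: the tame part, and independence of small monomials. -/

set_option autoImplicit false
set_option maxHeartbeats 400000

namespace Pool.Agent.Lib.MP_f61260_nt

open Module Submodule Real Filter

lemma ab2_root {σ : Type} [Fintype σ] {k : σ → ℕ} {ε : σ → Qb} {l : ℕ}
    (h : ∀ i, (ε i ^ k i) ^ l = 1) {a : σ → ℤ} (ha : a ∈ latK k) : mon ε a ^ l = 1 := by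
  obtain ⟨e, -, he⟩ := mon_lat ε ha
  rw [he, ← Finset.prod_pow]
  refine Finset.prod_eq_one fun i _ => ?_
  rw [← zpow_natCast _ l, ← zpow_mul, mul_comm, zpow_mul, zpow_natCast, h i, one_zpow]

lemma ab2_mon_prod {σ : Type} [Fintype σ] (s : Finset ℕ) (ε : ℕ → σ → Qb) (a : σ → ℤ) :
    mon (∏ p ∈ s, ε p) a = ∏ p ∈ s, mon (ε p) a := by
  induction s using Finset.induction_on with
  | empty => simp [mon_one]
  | insert p s hp ih => rw [Finset.prod_insert hp, Finset.prod_insert hp, mon_mul, ih]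

lemma ab2_tor {x ξ : Qb} (hξ : Tor ξ) (h : Tor (x * ξ)) : Tor x := by
  obtain ⟨n, hn, h1⟩ := hξ
  have := h.pow n
  rw [mul_pow, h1, mul_one] at this
  exact this.of_pow hn

lemma ab2_ht {σ : Type} [Fintype σ] (P : σ → Qb) {ε : σ → Qb} (h : ∀ i, Tor (ε i)) :
    ∑ i, ht ((P * ε) i) = ∑ i, ht (P i) :=
  Finset.sum_congr rfl fun i _ => by rw [Pi.mul_apply, mul_comm, (h i).ht]

lemma ab2_one {σ : Type} [Fintype σ] {k : σ → ℕ} {μ T J p m : ℕ} {H : ℝ} (hp : p.Prime)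
    (par : Num (Fintype.card σ) 1 p 1 T J 1 μ H) (hm : 0 < m) (h1 : p ∣ m) (h2 : ¬ p ^ 2 ∣ m)
    {P : σ → Qb} (h : Circ (Mu m) P k μ) (hH : ∑ i, ht (P i) ≤ H) :
    ∃ (Y : Subgroup GA) (ε : σ → Qb), (∀ i, (ε i ^ k i) ^ p = 1) ∧
      (∀ _ : Fact p.Prime, IdxLe (Ine p) (Y.comap (res p)) J) ∧
      ∀ w ∈ Y, ∃ v ∈ Mu m, v⁻¹ * w ∈ SL (P * ε) (latK k) ∧
        ∀ l, l.Prime → l ∣ m → l ≠ p → v⁻¹ * w ∈ Mu l := by
  obtain ⟨c⟩ := exists_ctx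
  obtain ⟨m', rfl⟩ := h1
  have hm' : ¬ p ∣ m' := fun h' => h2 (by rw [sq]; exact mul_dvd_mul_left p h')
  have hm0 : 0 < m' := Nat.pos_of_mul_pos_left hm
  have e : m' * p ^ (0 + 1) = p * m' := by rw [zero_add, pow_one, mul_comm]
  obtain ⟨Y, a1, a2, a3, a4⟩ := ab_step hp (a := 0) hm' (e.symm ▸ h) hH par
  rw [e] at a1 a4
  rw [pow_zero, mul_one] at a2 a3
  obtain ⟨ε, a5, a6⟩ := Circ.tw hp (X := Mu (p * m')) (Y := Y) (c.prim p hp.pos)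
    (Mu_mono (dvd_mul_right _ _)) a1 (fun τ _ w _ => by simpa using ab_mu hm τ w⁻¹)
    (fun w hw hw' => (c.St_z hm).le (c.hz.fix_mul hp.pos hm0
      ((Nat.Prime.coprime_iff_not_dvd hp).2 hm') hw' ((c.St_z hm0).ge (a2 hw)))) h a4
  refine ⟨Y, ε, a5, fun _ => a3.comap _ fun τ hτ => ine_mu hτ hm', fun w hw => ?_⟩
  obtain ⟨v, b1, b2⟩ := a6 w hw
  refine ⟨v, b1, b2, fun l hl b3 b4 => Mu_mono (m := l) (n := m') ?_
    (Subgroup.mul_mem _ (Subgroup.inv_mem _ (Mu_mono (dvd_mul_left _ _) b1)) (a2 hw))⟩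
  exact (hl.dvd_mul.1 b3).resolve_left fun h' => b4 ((Nat.prime_dvd_prime_iff_eq hl hp).1 h')

theorem ab_tame {σ : Type} [Fintype σ] {k : σ → ℕ} {μ T J : ℕ} {H : ℝ} {S : Finset ℕ}
    (hS : ∀ p ∈ S, p.Prime ∧ Num (Fintype.card σ) 1 p 1 T J 1 μ H) {m : ℕ} (hm : 0 < m)
    (h1 : ∀ p ∈ S, p ∣ m ∧ ¬ p ^ 2 ∣ m) {P : σ → Qb} (h : Circ (Mu m) P k μ)
    (hH : ∑ i, ht (P i) ≤ H) : ∃ (ε : σ → Qb) (U : Subgroup GA), (∀ i, Tor (ε i)) ∧ Ab U ∧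
      Circ U (P * ε) k μ ∧
      (∀ p ∈ S, ∀ _ : Fact p.Prime, IdxLe (Ine p) (U.comap (res p)) J) ∧
      ∀ p ∈ S, ∀ v ∈ U, ∃ v' ∈ U ⊓ Mu p, ∀ a ∈ latK k,
        v' (mon (P * ε) a) = v (mon (P * ε) a) := by
  choose! Y ε a1 a2 a3 using fun p (hp : p ∈ S) =>
    ab2_one (hS p hp).1 (hS p hp).2 hm (h1 p hp).1 (h1 p hp).2 h hH
  have ht : ∀ i, Tor ((∏ p ∈ S, ε p) i) := fun i => by
    rw [Finset.prod_apply]
    exact Tor.prod _ fun p hp => ⟨k i * p, Nat.mul_pos (h.pos i) (hS p hp).1.pos, by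
      rw [pow_mul, a1 p hp i]⟩
  have hdec : ∀ x ∈ Mu m ⊔ SL (P * ∏ p ∈ S, ε p) (latK k), ∃ y ∈ Mu m,
      ∃ z ∈ SL (P * ∏ p ∈ S, ε p) (latK k), y * z = x := fun x hx =>
    Subgroup.mem_sup_of_normal_left.1 hx
  refine ⟨∏ p ∈ S, ε p, Mu m ⊔ SL (P * ∏ p ∈ S, ε p) (latK k), ht,
    fun g g' => Subgroup.mem_sup_left (ab_mu hm g g'),
    h.cover le_sup_left (fun τ _ u hu => (ab_mu hm).conj τ hu) (fun i h0 => ?_) (fun i => ?_)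
      fun x hx => ?_, fun p hp _ => ?_, fun p hp v hv => ?_⟩
  · obtain ⟨n, hn, h2⟩ := ht i
    rw [h0, zero_pow hn.ne'] at h2
    exact zero_ne_one h2
  · rw [Finset.prod_apply, ← Finset.prod_pow]
    exact Fx.prod _ fun p hp τ hτ => Mu_mono (h1 p hp).1 hτ _ (a1 p hp i)
  · obtain ⟨y, hy, z, hz, rfl⟩ := hdec x hx
    exact ⟨y, hy, by rwa [inv_mul_cancel_left]⟩
  · refine (a2 p hp _).restrict le_rfl (inf_le_right.trans (Subgroup.comap_mono fun w hw => ?_))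
    obtain ⟨v, b1, b2, b3⟩ := a3 p hp w hw
    have : v⁻¹ * w ∈ SL (P * ∏ p ∈ S, ε p) (latK k) := fun a ha => by
      rw [← Finset.mul_prod_erase _ _ hp, ← mul_assoc, mon_mul, map_mul, b2 a ha, ab2_mon_prod,
        map_prod]
      refine congrArg _ (Finset.prod_congr rfl fun l hl => ?_)
      have hl' := Finset.mem_of_mem_erase hl
      exact b3 l (hS l hl').1 (h1 l hl').1 (Finset.ne_of_mem_erase hl) _ (ab2_root (a1 l hl') ha)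
    simpa using Subgroup.mul_mem _ (Subgroup.mem_sup_left b1) (Subgroup.mem_sup_right this)
  · obtain ⟨y, hy, z, hz, rfl⟩ := hdec v hv
    exact ⟨y, ⟨Subgroup.mem_sup_left hy, Mu_mono (h1 p hp).1 hy⟩, fun a ha => by
      rw [AlgEquiv.mul_apply, hz a ha]⟩

theorem no_circ_ab (σ : Type) [Fintype σ] : ∃ K κ : ℕ, ∀ᶠ x : ℕ in atTop, ∀ (m : ℕ) (P : σ → Qb)
    (k : σ → ℕ) (μ : ℕ), 0 < m → (∀ p, p.Prime → p ≤ x ^ K → p ∣ m) → Circ (Mu m) P k μ →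
    (∀ a ∈ latK k, a ≠ 0 → ¬ Tor (mon P a)) → μ ≤ 4 ^ x →
    1 < x ^ κ * μ * ∑ i, ht (P i) := by
  obtain ⟨x0, h0⟩ := indep2 σ
  obtain ⟨n, hn⟩ : ∃ n, n = Fintype.card σ := ⟨_, rfl⟩
  obtain ⟨K, hK⟩ : ∃ K, K = (n + 1) * (7 * n + 13) * 2 := ⟨_, rfl⟩
  refine ⟨K, K * (n + 2) + 3, ?_⟩
  filter_upwards [par_ev n 1 K, eventually_ge_atTop (x0 + 2)] with x hpar hx m P k μ hm h1 h2 h3 h4
  by_contra hc
  rw [not_lt] at hc
  obtain ⟨X, hX⟩ : ∃ X, X = x ^ (n + 1) := ⟨_, rfl⟩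
  obtain ⟨u, hu⟩ : ∃ u, u = X ^ (7 * n + 13) := ⟨_, rfl⟩
  have hxX : x ≤ X := hX ▸ Nat.le_self_pow (by omega) x
  have hx2 : 2 ≤ x := by omega
  have hu2 : u ^ 2 = x ^ K := by rw [hu, hX, hK, ← pow_mul, ← pow_mul, mul_assoc]
  have hu1 : 512 * X ^ 4 ≤ u := by
    have e1 : 2 ^ 9 ≤ X ^ 9 := Nat.pow_le_pow_left (by omega) 9
    calc 512 * X ^ 4 ≤ X ^ 9 * X ^ 4 := Nat.mul_le_mul_right _ e1
      _ = X ^ 13 := by ring
      _ ≤ u := hu ▸ Nat.pow_le_pow_right (by omega) (by omega)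
  have hX4 : 2 ≤ X ^ 4 := (hx2.trans hxX).trans (Nat.le_self_pow (by omega) X)
  have hS' : ∀ p ∈ PS u, (u < p ∧ p ≤ u ^ 2) ∧ p.Prime := fun p hp => by simpa [PS] using hp
  have hH0 : 0 ≤ ∑ i, ht (P i) := Finset.sum_nonneg fun i _ => ht_nonneg _
  have hJ : 2 * (x ^ 2) ^ n ≤ X ^ 4 := by
    rw [hX, ← pow_mul, ← pow_mul, show (n + 1) * 4 = (2 * n + 4) + 2 * n by ring, pow_add]
    exact Nat.mul_le_mul_right _ (hx2.trans (Nat.le_self_pow (by omega) x))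
  have hS : ∀ p ∈ PS u, p.Prime ∧
      Num (Fintype.card σ) 1 p 1 (x ^ 2) (X ^ 4) 1 μ (∑ i, ht (P i)) := fun p hp =>
    ⟨(hS' p hp).2, hn ▸ hpar n le_rfl p 1 (X ^ 4) 1 μ _ (hS' p hp).2.two_le
      (by rw [pow_one, ← hu2]; exact (hS' p hp).1.2) hJ
      (by have := (hS' p hp).1.1; rw [pow_one]; omega) h4 hH0 hc⟩
  obtain ⟨m', ε, a1, a2, a3, a4⟩ := ab_wild hS m hm
    (fun p hp => h1 p (hS' p hp).2 (hu2 ▸ (hS' p hp).1.2)) h2 le_rfl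
  obtain ⟨ε', U, b1, b2, b3, b4, b5⟩ := ab_tame hS a1 a3 a4 (ab2_ht P a2).le
  have hμ : 1 ≤ μ := by
    obtain ⟨κ, _, ⟨j⟩, f, d, -, e1, -⟩ := h2.ex
    obtain ⟨i, -⟩ := Function.ne_iff.1 (e1 j).2.1
    exact (h2.pos i).trans_le (h2.le i)
  refine b3.dep (h0 X (by omega) u (hn ▸ hu) U _ _ (PS u) μ b2 b3.ne (fun a ha ha0 e => ?_)
    le_rfl (le_trans (by omega) (card_PS (by omega))) b4 b5 hμ
    (h4.trans (Nat.pow_le_pow_right (by norm_num) hxX)) ?_)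
  · rw [mon_mul, mon_mul] at e
    exact h3 a ha ha0 (ab2_tor (tor_mon a2 a) (ab2_tor (tor_mon b1 a) e))
  · rw [ab2_ht _ b1, ab2_ht _ a2, ← hn]
    refine le_trans (mul_le_mul_of_nonneg_right (mul_le_mul_of_nonneg_right ?_
      (Nat.cast_nonneg _)) hH0) hc
    have e1 : 4 * (u ^ 2) ^ (n + 2) ≤ x ^ (K * (n + 2) + 3) := by
      rw [hu2, ← pow_mul, pow_add, mul_comm]
      exact Nat.mul_le_mul_left _ (le_trans (by norm_num) (Nat.pow_le_pow_left hx2 3))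
    exact_mod_cast e1

theorem indep_ab (σ : Type) [Fintype σ] : ∃ κ : ℕ, ∀ᶠ x : ℕ in atTop, ∀ (m : ℕ) (P : σ → Qb)
    (Λ : Submodule ℤ (σ → ℤ)) (δ : ℕ), 0 < m → (∀ i, P i ≠ 0) →
    (∀ a ∈ Λ, a ≠ 0 → ¬ Tor (mon P a)) → δ ≤ 3 ^ x → x ^ κ * δ * ∑ i, ht (P i) ≤ 1 →
    LinearIndependent (Kf (Mu m)) fun a : bx Λ δ => mon P a := by
  choose K κ hK using fun ρ : ℕ => no_circ_ab (Fin ρ)
  obtain ⟨C, hC0, hC⟩ := circ_of_dep σ
  obtain ⟨n, hn⟩ : ∃ n, n = Fintype.card σ := ⟨_, rfl⟩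
  rw [← hn] at hC
  obtain ⟨K0, hK0⟩ : ∃ K0, K0 = ∑ ρ ∈ Finset.range (n + 1), K ρ := ⟨_, rfl⟩
  obtain ⟨κ0, hκ0⟩ : ∃ κ0, κ0 = ∑ ρ ∈ Finset.range (n + 1), κ ρ := ⟨_, rfl⟩
  refine ⟨κ0 + 1, ?_⟩
  filter_upwards [(eventually_all_finset (Finset.range (n + 1))).2 fun ρ _ => hK ρ,
    eventually_ge_atTop (C * n + 1),
    (tendsto_pow_atTop_atTop_of_one_lt (show (1 : ℝ) < 4 / 3 by norm_num)).eventually_ge_atTop C]
    with x h1 h2 h3 m P Λ δ hm hP hnt hδ hH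
  have hx : 0 < x := by omega
  refine li_field (Mu_mono (dvd_mul_right m (x ^ K0).factorial)) (by_contra fun hc => ?_)
  obtain ⟨ρ, hρ, P', k, b, a1, a2, a3, a4⟩ := hC _ P Λ δ hP hc
  have hρ' : ρ ∈ Finset.range (n + 1) := Finset.mem_range.2 (by omega)
  have e1 : K ρ ≤ K0 := hK0 ▸ Finset.single_le_sum (fun _ _ => Nat.zero_le _) hρ'
  have e2 : κ ρ ≤ κ0 := hκ0 ▸ Finset.single_le_sum (fun _ _ => Nat.zero_le _) hρ'
  have e3 : C * 3 ^ x ≤ 4 ^ x := by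
    rw [div_pow, le_div_iff₀ (by positivity)] at h3
    exact_mod_cast h3
  have e4 := h1 ρ hρ' _ P' k (C * δ) (Nat.mul_pos hm (Nat.factorial_pos _))
    (fun p hp h => ((Nat.Prime.dvd_factorial hp).2
      (h.trans (Nat.pow_le_pow_right hx e1))).mul_left _) a1 (fun a ha ha0 => by
      obtain ⟨a', b1, b2, b3⟩ := a4 a ha ha0
      exact b3 ▸ hnt a' b1 b2) ((Nat.mul_le_mul_left C hδ).trans e3)
  have hH0 : 0 ≤ ∑ i, ht (P i) := Finset.sum_nonneg fun i _ => ht_nonneg _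
  have e5 : ∑ i, ht (P' i) ≤ n * ∑ i, ht (P i) := by
    refine (Finset.sum_le_sum fun i _ => ht_root_le (a1.pos i) (a3 i) (a2 i)).trans ?_
    rw [Finset.sum_const, Finset.card_univ, Fintype.card_fin, nsmul_eq_mul]
    exact mul_le_mul_of_nonneg_right (by exact_mod_cast hρ) hH0
  have e6 : x ^ κ ρ * (C * δ) * n ≤ x ^ (κ0 + 1) * δ := by
    calc x ^ κ ρ * (C * δ) * n = x ^ κ ρ * (C * n) * δ := by ring
      _ ≤ x ^ κ0 * x * δ := Nat.mul_le_mul_right _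
          (Nat.mul_le_mul (Nat.pow_le_pow_right hx e2) (by omega))
      _ = _ := by ring
  refine (e4.trans_le ((mul_le_mul_of_nonneg_left e5 (by positivity)).trans ?_)).not_ge hH
  rw [← mul_assoc]
  exact mul_le_mul_of_nonneg_right (by exact_mod_cast e6) hH0

end Pool.Agent.Lib.MP_f61260_nt
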