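import Pool.Agent.Lib.MP_f61260_nt.Sl.Defs

/-! Averaging over characters of arbitrary order. -/

set_option autoImplicit false
set_option maxHeartbeats 400000

namespace Pool.Agent.Lib.MP_f61260_nt

open Module Submodule

section

variable {σ : Type} [Fintype σ]

lemma avg_chars (Λ : Submodule ℤ (σ → ℤ)) {p : ℕ} (hp : 0 < p) :
    ∃ (Ξ : Type) (_ : Fintype Ξ) (_ : AddCommGroup Ξ) (χ : Ξ → (σ → ℤ) → Qb),
      Fintype.card Ξ ≤ p ^ Fintype.card σ ∧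
      (∀ ξ, ∀ a ∈ Λ, ∀ b ∈ Λ, χ ξ (a + b) = χ ξ a * χ ξ b) ∧ (∀ ξ a, χ ξ a ^ p = 1) ∧
      (∀ ξ ξ' a, χ (ξ + ξ') a = χ ξ a * χ ξ' a) ∧ (∀ a, χ 0 a = 1) ∧ (∀ ξ, χ ξ 0 = 1) ∧
      (∀ ξ, (∀ a ∈ Λ, χ ξ a = 1) → ξ = 0) ∧
      ∀ a ∈ Λ, (∃ b ∈ Λ, a = p • b) ∨ ∑ ξ, χ ξ a = 0 := by
  classical
  have : NeZero p := ⟨hp.ne'⟩
  obtain ⟨ζ, hζ⟩ := HasEnoughRootsOfUnity.exists_primitiveRoot Qb p
  have hψ := (AddChar.zmodChar_primitive_of_primitive_root p hζ).zmod_char_eq_one_iff p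
  set ψ := AddChar.zmodChar p ((IsPrimitiveRoot.iff_def ζ p).mp hζ).left with hψd
  let b := Module.finBasis ℤ Λ
  let e := (b.constr ℤ (M' := ZMod p)).toEquiv
  let := Fintype.ofEquiv _ e
  refine ⟨Λ →ₗ[ℤ] ZMod p, inferInstance, inferInstance,
    fun ξ a => if h : a ∈ Λ then ψ (ξ ⟨a, h⟩) else 1, ?_, fun ξ a ha a' ha' => ?_, fun ξ a => ?_,
    fun ξ ξ' a => ?_, fun a => by simp, fun ξ => ?_, fun ξ h => ?_, fun a ha => ?_⟩
  · rw [← Fintype.card_congr e, Fintype.card_fun, ZMod.card, Fintype.card_fin]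
    exact Nat.pow_le_pow_right hp ((finrank_le Λ).trans (by simp))
  · simp only [dif_pos ha, dif_pos ha', dif_pos (Λ.add_mem ha ha'), ← AddChar.map_add_eq_mul,
      ← map_add]
    rfl
  · beta_reduce
    split_ifs
    · rw [← AddChar.map_nsmul_eq_pow]; simp
    · simp
  · beta_reduce
    split_ifs
    · rw [LinearMap.add_apply, AddChar.map_add_eq_mul]
    · simp
  · exact (dif_pos Λ.zero_mem).trans ((hψ _).2 (map_zero ξ))
  · exact LinearMap.ext fun a => (hψ _).1 (by simpa using h a a.2)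
  by_cases h : ∀ i, (p : ℤ) ∣ b.repr ⟨a, ha⟩ i
  · choose c hc using h
    refine Or.inl ⟨_, (∑ i, c i • b i).2, ?_⟩
    have := congrArg Subtype.val (b.sum_repr ⟨a, ha⟩)
    simp only [hc, mul_smul, ← Finset.smul_sum, natCast_zsmul] at this
    exact this.symm
  obtain ⟨i, hi⟩ := not_forall.1 h
  refine Or.inr ?_
  simp only [dif_pos ha]
  have h1 := Equiv.sum_comp (Equiv.addLeft ((Algebra.linearMap ℤ (ZMod p)).comp (b.coord i)))
    fun ξ : Λ →ₗ[ℤ] ZMod p => ψ (ξ ⟨a, ha⟩)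
  simp only [Equiv.coe_addLeft, LinearMap.add_apply, AddChar.map_add_eq_mul,
    ← Finset.mul_sum] at h1
  by_contra hc
  have h2 := (hψ _).1 ((mul_eq_right₀ hc).1 h1)
  exact hi ((ZMod.intCast_zmod_eq_zero_iff_dvd _ _).1 (by simpa using h2))

variable {U : Subgroup GA} {P : σ → Qb}

lemma avg_aux (hP : ∀ i, P i ≠ 0) {κ : Type} [Fintype κ] {f : κ → σ → ℤ} {d : κ → Qb} {μ : ℕ}
    (h1 : ∀ k, f k ∈ bx (span ℤ (Set.range f)) μ) (h2 : ∀ k, Fx U (d k) ∧ d k ≠ 0)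
    (h3 : LinearIndependent (Kf U) fun k => mon P (f k)) (h4 : ∑ k, d k * mon P (f k) = 1)
    {p : ℕ} (hp : 0 < p) (h5 : ∀ u ∈ U, ∃ u' ∈ U, (∀ ξ : Qb, ξ ^ p = 1 → u' ξ = ξ) ∧
      ∀ a ∈ span ℤ (Set.range f), u' (mon P a) = u (mon P a)) {ν ν' : ℕ}
    (h6 : ν' + p ^ Fintype.card σ * μ ≤ p * ν) :
    finrank (Kf U) (Sp (Kf U) (span ℤ (Set.range f)) (mon P) ν') ≤
      finrank (Kf U) (Sp (Kf U) (span ℤ (Set.range f)) (fun a => mon P a ^ p) ν) := by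
  classical
  obtain ⟨Λ, hΛ⟩ : ∃ Λ, Λ = span ℤ (Set.range f) := ⟨_, rfl⟩
  rw [← hΛ] at h1 h5 ⊢
  obtain ⟨Ξ, _, _, χ, c1, c2, c3, c4, c5, c6, c7, c8⟩ := avg_chars Λ hp
  have hf := fun k => (mem_bx.1 (h1 k)).1
  have h7 : ∀ u ∈ U, ∑ k, d k * u (mon P (f k)) = 1 := fun u hu => by
    simpa [fun k => (h2 k).1 u hu] using congrArg u h4
  have h8 : ∀ u ∈ U, ∀ ξ, ∑ k, d k * (χ ξ (f k) * u (mon P (f k))) = 1 → ξ = 0 := by
    intro u hu ξ h
    have := artin (U := U) (z := fun k (_ : Unit) => mon P (f k)) (by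
      rw [Fintype.linearIndependent_iff] at h3 ⊢
      exact fun g hg => h3 g (by simpa using congrFun hg ())) (fun k => d k * (χ ξ (f k) - 1))
      fun v hv _ => by
        obtain ⟨u', e1, e2, e3⟩ := h5 u hu
        obtain ⟨v', e4, e5, e6⟩ := h5 v hv
        have e7 := congrArg (v' * u'⁻¹) h
        simp only [← e3 _ (hf _), map_sum, map_mul, map_one, ← AlgEquiv.mul_apply _ u',
          inv_mul_cancel_right, e6 _ (hf _), fun k => (h2 k).1 _ (U.mul_mem e4 (U.inv_mem e1)),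
          fun k => show (v' * u'⁻¹) (χ ξ (f k)) = χ ξ (f k) from (St ℚ _).mul_mem (e5 _ (c3 _ _))
            ((St ℚ _).inv_mem (e2 _ (c3 _ _)))] at e7
        simp only [mul_sub, sub_mul, mul_one, mul_assoc, Finset.sum_sub_distrib, e7, h7 v hv,
          sub_self]
    refine c7 ξ fun a ha => ?_
    rw [hΛ] at ha
    induction ha using span_induction with
    | mem x hx =>
      obtain ⟨k, rfl⟩ := hx
      exact sub_eq_zero.1 ((mul_eq_zero.1 (congrFun this k)).resolve_left (h2 k).2)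
    | zero => exact c6 ξ
    | add x y hx hy e1 e2 => rw [c2 ξ x (hΛ ▸ hx) y (hΛ ▸ hy), e1, e2, one_mul]
    | smul n x hx e1 =>
      rw [← hΛ] at hx
      induction n using Int.induction_on with
      | zero => simpa using c6 ξ
      | succ n ih => rw [add_smul, one_smul, c2 ξ _ (Λ.smul_mem _ hx) _ hx, ih, e1, one_mul]
      | pred n ih =>
        have := c2 ξ _ (Λ.smul_mem (-n - 1) hx) _ hx
        rwa [e1, mul_one, sub_smul, one_smul, sub_add_cancel, ih, eq_comm, ← one_smul ℤ x,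
          smul_smul, ← sub_smul, mul_one] at this
  let z : (σ → ℤ) → U × Ξ → Qb := fun a x => χ x.2 a * x.1.1 (mon P a)
  have z1 : ∀ a ∈ Λ, ∀ b ∈ Λ, z (a + b) = z a * z b := fun a ha b hb => funext fun x => by
    simp only [z, c2 _ a ha b hb, mon_add hP, map_mul, Pi.mul_apply]
    ring
  have z0 : z 0 = 1 := funext fun x => by simp [z, c6, mon_zero]
  obtain ⟨w, hw⟩ : ∃ w, w = ∏ ξ ∈ Finset.univ.erase 0,
    (1 - ∑ k, (d k * χ ξ (f k)) • z (f k)) := ⟨_, rfl⟩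
  have w1 : w ∈ Sp Qb Λ z (p ^ Fintype.card σ * μ) := by
    refine Sp_mono (Nat.mul_le_mul_right _ ((Finset.card_le_univ _).trans c1))
      (hw ▸ Sp_prod z1 z0 _ fun ξ _ => sub_mem (by rw [← z0]; exact mem_Sp (zero_bx _ _))
        (sum_mem fun k _ => smul_mem _ _ (mem_Sp (h1 k))))
  have w2 : ∀ x, w x = ∏ ξ ∈ Finset.univ.erase 0,
      (1 - ∑ k, d k * (χ (ξ + x.2) (f k) * x.1.1 (mon P (f k)))) := fun x => by
    simp [hw, z, c4, mul_assoc]
  have w3 : ∀ u : U, w (u, 0) ≠ 0 := fun u => by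
    rw [w2]
    exact Finset.prod_ne_zero_iff.2 fun ξ hξ h => Finset.ne_of_mem_erase hξ
      (by simpa using h8 u u.2 _ (sub_eq_zero.1 h).symm)
  have w4 : ∀ (u : U) ξ, ξ ≠ 0 → w (u, ξ) = 0 := fun u ξ hξ => by
    rw [w2]
    exact Finset.prod_eq_zero (i := -ξ) (by simpa using hξ) (by simp [c5, h7 u u.2])
  let Av : (U × Ξ → Qb) →ₗ[Qb] U → Qb :=
    LinearMap.pi fun u => ∑ ξ, LinearMap.proj (u, ξ)
  have a1 : ∀ F u, Av F u = ∑ ξ, F (u, ξ) := fun F u => by simp [Av]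
  have a2 : (Sp Qb Λ z (p * ν)).map Av ≤
      span Qb (fn U '' ((fun a => mon P a ^ p) '' (bx Λ ν : Set (σ → ℤ)))) := by
    rw [Sp, map_span, span_le]
    rintro _ ⟨_, ⟨a, ha, rfl⟩, rfl⟩
    have ha' := mem_bx.1 ha
    have : Av (z a) = (∑ ξ, χ ξ a) • fn U (mon P a) := funext fun u => by
      simp [a1, z, fn, Finset.sum_mul]
    rw [this]
    rcases c8 a ha'.1 with ⟨b, hb, rfl⟩ | h
    · refine smul_mem _ _ (subset_span ⟨_, ⟨b, mem_bx.2 ⟨hb, fun i => ?_⟩, rfl⟩, by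
        rw [mon_nsmul]⟩)
      have := ha'.2 i
      rw [Pi.smul_apply, nsmul_eq_mul, abs_mul, Nat.abs_cast, Nat.cast_mul] at this
      exact le_of_mul_le_mul_left this (by exact_mod_cast hp)
    · rw [h, zero_smul]
      exact zero_mem _
  have hfin := fun ν => (bx Λ ν).finite_toSet
  have := FiniteDimensional.span_of_finite Qb (((hfin ν).image fun a => mon P a ^ p).image (fn U))
  rw [Sp, Sp, row_eq ((hfin _).image _), row_eq ((hfin _).image _),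
    (equivMapOfInjective (LinearMap.mulRight Qb fun u => w (u, 0)) (fun x y h => funext fun u =>
      mul_right_cancel₀ (w3 u) (congrFun h u)) _).finrank_eq]
  refine finrank_mono (le_trans ?_ a2)
  rw [map_span, span_le]
  rintro _ ⟨_, ⟨_, ⟨a, ha, rfl⟩, rfl⟩, rfl⟩
  refine ⟨z a * w, Sp_mono h6 (Sp_mul z1 _ _ (mul_mem_mul (mem_Sp ha) w1)), funext fun u => ?_⟩
  rw [a1, Finset.sum_eq_single 0 (fun ξ _ hξ => by simp [w4 u ξ hξ]) (by simp)]
  simp [z, c5, fn]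

end

theorem Circ.avg {σ : Type} [Fintype σ] {U : Subgroup GA} {P : σ → Qb} {k : σ → ℕ} {μ : ℕ}
    (h : Circ U P k μ) {q : ℕ} (hq : 0 < q) (hU : U ≤ Mu q) {ν ν' : ℕ}
    (h6 : ν' + q ^ Fintype.card σ * μ ≤ q * ν) : HH U P k 1 ν' ≤ HH U P k q ν := by
  obtain ⟨κ, _, -, f, d, h1, h2, h3, h4⟩ := h.ex
  have := avg_aux h.ne (μ := μ) (fun j => h1 ▸ (h2 j).1) (fun j => (h2 j).2.2) h3 h4 hq
    (fun u hu => ⟨u, hu, hU hu, fun _ _ => rfl⟩) h6
  rwa [h1, ← HH_one] at this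

end Pool.Agent.Lib.MP_f61260_nt
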