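import Pool.Agent.Lib.MP_f61260_nt.Sl.Defs

/-! The product formula with a gain on half of a subgroup. -/

set_option autoImplicit false
set_option maxHeartbeats 400000

namespace Pool.Agent.Lib.MP_f61260_nt

open Real

lemma pf_pt {κ σ : Type} [Fintype κ] [Fintype σ] (Δ : Qb) (y : σ → Qb) (h : κ → GA)
    {n C0 c : ℝ} (l : Pr) (τ : GA)
    (H1 : ∀ v : Pl, log (av v (τ Δ)) ≤ (if v = none then C0 else 0) + ∑ j, n * Lg v (τ * h j) y)
    (H2 : log (av (some l) (τ Δ)) + c ≤ ∑ j, n * Lg (some l) (τ * h j) y) :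
    mu (τ Δ) + c ≤ C0 + ∑ k, ∑ i, n * (lam (τ (h k (y i))) + lam (τ (h k (y i))⁻¹)) := by
  classical
  have H : ∀ v : Pl, log (av v (τ Δ)) + (if v = some l then c else 0) ≤
      (if v = none then C0 else 0) + ∑ j, n * Lg v (τ * h j) y := fun v => by
    by_cases hv : v = some l
    · subst hv
      simpa using H2
    · rw [if_neg hv, add_zero]
      exact H1 v
  have hs : ∀ (a : Pl) (c : ℝ), Function.HasFiniteSupport (fun v => if v = a then c else 0) ∧
      ∑ᶠ v, (if v = a then c else 0) = c := fun a c =>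
    ⟨(Set.finite_singleton a).subset fun v hv => by
      by_contra h'
      exact hv (if_neg h'), by
      rw [finsum_eq_single _ a fun x hx => if_neg hx, if_pos rfl]⟩
  have hf : ∀ (c : ℝ) (x : Qb), Function.HasFiniteSupport fun v => c * |log (av v x)| :=
    fun c x => fin_of (fun t => c * |log t|) (by simp) (by simp) _
  have hf' : ∀ (c : ℝ) (x : Qb), ∑ᶠ v, c * |log (av v x)| = c * (lam x + lam x⁻¹) := fun c x => by
    rw [← mul_finsum, lam, lam, ← finsum_add_distrib (fin_lam _) (fin_lam _)]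
    refine congrArg _ (finsum_congr fun v => ?_)
    rw [map_inv₀, ← half_mul_log_add_log_abs, ← half_mul_log_add_log_abs, log_inv, abs_neg]
    ring
  have h3 : ∀ k, Function.HasFiniteSupport fun v => ∑ i, n * |log (av v (τ (h k (y i))))| :=
    fun k => Function.HasFiniteSupport.sum (fun i => hf _ _) _
  have h4 := Function.HasFiniteSupport.sum h3 Finset.univ
  have := finsum_le_finsum' ((fin_mu (τ Δ)).add (hs (some l) c).1) ((hs none C0).1.add h4)
    fun v => by simpa only [Lg, Finset.mul_sum, AlgEquiv.mul_apply, Pi.add_apply] using H v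
  simp only [Pi.add_apply] at this
  rw [finsum_add_distrib (fin_mu _) (hs _ _).1, finsum_add_distrib (hs _ _).1 h4, (hs _ _).2,
    (hs _ _).2, finsum_sum_comm _ _ fun k _ => h3 k] at this
  simp only [finsum_sum_comm _ _ fun i _ => hf _ _, hf'] at this
  simpa only [map_inv₀, mu] using this

/-- a nonnegative right invariant function that is large on half of `G` -/
lemma pf_half {𝒢 : Type} [Group 𝒢] {G V : Subgroup 𝒢} (T0 : Trans ⊤ G) (T1 : Trans G V)
    (hV : V ≤ G) {Φ : 𝒢 → ℝ} (hΦ : RInv V Φ) (h0 : ∀ τ, 0 ≤ Φ τ) {b : 𝒢} (hb : b ∈ G) {g : ℝ}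
    (H : ∀ τ ∈ G, g ≤ Φ τ + Φ (b * τ)) :
    T1.card * g ≤ 2 * (T0.comp T1 le_top hV).sum Φ := by
  obtain ⟨i0, hi0⟩ := T0.ex 1 trivial
  rw [mul_one, inv_mem_iff] at hi0
  have h1 : T1.card * g ≤ T1.sum Φ + T1.sum fun τ => Φ (b * τ) := by
    rw [Trans.sum, Trans.sum, ← Finset.sum_add_distrib, Trans.card, ← Finset.card_univ,
      ← nsmul_eq_mul]
    exact Finset.card_nsmul_le_sum _ _ _ fun i _ => H _ (T1.mem i)
  have h2 : T1.sum Φ ≤ (T0.comp T1 le_top hV).sum Φ := by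
    rw [Trans.comp_sum, ← T1.sum_lmul hΦ hi0]
    exact Finset.single_le_sum (f := fun i => T1.sum fun τ => Φ (T0.r i * τ))
      (fun i _ => Finset.sum_nonneg fun j _ => h0 _) (Finset.mem_univ i0)
  rw [T1.sum_lmul hΦ hb] at h1
  linarith

theorem prodf2 {κ σ : Type} [Fintype κ] [Fintype σ] {Δ : Qb} (hΔ : Δ ≠ 0) (y : σ → Qb)
    (h : κ → GA) {n C0 g : ℝ} (hg : 0 ≤ g) (l : Pr) {G : Subgroup GA} {d : ℕ}
    (hG : IdxLe ⊤ G d) {b : GA} (hb : b ∈ G)
    (H1 : ∀ (τ : GA) (v : Pl), log (av v (τ Δ)) ≤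
      (if v = none then C0 else 0) + ∑ j, n * Lg v (τ * h j) y)
    (H2 : ∀ τ ∈ G, ∃ τ' ∈ ({τ, b * τ} : Set GA),
      log (av (some l) (τ' Δ)) + g ≤ ∑ j, n * Lg (some l) (τ' * h j) y) :
    g ≤ 2 * d * (C0 + Fintype.card κ * n * (2 * ∑ i, ht (y i))) := by
  classical
  obtain ⟨V, ⟨T⟩, hV⟩ := trG fun x : Option (κ × σ) => x.elim Δ fun x => h x.1 (y x.2)
  obtain ⟨T0, hT0⟩ := hG
  obtain ⟨T1, -⟩ := IdxLe.restrict (A' := G ⊓ V) ⟨T, le_rfl⟩ (le_top : G ≤ ⊤) le_rfl
  have hV' : ∀ x : Option (κ × σ), Fx (G ⊓ V) (x.elim Δ fun x => h x.1 (y x.2)) :=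
    fun x u hu => hV x u hu.2
  let Φ : GA → ℝ := fun τ =>
    if log (av (some l) (τ Δ)) + g ≤ ∑ j, n * Lg (some l) (τ * h j) y then g else 0
  have h0 : ∀ τ, 0 ≤ Φ τ := fun τ => by
    simp only [Φ]
    split_ifs
    exacts [hg, le_rfl]
  have hΦ : RInv (G ⊓ V) Φ := fun τ u hu => by
    have e1 : u Δ = Δ := hV' none u hu
    have e2 : ∀ k i, u (h k (y i)) = h k (y i) := fun k i => hV' (some (k, i)) u hu
    have e3 : ∀ j, Lg (some l) (τ * u * h j) y = Lg (some l) (τ * h j) y := fun j => by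
      simp only [Lg, AlgEquiv.mul_apply, e2]
    have e4 : (τ * u) Δ = τ Δ := by rw [AlgEquiv.mul_apply, e1]
    simp only [Φ, e3, e4]
  have hh := pf_half T0 T1 inf_le_left hΦ h0 hb (g := g) fun τ hτ => by
    obtain ⟨τ', h1, h2⟩ := H2 τ hτ
    have h3 : Φ τ' = g := if_pos h2
    rcases h1 with rfl | rfl
    · linarith [h0 (b * τ')]
    · linarith [h0 τ]
  set T' := T0.comp T1 le_top inf_le_left with hT'
  have h1 : ∀ τ : GA, mu (τ Δ) + Φ τ ≤
      C0 + ∑ k, ∑ i, n * (lam (τ (h k (y i))) + lam (τ (h k (y i))⁻¹)) := fun τ => by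
    refine pf_pt Δ y h l τ (H1 τ) ?_
    simp only [Φ]
    split_ifs with hc
    · exact hc
    · simpa using H1 τ (some l)
  have h2 := Finset.sum_le_sum fun x (_ : x ∈ Finset.univ) => h1 (T'.r x)
  have h3 := sum_mu T' (hV' none) hΔ
  have h4 : ∀ k i, ∑ x, n * (lam (T'.r x (h k (y i))) + lam (T'.r x (h k (y i))⁻¹)) =
      T'.card * (n * (2 * ht (y i))) := fun k i => by
    have e1 := ht_eq T' (hV' (some (k, i)))
    have e2 := ht_eq T' (hV' (some (k, i))).inv
    simp only [Trans.sum, Option.elim, ht_inv, ht_conj] at e1 e2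
    rw [← Finset.mul_sum, Finset.sum_add_distrib, e1, e2]
    ring
  simp only [Trans.sum, Option.elim] at h3
  rw [Finset.sum_add_distrib, Finset.sum_add_distrib, h3, zero_add, Finset.sum_const,
    Finset.sum_comm, Finset.sum_congr rfl fun k _ => Finset.sum_comm,
    Finset.card_univ, ← Trans.card] at h2
  simp only [h4, ← Finset.mul_sum, Finset.sum_const, Finset.card_univ, nsmul_eq_mul] at h2
  set X := C0 + Fintype.card κ * n * (2 * ∑ i, ht (y i)) with hX
  have h5 : T'.sum Φ ≤ T0.card * T1.card * X := by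
    rw [← Nat.cast_mul, ← Trans.comp_card T0 T1 le_top inf_le_left, ← hT', hX]
    refine le_trans h2 (le_of_eq ?_)
    ring
  have h6 : g ≤ 2 * T0.card * X := by
    refine le_of_mul_le_mul_left ?_ (card_posR T1)
    linarith
  have h7 : 0 ≤ X := by
    by_contra hneg
    have := mul_neg_of_pos_of_neg (mul_pos two_pos (card_posR T0)) (not_le.1 hneg)
    linarith
  have h8 : (T0.card : ℝ) ≤ d := by exact_mod_cast hT0
  nlinarith

end Pool.Agent.Lib.MP_f61260_nt
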