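import Pool.Agent.Lib.MP_f61260_nt.Sl.Defs

/-! Comparison of ranks over different fixed fields. -/

set_option autoImplicit false
set_option maxHeartbeats 400000

namespace Pool.Agent.Lib.MP_f61260_nt

open Module Submodule

variable {U V : Subgroup GA}

lemma rk_fx {g : GA} (h1 : ∀ u ∈ U, g⁻¹ * u * g ∈ U) {x : Qb} (hx : Fx U x) : Fx U (g x) :=
  fun u hu => by
    conv_rhs => rw [← hx _ (h1 u hu)]
    simp only [← AlgEquiv.mul_apply]
    congr 1
    group

lemma rk_li {g : GA} (h2 : ∀ u ∈ U, g * u * g⁻¹ ∈ U) {ι : Type} [Fintype ι] {y : ι → Qb}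
    (h : LinearIndependent (Kf U) y) : LinearIndependent (Kf U) fun i => g (y i) := by
  rw [Fintype.linearIndependent_iff] at h ⊢
  intro c hc i
  have := h (fun i => ⟨g⁻¹ (c i), mem_Kf.2 (rk_fx (g := g⁻¹) h2 (kf_fx _))⟩) (g.injective (by
    rw [map_zero, ← hc]
    simp only [IntermediateField.smul_def, smul_eq_mul, map_sum, map_mul]
    exact Finset.sum_congr rfl fun i _ => by
      rw [← AlgEquiv.mul_apply, mul_inv_cancel, AlgEquiv.one_apply])) i
  exact Subtype.ext (by simpa using congrArg Subtype.val this)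

lemma rk_card {k M : Type} [Field k] [AddCommGroup M] [Module k M] {s : Set M} (hs : s.Finite)
    {n : ℕ} {e : Fin n → M} (h1 : ∀ i, e i ∈ s) (h : LinearIndependent k e) :
    n ≤ finrank k (span k s) := by
  have := FiniteDimensional.span_of_finite k hs
  have h4 := finrank_span_eq_card h
  rw [Fintype.card_fin] at h4
  exact h4.symm.le.trans (finrank_mono (span_mono (Set.range_subset_iff.2 h1)))

lemma rk_le {g : GA} (h2 : ∀ u ∈ U, g * u * g⁻¹ ∈ U) {s : Set Qb} (hs : s.Finite) :
    finrank (Kf U) (span (Kf U) s) ≤ finrank (Kf U) (span (Kf U) (g '' s)) := by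
  obtain ⟨e, h1, -, h3⟩ := exists_bas (k := Kf U) s hs
  exact rk_card (hs.image g) (fun i => ⟨_, h1 i, rfl⟩) (rk_li h2 h3)

lemma rk_emb {k M ι : Type} [Field k] [Field M] [Algebra k M] [Fintype ι] {s : Set M}
    (hs : s.Finite) (hi : ∀ x ∈ s, IsIntegral k x) (w : ι → M →ₐ[k] M)
    (h2 : ∀ i j, (∀ x ∈ s, w i x = w j x) → i = j) :
    Fintype.card ι ≤ finrank k (Algebra.adjoin k s).toSubmodule := by
  have := Algebra.finite_adjoin_of_finite_of_isIntegral hs hi
  have h := Nat.card_le_card_of_injective (fun i => (w i).comp (Algebra.adjoin k s).val)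
    fun i j e => h2 i j fun x hx => DFunLike.congr_fun e ⟨x, Algebra.subset_adjoin hx⟩
  rw [Nat.card_eq_fintype_card] at h
  exact h.trans (card_algHom_le_finrank k (Algebra.adjoin k s) M)

theorem li_conj {g : GA} (h1 : ∀ u ∈ U, g⁻¹ * u * g ∈ U) (h2 : ∀ u ∈ U, g * u * g⁻¹ ∈ U)
    {ι : Type} [Fintype ι] {y : ι → Qb} (h : LinearIndependent (Kf U) y) :
    LinearIndependent (Kf U) fun i => g (y i) := by
  have _ := h1
  exact rk_li h2 h

theorem rank_conj {g : GA} (h1 : ∀ u ∈ U, g⁻¹ * u * g ∈ U) (h2 : ∀ u ∈ U, g * u * g⁻¹ ∈ U)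
    {s : Set Qb} (hs : s.Finite) :
    finrank (Kf U) (span (Kf U) (g '' s)) = finrank (Kf U) (span (Kf U) s) := by
  refine le_antisymm ?_ (rk_le h2 hs)
  have h := rk_le (g := g⁻¹) h1 (hs.image g)
  have e : (g⁻¹ : GA) '' (g '' s) = s := by
    rw [Set.image_image]
    simp only [← AlgEquiv.mul_apply, inv_mul_cancel, AlgEquiv.one_apply, Set.image_id']
  rwa [e] at h

theorem li_field (h : U ≤ V) {ι : Type} {y : ι → Qb} (hy : LinearIndependent (Kf U) y) :
    LinearIndependent (Kf V) y := by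
  rw [linearIndependent_iff'] at hy ⊢
  intro t c hc i hi
  have := hy t (fun i => ⟨c i, mem_Kf.2 fun u hu => kf_fx (c i) u (h hu)⟩) hc i hi
  exact Subtype.ext (congrArg (fun z : Kf U => (z : Qb)) this)

theorem rank_field (h : U ≤ V) {s : Set Qb} (hs : s.Finite) :
    finrank (Kf U) (span (Kf U) s) ≤ finrank (Kf V) (span (Kf V) s) := by
  obtain ⟨e, h1, -, h3⟩ := exists_bas (k := Kf U) s hs
  exact rk_card hs h1 (li_field h h3)

theorem rank_idx {D : ℕ} (hD : IdxLe V U D) {s : Set Qb} (hs : s.Finite) :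
    finrank (Kf V) (span (Kf V) s) ≤ D * finrank (Kf U) (span (Kf U) s) := by
  classical
  obtain ⟨T, hT⟩ := hD
  obtain ⟨e, -, h2, -⟩ := exists_bas (k := Kf U) s hs
  obtain ⟨f, h1, -, h3⟩ := exists_bas (k := Kf V) s hs
  choose c hc using fun a => (mem_span_range_iff_exists_fun (Kf U)).1
    (by rw [h2]; exact subset_span (h1 a) : f a ∈ span (Kf U) (Set.range e))
  have h4 : LinearIndependent (Kf V) fun a (_ : Unit) => f a := by
    rw [Fintype.linearIndependent_iff] at h3 ⊢
    exact fun g hg => h3 g (by simpa using congrFun hg ())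
  have h5 := col_ge (U := V) (fun a (_ : Unit) => f a)
    (span Qb (Set.range fun x : T.ι × _ => fun a => T.r x.1 (c a x.2))) fun u hu _ => by
      obtain ⟨i, hi⟩ := T.ex u hu
      have : (fun a => u (f a)) = ∑ j, u (e j) • fun a => T.r i (c a j) := by
        funext a
        rw [← hc a]
        simp only [map_sum, IntermediateField.smul_def, smul_eq_mul, map_mul, Finset.sum_apply,
          Pi.smul_apply]
        refine Finset.sum_congr rfl fun j _ => ?_
        rw [mul_comm, ← kf_fx (c a j) _ hi, ← AlgEquiv.mul_apply (T.r i), mul_inv_cancel_left,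
          kf_fx (c a j) _ hi]
      rw [this]
      exact sum_mem fun j _ => smul_mem _ _ (subset_span ⟨(i, j), rfl⟩)
  rw [finrank_span_eq_card h4, Fintype.card_fin] at h5
  refine h5.trans ((finrank_range_le_card _).trans ?_)
  rw [Fintype.card_prod, Fintype.card_fin]
  exact Nat.mul_le_mul_right _ hT

theorem emb_le {s : Set Qb} (hs : s.Finite) {ι : Type} [Fintype ι] {w : ι → GA}
    (h1 : ∀ i, w i ∈ V) (h2 : ∀ i j, (∀ x ∈ s, w i x = w j x) → i = j) :
    Fintype.card ι ≤ finrank (Kf V) (Algebra.adjoin (Kf V) s).toSubmodule := by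
  exact rk_emb hs (fun x _ => (Algebra.IsIntegral.isIntegral (R := ℚ) x).tower_top)
    (fun i => { (w i : Qb →+* Qb) with commutes' := fun c => kf_fx c _ (h1 i) }) h2

end Pool.Agent.Lib.MP_f61260_nt
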