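import Pool.Agent.Lib.MP_f61260_nt.Sl.Pad
import Pool.Agent.Lib.MP_f61260_nt.Sl.Pf
import Pool.Agent.Lib.MP_f61260_nt.Sl.Rk

/-! The rank bound given by close automorphisms. -/

set_option autoImplicit false
set_option maxHeartbeats 400000

namespace Pool.Agent.Lib.MP_f61260_nt

open Module Submodule Real

lemma bd_sup {F V ι : Type} [Field F] [AddCommGroup V] [Module F V] [FiniteDimensional F V]
    (N : Finset ι) (Z : ι → Submodule F V) {r : ℕ} (h : ∀ x ∈ N, finrank F (Z x) ≤ r) :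
    finrank F (N.sup Z : Submodule F V) ≤ N.card * r := by
  classical
  induction N using Finset.induction_on with
  | empty => simp
  | insert a s ha ih =>
    rw [Finset.sup_insert, Finset.card_insert_of_notMem ha, add_mul, one_mul, add_comm]
    exact (finrank_add_le_finrank_add_finrank _ _).trans
      (add_le_add (h a (by simp)) (ih fun x hx => h x (by simp [hx])))

lemma bd_tor {σ : Type} [Fintype σ] {c : σ → Qb} {τ : GA}
    (hc : ∀ i, ∃ ξ, Tor ξ ∧ τ (c i) = ξ * c i) (a : σ → ℤ) :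
    ∃ ξ, Tor ξ ∧ τ (mon c a) = ξ * mon c a := by
  choose ξ h1 h2 using hc
  refine ⟨mon ξ a, tor_mon h1 a, ?_⟩
  rw [map_mon, ← mon_mul]
  exact congrArg (fun y => mon y a) (funext h2)

lemma bd_av (v : Pl) (τ : GA) {ξ : Qb} (h : Tor ξ) : av v (τ ξ) = 1 := by
  obtain ⟨n, hn, h1⟩ := h
  exact av_root v hn (by rw [← map_pow, h1, map_one])

lemma bd_mon {σ : Type} [Fintype σ] (v : Pl) (τ : GA) {P c : σ → Qb} (hP : ∀ i, P i ≠ 0)
    (hc0 : ∀ i, c i ≠ 0) {w : GA} (hc : ∀ i, ∃ ξ, Tor ξ ∧ w (c i) = ξ * c i) {a : σ → ℤ} {ν : ℕ}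
    (ha : ∀ i, |a i| ≤ ν) :
    av v (τ (w (mon P a) * mon c a)) ≤ exp (ν * Lg v (τ * w) (P * c)) := by
  obtain ⟨ξ, h1, h2⟩ := bd_tor hc a
  refine le_of_eq_of_le ?_ (av_mon v (τ * w) (y := P * c)
    (fun i => mul_ne_zero (hP i) (hc0 i)) ha)
  rw [AlgEquiv.mul_apply, mon_mul, map_mul w, h2]
  simp only [map_mul, bd_av v τ h1, one_mul]

lemma bd_Lg {σ : Type} [Fintype σ] (v : Pl) (g : GA) (y : σ → Qb) : 0 ≤ Lg v g y :=
  Finset.sum_nonneg fun _ _ => abs_nonneg _

lemma bd_HH {σ : Type} [Fintype σ] {U : Subgroup GA} {g : GA} (h1 : ∀ u ∈ U, g⁻¹ * u * g ∈ U)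
    (h2 : ∀ u ∈ U, g * u * g⁻¹ ∈ U) (P : σ → Qb) (k : σ → ℕ) (ν : ℕ) :
    HH U (fun i => g (P i)) k 1 ν = HH U P k 1 ν := by
  rw [HH_one, HH_one, Sp, Sp, ← rank_conj h1 h2 ((bx (latK k) ν).finite_toSet.image (mon P)),
    Set.image_image, show (fun a => g (mon P a)) = mon fun i => g (P i) from
      funext fun a => map_mon g P a]

lemma bd_det {σ : Type} [Fintype σ] {W : Subgroup GA} {P c : σ → Qb} (hc0 : ∀ i, c i ≠ 0)
    (k : σ → ℕ) (q ν : ℕ) :
    ∃ (a : Fin (HH W P k q ν) → bx (latK k) ν) (w : Fin (HH W P k q ν) → GA),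
      Function.Injective a ∧ (∀ i, w i ∈ W) ∧
      (Matrix.of fun i j => (w i (mon P (a j)) * mon c (a j)) ^ q).det ≠ 0 := by
  have hf := (bx (latK k) ν).finite_toSet.image fun a => mon P a ^ q
  rw [HH, Sp, row_eq hf]
  obtain ⟨e, h1, -, h3⟩ := exists_bas (k := Qb) _ (hf.image (fn W))
  have h4 : ∀ j, ∃ a : bx (latK k) ν, e j = fn W (mon P a ^ q) := fun j => by
    obtain ⟨_, ⟨a, ha, rfl⟩, h⟩ := h1 j
    exact ⟨⟨a, ha⟩, h.symm⟩
  choose a ha using h4
  obtain ⟨w, hw⟩ := exists_rows (fun (u : W) j => e j u) fun t ht =>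
    funext (Fintype.linearIndependent_iff.1 h3 t (funext fun u => by simpa using ht u))
  refine ⟨a, fun i => w i, fun i j hij => h3.injective (by rw [ha, ha, hij]),
    fun i => (w i).2, ?_⟩
  have h5 := Matrix.det_mul_row (fun j => mon c (a j) ^ q) (Matrix.of fun j i => e i (w j))
  refine ne_of_eq_of_ne (Eq.trans (congrArg Matrix.det ?_) h5) (mul_ne_zero
    (Finset.prod_ne_zero_iff.2 fun j _ => pow_ne_zero _ (mon_ne hc0 _)) hw)
  ext i j
  simp only [Matrix.of_apply, ha, fn, map_pow, mul_pow, mul_comm]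

theorem rank_bd {σ : Type} [Fintype σ] {p : ℕ} [hp : Fact p.Prime] {G U W : Subgroup GA} {d : ℕ}
    (hG : IdxLe ⊤ G d) (hW : W ≤ G) (nU : ∀ τ ∈ G, ∀ u ∈ U, τ⁻¹ * u * τ ∈ U)
    (nW : ∀ τ ∈ G, ∀ u ∈ W, τ⁻¹ * u * τ ∈ W) {P c : σ → Qb} (hP : ∀ i, P i ≠ 0)
    (hc0 : ∀ i, c i ≠ 0) (hc : ∀ τ ∈ G, ∀ i, ∃ ξ, Tor ξ ∧ τ (c i) = ξ * c i) {k : σ → ℕ}
    (hk : ∀ i, 0 < k i) {ν T E C : ℕ} (hν : ∀ i, k i ≤ ν) (hT : 0 < T) {η : ℝ} (h0 : 0 ≤ η)
    (hη : η ^ p ^ E ≤ ‖(p : Om p)‖) {b : GA} (hb : b ∈ G)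
    (hgood : ∀ τ ∈ G, ∃ τ' ∈ ({τ, b * τ} : Set GA), ∃ N : Finset GA, N.card ≤ C ∧
      (∀ x ∈ N, x ∈ G) ∧ ∀ w ∈ W, ∃ x ∈ N, ∃ g, Cl p U c η g ∧ ∃ u ∈ U, ∀ a ∈ latK k,
        w (τ' (mon P a ^ p ^ E)) = g (u (x (τ' (mon P a ^ p ^ E)))))
    (h1 : 4 * d * (Fintype.card σ * log (2 * ν + 1) + 2) ≤ T * log p)
    (h2 : 2 * T * ν * p ^ E * ∑ i, ht (P i * c i) ≤ 1) :
    HH W P k (p ^ E) ν ≤ 2 * C * T ^ Fintype.card σ * HH U P k 1 ν := by
  classical
  by_contra hlt
  rw [not_le] at hlt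
  obtain ⟨a, w, hai, hw, hΔ⟩ := bd_det (W := W) (P := P) hc0 k (p ^ E) ν
  generalize HH W P k (p ^ E) ν = s at hlt a w hai hw hΔ
  set r0 := C * (T ^ Fintype.card σ * HH U P k 1 ν) with hr0
  have hs0 : 2 * r0 < s := by rw [hr0, ← mul_assoc, ← mul_assoc]; exact hlt
  have hq : 0 < p ^ E := pow_pos hp.out.pos E
  have hlp : 0 < log p := log_pos (by exact_mod_cast hp.out.one_lt)
  have hT' : (1 : ℝ) ≤ T := by exact_mod_cast hT
  have hab : ∀ j i, |(a j : σ → ℤ) i| ≤ ν := fun j => (mem_bx.1 (a j).2).2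
  set Δ := (Matrix.of fun i j => (w i (mon P (a j)) * mon c (a j)) ^ p ^ E).det with hΔd
  have key := prodf2 hΔ (P * c) w (n := 2 * T * ν * p ^ E) (C0 := log s.factorial)
    (g := (T * (s - r0) : ℕ) * log p) (by positivity) ⟨p, hp.out⟩ hG hb (fun τ v => ?_)
    (fun τ hτ => ?_)
  · -- the numerical contradiction
    have e1 : log s.factorial ≤ s * log s := by
      rw [← log_pow]
      exact log_le_log (by exact_mod_cast s.factorial_pos) (by exact_mod_cast s.factorial_le_pow)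
    have e2 : s ≤ (2 * ν + 1) ^ Fintype.card σ := by
      have := Fintype.card_le_of_injective a hai
      rw [Fintype.card_fin, Fintype.card_coe] at this
      exact this.trans (card_bx _ _)
    have hs1 : (0 : ℝ) < s := by exact_mod_cast (Nat.zero_le _).trans_lt hs0
    have e3 : log s ≤ Fintype.card σ * log (2 * ν + 1) := by
      rw [← log_pow]
      exact log_le_log hs1 (by exact_mod_cast e2)
    have e4 : (s : ℝ) < 2 * ((s - r0 : ℕ) : ℝ) := by exact_mod_cast (by omega : s < 2 * (s - r0))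
    rw [Fintype.card_fin] at key
    simp only [Pi.mul_apply] at key
    push_cast at key
    have e5 : (s : ℝ) * (2 * T * ν * p ^ E) * (2 * ∑ i, ht (P i * c i)) ≤ s * 2 := by
      calc _ = s * 2 * (2 * T * ν * p ^ E * ∑ i, ht (P i * c i)) := by ring
        _ ≤ s * 2 * 1 := by gcongr
        _ = _ := mul_one _
    have e6 : log s.factorial + (s : ℝ) * (2 * T * ν * p ^ E) * (2 * ∑ i, ht (P i * c i)) ≤
        s * (Fintype.card σ * log (2 * ν + 1) + 2) := by
      rw [mul_add]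
      exact add_le_add (e1.trans (mul_le_mul_of_nonneg_left e3 hs1.le)) e5
    have e7 := key.trans (mul_le_mul_of_nonneg_left e6 (by positivity))
    have e8 := mul_le_mul_of_nonneg_left h1 hs1.le
    have e9 := mul_lt_mul_of_pos_right e4 (show 0 < T * log p by positivity)
    linarith
  · -- the trivial bound at every place
    have h3 : ∀ i j, av v ((τ.toRingEquiv.toRingHom.mapMatrix (Matrix.of fun i j =>
        (w i (mon P (a j)) * mon c (a j)) ^ p ^ E)).transpose i j) ≤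
        exp (2 * T * ν * p ^ E * Lg v (τ * w j) (P * c)) := fun i j => by
      change av v (τ ((w j (mon P (a i)) * mon c (a i)) ^ p ^ E)) ≤ _
      rw [map_pow, map_pow]
      refine (pow_le_pow_left₀ (av_nonneg _ _)
        (bd_mon v τ hP hc0 (hc _ (hW (hw j))) (hab i)) _).trans ?_
      rw [← exp_nat_mul, exp_le_exp]
      have h4 : 0 ≤ (ν : ℝ) * p ^ E * Lg v (τ * w j) (P * c) :=
        mul_nonneg (by positivity) (bd_Lg _ _ _)
      push_cast
      nlinarith
    have h4 : τ Δ = ((τ.toRingEquiv.toRingHom.mapMatrix (Matrix.of fun i j =>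
        (w i (mon P (a j)) * mon c (a j)) ^ p ^ E)).transpose).det := by
      rw [Matrix.det_transpose, ← RingHom.map_det]
      rfl
    rw [log_le_iff_le_exp (av_pos v ((_root_.map_ne_zero τ).2 hΔ)), exp_add, exp_sum, h4]
    rcases v with _ | l
    · rw [if_pos rfl, exp_log (by exact_mod_cast s.factorial_pos)]
      simpa only [Fintype.card_fin] using av_det' _ h3
    · rw [if_neg (by simp), exp_zero, one_mul]
      exact av_det l _ h3
  · -- the gain at the place above `p`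
    obtain ⟨τ', hτ', N, hNC, hNG, hN⟩ := hgood τ hτ
    refine ⟨τ', hτ', ?_⟩
    have hG' : τ' ∈ G := by
      rcases hτ' with rfl | rfl
      exacts [hτ, G.mul_mem hb hτ]
    choose Z hZ1 hZ2 using fun x : GA => padic_sub U (P := fun i => x (τ' (P i))) (c := c)
      (fun i => (_root_.map_ne_zero x).2 ((_root_.map_ne_zero τ').2 (hP i))) hc0 hk hν hT h0 hη
    let β : Fin s → ℝ := fun i => exp (ν * Lg (some ⟨p, hp.out⟩) (τ' * w i) (P * c))
    have hβ : ∀ i, 1 ≤ β i := fun i => one_le_exp (mul_nonneg (by positivity) (bd_Lg _ _ _))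
    have hn : ∀ i (n : ℕ), ∀ x ∈ bx (latK k) (n * ν),
        ‖io p (τ' (w i (mon P x)) * mon c x)‖ ≤ β i ^ n := fun i n x hx => by
      have h3 := bd_mon (some ⟨p, hp.out⟩) 1 hP hc0
        (hc _ (G.mul_mem hG' (hW (hw i)))) (mem_bx.1 hx).2
      rw [one_mul, AlgEquiv.one_apply, av_some, AlgEquiv.mul_apply] at h3
      refine h3.trans (le_of_eq ?_)
      rw [← exp_nat_mul]
      push_cast
      rw [mul_assoc]
    let M : Matrix (Fin s) (Fin s) (Om p) :=
      Matrix.of fun i j => io p (τ' (w i (mon P (a j))) * mon c (a j)) ^ p ^ E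
    let Z' : Submodule (Om p) (Fin s → Om p) :=
      N.sup fun x => (Z x).map (LinearMap.funLeft (Om p) (Om p) a)
    have hZ' : finrank (Om p) Z' ≤ r0 := by
      refine (bd_sup N _ (r := T ^ Fintype.card σ * HH U P k 1 ν) fun x hx => ?_).trans
        (Nat.mul_le_mul_right _ hNC)
      have hx' := G.mul_mem (hNG x hx) hG'
      refine (finrank_map_le _ _).trans ((hZ1 x).trans (le_of_eq ?_))
      rw [← bd_HH (nU _ hx') (fun u hu => by simpa using nU _ (G.inv_mem hx') u hu) P k ν]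
      rfl
    have hdet := det_small M Z' (fun i => β i ^ (2 * T * p ^ E)) (ε := ‖(p : Om p)‖ ^ T)
      (by positivity) (pow_le_one₀ (norm_nonneg _) np_lt.le) (fun i j => ?_) (fun i => ?_)
    · choose ξ hξ1 hξ2 using fun j => bd_tor (hc τ' hG') (a j : σ → ℤ)
      have h3 : io p (τ' Δ) = (∏ j, io p (ξ j) ^ p ^ E) * M.det := by
        rw [← Matrix.det_mul_row]
        refine ((io p).toRingHom.comp τ'.toRingEquiv.toRingHom).map_det _ |>.trans
          (congrArg Matrix.det ?_)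
        ext i j
        change io p (τ' ((w i (mon P (a j)) * mon c (a j)) ^ p ^ E)) =
          io p (ξ j) ^ p ^ E * io p (τ' (w i (mon P (a j))) * mon c (a j)) ^ p ^ E
        rw [map_pow, map_pow, map_mul τ', hξ2, ← mul_pow, ← map_mul, mul_left_comm]
      have h4 : av (some ⟨p, hp.out⟩) (τ' Δ) = ‖M.det‖ := by
        have h5 : ∀ j, ‖io p (ξ j)‖ = 1 := fun j => bd_av (some ⟨p, hp.out⟩) 1 (hξ1 j)
        rw [av_some, h3, norm_mul, norm_prod]
        simp only [norm_pow, h5, one_pow, Finset.prod_const_one, one_mul]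
      rw [← le_sub_iff_add_le, log_le_iff_le_exp (av_pos _ ((_root_.map_ne_zero τ').2 hΔ)), h4,
        sub_eq_neg_add, exp_add, exp_sum, ← np_exp, pow_mul]
      refine hdet.trans (mul_le_mul (pow_le_pow_of_le_one (by positivity)
        (pow_le_one₀ (norm_nonneg _) np_lt.le) ?_) (le_of_eq ?_) ?_ (by positivity))
      · rw [Fintype.card_fin]
        omega
      · refine Finset.prod_congr rfl fun i _ => ?_
        rw [← exp_nat_mul]
        push_cast
        ring_nf
      · exact Finset.prod_nonneg fun i _ => pow_nonneg (zero_le_one.trans (hβ i)) _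
    · change ‖io p (τ' (w i (mon P (a j))) * mon c (a j)) ^ p ^ E‖ ≤ _
      rw [norm_pow]
      have h3 := hn i 1 (a j) (by rw [one_mul]; exact (a j).2)
      rw [pow_one] at h3
      exact (pow_le_pow_left₀ (norm_nonneg _) h3 _).trans
        (pow_le_pow_right₀ (hβ i) (Nat.le_mul_of_pos_left _ (by omega)))
    · obtain ⟨x, hx, g, hg, u, hu, h3⟩ := hN (τ' * w i * τ'⁻¹)
        (by simpa using nW _ (G.inv_mem hG') _ (hw i))
      have h4 : ∀ y ∈ latK k, io p (g (u (mon (fun i => x (τ' (P i))) y)) * mon c y) ^ p ^ E =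
          io p (τ' (w i (mon P y)) * mon c y) ^ p ^ E := fun y hy => by
        have h5 := h3 y hy
        rw [← AlgEquiv.mul_apply, inv_mul_cancel_right, AlgEquiv.mul_apply] at h5
        simp only [map_pow] at h5
        rw [← map_pow, ← map_pow, mul_pow, mul_pow, h5, map_mon τ', map_mon x]
      obtain ⟨z, hz1, hz2⟩ := hZ2 x g hg u hu (β i) (hβ i) fun n y hy => by
        have h5 := congrArg norm (h4 y (mem_bx.1 hy).1)
        rw [norm_pow, norm_pow, pow_left_inj₀ (norm_nonneg _) (norm_nonneg _) hq.ne'] at h5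
        rw [h5]
        exact hn i n y hy
      refine ⟨LinearMap.funLeft (Om p) (Om p) a z, Finset.le_sup (f := fun x =>
        (Z x).map (LinearMap.funLeft (Om p) (Om p) a)) hx (mem_map_of_mem hz1), fun j => ?_⟩
      have h5 := hz2 (a j)
      rw [h4 _ (mem_bx.1 (a j).2).1] at h5
      exact h5

end Pool.Agent.Lib.MP_f61260_nt
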