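import Pool.Agent.Lib.MP_f61260_nt.Sl.Defs

/-! Solvable Galois groups and derived series. -/

set_option autoImplicit false
set_option maxHeartbeats 400000

namespace Pool.Agent.Lib.MP_f61260_nt

lemma brg_ds {G : Type} [Group G] (k n : ℕ) :
    derivedSeries G (k + n) =
      (derivedSeries (derivedSeries G k) n).map (derivedSeries G k).subtype := by
  induction n with
  | zero => rw [derivedSeries_zero, ← MonoidHom.range_eq_map, Subgroup.range_subtype, add_zero]
  | succ n ih =>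
    rw [← add_assoc, derivedSeries_succ, derivedSeries_succ, Subgroup.map_commutator, ih]

lemma brg_abs {F E G : Type} [Field F] [Field E] [Algebra F E] [IsAlgClosed E] [Group G]
    (φ : G →* (E ≃ₐ[F] E)) {p : Polynomial F} (hp : p ≠ 0) (h : Group.IsSolvable p.Gal) {α : E}
    (hα : Polynomial.aeval α p = 0) : ∃ n, ∀ g ∈ derivedSeries G n, φ g α = α := by
  have : Fact ((p.map (algebraMap F E)).Splits) := ⟨IsAlgClosed.splits _⟩
  obtain ⟨n, hn⟩ := h
  refine ⟨n, fun g hg => ?_⟩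
  have h1 : Polynomial.Gal.restrict p E (φ g) = 1 := by
    have := map_derivedSeries_le_derivedSeries ((Polynomial.Gal.restrict p E).comp φ) n
      ⟨g, hg, rfl⟩
    rwa [hn, Subgroup.mem_bot] at this
  have h2 := Polynomial.Gal.restrict_smul (φ g) ⟨α, Polynomial.mem_rootSet.2 ⟨hp, hα⟩⟩
  rw [h1, one_smul] at h2
  exact h2.symm

lemma brg_comm {U : Subgroup GA} {n : ℕ} {x : Qb}
    (h : ∀ a ∈ derivedSeries U n, ∀ b ∈ derivedSeries U n,
      (a : GA) ((b : GA) x) = (b : GA) ((a : GA) x)) :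
    ∀ g ∈ derivedSeries U (n + 1), (g : GA) x = x := by
  have : derivedSeries U (n + 1) ≤ (St ℚ x).comap U.subtype := by
    rw [derivedSeries_succ, Subgroup.commutator_le]
    intro a ha b hb
    have h1 := h _ (inv_mem ha) _ (inv_mem hb)
    rw [Subgroup.mem_comap, commutatorElement_def, mem_St]
    change (a : GA) ((b : GA) (((a⁻¹ : U) : GA) (((b⁻¹ : U) : GA) x))) = x
    rw [h1, Subgroup.coe_inv, Subgroup.coe_inv, ← AlgEquiv.mul_apply (b : GA), mul_inv_cancel,
      AlgEquiv.one_apply, ← AlgEquiv.mul_apply, mul_inv_cancel, AlgEquiv.one_apply]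
  exact fun g hg => this hg

lemma brg_fix {ι : Type} [Fintype ι] (c : Ctx ι) {U : Subgroup GA} (hU : U ≤ c.G0) {x : Qb}
    (hx : c.Dv x) : ∀ g ∈ derivedSeries U 2, (g : GA) x = x := by
  have h0 := hx.ne
  obtain ⟨N, hN, w, hw⟩ := hx
  have h1 : ∀ ξ : Qb, ξ ^ N = 1 → ∀ g ∈ derivedSeries U 1, (g : GA) ξ = ξ := fun ξ hξ =>
    brg_comm fun a _ b _ => comm_root _ _ hN hξ
  have h2 : ∀ g : U, ∃ ξ : Qb, ξ ^ N = 1 ∧ (g : GA) x = ξ * x := fun g =>
    mult_ex _ h0 (by
      rw [hw, map_prod]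
      exact Finset.prod_congr rfl fun a _ => by rw [map_zpow₀, Ctx.mem_G0.1 (hU g.2) a])
  refine brg_comm fun a ha b hb => ?_
  obtain ⟨ξ, h3, h4⟩ := h2 a
  obtain ⟨η, h5, h6⟩ := h2 b
  rw [h4, h6, map_mul, map_mul, h4, h6, h1 η h5 a ha, h1 ξ h3 b hb, mul_left_comm]

theorem Ctx.solv_bridge {ι : Type} [Fintype ι] (c : Ctx ι) (θ α : Qb) {X : Set ℂ}
    (hX : ∀ y ∈ X, ∃ x : Qb, (x : ℂ) = y ∧ (c.Dv x ∨ x = θ))
    (h : Group.IsSolvable (minpoly (IntermediateField.adjoin ℚ X) (α : ℂ)).Gal) :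
    ∃ l, ∀ g ∈ derivedSeries ↥(c.G0 ⊓ St ℚ θ) l, (g : GA) α = α := by
  set U : Subgroup GA := c.G0 ⊓ St ℚ θ with hU
  set F := IntermediateField.adjoin ℚ X with hF
  have hK : F ≤ (IntermediateField.fixedField ((derivedSeries U 2).map U.subtype)).map
      (algebraicClosure ℚ ℂ).val := by
    rw [hF, IntermediateField.adjoin_le_iff]
    intro y hy
    obtain ⟨x, rfl, hx⟩ := hX y hy
    refine ⟨x, (IntermediateField.mem_fixedField_iff _ _).2 ?_, rfl⟩
    rintro _ ⟨g, hg, rfl⟩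
    rcases hx with hx | rfl
    · exact brg_fix c inf_le_left hx g hg
    · exact g.2.2
  have hle : F ≤ algebraicClosure ℚ ℂ := fun y hy => by
    obtain ⟨x, -, rfl⟩ := hK hy
    exact x.2
  let _ : Algebra F Qb := (IntermediateField.inclusion hle).toRingHom.toAlgebra
  have : IsScalarTower F Qb ℂ := IsScalarTower.of_algebraMap_eq fun _ => rfl
  have hfix : ∀ g : derivedSeries U 2, ∀ y : F,
      ((g : U) : GA) (algebraMap F Qb y) = algebraMap F Qb y := fun g y => by
    obtain ⟨x, hx, hxy⟩ := hK y.2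
    have e : algebraMap F Qb y = x := Subtype.ext hxy.symm
    rw [e]
    exact (IntermediateField.mem_fixedField_iff _ _).1 hx _ ⟨g, g.2, rfl⟩
  let φ : derivedSeries U 2 →* (Qb ≃ₐ[F] Qb) :=
    { toFun := fun g => AlgEquiv.ofRingEquiv (f := ((g : U) : GA).toRingEquiv) (hfix g)
      map_one' := AlgEquiv.ext fun _ => rfl
      map_mul' := fun _ _ => AlgEquiv.ext fun _ => rfl }
  have hint : IsIntegral F (α : ℂ) := (mem_algebraicClosure_iff'.1 α.2).tower_top
  have hα : Polynomial.aeval α (minpoly F (α : ℂ)) = 0 := by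
    have e : minpoly F (α : ℂ) = minpoly F α :=
      minpoly.algebraMap_eq (A := F) (B := Qb) (B' := ℂ) Subtype.val_injective α
    rw [e]
    exact minpoly.aeval F α
  obtain ⟨n, hn⟩ := brg_abs φ (minpoly.ne_zero hint) h hα
  refine ⟨2 + n, fun g hg => ?_⟩
  rw [brg_ds] at hg
  obtain ⟨b, hb, rfl⟩ := hg
  exact hn b hb

end Pool.Agent.Lib.MP_f61260_nt
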