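import Pool.Agent.Lib.MP_f61260_nt.Sl.Defs

/-! Levels, independence and degeneracy modulo the division group. -/

set_option autoImplicit false
set_option maxHeartbeats 400000

namespace Pool.Agent.Lib.MP_f61260_nt

/-- admissible levels above the base level `n0` -/
structure Lvl (S : Finset ℕ) (n0 m n : ℕ) : Prop where
  pos0 : 0 < n0
  pos : 0 < m
  dvd : n ∣ m
  ex : ∃ s, 0 < s ∧ s.primeFactors ⊆ S ∧ n ∣ n0 * s

/-- all conjugates under `U` agree with `γ` or its inverse modulo the division group -/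
def Ctx.Deg {ι : Type} [Fintype ι] (c : Ctx ι) (U : Subgroup GA) (γ : Qb) : Prop :=
  ∀ g ∈ U, c.Dv (g γ / γ) ∨ c.Dv (g γ * γ)

/-- multiplicative independence modulo the division group -/
def Ctx.Ind {ι : Type} [Fintype ι] (c : Ctx ι) {σ : Type} [Fintype σ] (P : σ → Qb) : Prop :=
  ∀ a, a ≠ 0 → ¬ c.Dv (mon P a)

/-- a step of a tower: solvable, or with a small normal closure -/
def GStep (μ : ℕ) (A B : Subgroup GA) (e : ℕ) : Prop :=
  (∃ l, ∀ g ∈ derivedSeries A l, (g : GA) ∈ B) ∨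
    ∃ W : Subgroup GA, W ≤ A ∧ IdxLe A W (e ^ μ) ∧ ∀ g ∈ A, ∀ w ∈ W, g⁻¹ * w * g ∈ B

lemma Lvl.npos {S : Finset ℕ} {n0 m n : ℕ} (h : Lvl S n0 m n) : 0 < n :=
  Nat.pos_of_dvd_of_pos h.dvd h.pos

lemma idx_conj {U W : Subgroup GA} {y : Qb} {n : ℕ} (h : IdxLe U (St ℚ y) n) {g : GA}
    (hW : ∀ w ∈ W, g⁻¹ * w * g ∈ U) : IdxLe W (St ℚ (g y)) n :=
  (h.comap (MulAut.conj g⁻¹).toMonoidHom (B' := W) fun w hw => by simpa using hW w hw).restrict
    le_rfl fun w hw => by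
      have h1 : (g⁻¹ * w * g) y = y := by simpa using hw.2
      rw [mem_St]
      conv_rhs => rw [← h1]
      rw [← AlgEquiv.mul_apply g (g⁻¹ * w * g), ← AlgEquiv.mul_apply w g]
      congr 1
      group

end Pool.Agent.Lib.MP_f61260_nt
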