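import Pool.Agent.Lib.MP_f61260_nt.Sl.G3

/-! Independent conjugates with a small common orbit, at least two lines. -/

set_option autoImplicit false
set_option maxHeartbeats 400000

namespace Pool.Agent.Lib.MP_f61260_nt

open MulAction

theorem solv_orbit2 : ∃ C : ℕ, 0 < C ∧ ∀ (G M : Type) [Group G] [AddCommGroup M]
    [IsAddTorsionFree M] [DistribMulAction G M] (a : M) (D l : ℕ), a ≠ 0 →
    IdxLe ⊤ (stabilizer G a) D → (∃ g : G, g • a ≠ a ∧ g • a ≠ -a) →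
    (∀ g ∈ derivedSeries G l, g • a = a ∨ g • a = -a) →
    ∃ r, 1 ≤ r ∧ r ≤ 18 ∧ ∃ τ : Fin (r + 1) → G, LinearIndependent ℤ (fun i => τ i • a) ∧
      IdxLe ⊤ (⨅ i, stabilizer G (τ i • a)) (C * D ^ r) := by
  obtain ⟨C, hC, H⟩ := solv_orbit
  refine ⟨C * C, Nat.mul_pos hC hC, ?_⟩
  rintro G M _ _ _ _ a D l ha hD ⟨g, hg1, hg2⟩ hl
  have hl' : derivedSeries G (l + 1) ≤ stabilizer G a := by
    rw [derivedSeries_succ, Subgroup.commutator_le]
    intro x hx y hy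
    have key : ∀ z : G, (z • a = a → z⁻¹ • a = a) ∧ (z • a = -a → z⁻¹ • a = -a) := fun z =>
      ⟨fun h => inv_smul_eq_iff.2 h.symm, fun h => inv_smul_eq_iff.2 (by rw [smul_neg, h, neg_neg])⟩
    rw [mem_stabilizer_iff, commutatorElement_def, mul_smul, mul_smul, mul_smul]
    rcases hl x hx with h1 | h1 <;> rcases hl y hy with h2 | h2
    · rw [(key y).1 h2, (key x).1 h1, h2, h1]
    · rw [(key y).2 h2, smul_neg, (key x).1 h1, smul_neg, h2, neg_neg, h1]
    · rw [(key y).1 h2, (key x).2 h1, smul_neg, h2, smul_neg, h1, neg_neg]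
    · rw [(key y).2 h2, smul_neg, (key x).2 h1, neg_neg, h2, smul_neg, h1, neg_neg]
  obtain ⟨r, hr, τ, h1, h2⟩ := H G M a D (l + 1) ha hD hl'
  rcases Nat.eq_zero_or_pos r with rfl | hr0
  swap
  · exact ⟨r, hr0, hr, τ, h1, h2.mono (Nat.mul_le_mul_right _ (Nat.le_mul_of_pos_left C hC))⟩
  have hD0 : 0 < D := let ⟨T, hT⟩ := hD; T.card_pos.trans_le hT
  obtain ⟨R, hR, hR2⟩ := g3_fin (a := τ 0 • a)
    (h2.restrict le_rfl (inf_le_right.trans (iInf_le (fun i => stabilizer G (τ i • a)) 0)))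
  rw [pow_zero, mul_one] at hR
  have h3 : ∀ σ : G, IdxLe ⊤ (stabilizer G (σ • a)) C := fun σ =>
    (g3_orb ⊤ _ R fun x _ => by simpa [mul_smul] using hR2 (x * σ * (τ 0)⁻¹)).mono hR
  obtain ⟨t, ht, -, ht2⟩ := Subgroup.exists_pow_mem_of_index_ne_zero (g3_index hD) g
  refine ⟨1, le_rfl, by omega, ![1, g], ?_, (IdxLe.iInf fun i => h3 _).mono ?_⟩
  · have e : (fun i => (![1, g] : Fin 2 → G) i • a) = ![a, g • a] := by
      funext i
      fin_cases i <;> simp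
    rw [e]
    exact pair_li ha ht ht2 hg1 hg2
  · rw [Fin.prod_univ_two, pow_one]
    exact Nat.le_mul_of_pos_right _ hD0

end Pool.Agent.Lib.MP_f61260_nt
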