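import Pool.Agent.Lib.MP_f61260_nt.Sl.G3

/-! Orbits of small rank are bounded. -/

set_option autoImplicit false
set_option maxHeartbeats 400000

namespace Pool.Agent.Lib.MP_f61260_nt

open MulAction

theorem mk_fix {L : Type} [AddCommGroup L] {ι : Type} [Fintype ι]
    (b : Module.Basis ι ℤ L) (g : Module.End ℤ L) {n : ℕ} (hn : 0 < n) (h1 : g ^ n = 1)
    (h2 : ∀ x, ∃ y, g x = x + 3 • y) (x : L) : g x = x := by
  let A : L → ℕ := fun x => ∑ i, (b.repr x i).natAbs
  have hA1 : ∀ x y, A (x - y) ≤ A x + A y := fun x y => by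
    simp only [A, map_sub, Finsupp.sub_apply, ← Finset.sum_add_distrib]
    exact Finset.sum_le_sum fun i _ => Int.natAbs_sub_le _ _
  have hA2 : ∀ x, A (3 • x) = 3 * A x := fun x => by
    simp only [A, map_nsmul, Finsupp.smul_apply, Finset.mul_sum, nsmul_eq_mul, Int.natAbs_mul,
      Int.natAbs_natCast]
  have hA3 : ∀ x, A x = 0 → x = 0 := fun x h => b.repr.map_eq_zero_iff.1
    (Finsupp.ext fun i => Int.natAbs_eq_zero.1 (Finset.sum_eq_zero_iff.1 h i (Finset.mem_univ i)))
  let N : L → ℕ := fun x => ∑ j ∈ Finset.range n, A ((g ^ j) x)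
  have hN1 : ∀ x, N (g x) = N x := fun x => by
    have e1 := Finset.sum_range_succ (fun j => A ((g ^ j) x)) n
    have e2 := Finset.sum_range_succ' (fun j => A ((g ^ j) x)) n
    simp only [h1, pow_zero, pow_succ, Module.End.mul_apply] at e1 e2
    simp only [N]
    omega
  have hN2 : ∀ x y, g x = x + 3 • y → 3 * N y ≤ 2 * N x := fun x y h => by
    have e : 3 * N y ≤ N (g x) + N x := by
      simp only [N, Finset.mul_sum, ← Finset.sum_add_distrib]
      refine Finset.sum_le_sum fun j _ => ?_
      rw [← hA2, ← map_nsmul, eq_sub_of_add_eq' h.symm, map_sub]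
      exact hA1 _ _
    rw [hN1] at e
    omega
  have hN3 : ∀ x, N x = 0 → x = 0 := fun x h => hA3 x (by
    simpa using Finset.sum_eq_zero_iff.1 h 0 (Finset.mem_range.2 hn))
  induction hx : N x using Nat.strong_induction_on generalizing x with
  | _ k ih =>
    obtain ⟨y, hy⟩ := h2 x
    rcases Nat.eq_zero_or_pos k with rfl | hk
    · rw [hN3 x hx, map_zero]
    have h3 : g y = y := ih (N y) (by have := hN2 x y hy; omega) y rfl
    have h4 : ∀ j : ℕ, (g ^ j) x = x + (j * 3) • y := fun j => by
      induction j with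
      | zero => simp
      | succ j ihj =>
        rw [pow_succ', Module.End.mul_apply, ihj, map_add, map_nsmul, h3, hy, add_mul, one_mul,
          add_nsmul]
        abel
    have h5 := h4 n
    rw [h1, Module.End.one_apply, left_eq_add] at h5
    have h6 : y = 0 := b.ext_elem fun i => by
      have := congrArg (fun v => b.repr v i) h5
      simpa [hn.ne'] using this
    rw [hy, h6, smul_zero, add_zero]

theorem mk_orbit {G M : Type} [Group G] [AddCommGroup M] [IsAddTorsionFree M]
    [DistribMulAction G M] (a : M) {D : ℕ} (hD : IdxLe ⊤ (stabilizer G a) D) (m : ℕ) :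
    (∃ τ : Fin (m + 1) → G, LinearIndependent ℤ fun i => τ i • a) ∨
      IdxLe ⊤ (stabilizer G a) (3 ^ (m * m)) := by
  classical
  obtain ⟨R, -, hR⟩ := g3_fin hD
  have hf : (orbit G a).Finite := R.finite_toSet.subset (by rintro _ ⟨σ, rfl⟩; exact hR σ)
  obtain ⟨s, hs, hmax⟩ := exists_maximal_linearIndepOn ℤ fun g : G => g • a
  by_cases he : Nonempty (Fin (m + 1) ↪ s)
  · obtain ⟨e⟩ := he
    exact Or.inl ⟨fun i => e i, LinearIndependent.comp hs e e.injective⟩
  right
  have : Finite s := by
    by_contra h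
    have := not_finite_iff_infinite.1 h
    exact he ⟨Fin.valEmbedding.trans (Infinite.natEmbedding s)⟩
  have := Fintype.ofFinite s
  have hsm : Fintype.card s ≤ m := by
    by_contra h
    exact he (Function.Embedding.nonempty_of_card_le (by rw [Fintype.card_fin]; omega))
  let L : Submodule ℤ M := Submodule.span ℤ (orbit G a)
  let L' : Submodule ℤ M := Submodule.span ℤ (Set.range fun j : s => (j : G) • a)
  have : Module.Finite ℤ L := Module.Finite.span_of_finite ℤ hf
  have : Module.Finite ℤ L' := Module.Finite.span_of_finite ℤ (Set.finite_range _)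
  have hn : ∀ y : hf.toFinset, ∃ n : ℤ, n ≠ 0 ∧ n • (y : M) ∈ L' := fun ⟨y, hy⟩ => by
    obtain ⟨g, rfl⟩ := hf.mem_toFinset.1 hy
    by_cases hg : g ∈ s
    · exact ⟨1, one_ne_zero, by rw [one_smul]; exact Submodule.subset_span ⟨⟨g, hg⟩, rfl⟩⟩
    · have := hmax g hg
      rwa [Set.image_eq_range] at this
  choose n hn hn' using hn
  have hLL : ∀ x ∈ L, (∏ y, n y) • x ∈ L' := fun x hx => by
    induction hx using Submodule.span_induction with
    | mem x hx =>
      obtain ⟨k, hk⟩ := Finset.dvd_prod_of_mem n (Finset.mem_univ ⟨x, hf.mem_toFinset.2 hx⟩)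
      rw [hk, mul_comm, mul_smul]
      exact L'.smul_mem k (hn' ⟨x, hf.mem_toFinset.2 hx⟩)
    | zero => rw [smul_zero]; exact L'.zero_mem
    | add x y _ _ hx hy => rw [smul_add]; exact L'.add_mem hx hy
    | smul c x _ hx => rw [smul_comm]; exact L'.smul_mem c hx
  have hr : Module.finrank ℤ L ≤ m := by
    refine (LinearMap.finrank_le_finrank_of_injective
      (f := ((∏ y, n y) • L.subtype).codRestrict L' fun x => hLL x x.2) fun x y h => ?_).trans
      ((finrank_range_le_card _).trans hsm)
    have h' : (∏ y, n y) • (x : M) = (∏ y, n y) • (y : M) := congrArg Subtype.val h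
    exact Subtype.ext (zsmul_right_injective (Finset.prod_ne_zero_iff.2 fun y _ => hn y) h')
  have hL : ∀ (g : G), ∀ x ∈ L, g • x ∈ L := fun g x hx => by
    induction hx using Submodule.span_induction with
    | mem x hx =>
      obtain ⟨h, rfl⟩ := hx
      exact Submodule.subset_span ⟨g * h, mul_smul g h a⟩
    | zero => rw [smul_zero]; exact L.zero_mem
    | add x y _ _ hx hy => rw [smul_add]; exact L.add_mem hx hy
    | smul c x _ hx => rw [smul_comm]; exact L.smul_mem c hx
  let ρ : G →* Module.End ℤ L :=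
    { toFun := fun g => (DistribSMul.toAddMonoidHom M g).toIntLinearMap.restrict (hL g)
      map_one' := LinearMap.ext fun x => Subtype.ext (one_smul G (x : M))
      map_mul' := fun g h => LinearMap.ext fun x => Subtype.ext (mul_smul g h (x : M)) }
  have hfi : (stabilizer G a).FiniteIndex := ⟨g3_index hD⟩
  have hpw : ∀ g : G, ∃ k, 0 < k ∧ ρ g ^ k = 1 := fun g => by
    obtain ⟨k, hk, -, h⟩ := Subgroup.exists_pow_mem_of_index_ne_zero
      (Subgroup.FiniteIndex.index_ne_zero (H := (stabilizer G a).normalCore)) g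
    refine ⟨k, hk, ?_⟩
    rw [← map_pow]
    refine LinearMap.ext fun ⟨x, hx⟩ => Subtype.ext ?_
    change g ^ k • x = x
    induction hx using Submodule.span_induction with
    | mem x hx =>
      obtain ⟨σ, rfl⟩ := hx
      have : (σ⁻¹ * g ^ k * σ⁻¹⁻¹) • a = a := h σ⁻¹
      rwa [inv_inv, mul_smul, mul_smul, inv_smul_eq_iff] at this
    | zero => exact smul_zero _
    | add x y _ _ hx hy => rw [smul_add, hx, hy]
    | smul c x _ hx => rw [smul_comm, hx]
  let b := Module.finBasis ℤ L
  have key := exists_trans (B := ⊤) (A := stabilizer G a) Finset.univ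
    (fun g (i j : Fin (Module.finrank ℤ L)) => ((b.repr (ρ g (b i)) j : ℤ) : ZMod 3))
    (fun _ _ => Finset.mem_univ _) fun σ _ τ _ e => by
      have h1 : ∀ i, ∃ y, ρ τ (b i) = ρ σ (b i) + 3 • y := fun i => by
        have h2 : ∀ j, ∃ c : ℤ, b.repr (ρ τ (b i)) j - b.repr (ρ σ (b i)) j = 3 * c := fun j =>
          (ZMod.intCast_eq_intCast_iff_dvd_sub _ _ 3).1 (congrFun (congrFun e i) j)
        choose c hc using h2
        refine ⟨∑ j, c j • b j, b.ext_elem fun j => ?_⟩
        rw [map_add, map_nsmul, Finsupp.add_apply, Finsupp.smul_apply, b.repr_sum_self,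
          nsmul_eq_mul]
        have := hc j
        push_cast
        linarith
      choose y hy using h1
      obtain ⟨k, hk, hk'⟩ := hpw (σ⁻¹ * τ)
      have h3 := mk_fix b (ρ (σ⁻¹ * τ)) hk hk' (fun x => ⟨ρ σ⁻¹ (∑ i, b.repr x i • y i), by
        have h4 : ρ τ x = ρ σ x + 3 • ∑ i, b.repr x i • y i := by
          have h5 : ∀ g, ρ g x = ∑ i, b.repr x i • ρ g (b i) := fun g => by
            conv_lhs => rw [← b.sum_repr x]
            simp only [map_sum, map_zsmul]
          simp only [h5, hy, smul_add, Finset.sum_add_distrib, Finset.smul_sum, smul_comm (3 : ℕ)]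
        rw [map_mul, Module.End.mul_apply, h4, map_add, map_nsmul, ← Module.End.mul_apply,
          ← map_mul, inv_mul_cancel, map_one, Module.End.one_apply]⟩)
        ⟨a, Submodule.subset_span (mem_orbit_self a)⟩
      exact congrArg Subtype.val h3
  refine IdxLe.mono key ?_
  rw [Finset.card_univ, Fintype.card_fun, Fintype.card_fun, ZMod.card, Fintype.card_fin, ← pow_mul]
  exact Nat.pow_le_pow_right three_pos (Nat.mul_le_mul hr hr)

end Pool.Agent.Lib.MP_f61260_nt
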