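import Pool.Agent.Lib.MP_f61260_nt.Sl.Conj
import Pool.Agent.Lib.MP_f61260_nt.Sl.Df2
import Pool.Agent.Lib.MP_f61260_nt.Sl.G4
import Pool.Agent.Lib.MP_f61260_nt.Sl.Mk

/-! Classes modulo the division group. -/

set_option autoImplicit false
set_option maxHeartbeats 400000

namespace Pool.Agent.Lib.MP_f61260_nt

theorem Ctx.ex_cls {ι : Type} [Fintype ι] (c : Ctx ι) {U : Subgroup GA} (hU : U ≤ c.G0) :
    ∃ (M : Type) (_ : AddCommGroup M) (_ : IsAddTorsionFree M) (_ : DistribMulAction U M)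
      (cl : Qb → M), (∀ (g : U) (x : Qb), x ≠ 0 → g • cl x = cl ((g : GA) x)) ∧
      (∀ x y, x ≠ 0 → y ≠ 0 → cl (x * y) = cl x + cl y) ∧
      ∀ x, x ≠ 0 → (cl x = 0 ↔ c.Dv x) := by
  classical
  let Ds : Subgroup Qbˣ :=
    { carrier := {u | c.Dv (u : Qb)}
      one_mem' := Ctx.dv_tor ⟨1, one_pos, by simp⟩
      mul_mem' := fun {a b} ha hb => by
        change c.Dv ((a * b : Qbˣ) : Qb)
        rw [Units.val_mul]
        exact Ctx.Dv.mul ha hb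
      inv_mem' := fun {a} ha => by
        change c.Dv ((a⁻¹ : Qbˣ) : Qb)
        rw [Units.val_inv_eq_inv_val]
        exact Ctx.Dv.inv ha }
  let φ : U → Qbˣ →* Qbˣ := fun g => Units.map ((g : GA) : Qb →* Qb)
  have hφ : ∀ g : U, Ds ≤ Ds.comap (φ g) := fun g x hx => Ctx.conj_act hx (hU g.2)
  let cl : Qbˣ → Additive (Qbˣ ⧸ Ds) := fun x => Additive.ofMul (QuotientGroup.mk' Ds x)
  have hcl : ∀ x y, cl x = cl y ↔ c.Dv ((x : Qb)⁻¹ * y) := fun x y => by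
    rw [← Units.val_inv_eq_inv_val, ← Units.val_mul]
    exact Additive.ofMul.injective.eq_iff.trans QuotientGroup.eq
  have hsurj : ∀ m, ∃ x, cl x = m := fun m => QuotientGroup.mk'_surjective Ds m.toMul
  let _ : DistribMulAction U (Additive (Qbˣ ⧸ Ds)) :=
    { smul := fun g m => Additive.ofMul (QuotientGroup.map Ds Ds (φ g) (hφ g) m.toMul)
      one_smul := fun m => by
        obtain ⟨x, rfl⟩ := hsurj m
        rfl
      mul_smul := fun g g' m => by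
        obtain ⟨x, rfl⟩ := hsurj m
        rfl
      smul_zero := fun g => congrArg Additive.ofMul (map_one (QuotientGroup.map Ds Ds (φ g) (hφ g)))
      smul_add := fun g m m' =>
        congrArg Additive.ofMul (map_mul (QuotientGroup.map Ds Ds (φ g) (hφ g)) m.toMul m'.toMul) }
  have hsm : ∀ (g : U) x, g • cl x = cl (φ g x) := fun g x => rfl
  have h0 : ∀ x, cl x = 0 ↔ c.Dv (x : Qb) := fun x =>
    Additive.ofMul.injective.eq_iff.trans (QuotientGroup.eq_one_iff x)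
  have : IsAddTorsionFree (Additive (Qbˣ ⧸ Ds)) := by
    refine (isAddTorsionFree_iff_not_isOfFinAddOrder (G := Additive (Qbˣ ⧸ Ds))).2
      fun m hm hf => hm ?_
    obtain ⟨x, rfl⟩ := hsurj m
    obtain ⟨n, hn, h⟩ := isOfFinAddOrder_iff_nsmul_eq_zero.1 hf
    have h1 : cl (x ^ n) = 0 := by
      rw [← h]
      simp only [cl, map_pow, ofMul_pow]
    rw [h0, Units.val_pow_eq_pow_val] at h1
    exact (h0 x).2 (Ctx.Dv.of_pow hn h1)
  let cl' : Qb → Additive (Qbˣ ⧸ Ds) := fun x => if h : x = 0 then 0 else cl (Units.mk0 x h)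
  have hcl' : ∀ x (h : x ≠ 0), cl' x = cl (Units.mk0 x h) := fun x h => dif_neg h
  refine ⟨Additive (Qbˣ ⧸ Ds), inferInstance, this, inferInstance, cl', fun g x hx => ?_,
    fun x y hx hy => ?_, fun x hx => ?_⟩
  · rw [hcl' x hx, hcl' _ ((map_ne_zero _).2 hx), hsm]
    exact congrArg cl (Units.ext rfl)
  · rw [hcl' x hx, hcl' y hy, hcl' _ (mul_ne_zero hx hy), Units.mk0_mul]
    rfl
  · rw [hcl' x hx]
    exact h0 _

lemma cj2_iff {ι : Type} [Fintype ι] {c : Ctx ι} {x y : Qb} {e : ℕ} (hx : c.Dv x) (he : 0 < e) :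
    c.Dv (x * y ^ e) ↔ c.Dv y :=
  ⟨fun h => Ctx.Dv.of_pow he (by
    have := hx.inv.mul h
    rwa [inv_mul_cancel_left₀ hx.ne] at this), fun h => hx.mul (h.pow e)⟩

section

variable {ι : Type} [Fintype ι] {c : Ctx ι} {M : Type} [AddCommGroup M] {cl : Qb → M}
  (hm : ∀ x y, x ≠ 0 → y ≠ 0 → cl (x * y) = cl x + cl y) (h0 : ∀ x, x ≠ 0 → (cl x = 0 ↔ c.Dv x))

include hm h0

lemma cj2_div {x y : Qb} (hx : x ≠ 0) (hy : y ≠ 0) : cl x = cl y ↔ c.Dv (x / y) := by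
  have h := hm (x / y) y (div_ne_zero hx hy) hy
  rw [div_mul_cancel₀ x hy] at h
  rw [← h0 _ (div_ne_zero hx hy), h, add_eq_right]

lemma cj2_neg {x y : Qb} (hx : x ≠ 0) (hy : y ≠ 0) : cl x = -cl y ↔ c.Dv (x * y) := by
  rw [← h0 _ (mul_ne_zero hx hy), hm x y hx hy, eq_neg_iff_add_eq_zero]

lemma cj2_ind {σ : Type} [Fintype σ] {P : σ → Qb} (hP : ∀ i, P i ≠ 0)
    (h : LinearIndependent ℤ fun i => cl (P i)) : c.Ind P := fun a ha hdv => ha (by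
  let φ : Additive Qbˣ →+ M := AddMonoidHom.mk' (fun x => cl (x.toMul : Qbˣ)) fun x y =>
    hm _ _ x.toMul.ne_zero y.toMul.ne_zero
  refine funext (Fintype.linearIndependent_iff.1 h a ?_)
  have h3 : φ (Additive.ofMul (∏ i, Units.mk0 (P i) (hP i) ^ a i)) = 0 := by
    refine (h0 _ (Units.ne_zero _)).2 ?_
    rw [toMul_ofMul, Units.coe_prod]
    simp only [Units.val_zpow_eq_zpow_val]
    exact hdv
  rw [← h3]
  simp only [ofMul_prod, ofMul_zpow, map_sum, map_zsmul]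
  rfl)

lemma cj2_fix {U : Subgroup GA} (hU : U ≤ c.G0) {β : Qb} (hβ : β ≠ 0) (hr : Rig U β) {τ u : GA}
    (hτ : τ ∈ U) (hu : u ∈ U) (h : cl (u (τ β)) = cl (τ β)) : u (τ β) = τ β := by
  have h1 : τ β ≠ 0 := (map_ne_zero _).2 hβ
  rw [cj2_div hm h0 ((map_ne_zero _).2 h1) h1, div_eq_inv_mul] at h
  exact Ctx.conj_fix hU h1 (hr.conj fun v hv => U.mul_mem (U.mul_mem (U.inv_mem hτ) hv) hτ) hu h

end

lemma cj2_stab {U : Subgroup GA} {M : Type} [AddCommGroup M] [DistribMulAction U M] {cl : Qb → M}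
    (hsm : ∀ (g : U) (x : Qb), x ≠ 0 → g • cl x = cl ((g : GA) x)) {β : Qb} (hβ : β ≠ 0) {D : ℕ}
    (hD : IdxLe U (St ℚ β) D) : IdxLe ⊤ (MulAction.stabilizer U (cl β)) D :=
  (hD.comap U.subtype (B' := ⊤) fun σ _ => σ.2).restrict le_rfl fun g hg => by
    rw [MulAction.mem_stabilizer_iff, hsm g β hβ]
    exact congrArg cl hg.2

theorem Ctx.deg_pow {ι : Type} [Fintype ι] {c : Ctx ι} {U : Subgroup GA} (hU : U ≤ c.G0)
    {γ ξ : Qb} {e : ℕ} (hγ : γ ≠ 0) (hξ : c.Dv ξ) (he : 0 < e) :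
    c.Deg U (ξ * γ ^ e) ↔ c.Deg U γ := by
  refine forall₂_congr fun g hg => ?_
  have h1 := Ctx.conj_act hξ (hU hg)
  have h2 := hξ.ne
  refine or_congr ((congrArg c.Dv ?_).to_iff.trans (cj2_iff (h1.mul hξ.inv) he))
    ((congrArg c.Dv ?_).to_iff.trans (cj2_iff (h1.mul hξ) he))
  · rw [map_mul, map_pow, div_pow]
    field_simp
  · rw [map_mul, map_pow, mul_pow]
    ring

theorem Ctx.ind_pow {ι σ : Type} [Fintype ι] [Fintype σ] {c : Ctx ι} {τ : σ → GA}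
    (hτ : ∀ i, τ i ∈ c.G0) {γ ξ : Qb} {e : ℕ} (hξ : c.Dv ξ) (he : 0 < e) :
    (c.Ind fun i => τ i (ξ * γ ^ e)) ↔ c.Ind fun i => τ i γ := by
  refine forall₂_congr fun a _ => not_congr ?_
  have h1 : c.Dv (mon (fun i => τ i ξ) a) := Ctx.dv_mon (fun i => Ctx.conj_act hξ (hτ i)) a
  refine (congrArg c.Dv ?_).to_iff.trans (cj2_iff h1 he)
  rw [← mon_pw, ← mon_mul]
  exact congrArg (mon · a) (funext fun i => by rw [map_mul, map_pow]; rfl)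

theorem Ctx.deg_two {ι : Type} [Fintype ι] {c : Ctx ι} {U : Subgroup GA} (hU : U ≤ c.G0)
    {β : Qb} (hβ : β ≠ 0) (hr : Rig U β) (h : c.Deg U β) : IdxLe U (St ℚ β) 2 := by
  obtain ⟨M, _, _, _, cl, hsm, hm, h0⟩ := c.ex_cls hU
  refine conj_back (g3_two ⊤ (cl β) fun σ _ => ?_) fun u hu => ?_
  · have h1 : (σ : GA) β ≠ 0 := (map_ne_zero _).2 hβ
    rw [hsm σ β hβ]
    exact (h σ σ.2).imp (cj2_div hm h0 h1 hβ).2 (cj2_neg hm h0 h1 hβ).2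
  · rw [MulAction.mem_stabilizer_iff, hsm u β hβ] at hu
    exact cj2_fix hm h0 hU hβ hr U.one_mem u.2 hu

theorem Ctx.solv_conj2 : ∃ C : ℕ, 0 < C ∧ ∀ (ι : Type) [Fintype ι] (c : Ctx ι) (U : Subgroup GA)
    (β : Qb) (D l : ℕ), U ≤ c.G0 → β ≠ 0 → Rig U β → IdxLe U (St ℚ β) D → ¬ c.Deg U β →
    (∀ g ∈ derivedSeries U l, c.Dv ((g : GA) β / β) ∨ c.Dv ((g : GA) β * β)) →
    ∃ r, 1 ≤ r ∧ r ≤ 18 ∧ ∃ τ : Fin (r + 1) → GA, (∀ i, τ i ∈ U) ∧ (c.Ind fun i => τ i β) ∧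
      IdxLe U (⨅ i, St ℚ (τ i β)) (C * D ^ r) := by
  obtain ⟨C, hC, H⟩ := solv_orbit2
  refine ⟨C, hC, fun ι _ c U β D l hU hβ hr hD hnd hl => ?_⟩
  obtain ⟨M, _, _, _, cl, hsm, hm, h0⟩ := c.ex_cls hU
  have hg : ∀ g : GA, g β ≠ 0 := fun g => (map_ne_zero _).2 hβ
  obtain ⟨g, hgU, k1, k2⟩ : ∃ g ∈ U, ¬ c.Dv (g β / β) ∧ ¬ c.Dv (g β * β) := by
    simpa [Ctx.Deg, not_or] using hnd
  obtain ⟨r, hr1, hr2, τ, h1, h2⟩ := H U M (cl β) D l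
    (fun h => k2 ((Ctx.conj_act ((h0 β hβ).1 h) (hU hgU)).mul ((h0 β hβ).1 h)))
    (cj2_stab hsm hβ hD) ⟨⟨g, hgU⟩, by
      rw [hsm _ β hβ]
      exact ⟨fun h => k1 ((cj2_div hm h0 (hg g) hβ).1 h),
        fun h => k2 ((cj2_neg hm h0 (hg g) hβ).1 h)⟩⟩ fun σ hσ => by
      rw [hsm σ β hβ]
      exact (hl σ hσ).imp (cj2_div hm h0 (hg σ) hβ).2 (cj2_neg hm h0 (hg σ) hβ).2
  refine ⟨r, hr1, hr2, fun i => τ i, fun i => (τ i).2, cj2_ind hm h0 (fun i => hg _)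
    (by simpa only [hsm _ β hβ] using h1), conj_back h2 fun u hu => Subgroup.mem_iInf.2 fun i => ?_⟩
  have h3 := Subgroup.mem_iInf.1 hu i
  rw [MulAction.mem_stabilizer_iff, hsm _ β hβ, hsm _ _ (hg _)] at h3
  exact cj2_fix hm h0 hU hβ hr (τ i).2 u.2 h3

theorem Ctx.low_conj (μ : ℕ) : ∃ B : ℕ, 0 < B ∧ ∀ (ι : Type) [Fintype ι] (c : Ctx ι)
    (U : Subgroup GA) (β : Qb) (D : ℕ), U ≤ c.G0 → β ≠ 0 → Rig U β → IdxLe U (St ℚ β) D →
    ¬ c.Deg U β → (∀ τ : Fin (μ + 1) → GA, (∀ i, τ i ∈ U) → ¬ c.Ind fun i => τ i β) →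
    ∃ τ : Fin (1 + 1) → GA, (∀ i, τ i ∈ U) ∧ (c.Ind fun i => τ i β) ∧
      IdxLe U (⨅ i, St ℚ (τ i β)) B := by
  refine ⟨3 ^ (μ * μ) * 3 ^ (μ * μ), by positivity, fun ι _ c U β D hU hβ hr hD hnd hno => ?_⟩
  obtain ⟨M, _, _, _, cl, hsm, hm, h0⟩ := c.ex_cls hU
  have hg : ∀ g : GA, g β ≠ 0 := fun g => (map_ne_zero _).2 hβ
  obtain ⟨g, hgU, k1, k2⟩ : ∃ g ∈ U, ¬ c.Dv (g β / β) ∧ ¬ c.Dv (g β * β) := by
    simpa [Ctx.Deg, not_or] using hnd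
  have hD' := cj2_stab hsm hβ hD
  rcases mk_orbit (cl β) hD' μ with ⟨τ, h1⟩ | h2
  · exact (hno (fun i => τ i) (fun i => (τ i).2) (cj2_ind hm h0 (fun i => hg _)
      (by simpa only [hsm _ β hβ] using h1))).elim
  have h3 : IdxLe U (St ℚ β) (3 ^ (μ * μ)) := conj_back h2 fun u hu => by
    rw [MulAction.mem_stabilizer_iff, hsm u β hβ] at hu
    exact cj2_fix hm h0 hU hβ hr U.one_mem u.2 hu
  have h4 : ∀ i, (![1, g] : Fin 2 → GA) i ∈ U := Fin.forall_fin_two.2 ⟨U.one_mem, hgU⟩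
  obtain ⟨t, ht, -, ht2⟩ := Subgroup.exists_pow_mem_of_index_ne_zero (g3_index hD') ⟨g, hgU⟩
  have h5 := pair_li
    (fun h => k2 ((Ctx.conj_act ((h0 β hβ).1 h) (hU hgU)).mul ((h0 β hβ).1 h))) ht ht2
    (by rw [hsm _ β hβ]; exact fun h => k1 ((cj2_div hm h0 (hg g) hβ).1 h))
    (by rw [hsm _ β hβ]; exact fun h => k2 ((cj2_neg hm h0 (hg g) hβ).1 h))
  refine ⟨![1, g], h4, cj2_ind hm h0 (fun i => hg _) ?_, (IdxLe.iInf fun i => idx_conj h3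
    fun w hw => U.mul_mem (U.mul_mem (U.inv_mem (h4 i)) hw) (h4 i)).mono
      (Fin.prod_univ_two _).le⟩
  have e : (fun i => cl ((![1, g] : Fin 2 → GA) i β)) = ![cl β, (⟨g, hgU⟩ : U) • cl β] := by
    funext i
    fin_cases i
    · rfl
    · exact (hsm ⟨g, hgU⟩ β hβ).symm
  rw [e]
  exact h5

end Pool.Agent.Lib.MP_f61260_nt
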