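import Pool.Agent.Lib.MP_f61260_nt.Sl.Cnt

/-! No circuit at a Kummer level of exponential size. -/

set_option autoImplicit false
set_option maxHeartbeats 400000

namespace Pool.Agent.Lib.MP_f61260_nt

open Module Submodule Real Filter

section

variable {ι σ : Type} [Fintype ι] [Fintype σ]

lemma cn2_eq {Q R : σ → Qb} {N : ℕ} (hQ : ∀ i, Q i ^ N = R i) (t : ι → Qb) (a : σ → ℤ)
    (v : ι → ℤ) : mon (Sum.elim Q t) (Sum.elim (fun i => N * a i) v) =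
      mon (Sum.elim R t) (Sum.elim a v) := by
  simp only [mon, Fintype.prod_sum_type, Sum.elim_inl, Sum.elim_inr, zpow_mul, zpow_natCast, hQ]

lemma cn2_nt {c : Ctx ι} (hind : ∀ w : ι → ℤ, Tor (∏ a, c.t a 1 ^ w a) → w = 0) {P Q : σ → Qb}
    {k : σ → ℕ} (hnd : ∀ a ∈ latK k, a ≠ 0 → ¬ c.Dv (mon P a)) {A N : ℕ} (hA : 0 < A)
    {w : σ → ι → ℤ} (hQ : ∀ i, Q i ^ N = P i * ∏ a, c.t a A ^ w i a) :
    ∀ b ∈ latK (Sum.elim (fun i => N * k i) fun _ : ι => 1), b ≠ 0 →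
      ¬ Tor (mon (Sum.elim Q fun a => c.t a A) b) := by
  intro b hb hb0
  choose e he using fun i => hb (.inl i)
  have e1 : b = Sum.elim (fun i => N * (k i * e i)) fun l => b (.inr l) := by
    funext i
    rcases i with i | l
    · simp [he i, mul_assoc]
    · rfl
  rw [e1, cn2_eq hQ]
  refine cnt_nt hind hnd hA w _ ?_ fun h => hb0 ?_
  · rintro (i | l)
    · exact dvd_mul_right _ _
    · exact one_dvd _
  · rw [e1]
    funext i
    rcases i with i | l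
    · exact mul_eq_zero_of_right _ (congrFun h (.inl i))
    · exact congrFun h (.inr l)

lemma cn2_alg {c : Ctx ι} {d m n Y μ Z δ : ℕ} (hd : IdxLe ⊤ c.G0 d) (hm : 0 < m) (hn : 0 < n)
    (hY : 0 < Y) (h0 : 0 < δ) {P Q : σ → Qb} {k : σ → ℕ} (h : Circ (c.Lv m n) P k μ)
    (hδ : 6 * Fintype.card σ * μ * Z ≤ δ) {w : σ → ι → ℤ}
    (hQ : ∀ i, Q i ^ (n * Y) = P i * ∏ a, c.t a (n * Y * (Y * δ)) ^ w i a)
    (hli : LinearIndependent (Kf (Mu m))
      fun b : bx (latK (Sum.elim (fun i => n * Y * k i) fun _ : ι => 1)) (n * Y * δ) =>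
        mon (Sum.elim Q fun a => c.t a (n * Y * (Y * δ))) b) :
    Z ≤ d * Y ^ Fintype.card ι := by
  classical
  have hN : 0 < n * Y := Nat.mul_pos hn hY
  have hA : 0 < Y * δ := Nat.mul_pos hY h0
  have hA' : (0 : ℤ) < (Y * δ : ℕ) := by exact_mod_cast hA
  obtain ⟨ψ, hψ⟩ : ∃ ψ : bx (latK k) δ × (ι → Fin n) → σ ⊕ ι → ℤ, ∀ y, ψ y =
      Sum.elim (fun i => (n * Y : ℕ) * y.1.1 i) fun l => (Y * δ : ℕ) * (y.2 l : ℕ) +
        (-∑ i, w i l * y.1.1 i) % (Y * δ : ℕ) := ⟨_, fun _ => rfl⟩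
  have m1 : ∀ y, ψ y ∈ bx (latK (Sum.elim (fun i => n * Y * k i) fun _ : ι => 1)) (n * Y * δ) := by
    intro y
    obtain ⟨h1, h2⟩ := mem_bx.1 y.1.2
    rw [hψ]
    refine mem_bx.2 ⟨?_, ?_⟩
    · rintro (i | l)
      · simp only [Sum.elim_inl, Nat.cast_mul (n * Y)]
        exact mul_dvd_mul_left _ (h1 i)
      · exact one_dvd _
    · rintro (i | l)
      · rw [Sum.elim_inl, abs_mul, Nat.abs_cast, Nat.cast_mul (n * Y)]
        exact mul_le_mul_of_nonneg_left (h2 i) (Nat.cast_nonneg _)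
      · have e1 := Int.emod_nonneg (-∑ i, w i l * y.1.1 i) hA'.ne'
        have e2 := Int.emod_lt_of_pos (-∑ i, w i l * y.1.1 i) hA'
        have e3 : ((y.2 l : ℕ) : ℤ) + 1 ≤ n := by exact_mod_cast (y.2 l).2
        have e4 := mul_le_mul_of_nonneg_left e3 hA'.le
        rw [Sum.elim_inr, abs_of_nonneg (by positivity), mul_assoc n, Nat.cast_mul n]
        linarith
  have m2 : Function.Injective fun y => (⟨ψ y, m1 y⟩ :
      bx (latK (Sum.elim (fun i => n * Y * k i) fun _ : ι => 1)) (n * Y * δ)) := by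
    intro y y' e
    replace e := congrArg Subtype.val e
    simp only [hψ] at e
    have e1 : y.1 = y'.1 := Subtype.ext (funext fun i =>
      mul_left_cancel₀ (Nat.cast_ne_zero.2 hN.ne') (congrFun e (.inl i)))
    refine Prod.ext e1 (funext fun l => Fin.ext ?_)
    have e2 := congrFun e (.inr l)
    simp only [Sum.elim_inr, e1, add_left_inj] at e2
    exact_mod_cast mul_left_cancel₀ hA'.ne' e2
  have h1 := finrank_span_eq_card (hli.comp _ m2)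
  rw [Fintype.card_prod, Fintype.card_coe, Fintype.card_fun, Fintype.card_fin] at h1
  have h2 := rank_idx (cnt_idx hd hm hN) (Set.finite_range fun y =>
    mon (Sum.elim Q fun a => c.t a (n * Y * (Y * δ))) (ψ y))
  have h3 : span (Kf (c.Lv m (n * Y))) (Set.range fun y =>
      mon (Sum.elim Q fun a => c.t a (n * Y * (Y * δ))) (ψ y)) ≤
      Sp (Kf (c.Lv m (n * Y))) (latK k) (mon P) δ := by
    rw [span_le]
    rintro _ ⟨y, rfl⟩
    simp only [hψ]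
    rw [cn2_eq hQ, cnt_mon fun a => (c.hs a).ne _]
    refine Submodule.smul_mem _ (⟨_, mem_Kf.2 (Fx.prod _ fun l _ => ?_)⟩ : Kf (c.Lv m (n * Y)))
      (mem_Sp y.1.2)
    have e1 : ∑ i, w i l * y.1.1 i + ((Y * δ : ℕ) * (y.2 l : ℕ) +
        (-∑ i, w i l * y.1.1 i) % (Y * δ : ℕ)) =
        (Y * δ : ℕ) * ((y.2 l : ℕ) - (-∑ i, w i l * y.1.1 i) / (Y * δ : ℕ)) := by
      rw [Int.emod_def]
      ring
    simp only [Sum.elim_inl, Sum.elim_inr]
    rw [e1, zpow_mul, zpow_natCast, (c.hs l).pw _ _ hN hA]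
    exact Fx.zpow (fun g hg => (Ctx.mem_Lv.1 hg).2 l) _
  have h4 := Submodule.finrank_mono h3
  have h5 : finrank (Kf (c.Lv m (n * Y))) (Sp (Kf (c.Lv m (n * Y))) (latK k) (mon P) δ) ≤
      HH (c.Lv m n) P k 1 δ := by
    rw [HH_one]
    exact rank_field (Ctx.Lv_mono hm hN dvd_rfl (dvd_mul_right _ _)) ((bx _ _).finite_toSet.image _)
  have h6 := h.shell hδ
  have h7 : 0 < (bx (latK k) δ).card := Finset.card_pos.2 ⟨0, zero_bx _ _⟩
  have h8 := (h1.ge.trans h2).trans (Nat.mul_le_mul_left _ (h4.trans h5))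
  refine Nat.le_of_mul_le_mul_left ?_ (Nat.mul_pos h7 (pow_pos hn (Fintype.card ι)))
  calc _ = Z * ((bx (latK k) δ).card * n ^ Fintype.card ι) := by ring
    _ ≤ Z * (d * (n * Y) ^ Fintype.card ι * HH (c.Lv m n) P k 1 δ) := Nat.mul_le_mul_left _ h8
    _ = d * (n * Y) ^ Fintype.card ι * (Z * HH (c.Lv m n) P k 1 δ) := by ring
    _ ≤ d * (n * Y) ^ Fintype.card ι * (bx (latK k) δ).card := Nat.mul_le_mul_left _ h6
    _ = _ := by ring

end

theorem Ctx.no_circ_lv2 {ι : Type} [Fintype ι] (c : Ctx ι)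
    (hind : ∀ w : ι → ℤ, Tor (∏ a, c.t a 1 ^ w a) → w = 0) (σ : Type) [Fintype σ] (K : ℕ) :
    ∃ κ : ℕ, ∀ᶠ x : ℕ in atTop, ∀ (P : σ → Qb) (k : σ → ℕ) (μ m n : ℕ) (H : ℝ), 0 < m → n ∣ m →
      n * μ ≤ x ^ K * 2 ^ x → Circ (c.Lv m n) P k μ →
      (∀ a ∈ latK k, a ≠ 0 → ¬ c.Dv (mon P a)) → c.HT P H → 1 < x ^ κ * μ * H := by
  obtain ⟨d, hd⟩ := c.idx_G0
  obtain ⟨κ1, h0⟩ := indep_ab (σ ⊕ ι)
  obtain ⟨r, hr⟩ : ∃ r, r = Fintype.card ι := ⟨_, rfl⟩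
  obtain ⟨ρ, hρ⟩ : ∃ ρ, ρ = Fintype.card σ := ⟨_, rfl⟩
  obtain ⟨E, hE⟩ : ∃ E, E = (κ1 + 1) * r := ⟨_, rfl⟩
  obtain ⟨G, hG⟩ : ∃ G, G = ∑ a, ht (c.t a 1) := ⟨_, rfl⟩
  obtain ⟨x1, hx1⟩ := exists_nat_ge (2 * ((ρ + 1) * G))
  refine ⟨κ1 + E + 1, ?_⟩
  filter_upwards [h0, eventually_ge_atTop (12 * ρ * (d + 1) + x1 + 1),
    (tendsto_pow_const_div_const_pow_of_one_lt (K + κ1 + E + 2)
      (show (1 : ℝ) < 3 / 2 by norm_num)).eventually (gt_mem_nhds one_pos)]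
    with x h0 hx hx' P k μ m n H hm hnm hn hC hnd hH
  by_contra hc
  rw [not_lt] at hc
  obtain ⟨e, he, hH⟩ := hH
  have hn0 := Nat.pos_of_dvd_of_pos hnm hm
  have hx0 : 0 < x := by omega
  obtain ⟨i0⟩ : Nonempty σ := by
    obtain ⟨κ, _, ⟨j⟩, f, _, -, h2, -⟩ := hC.ex
    by_contra h3
    exact (h2 j).2.1 (funext fun i => absurd ⟨i⟩ h3)
  have hρ0 : 0 < ρ := hρ ▸ Fintype.card_pos_iff.2 ⟨i0⟩
  have hμ0 : 0 < μ := (hC.pos i0).trans_le (hC.le i0)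
  obtain ⟨Y, hY⟩ : ∃ Y, Y = x ^ (κ1 + 1) := ⟨_, rfl⟩
  have hY0 : 0 < Y := by rw [hY]; positivity
  obtain ⟨Z, hZ⟩ : ∃ Z, Z = d * Y ^ r + 1 := ⟨_, rfl⟩
  obtain ⟨δ, hδ⟩ : ∃ δ, δ = 6 * ρ * μ * Z := ⟨_, rfl⟩
  have hδ0 : 0 < δ := by rw [hδ, hZ]; positivity
  have hN : 0 < n * Y := Nat.mul_pos hn0 hY0
  have hA0 : 0 < n * Y * (Y * δ) := by positivity
  choose w hw using fun i => Ctx.approx (he i) hA0 (P i)
  choose Q hQ using fun i => IsAlgClosed.exists_pow_nat_eq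
    (P i * ∏ a, c.t a (n * Y * (Y * δ)) ^ w i a) hN
  have hZ1 : Z ≤ (d + 1) * x ^ E := by
    have e2 : 1 ≤ x ^ E := Nat.one_le_pow _ _ hx0
    rw [hZ, hY, ← pow_mul, ← hE, add_mul, one_mul]
    omega
  have hδ1 : 2 * δ ≤ x ^ (E + 1) * μ :=
    calc 2 * δ ≤ 2 * (6 * ρ * μ * ((d + 1) * x ^ E)) := by rw [hδ]; gcongr
      _ = 12 * ρ * (d + 1) * x ^ E * μ := by ring
      _ ≤ x * x ^ E * μ := by gcongr; omega
      _ = _ := by ring
  have hδ2 : n * Y * δ ≤ 3 ^ x := by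
    have e1 : n * Y * δ ≤ x ^ (K + κ1 + E + 2) * 2 ^ x :=
      calc n * Y * δ ≤ n * Y * (x ^ (E + 1) * μ) := by gcongr; omega
        _ = Y * x ^ (E + 1) * (n * μ) := by ring
        _ ≤ Y * x ^ (E + 1) * (x ^ K * 2 ^ x) := by gcongr
        _ = _ := by rw [hY]; ring
    rw [div_lt_one (by positivity), div_pow, lt_div_iff₀ (by positivity)] at hx'
    exact e1.trans (by exact_mod_cast hx'.le)
  have hG0 : 0 ≤ G := hG ▸ Finset.sum_nonneg fun a _ => ht_nonneg _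
  have hH0 : 0 ≤ H := (Finset.sum_nonneg fun i _ => ht_nonneg _).trans hH
  have hs : ((n * Y : ℕ) : ℝ) * ∑ i, ht (Sum.elim Q (fun a => c.t a (n * Y * (Y * δ))) i) ≤
      H + (n * Y : ℕ) * ((ρ + 1) * (G / (n * Y * (Y * δ) : ℕ))) := by
    have e1 := Finset.sum_le_sum fun i (_ : i ∈ Finset.univ) => hw i
    rw [Finset.sum_add_distrib, Finset.sum_const, Finset.card_univ, ← hρ, ← hG, nsmul_eq_mul] at e1
    simp only [← hQ, ht_pow, ← Finset.mul_sum] at e1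
    simp only [Fintype.sum_sum_type, Sum.elim_inl, Sum.elim_inr, Ctx.ht_t _ hA0, ← Finset.sum_div,
      ← hG]
    have e2 : (1 : ℝ) ≤ (n * Y : ℕ) := by exact_mod_cast hN
    have e3 := le_mul_of_one_le_left (by positivity : 0 ≤ ρ * (G / (n * Y * (Y * δ) : ℕ))) e2
    linarith
  have hli := h0 m _ (latK (Sum.elim (fun i => n * Y * k i) fun _ : ι => 1)) (n * Y * δ) hm (by
      rintro (i | a)
      · refine fun h => mul_ne_zero (hC.ne i) ((Finset.prod_ne_zero_iff (s := Finset.univ)).2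
          fun a _ => zpow_ne_zero (w i a) ((c.hs a).ne (n * Y * (Y * δ)))) ?_
        rw [← hQ, show Q i = 0 from h, zero_pow hN.ne']
      · exact (c.hs a).ne _) (cn2_nt hind hnd hA0 hQ) hδ2 (by
      rw [Nat.cast_mul (n * Y), mul_comm _ (δ : ℝ), ← mul_assoc, mul_assoc]
      refine (mul_le_mul_of_nonneg_left hs (by positivity)).trans ?_
      have e1 : (2 * δ : ℝ) ≤ x ^ (E + 1) * μ := by exact_mod_cast hδ1
      have e2 : (x : ℝ) ^ κ1 * (2 * δ) * H ≤ x ^ (κ1 + E + 1) * μ * H := by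
        rw [add_assoc, pow_add (x : ℝ) κ1, mul_assoc ((x : ℝ) ^ κ1) _ (μ : ℝ)]
        gcongr
      have e3 : 2 * ((ρ + 1) * G) ≤ x := hx1.trans (by exact_mod_cast (by omega : x1 ≤ x))
      have e4 : (x : ℝ) ^ κ1 * δ * ((n * Y : ℕ) * ((ρ + 1) * (G / (n * Y * (Y * δ) : ℕ)))) =
          (ρ + 1) * G / x := by
        rw [hY]
        push_cast
        field_simp
        ring
      have e5 : (ρ + 1) * G / x ≤ 1 / 2 := by
        rw [div_le_iff₀ (by positivity)]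
        linarith
      rw [mul_add, e4]
      linarith)
  have h1 := cn2_alg hd hm hn0 hY0 hδ0 hC (by rw [← hρ, hδ]) hQ hli
  rw [← hr] at h1
  omega

end Pool.Agent.Lib.MP_f61260_nt
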