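import Pool.Agent.Lib.MP_f61260_nt.Ultra

/-! Ultrametric linear algebra. -/

set_option autoImplicit false
set_option maxHeartbeats 400000

namespace Pool.Agent.Lib.MP_f61260_nt

open Module

variable {F : Type} [NormedField F] [IsUltrametricDist F]

theorem ul_sum_lt {ι : Type} (s : Finset ι) {f : ι → F} {C : ℝ} (hC : 0 < C)
    (h : ∀ i ∈ s, ‖f i‖ < C) : ‖∑ i ∈ s, f i‖ < C := by
  classical
  induction s using Finset.induction_on with
  | empty => simpa using hC
  | insert a s ha ih =>
    rw [Finset.sum_insert ha]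
    exact nadd_lt (h a (Finset.mem_insert_self a s))
      (ih fun i hi => h i (Finset.mem_insert_of_mem hi))

theorem ul_key {L : Type} [Fintype L] (lam : L → ℝ) (hlam : Function.Injective lam)
    (G : L → L → F) (h1 : ∀ l m, ‖G l m‖ ≤ 1) (h2 : ∀ l, ‖G l l - 1‖ < 1)
    (h3 : ∀ l m, lam l < lam m → ‖G l m‖ < 1) (w : L → F) {ε : ℝ} (h0 : 0 ≤ ε)
    (h : ∀ l, ‖∑ m, G l m * w m‖ ≤ ε) (m : L) : ‖w m‖ ≤ ε := by
  classical
  by_contra hm
  obtain ⟨a, -, ha⟩ := Finset.exists_max_image Finset.univ (fun l => ‖w l‖) ⟨m, Finset.mem_univ m⟩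
  obtain ⟨l, hl, hb⟩ := Finset.exists_min_image (Finset.univ.filter fun l => ‖w l‖ = ‖w a‖) lam
    ⟨a, by simp⟩
  have e : ‖w l‖ = ‖w a‖ := (Finset.mem_filter.mp hl).2
  have hε : ε < ‖w l‖ := (not_le.mp hm).trans_le (e ▸ ha m (Finset.mem_univ m))
  have hp : 0 < ‖w l‖ := h0.trans_lt hε
  have k : ‖∑ m, G l m * w m - w l‖ < ‖w l‖ := by
    rw [← Finset.add_sum_erase _ _ (Finset.mem_univ l), add_sub_right_comm, ← sub_one_mul]
    refine nadd_lt ?_ (ul_sum_lt _ hp fun b hb' => ?_)
    · rw [norm_mul]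
      exact mul_lt_of_lt_one_left hp (h2 l)
    · rw [norm_mul]
      rcases (ha b (Finset.mem_univ b)).eq_or_lt with q | q
      · have q1 := hb b (by simp [q])
        have q2 : lam l < lam b :=
          lt_of_le_of_ne q1 fun x => (Finset.mem_erase.mp hb').1 (hlam x).symm
        rw [q, ← e]
        exact mul_lt_of_lt_one_left hp (h3 l b q2)
      · rw [e]
        exact (mul_le_of_le_one_left (norm_nonneg _) (h1 l b)).trans_lt q
  exact absurd ((norm_eq_of_sub_lt k) ▸ h l) (not_le.mpr hε)

theorem ul_det {ι : Type} [Fintype ι] [DecidableEq ι] (M : Matrix ι ι F) (r : ι → ℝ)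
    (h : ∀ i j, ‖M i j‖ ≤ r i) : ‖M.det‖ ≤ ∏ i, r i := by
  have h0 : ∀ i, 0 ≤ r i := fun i => (norm_nonneg _).trans (h i i)
  rw [Matrix.det_apply']
  refine nsum_le (Finset.prod_nonneg fun i _ => h0 i) fun σ _ => ?_
  rw [norm_mul, norm_prod, ← Equiv.prod_comp σ r]
  refine (mul_le_of_le_one_left (Finset.prod_nonneg fun i _ => norm_nonneg _)
    (IsUltrametricDist.norm_intCast_le_one F _)).trans ?_
  exact Finset.prod_le_prod (fun i _ => norm_nonneg _) fun i _ => h _ _

theorem approx_sub {C L : Type} [Fintype C] [Fintype L] (ld : L → C) (hld : Function.Injective ld)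
    (lam : C → ℝ) (hlam : Function.Injective lam) (G : L → C → F) (h1 : ∀ l m, ‖G l m‖ ≤ 1)
    (h2 : ∀ l, ‖G l (ld l) - 1‖ < 1) (h3 : ∀ l m, lam (ld l) < lam m → ‖G l m‖ < 1) :
    ∃ Z : Submodule F (C → F), finrank F Z + Fintype.card L ≤ Fintype.card C ∧
      ∀ (v : C → F) (ε : ℝ), 0 ≤ ε → (∀ l, ‖∑ m, G l m * v m‖ ≤ ε) →
        ∃ z ∈ Z, ∀ m, ‖v m - z m‖ ≤ ε := by
  classical
  have key := ul_key (fun l => lam (ld l)) (hlam.comp hld) (fun l m => G l (ld m))
    (fun l m => h1 l _) h2 fun l m => h3 l _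
  have inj : Function.Injective (Matrix.mulVecLin (Matrix.of fun l m => G l (ld m))) := by
    rw [injective_iff_map_eq_zero]
    intro w hw
    funext m
    refine norm_le_zero_iff.mp (key w le_rfl (fun l => ?_) m)
    have := congrFun hw l
    simp only [Matrix.mulVecLin_apply, Matrix.mulVec, dotProduct, Matrix.of_apply,
      Pi.zero_apply] at this
    rw [this, norm_zero]
  have sur := LinearMap.injective_iff_surjective.mp inj
  have ex : ∀ u : L → F, ∃ w : L → F, (∀ l, ∑ m, G l (ld m) * w m = u l) ∧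
      ∀ l, ∑ m, G l m * Function.extend ld w 0 m = u l := by
    intro u
    obtain ⟨w, hw⟩ := sur u
    have a : ∀ l, ∑ m, G l (ld m) * w m = u l := fun l => by
      simpa only [Matrix.mulVecLin_apply, Matrix.mulVec, dotProduct, Matrix.of_apply] using
        congrFun hw l
    refine ⟨w, a, fun l => ?_⟩
    rw [← a l]
    refine (Fintype.sum_of_injective ld hld _ _ (fun i hi => ?_) fun i => ?_).symm
    · rw [Function.extend_apply' _ _ _ hi, Pi.zero_apply, mul_zero]
    · rw [hld.extend_apply]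
  refine ⟨LinearMap.ker (Matrix.mulVecLin (Matrix.of G)), ?_, fun v ε h0 h => ?_⟩
  · have r : LinearMap.range (Matrix.mulVecLin (Matrix.of G)) = ⊤ := by
      rw [LinearMap.range_eq_top]
      intro u
      obtain ⟨w, -, hw⟩ := ex u
      exact ⟨Function.extend ld w 0, funext hw⟩
    have := LinearMap.finrank_range_add_finrank_ker (Matrix.mulVecLin (Matrix.of G))
    rw [r, finrank_top, finrank_fintype_fun_eq_card, finrank_fintype_fun_eq_card] at this
    omega
  · obtain ⟨w, a, b⟩ := ex fun l => ∑ m, G l m * v m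
    refine ⟨v - Function.extend ld w 0, ?_, fun m => ?_⟩
    · rw [LinearMap.mem_ker, map_sub, sub_eq_zero]
      exact funext fun l => (b l).symm
    · rw [Pi.sub_apply, sub_sub_cancel]
      by_cases hm : ∃ l, ld l = m
      · obtain ⟨l, rfl⟩ := hm
        rw [hld.extend_apply]
        exact key w h0 (fun l => (a l).symm ▸ h l) l
      · rw [Function.extend_apply' _ _ _ hm, Pi.zero_apply, norm_zero]
        exact h0

theorem det_small {ι : Type} [Fintype ι] [DecidableEq ι] (M : Matrix ι ι F)
    (Z : Submodule F (ι → F)) (β : ι → ℝ) {ε : ℝ} (h0 : 0 ≤ ε) (h1 : ε ≤ 1)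
    (h2 : ∀ i j, ‖M i j‖ ≤ β i) (h3 : ∀ i, ∃ z ∈ Z, ∀ j, ‖M i j - z j‖ ≤ ε * β i) :
    ‖M.det‖ ≤ ε ^ (Fintype.card ι - finrank F Z) * ∏ i, β i := by
  choose z hz he using h3
  have b0 : ∀ i, 0 ≤ β i := fun i => (norm_nonneg _).trans (h2 i i)
  have bz : ∀ i j, ‖z i j‖ ≤ β i := fun i j => by
    rw [← sub_sub_cancel (M i j) (z i j)]
    exact nsub_le (h2 i j) ((he i j).trans (mul_le_of_le_one_left (b0 i) h1))
  have e : M.det = Matrix.detRowAlternating (z + fun i j => M i j - z i j) := by
    congr 1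
    funext i j
    simp
  rw [e, AlternatingMap.map_add_univ]
  have pb : 0 ≤ ∏ i, β i := Finset.prod_nonneg fun i _ => b0 i
  refine nsum_le (mul_nonneg (pow_nonneg h0 _) pb) fun s _ => ?_
  by_cases hs : s.card ≤ finrank F Z
  · refine (ul_det (Matrix.of (s.piecewise z fun i j => M i j - z i j))
      (fun i => (if i ∈ s then 1 else ε) * β i) fun i j => ?_).trans ?_
    · by_cases hi : i ∈ s
      · simpa [hi] using bz i j
      · simpa [hi] using he i j
    · rw [Finset.prod_mul_distrib, Finset.prod_ite, Finset.prod_const_one, one_mul,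
        Finset.prod_const]
      refine mul_le_mul_of_nonneg_right (pow_le_pow_of_le_one h0 h1 ?_) pb
      have : (Finset.univ.filter fun i => i ∉ s) = sᶜ := by
        ext i
        simp
      rw [this, Finset.card_compl]
      omega
  · rw [AlternatingMap.map_linearDependent, norm_zero]
    · exact mul_nonneg (pow_nonneg h0 _) pb
    · intro li
      apply hs
      have l2 : LinearIndependent F fun i : s => (⟨z i, hz i⟩ : Z) := by
        refine LinearIndependent.of_comp Z.subtype ?_
        have := li.comp (fun i : s => (i : ι)) Subtype.val_injective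
        have q : ((s.piecewise z fun i j => M i j - z i j) ∘ fun i : s => (i : ι)) =
            ⇑Z.subtype ∘ fun i : s => (⟨z i, hz i⟩ : Z) :=
          funext fun i => Finset.piecewise_eq_of_mem _ _ _ i.2
        rwa [q] at this
      simpa using l2.fintype_card_le_finrank

theorem ex_order (σ : Type) [Fintype σ] : ∃ lam : (σ → ℤ) →+ ℝ, Function.Injective lam := by
  have t := transcendental_liouvilleNumber (le_refl 2)
  have li : LinearIndependent ℤ fun n : ℕ => liouvilleNumber (2 : ℕ) ^ n := by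
    rw [linearIndependent_iff]
    intro l hl
    have := transcendental_iff.mp t (Polynomial.ofFinsupp (AddMonoidAlgebra.ofCoeff l)) (by
      rw [← hl, Polynomial.aeval_def, Polynomial.eval₂_eq_sum]
      simp [Finsupp.linearCombination_apply, Finsupp.sum, Polynomial.sum])
    simpa using this
  have l2 := li.comp (fun i : σ => ((Fintype.equivFin σ i : Fin _) : ℕ))
    (Fin.val_injective.comp (Fintype.equivFin σ).injective)
  exact ⟨(Fintype.linearCombination ℤ _).toAddMonoidHom, l2.fintypeLinearCombination_injective⟩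

end Pool.Agent.Lib.MP_f61260_nt
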