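import Pool.Agent.Lib.MP_f61260_nt.Sl.Rk
import Pool.Agent.Lib.MP_f61260_nt.Sl.Ul

/-! A relation makes the span of a large box small. -/

set_option autoImplicit false
set_option maxHeartbeats 400000

namespace Pool.Agent.Lib.MP_f61260_nt

open Module Submodule

variable {σ : Type} [Fintype σ] {k : σ → ℕ}

theorem card_latK (hk : ∀ i, 0 < k i) (ν : ℕ) :
    (bx (latK k) ν).card = ∏ i, (2 * (ν / k i) + 1) := by
  classical
  have hk' : ∀ i, (0 : ℤ) < k i := fun i => by exact_mod_cast hk i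
  have h1 : ∀ i (e : ℤ), |(k i : ℤ) * e| ≤ ν ↔
      e ∈ Finset.Icc (-((ν / k i : ℕ) : ℤ)) ((ν / k i : ℕ) : ℤ) := by
    intro i e
    rw [Finset.mem_Icc, ← abs_le, abs_mul, abs_of_pos (hk' i), Int.natCast_div,
      Int.le_ediv_iff_mul_le (hk' i), mul_comm]
  have h2 : bx (latK k) ν = (Fintype.piFinset fun i =>
      Finset.Icc (-((ν / k i : ℕ) : ℤ)) ((ν / k i : ℕ) : ℤ)).image
        fun e i => (k i : ℤ) * e i := by
    ext a
    rw [mem_bx, Finset.mem_image]
    constructor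
    · rintro ⟨h3, h4⟩
      choose e he using mem_latK.1 h3
      refine ⟨e, Fintype.mem_piFinset.2 fun i => (h1 i _).1 ?_, funext fun i => (he i).symm⟩
      rw [← he]
      exact h4 i
    · rintro ⟨e, he, rfl⟩
      exact ⟨fun i => dvd_mul_right _ _, fun i => (h1 i _).2 (Fintype.mem_piFinset.1 he i)⟩
  rw [h2, Finset.card_image_of_injective _ fun e e' h => funext fun i =>
    mul_left_cancel₀ (hk' i).ne' (congrFun h i), Fintype.card_piFinset]
  refine Finset.prod_congr rfl fun i _ => ?_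
  rw [Int.card_Icc]
  generalize ν / k i = m
  omega

theorem shell_span {U : Subgroup GA} {P : σ → Qb} {μ ν : ℕ} (h : Circ U P k μ) :
    HH U P k 1 (ν + μ + μ) + (bx (latK k) ν).card ≤ (bx (latK k) (ν + μ + μ)).card := by
  classical
  obtain ⟨κ, _, _, f, d, -, hf, hli, hsum⟩ := h.ex
  obtain ⟨lam, hlam⟩ := ex_order σ
  let g : Option κ → σ → ℤ := fun o => o.elim 0 f
  let c : Option κ → Kf U := fun o => o.elim (-1) fun j => ⟨d j, mem_Kf.2 (hf j).2.2.1⟩
  have hg : ∀ o, g o ∈ bx (latK k) μ := by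
    rintro (_ | j)
    · exact zero_bx _ _
    · exact (hf j).1
  have hc : ∀ o, c o ≠ 0 := by
    rintro (_ | j)
    · exact neg_ne_zero.2 one_ne_zero
    · exact fun h0 => (hf j).2.2.2 (congrArg Subtype.val h0)
  have hinj : Function.Injective g := by
    rintro (_ | j) (_ | j') e
    · rfl
    · exact absurd e.symm (hf j').2.1
    · exact absurd e (hf j).2.1
    · exact congrArg some (hli.injective (congrArg (mon P) e))
  have hrel : ∀ b, ∑ o, c o • mon P (b + g o) = 0 := by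
    intro b
    have h1 : ∀ o, c o • mon P (b + g o) = mon P b * ((c o : Qb) * mon P (g o)) := fun o => by
      rw [mon_add h.ne, IntermediateField.smul_def, smul_eq_mul]
      ring
    rw [Finset.sum_congr rfl fun o _ => h1 o, ← Finset.mul_sum, Fintype.sum_option]
    have h2 : ((c none : Qb) * mon P (g none)) = -1 := by
      show ((-1 : Kf U) : Qb) * mon P 0 = -1
      rw [mon_zero, mul_one]
      rfl
    have h3 : ∑ j, (c (some j) : Qb) * mon P (g (some j)) = 1 := hsum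
    rw [h2, h3, neg_add_cancel, mul_zero]
  obtain ⟨o₀, ho₀⟩ := Finite.exists_max fun o => lam (g o)
  obtain ⟨S, hS⟩ : ∃ S, S = bx (latK k) (ν + μ + μ) \ bx (latK k) ν := ⟨_, rfl⟩
  have key : ∀ a ∈ bx (latK k) (ν + μ + μ),
      mon P a ∈ span (Kf U) ((S.image (mon P) : Finset Qb) : Set Qb) := by
    by_contra hcon
    push Not at hcon
    obtain ⟨a₁, ha₁, ha₂⟩ := hcon
    obtain ⟨a, ha, hmin⟩ := Finset.exists_min_image ((bx (latK k) (ν + μ + μ)).filter fun a =>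
      mon P a ∉ span (Kf U) ((S.image (mon P) : Finset Qb) : Set Qb)) lam
      ⟨a₁, Finset.mem_filter.2 ⟨ha₁, ha₂⟩⟩
    obtain ⟨ha3, ha4⟩ := Finset.mem_filter.1 ha
    apply ha4
    by_cases hin : a ∈ bx (latK k) ν
    · have h1 := hrel (a + -g o₀)
      rw [← Finset.add_sum_erase _ _ (Finset.mem_univ o₀), neg_add_cancel_right,
        add_eq_zero_iff_eq_neg] at h1
      rw [← smul_mem_iff _ (hc o₀), h1]
      refine neg_mem (sum_mem fun o ho => smul_mem _ _ ?_)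
      by_contra h2
      have h3 := hmin _ (Finset.mem_filter.2 ⟨add_bx (add_bx hin (neg_bx (hg o₀))) (hg o), h2⟩)
      rw [map_add, map_add, map_neg] at h3
      exact (Finset.mem_erase.1 ho).1 (hinj (hlam (le_antisymm (ho₀ o) (by linarith))))
    · exact subset_span (Finset.mem_coe.2 (Finset.mem_image_of_mem _
        (hS ▸ Finset.mem_sdiff.2 ⟨ha3, hin⟩)))
  have h4 : Sp (Kf U) (latK k) (mon P) (ν + μ + μ) ≤
      span (Kf U) ((S.image (mon P) : Finset Qb) : Set Qb) := by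
    rw [Sp, span_le]
    rintro _ ⟨a, ha, rfl⟩
    exact key a ha
  have h5 : HH U P k 1 (ν + μ + μ) ≤ S.card := by
    rw [HH_one]
    exact (Submodule.finrank_mono h4).trans
      ((finrank_span_finset_le_card _).trans Finset.card_image_le)
  have h6 := Finset.card_sdiff_add_card_eq_card
    (bx_mono (Λ := latK k) (show ν ≤ ν + μ + μ by omega))
  rw [← hS] at h6
  omega

theorem shell_num {κ μ ν M : ℕ} (h0 : 0 < κ) (h1 : κ ≤ μ) (h2 : 6 * μ * M ≤ ν + μ + μ) :
    (2 * ((ν + μ + μ) / κ) + 1) * M ≤ (2 * (ν / κ) + 1) * M + (2 * ((ν + μ + μ) / κ) + 1) := by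
  have h3 := Nat.mul_div_le (ν + μ + μ) κ
  have h4 := Nat.lt_mul_div_succ (ν + μ + μ) h0
  have h5 := Nat.lt_mul_div_succ ν h0
  generalize (ν + μ + μ) / κ = a at *
  generalize ν / κ = b at *
  refine Nat.le_of_mul_le_mul_left ?_ h0
  have h6 : κ * (2 * a + 1) ≤ κ * (2 * b + 1) + 6 * μ := by nlinarith
  have h7 : ν + μ + μ ≤ κ * (2 * a + 1) := by nlinarith [Nat.zero_le (κ * a)]
  calc κ * ((2 * a + 1) * M) = κ * (2 * a + 1) * M := by ring
    _ ≤ (κ * (2 * b + 1) + 6 * μ) * M := Nat.mul_le_mul_right _ h6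
    _ = κ * ((2 * b + 1) * M) + 6 * μ * M := by ring
    _ ≤ κ * ((2 * b + 1) * M) + κ * (2 * a + 1) := Nat.add_le_add_left (h2.trans h7) _
    _ = κ * ((2 * b + 1) * M + (2 * a + 1)) := by ring

theorem shell_prod {n n' : σ → ℕ} {Z : ℕ} (hρ : 0 < Fintype.card σ) (hZ : 0 < Z)
    (h : ∀ i, n i * (Fintype.card σ * Z) ≤ n' i * (Fintype.card σ * Z) + n i) :
    Z * ∏ i, n i ≤ Z * ∏ i, n' i + ∏ i, n i := by
  have hρ' : (1 : ℝ) ≤ Fintype.card σ := by exact_mod_cast hρ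
  have hZ' : (1 : ℝ) ≤ Z := by exact_mod_cast hZ
  have hM : (1 : ℝ) ≤ Fintype.card σ * Z := one_le_mul_of_one_le_of_one_le hρ' hZ'
  obtain ⟨t, ht⟩ : ∃ t : ℝ, t = ((Fintype.card σ : ℝ) * Z)⁻¹ := ⟨_, rfl⟩
  have ht0 : 0 < t := by rw [ht]; positivity
  have ht1 : t ≤ 1 := by rw [ht]; exact inv_le_one_of_one_le₀ hM
  have ht2 : Fintype.card σ * Z * t = 1 := by rw [ht]; exact mul_inv_cancel₀ (by positivity)
  have h1 : ∀ i, (1 + -t) * (n i : ℝ) ≤ n' i := by
    intro i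
    have h2 : (n i : ℝ) * (Fintype.card σ * Z) ≤ n' i * (Fintype.card σ * Z) + n i := by
      exact_mod_cast h i
    have h3 := mul_le_mul_of_nonneg_right h2 ht0.le
    rw [add_mul, mul_assoc, mul_assoc (n' i : ℝ), ht2] at h3
    linarith
  have h4 : ∏ i, (1 + -t) * (n i : ℝ) ≤ ∏ i, (n' i : ℝ) :=
    Finset.prod_le_prod (fun i _ => mul_nonneg (by linarith) (Nat.cast_nonneg _)) fun i _ => h1 i
  rw [Finset.prod_mul_distrib, Finset.prod_const, Finset.card_univ] at h4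
  have h5 := one_add_mul_le_pow (a := -t) (by linarith) (Fintype.card σ)
  have h6 : (0 : ℝ) ≤ ∏ i, (n i : ℝ) := Finset.prod_nonneg fun i _ => Nat.cast_nonneg _
  have h7 := mul_le_mul_of_nonneg_left ((mul_le_mul_of_nonneg_right h5 h6).trans h4)
    (zero_le_one.trans hZ')
  have h8 : (Z : ℝ) * ∏ i, (n i : ℝ) ≤ Z * ∏ i, (n' i : ℝ) + ∏ i, (n i : ℝ) := by
    have h9 : (Z : ℝ) * ((1 + Fintype.card σ * -t) * ∏ i, (n i : ℝ)) =
        Z * ∏ i, (n i : ℝ) - Fintype.card σ * Z * t * ∏ i, (n i : ℝ) := by ring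
    rw [h9, ht2] at h7
    linarith
  exact_mod_cast h8

theorem Circ.shell {U : Subgroup GA} {P : σ → Qb} {μ ν Z : ℕ} (h : Circ U P k μ)
    (hν : 6 * Fintype.card σ * μ * Z ≤ ν) : Z * HH U P k 1 ν ≤ (bx (latK k) ν).card := by
  rcases Nat.eq_zero_or_pos Z with rfl | hZ
  · rw [zero_mul]
    exact Nat.zero_le _
  have hρ : 0 < Fintype.card σ := by
    obtain ⟨κ, _, ⟨j⟩, f, d, -, hf, -⟩ := h.ex
    obtain ⟨i, -⟩ := Function.ne_iff.1 (hf j).2.1
    exact Fintype.card_pos_iff.2 ⟨i⟩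
  have h1 : 6 * μ * (Fintype.card σ * Z) ≤ ν := le_of_eq_of_le (by ring) hν
  have h2 : 6 * μ * 1 ≤ ν := (Nat.mul_le_mul_left _ (Nat.mul_pos hρ hZ)).trans h1
  obtain ⟨ν', rfl⟩ : ∃ ν', ν = ν' + μ + μ := ⟨ν - 2 * μ, by omega⟩
  have h3 := Nat.mul_le_mul_left Z (shell_span (ν := ν') h)
  have h4 := shell_prod hρ hZ fun i => shell_num (h.pos i) (h.le i) h1
  rw [mul_add, card_latK h.pos, card_latK h.pos] at h3
  rw [card_latK h.pos]
  omega

end Pool.Agent.Lib.MP_f61260_nt
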