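import Pool.Agent.Lib.MP_f61260_nt.Sl.Ab2
import Pool.Agent.Lib.MP_f61260_nt.Sl.Shell

/-! No circuit at a small Kummer level. -/

set_option autoImplicit false
set_option maxHeartbeats 400000

namespace Pool.Agent.Lib.MP_f61260_nt

open Module Submodule Real Filter

section

variable {ι σ : Type} [Fintype ι] [Fintype σ]

lemma cnt_mon {P : σ → Qb} {t : ι → Qb} (ht0 : ∀ a, t a ≠ 0) (w : σ → ι → ℤ) (b : σ ⊕ ι → ℤ) :
    mon (Sum.elim (fun i => P i * ∏ a, t a ^ w i a) t) b =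
      (∏ a, t a ^ (∑ i, w i a * b (.inl i) + b (.inr a))) * mon P fun i => b (.inl i) := by
  classical
  have e : ∀ a, t a ^ (∑ i, w i a * b (.inl i)) = ∏ i, (t a ^ w i a) ^ b (.inl i) := fun a => by
    simp only [← zpow_mul]
    exact Finset.induction_on Finset.univ (by simp) fun i s hi ih => by
      rw [Finset.sum_insert hi, Finset.prod_insert hi, zpow_add₀ (ht0 a), ih]
  simp only [mon, Fintype.prod_sum_type, Sum.elim_inl, Sum.elim_inr, mul_zpow, zpow_add₀ (ht0 _), e,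
    Finset.prod_mul_distrib, ← Finset.prod_zpow]
  rw [Finset.prod_comm]
  ring

lemma cnt_card {k : σ → ℕ} (hk : ∀ i, 0 < k i) (δ : ℕ) :
    (bx (latK (Sum.elim k fun _ : ι => 1)) δ).card =
      (bx (latK k) δ).card * (2 * δ + 1) ^ Fintype.card ι := by
  rw [card_latK hk, card_latK (by rintro (i | a) <;> simp [hk]), Fintype.prod_sum_type]
  simp

lemma cnt_nt {c : Ctx ι} (hind : ∀ w : ι → ℤ, Tor (∏ a, c.t a 1 ^ w a) → w = 0) {P : σ → Qb}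
    {k : σ → ℕ} (hnd : ∀ a ∈ latK k, a ≠ 0 → ¬ c.Dv (mon P a)) {A : ℕ} (hA : 0 < A)
    (w : σ → ι → ℤ) : ∀ b ∈ latK (Sum.elim k fun _ : ι => 1), b ≠ 0 →
      ¬ Tor (mon (Sum.elim (fun i => P i * ∏ a, c.t a A ^ w i a) fun a => c.t a A) b) := by
  intro b hb hb0 e1
  rw [cnt_mon fun a => (c.hs a).ne A] at e1
  have e4 : c.Dv (∏ a, c.t a A ^ (∑ i, w i a * b (.inl i) + b (.inr a))) :=
    Ctx.dv_prod _ fun a _ => (Ctx.dv_t a hA).zpow _
  have e5 : (fun i => b (.inl i)) = 0 := by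
    by_contra e5
    refine hnd _ (fun i => hb (.inl i)) e5 ?_
    have := e4.inv.mul (Ctx.dv_tor e1)
    rwa [inv_mul_cancel_left₀ e4.ne] at this
  have e6 : ∀ i, b (.inl i) = 0 := congrFun e5
  have e7 := e1.pow A
  rw [e5, mon_zero, mul_one, ← Finset.prod_pow, Finset.prod_congr rfl fun a _ => by
    rw [← zpow_natCast, ← zpow_mul, mul_comm, zpow_mul, zpow_natCast, (c.hs a).pw1 hA]] at e7
  have e8 := hind _ e7
  refine hb0 (funext ?_)
  rintro (i | a)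
  · exact e6 i
  · simpa [e6] using congrFun e8 a

lemma cnt_idx {c : Ctx ι} {d m A : ℕ} (hd : IdxLe ⊤ c.G0 d) (hm : 0 < m) (hA : 0 < A) :
    IdxLe (Mu m) (c.Lv m A) (d * A ^ Fintype.card ι) := by
  have h1 : IdxLe c.G0 (⨅ a, St ℚ (c.t a A)) (∏ _a : ι, A) :=
    IdxLe.iInf fun a => idx_pow hA (by
      rw [(c.hs a).pw1 hA]
      exact fun g hg => Ctx.mem_G0.1 hg a)
  rw [Finset.prod_const, Finset.card_univ] at h1
  refine (hd.trans h1 le_top fun g hg => Ctx.mem_G0.2 fun a =>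
    (c.hs a).fix_dvd hA (one_dvd A) (Subgroup.mem_iInf.1 hg a)).restrict le_top ?_
  rw [← c.St_z hm]
  exact le_rfl

lemma cnt_alg {c : Ctx ι} {d m n A μ Z δ : ℕ} (hd : IdxLe ⊤ c.G0 d) (hm : 0 < m) (hA : 0 < A)
    (hn : n ∣ A) {P : σ → Qb} {k : σ → ℕ} (h : Circ (c.Lv m n) P k μ)
    (hδ : 6 * Fintype.card σ * μ * Z ≤ δ) (w : σ → ι → ℤ)
    (hli : LinearIndependent (Kf (Mu m)) fun b : bx (latK (Sum.elim k fun _ : ι => 1)) δ =>
      mon (Sum.elim (fun i => P i * ∏ a, c.t a A ^ w i a) fun a => c.t a A) b) :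
    Z * (2 * δ + 1) ^ Fintype.card ι ≤ d * A ^ Fintype.card ι := by
  have h1 := finrank_span_eq_card hli
  rw [Fintype.card_coe, cnt_card h.pos] at h1
  have h2 := rank_idx (cnt_idx hd hm hA) (Set.finite_range fun b :
    bx (latK (Sum.elim k fun _ : ι => 1)) δ =>
      mon (Sum.elim (fun i => P i * ∏ a, c.t a A ^ w i a) fun a => c.t a A) b)
  have h3 : span (Kf (c.Lv m A)) (Set.range fun b : bx (latK (Sum.elim k fun _ : ι => 1)) δ =>
      mon (Sum.elim (fun i => P i * ∏ a, c.t a A ^ w i a) fun a => c.t a A) b) ≤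
      Sp (Kf (c.Lv m A)) (latK k) (mon P) δ := by
    rw [span_le]
    rintro _ ⟨⟨b, hb⟩, rfl⟩
    have e1 : Fx (c.Lv m A) (∏ a, c.t a A ^ (∑ i, w i a * b (.inl i) + b (.inr a))) :=
      Fx.prod _ fun a _ => Fx.zpow (fun g hg => (Ctx.mem_Lv.1 hg).2 a) _
    have e2 : (fun i => b (.inl i)) ∈ bx (latK k) δ :=
      mem_bx.2 ⟨fun i => (mem_bx.1 hb).1 (.inl i), fun i => (mem_bx.1 hb).2 _⟩
    simp only [cnt_mon fun a => (c.hs a).ne A]
    exact Submodule.smul_mem _ (⟨_, mem_Kf.2 e1⟩ : Kf (c.Lv m A)) (mem_Sp e2)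
  have h4 := Submodule.finrank_mono h3
  have h5 : finrank (Kf (c.Lv m A)) (Sp (Kf (c.Lv m A)) (latK k) (mon P) δ) ≤
      HH (c.Lv m n) P k 1 δ := by
    rw [HH_one]
    exact rank_field (Ctx.Lv_mono hm hA dvd_rfl hn) ((bx _ _).finite_toSet.image _)
  have h6 := h.shell hδ
  have h7 : 0 < (bx (latK k) δ).card := Finset.card_pos.2 ⟨0, zero_bx _ _⟩
  have h8 := (h1.ge.trans h2).trans (Nat.mul_le_mul_left _ (h4.trans h5))
  refine Nat.le_of_mul_le_mul_left ?_ h7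
  calc _ = Z * ((bx (latK k) δ).card * (2 * δ + 1) ^ Fintype.card ι) := by ring
    _ ≤ Z * (d * A ^ Fintype.card ι * HH (c.Lv m n) P k 1 δ) := Nat.mul_le_mul_left _ h8
    _ = d * A ^ Fintype.card ι * (Z * HH (c.Lv m n) P k 1 δ) := by ring
    _ ≤ d * A ^ Fintype.card ι * (bx (latK k) δ).card := Nat.mul_le_mul_left _ h6
    _ = _ := mul_comm _ _

end

theorem Ctx.no_circ_lv {ι : Type} [Fintype ι] (c : Ctx ι)
    (hind : ∀ w : ι → ℤ, Tor (∏ a, c.t a 1 ^ w a) → w = 0) (σ : Type) [Fintype σ] (K : ℕ) :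
    ∃ κ : ℕ, ∀ᶠ x : ℕ in atTop, ∀ (P : σ → Qb) (k : σ → ℕ) (μ m n : ℕ) (H : ℝ), 0 < m → n ∣ m →
      n ≤ x ^ K → Circ (c.Lv m n) P k μ → (∀ a ∈ latK k, a ≠ 0 → ¬ c.Dv (mon P a)) →
      c.HT P H → μ ≤ x * 2 ^ x → 1 < x ^ κ * μ * H := by
  obtain ⟨d, hd⟩ := c.idx_G0
  obtain ⟨κ1, h0⟩ := indep_ab (σ ⊕ ι)
  obtain ⟨r, hr⟩ : ∃ r, r = Fintype.card ι := ⟨_, rfl⟩
  obtain ⟨ρ, hρ⟩ : ∃ ρ, ρ = Fintype.card σ := ⟨_, rfl⟩
  obtain ⟨E, hE⟩ : ∃ E, E = (K + (κ1 + 1)) * r := ⟨_, rfl⟩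
  obtain ⟨G, hG⟩ : ∃ G, G = ∑ a, ht (c.t a 1) := ⟨_, rfl⟩
  obtain ⟨x1, hx1⟩ := exists_nat_ge (2 * ((ρ + 1) * G))
  refine ⟨κ1 + E + 1, ?_⟩
  filter_upwards [h0, eventually_ge_atTop (12 * ρ * (d + 1) + x1 + 1),
    (tendsto_pow_const_div_const_pow_of_one_lt (E + 2) (show (1 : ℝ) < 3 / 2 by norm_num)).eventually
      (gt_mem_nhds one_pos)] with x h0 hx hx' P k μ m n H hm hnm hn hC hnd hH hμ
  by_contra hc
  rw [not_lt] at hc
  obtain ⟨e, he, hH⟩ := hH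
  have hn0 := Nat.pos_of_dvd_of_pos hnm hm
  have hx0 : 0 < x := by omega
  obtain ⟨i0⟩ : Nonempty σ := by
    obtain ⟨κ, _, ⟨j⟩, f, _, -, h2, -⟩ := hC.ex
    by_contra h3
    exact (h2 j).2.1 (funext fun i => absurd ⟨i⟩ h3)
  have hρ0 : 0 < ρ := hρ ▸ Fintype.card_pos_iff.2 ⟨i0⟩
  have hμ0 : 0 < μ := (hC.pos i0).trans_le (hC.le i0)
  obtain ⟨Z, hZ⟩ : ∃ Z, Z = d * (n * x ^ (κ1 + 1)) ^ r + 1 := ⟨_, rfl⟩
  obtain ⟨δ, hδ⟩ : ∃ δ, δ = 6 * ρ * μ * Z := ⟨_, rfl⟩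
  have hδ0 : 0 < δ := by rw [hδ, hZ]; positivity
  obtain ⟨A, hA⟩ : ∃ A, A = n * x ^ (κ1 + 1) * δ := ⟨_, rfl⟩
  have hA0 : 0 < A := by rw [hA]; positivity
  choose w hw using fun i => Ctx.approx (he i) hA0 (P i)
  have hZ1 : Z ≤ (d + 1) * x ^ E := by
    have e1 : (n * x ^ (κ1 + 1)) ^ r ≤ x ^ E := by
      rw [hE, pow_mul, pow_add x K]
      gcongr
    have e2 : 1 ≤ x ^ E := Nat.one_le_pow _ _ hx0
    have e3 := Nat.mul_le_mul_left d e1
    rw [hZ, add_mul, one_mul]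
    omega
  have hδ1 : 2 * δ ≤ x ^ (E + 1) * μ :=
    calc 2 * δ ≤ 2 * (6 * ρ * μ * ((d + 1) * x ^ E)) := by rw [hδ]; gcongr
      _ = 12 * ρ * (d + 1) * x ^ E * μ := by ring
      _ ≤ x * x ^ E * μ := by gcongr; omega
      _ = _ := by ring
  have hδ2 : δ ≤ 3 ^ x := by
    have e1 : δ ≤ x ^ (E + 2) * 2 ^ x :=
      calc δ ≤ x ^ (E + 1) * μ := by omega
        _ ≤ x ^ (E + 1) * (x * 2 ^ x) := by gcongr
        _ = _ := by ring
    rw [div_lt_one (by positivity), div_pow, lt_div_iff₀ (by positivity)] at hx'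
    exact e1.trans (by exact_mod_cast hx'.le)
  have hG0 : 0 ≤ G := hG ▸ Finset.sum_nonneg fun a _ => ht_nonneg _
  have hH0 : 0 ≤ H := (Finset.sum_nonneg fun i _ => ht_nonneg _).trans hH
  have hs : ∑ i, ht (Sum.elim (fun i => P i * ∏ a, c.t a A ^ w i a) (fun a => c.t a A) i) ≤
      H + (ρ + 1) * G / A := by
    have e1 := Finset.sum_le_sum fun i (_ : i ∈ Finset.univ) => hw i
    rw [Finset.sum_add_distrib, Finset.sum_const, Finset.card_univ, ← hρ, ← hG, nsmul_eq_mul] at e1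
    simp only [Fintype.sum_sum_type, Sum.elim_inl, Sum.elim_inr, Ctx.ht_t _ hA0, ← Finset.sum_div,
      ← hG]
    rw [add_mul, one_mul, add_div, mul_div_assoc]
    linarith
  have hli := h0 m _ (latK (Sum.elim k fun _ : ι => 1)) δ hm (by
      rintro (i | a)
      · exact mul_ne_zero (hC.ne i)
          (Finset.prod_ne_zero_iff.2 fun a _ => zpow_ne_zero _ ((c.hs a).ne A))
      · exact (c.hs a).ne A) (cnt_nt hind hnd hA0 w) hδ2 (by
      refine (mul_le_mul_of_nonneg_left hs (by positivity)).trans ?_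
      have e1 : (2 * δ : ℝ) ≤ x ^ (E + 1) * μ := by exact_mod_cast hδ1
      have e2 : (x : ℝ) ^ κ1 * (2 * δ) * H ≤ x ^ (κ1 + E + 1) * μ * H := by
        rw [add_assoc, pow_add (x : ℝ) κ1, mul_assoc ((x : ℝ) ^ κ1) _ (μ : ℝ)]
        gcongr
      have e3 : 2 * ((ρ + 1) * G) ≤ n * x :=
        hx1.trans (by exact_mod_cast (by nlinarith : x1 ≤ n * x))
      have e4 : (x : ℝ) ^ κ1 * δ * ((ρ + 1) * G / A) ≤ 1 / 2 := by
        have e5 : (A : ℝ) = x ^ κ1 * δ * (n * x) := by rw [hA]; push_cast; ring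
        rw [e5, ← mul_div_assoc, mul_div_mul_left _ _ (by positivity), div_le_iff₀ (by positivity)]
        linarith
      rw [mul_add]
      linarith)
  have h1 := cnt_alg hd hm hA0 (hA ▸ (dvd_mul_right _ _).mul_right _) hC (by rw [← hρ, hδ]) w hli
  rw [← hr, hA, mul_pow, ← mul_assoc] at h1
  have h2 : δ ^ r ≤ (2 * δ + 1) ^ r := Nat.pow_le_pow_left (by omega) r
  have h3 : 0 < (2 * δ + 1) ^ r := by positivity
  have h4 := h1.trans (Nat.mul_le_mul_left _ h2)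
  have h5 := Nat.le_of_mul_le_mul_right h4 h3
  omega

end Pool.Agent.Lib.MP_f61260_nt
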