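import Mathlib

/-! Elementary abelian normal subgroups, and translation invariant families of rational functions
on an elementary abelian group. -/

set_option autoImplicit false
set_option maxHeartbeats 400000

namespace Pool.Agent.Lib.MP_f61260_nt

open Finset Polynomial

noncomputable section

theorem ex_elem_normal (G : Type) [Group G] [Finite G] [Group.IsSolvable G] [Nontrivial G] :
    ∃ (p : ℕ) (N : Subgroup G), p.Prime ∧ N.Normal ∧ N ≠ ⊥ ∧ (∀ x ∈ N, ∀ y ∈ N, x * y = y * x) ∧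
      ∀ x ∈ N, x ^ p = 1 := by
  classical
  have hex : ∃ n, derivedSeries G n = ⊥ := Group.IsSolvable.solvable
  have h0 : Nat.find hex ≠ 0 := fun h => by
    have := Nat.find_spec hex
    rw [h, derivedSeries_zero] at this
    exact top_ne_bot this
  obtain ⟨n, hn⟩ := Nat.exists_eq_succ_of_ne_zero h0
  have h1 : derivedSeries G n ≠ ⊥ := Nat.find_min hex (by omega)
  have h2 : ⁅derivedSeries G n, derivedSeries G n⁆ = ⊥ := by
    have := Nat.find_spec hex
    rwa [hn, derivedSeries_succ] at this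
  have hnorm := derivedSeries_normal G n
  have hc : ∀ x ∈ derivedSeries G n, ∀ y ∈ derivedSeries G n, Commute x y := fun x hx y hy => by
    rw [← commutatorElement_eq_one_iff_commute, ← Subgroup.mem_bot, ← h2]
    exact Subgroup.commutator_mem_commutator hx hy
  obtain ⟨⟨x, hx⟩, hx1⟩ := Subgroup.ne_bot_iff_exists_ne_one.1 h1
  have hx2 : x ≠ 1 := fun h => hx1 (Subtype.ext h)
  obtain ⟨p, hp, k, hk⟩ := Nat.exists_prime_and_dvd (n := orderOf x) (by simpa using hx2)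
  have hk0 : 0 < k := Nat.pos_of_mul_pos_left (hk ▸ orderOf_pos x)
  let N : Subgroup G :=
    { carrier := {y | y ∈ derivedSeries G n ∧ y ^ p = 1}
      one_mem' := ⟨Subgroup.one_mem _, one_pow p⟩
      mul_mem' := fun {a b} ha hb => ⟨Subgroup.mul_mem _ ha.1 hb.1, by
        rw [(hc a ha.1 b hb.1).mul_pow, ha.2, hb.2, one_mul]⟩
      inv_mem' := fun {a} ha => ⟨Subgroup.inv_mem _ ha.1, by rw [inv_pow, ha.2, inv_one]⟩ }
  refine ⟨p, N, hp, ⟨fun y hy g => ⟨hnorm.conj_mem y hy.1 g, by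
    rw [conj_pow, hy.2, mul_one, mul_inv_cancel]⟩⟩, fun hN => ?_,
    fun a ha b hb => hc a ha.1 b hb.1, fun a ha => ha.2⟩
  have h3 : x ^ k ∈ N := ⟨Subgroup.pow_mem _ hx k, by
    rw [← pow_mul, mul_comm, ← hk, pow_orderOf_eq_one]⟩
  rw [hN, Subgroup.mem_bot] at h3
  have h4 := Nat.le_of_dvd hk0 (orderOf_dvd_of_pow_eq_one h3)
  have h5 := hp.two_le
  rw [hk] at h4
  nlinarith

theorem solb_ex (a b : ℕ) : ∃ B : ℕ, ∀ p s : ℕ, p ≤ a → s ≤ b → p ^ s ≤ B :=
  ⟨(a + 1) ^ b, fun _ s hp hs => (Nat.pow_le_pow_left (hp.trans a.le_succ) s).trans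
    (Nat.pow_le_pow_right a.succ_pos hs)⟩

/-- The bound for the size of a block. -/
def solbB : ℕ := (solb_ex 325 324).choose

theorem solb_le {p s : ℕ} (hp : p ≤ 325) (hs : s ≤ 324) : p ^ s ≤ solbB :=
  (solb_ex 325 324).choose_spec p s hp hs

variable {A : Type} [AddCommGroup A] [Fintype A]

/-- Fourier coefficient. -/
def solbFc (f : A → ℚ) (χ : AddChar A ℂ) : ℂ := ∑ h, χ h * (f h : ℂ)

theorem solb_shift (f : A → ℚ) (χ : AddChar A ℂ) (x : A) :
    ∑ h, χ h * (f (h + x) : ℂ) = χ (-x) * solbFc f χ := by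
  rw [solbFc, Finset.mul_sum]
  refine Fintype.sum_equiv (Equiv.addRight x) _ _ fun h => ?_
  rw [Equiv.coe_addRight, ← mul_assoc, ← AddChar.map_add_eq_mul]
  rw [neg_add_cancel_comm_assoc]

theorem solb_eq {f : A → ℚ} {g t : A} (h : ∀ χ, solbFc f χ ≠ 0 → χ g = χ t) : f g = f t := by
  classical
  have key : ∀ x : A, ∑ χ : AddChar A ℂ, χ (-x) * solbFc f χ = (Fintype.card A : ℂ) * f x := by
    intro x
    simp_rw [← solb_shift]
    rw [Finset.sum_comm]
    simp_rw [← Finset.sum_mul, AddChar.sum_apply_eq_ite]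
    rw [Finset.sum_eq_single 0]
    · simp
    · intro b _ hb
      simp [hb]
    · simp
  have e : (Fintype.card A : ℂ) * f g = (Fintype.card A : ℂ) * f t := by
    rw [← key, ← key]
    refine Finset.sum_congr rfl fun χ _ => ?_
    by_cases h0 : solbFc f χ = 0
    · rw [h0, mul_zero, mul_zero]
    · rw [AddChar.map_neg_eq_inv, AddChar.map_neg_eq_inv, h χ h0]
  have hc : (Fintype.card A : ℂ) ≠ 0 := Nat.cast_ne_zero.2 Fintype.card_ne_zero
  exact_mod_cast mul_left_cancel₀ hc e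

theorem solb_galois {p : ℕ} (hp : p.Prime) (hA : ∀ x : A, p • x = 0) {f : A → ℚ}
    {χ : AddChar A ℂ} (h : solbFc f χ ≠ 0) {j : ℕ} (hj : j.Coprime p) :
    solbFc f (χ ^ j) ≠ 0 := by
  have : NeZero p := ⟨hp.ne_zero⟩
  have hζ := Complex.isPrimitiveRoot_exp p hp.ne_zero
  set ζ := Complex.exp (2 * Real.pi * Complex.I / p)
  have hk : ∀ x : A, ∃ k < p, ζ ^ k = χ x := fun x =>
    hζ.eq_pow_of_pow_eq_one (by rw [← AddChar.map_nsmul_eq_pow, hA, AddChar.map_zero_eq_one])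
  choose k _ hk using hk
  intro h0
  apply h
  let F : ℚ[X] := ∑ x, C (f x) * X ^ k x
  have e1 : aeval ζ F = solbFc f χ := by
    simp only [F, map_sum, map_mul, aeval_C, map_pow, aeval_X, hk, solbFc]
    exact Finset.sum_congr rfl fun x _ => by rw [mul_comm]; rfl
  have e2 : aeval (ζ ^ j) F = solbFc f (χ ^ j) := by
    simp only [F, map_sum, map_mul, aeval_C, map_pow, aeval_X, solbFc]
    refine Finset.sum_congr rfl fun x _ => ?_
    rw [mul_comm, ← pow_mul, mul_comm j, pow_mul, hk, AddChar.pow_apply]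
    rfl
  have hd := minpoly.dvd ℚ (ζ ^ j) (e2.trans h0)
  rw [← cyclotomic_eq_minpoly_rat (hζ.pow_of_coprime j hj) hp.pos,
    cyclotomic_eq_minpoly_rat hζ hp.pos] at hd
  rw [← e1]
  exact aeval_eq_zero_of_dvd_aeval_eq_zero hd (minpoly.aeval ℚ ζ)

theorem solb_half {χ ψ : AddChar A ℂ} (h : χ ≠ ψ) [DecidablePred fun x => χ x = ψ x] :
    2 * #{x | χ x = ψ x} ≤ Fintype.card A := by
  classical
  obtain ⟨y, hy⟩ := DFunLike.ne_iff.1 h
  have h1 : #{x | χ x = ψ x} ≤ #{x | ¬ χ x = ψ x} := by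
    refine Finset.card_le_card_of_injOn (fun x => x + y) ?_ fun a _ b _ e => add_right_cancel e
    intro x hx
    simp only [Finset.coe_filter, Finset.mem_univ, true_and, Set.mem_ofPred_eq] at hx ⊢
    rw [AddChar.map_add_eq_mul, AddChar.map_add_eq_mul, hx]
    intro e
    have h0 : ψ x ≠ 0 := (ψ.val_isUnit x).ne_zero
    exact hy (mul_left_cancel₀ h0 e)
  have h2 := Finset.card_filter_add_card_filter_not (s := (Finset.univ : Finset A))
    (fun x => χ x = ψ x)
  rw [Finset.card_univ] at h2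
  omega

theorem solb_sep (m : ℕ) : ∀ P : Finset (AddChar A ℂ × AddChar A ℂ), (∀ q ∈ P, q.1 ≠ q.2) →
    #P < 2 ^ m → ∃ g : Fin m → A, ∀ q ∈ P, ∃ i, q.1 (g i) ≠ q.2 (g i) := by
  classical
  induction m with
  | zero =>
    intro P _ hP
    have : P = ∅ := Finset.card_eq_zero.1 (by omega)
    exact ⟨Fin.elim0, by simp [this]⟩
  | succ m ih =>
    intro P hP hc
    obtain ⟨x, hx⟩ : ∃ x : A, 2 * #{q ∈ P | q.1 x = q.2 x} ≤ #P := by
      by_contra hcon
      push Not at hcon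
      have h1 : ∑ _x : A, #P < ∑ x : A, 2 * #{q ∈ P | q.1 x = q.2 x} :=
        Finset.sum_lt_sum_of_nonempty Finset.univ_nonempty fun x _ => hcon x
      have h2 : ∑ x : A, 2 * #{q ∈ P | q.1 x = q.2 x} = ∑ q ∈ P, 2 * #{x | q.1 x = q.2 x} := by
        simp_rw [Finset.card_filter, Finset.mul_sum]
        exact Finset.sum_comm
      have h3 : ∑ q ∈ P, 2 * #{x | q.1 x = q.2 x} ≤ ∑ _q ∈ P, Fintype.card A :=
        Finset.sum_le_sum fun q hq => solb_half (hP q hq)
      rw [h2] at h1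
      have h4 := h1.trans_le h3
      simp only [Finset.sum_const, Finset.card_univ, smul_eq_mul] at h4
      rw [mul_comm] at h4
      exact lt_irrefl _ h4
    obtain ⟨g, hg⟩ := ih {q ∈ P | q.1 x = q.2 x} (fun q hq => hP q (Finset.mem_filter.1 hq).1)
      (by rw [pow_succ] at hc; omega)
    refine ⟨Fin.cons x g, fun q hq => ?_⟩
    by_cases e : q.1 x = q.2 x
    · obtain ⟨i, hi⟩ := hg q (Finset.mem_filter.2 ⟨hq, e⟩)
      exact ⟨i.succ, by simpa using hi⟩
    · exact ⟨0, by simpa using e⟩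

omit [Fintype A] in
theorem solb_small {p : ℕ} (hp : p.Prime) (hA : ∀ x : A, p • x = 0) (S : Finset (AddChar A ℂ)) :
    ∃ T : Finset A, #T ≤ p ^ #S ∧ ∀ x, ∃ t ∈ T, ∀ χ ∈ S, χ x = χ t := by
  classical
  have : NeZero p := ⟨hp.ne_zero⟩
  have hζ := Complex.isPrimitiveRoot_exp p hp.ne_zero
  set ζ := Complex.exp (2 * Real.pi * Complex.I / p)
  have hk : ∀ (χ : AddChar A ℂ) (x : A), ∃ k : Fin p, ζ ^ (k : ℕ) = χ x := fun χ x => by
    obtain ⟨k, hk, e⟩ := hζ.eq_pow_of_pow_eq_one (ξ := χ x)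
      (by rw [← AddChar.map_nsmul_eq_pow, hA, AddChar.map_zero_eq_one])
    exact ⟨⟨k, hk⟩, e⟩
  choose k hk using hk
  let ψ : A → (S → Fin p) := fun x χ => k χ x
  refine ⟨Finset.univ.image (Function.invFun ψ), ?_, fun x => ⟨Function.invFun ψ (ψ x),
    Finset.mem_image_of_mem _ (Finset.mem_univ _), fun χ hχ => ?_⟩⟩
  · refine Finset.card_image_le.trans ?_
    simp
  · have e : ψ (Function.invFun ψ (ψ x)) = ψ x := Function.invFun_eq ⟨x, rfl⟩
    have e2 : k χ (Function.invFun ψ (ψ x)) = k χ x := congrFun e ⟨χ, hχ⟩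
    rw [← hk, ← hk, e2]

theorem solb_core {p : ℕ} (hp : p.Prime) (hA : ∀ x : A, p • x = 0) (F : Set (A → ℚ))
    (hF : ∀ f ∈ F, ∀ h, (fun x => f (h + x)) ∈ F) :
    (∃ T : Finset A, #T ≤ solbB ∧ ∀ x, ∃ t ∈ T, ∀ f ∈ F, f x = f t) ∨
      ∃ g : Fin 17 → A, ∀ U : Submodule ℂ (AddSubgroup.closure (Set.range g) → ℂ),
        (∀ f ∈ F, (fun w : AddSubgroup.closure (Set.range g) => (f w : ℂ)) ∈ U) →
          325 ≤ Module.finrank ℂ U := by
  classical
  let S : Finset (AddChar A ℂ) := {χ | ∃ f ∈ F, solbFc f χ ≠ 0}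
  have hS : ∀ χ, χ ∈ S ↔ ∃ f ∈ F, solbFc f χ ≠ 0 := fun χ => by simp [S]
  have heq : ∀ x t : A, (∀ χ ∈ S, χ x = χ t) → ∀ f ∈ F, f x = f t := fun x t h f hf =>
    solb_eq fun χ hχ => h χ ((hS χ).2 ⟨f, hf, hχ⟩)
  rcases le_or_gt #S 324 with hc | hc
  · left
    by_cases h1 : ∀ χ ∈ S, ∀ x, χ x = 1
    · refine ⟨{0}, ?_, fun x => ⟨0, Finset.mem_singleton_self _, heq x 0 fun χ hχ => ?_⟩⟩
      · rw [Finset.card_singleton]
        exact (one_pow 0).symm.le.trans (solb_le (by omega) (by omega))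
      · rw [h1 χ hχ, h1 χ hχ]
    push Not at h1
    obtain ⟨χ, hχ, y, hy⟩ := h1
    obtain ⟨f, hf, hfχ⟩ := (hS χ).1 hχ
    have := Fact.mk hp
    have hord : orderOf (χ y) = p := orderOf_eq_prime
      (by rw [← AddChar.map_nsmul_eq_pow, hA, AddChar.map_zero_eq_one]) hy
    have hprim : IsPrimitiveRoot (χ y) p := hord ▸ IsPrimitiveRoot.orderOf (χ y)
    have hle : #(Finset.Ioo 0 p) ≤ #S := by
      refine Finset.card_le_card_of_injOn (fun j => χ ^ j) (fun j hj => ?_) fun a ha b hb e => ?_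
      · obtain ⟨h0, hj⟩ := Finset.mem_Ioo.1 (Finset.mem_coe.1 hj)
        exact Finset.mem_coe.2 ((hS _).2 ⟨f, hf, solb_galois hp hA hfχ
          (Nat.coprime_of_lt_prime h0.ne' hj hp).symm⟩)
      · have e2 : (χ ^ a) y = (χ ^ b) y := congrArg (fun c : AddChar A ℂ => c y) e
        rw [AddChar.pow_apply, AddChar.pow_apply] at e2
        exact hprim.pow_inj (Finset.mem_Ioo.1 (Finset.mem_coe.1 ha)).2
          (Finset.mem_Ioo.1 (Finset.mem_coe.1 hb)).2 e2
    rw [Nat.card_Ioo] at hle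
    obtain ⟨T, hT, hT2⟩ := solb_small hp hA S
    refine ⟨T, hT.trans (solb_le (by omega) hc), fun x => ?_⟩
    obtain ⟨t, ht, h⟩ := hT2 x
    exact ⟨t, ht, heq x t h⟩
  · right
    obtain ⟨S', hS', hc'⟩ := Finset.exists_subset_card_eq (s := S) (n := 325) hc
    obtain ⟨g, hg⟩ := solb_sep 17 S'.offDiag (fun q hq => (Finset.mem_offDiag.1 hq).2.2)
      (by rw [Finset.offDiag_card, hc']; norm_num)
    refine ⟨g, ?_⟩
    set W := AddSubgroup.closure (Set.range g)
    intro U hU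
    let ρ : S' → AddChar W ℂ := fun χ => (χ.1⁻¹).compAddMonoidHom W.subtype
    have hρ : ∀ (χ : S') (w : W), ρ χ w = χ.1 (-w) := fun _ _ => rfl
    have hinj : Function.Injective ρ := by
      intro a b e
      by_contra hne
      obtain ⟨i, hi⟩ := hg (a.1, b.1)
        (Finset.mem_offDiag.2 ⟨a.2, b.2, fun e' => hne (Subtype.ext e')⟩)
      have e2 := congrArg (fun c : AddChar W ℂ =>
        c (-⟨g i, AddSubgroup.subset_closure ⟨i, rfl⟩⟩)) e
      simp only [hρ, AddSubgroup.coe_neg, neg_neg] at e2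
      exact hi e2
    have hmem : ∀ χ : S', (ρ χ : W → ℂ) ∈ U := by
      intro χ
      obtain ⟨f, hf, hfχ⟩ := (hS χ.1).1 (hS' χ.2)
      have h1 : ∑ h, χ.1 h • (fun w : W => (f (h + w) : ℂ)) ∈ U :=
        U.sum_mem fun h _ => U.smul_mem _ (hU _ (hF f hf h))
      have h2 : (ρ χ : W → ℂ) =
          (solbFc f χ.1)⁻¹ • ∑ h, χ.1 h • (fun w : W => (f (h + w) : ℂ)) := by
        funext w
        simp only [Pi.smul_apply, Finset.sum_apply, smul_eq_mul]
        rw [solb_shift, hρ, mul_comm (χ.1 _), ← mul_assoc, inv_mul_cancel₀ hfχ, one_mul]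
      rw [h2]
      exact U.smul_mem _ h1
    have hli : LinearIndependent ℂ fun χ : S' => (⟨ρ χ, hmem χ⟩ : U) :=
      LinearIndependent.of_comp U.subtype ((AddChar.linearIndependent W ℂ).comp ρ hinj)
    have := hli.fintype_card_le_finrank
    rwa [Fintype.card_coe, hc'] at this

end

end Pool.Agent.Lib.MP_f61260_nt
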