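import Mathlib

/-! Finite orbits in torsion free modules. -/

set_option autoImplicit false
set_option maxHeartbeats 400000

namespace Pool.Agent.Lib.MP_f61260_nt

variable {M : Type} [AddCommGroup M] [IsAddTorsionFree M]

theorem pair_li {G : Type} [Group G] [DistribMulAction G M] {a : M} (ha : a ≠ 0) {g : G} {n : ℕ}
    (hn : 0 < n) (h1 : g ^ n • a = a) (h2 : g • a ≠ a) (h3 : g • a ≠ -a) :
    LinearIndependent ℤ ![a, g • a] := by
  rw [LinearIndependent.pair_iff]
  intro s t h
  have e1 : t • g • a = (-s) • a := by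
    rw [neg_smul]
    exact eq_neg_of_add_eq_zero_right h
  have e2 : ∀ j : ℕ, t ^ j • g ^ j • a = (-s) ^ j • a := fun j => by
    induction j with
    | zero => simp
    | succ j ih =>
      rw [pow_succ' t, pow_succ' g, mul_smul, mul_smul, smul_comm (t ^ j) g, ih, smul_comm g,
        smul_comm t, e1, ← mul_smul, ← pow_succ]
  have e3 : t ^ n = (-s) ^ n := by
    have := e2 n
    rw [h1, ← sub_eq_zero, ← sub_smul, IsAddTorsionFree.zsmul_eq_zero_iff_left ha] at this
    exact sub_eq_zero.1 this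
  have ht : t = 0 := by
    by_contra ht
    rcases (pow_eq_pow_iff_of_ne_zero hn.ne').1 e3 with e | ⟨e, -⟩
    · rw [← e, ← sub_eq_zero, ← smul_sub, IsAddTorsionFree.zsmul_eq_zero_iff_right ht] at e1
      exact h2 (sub_eq_zero.1 e1)
    · rw [neg_neg] at e
      rw [← e, neg_smul, ← smul_neg, ← sub_eq_zero, ← smul_sub,
        IsAddTorsionFree.zsmul_eq_zero_iff_right ht] at e1
      exact h3 (sub_eq_zero.1 e1)
  rw [ht, zero_smul, add_zero, IsAddTorsionFree.zsmul_eq_zero_iff_left ha] at h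
  exact ⟨h, ht⟩

theorem g2_form {x : M} (hx : x ≠ 0) : ∃ f : M →+ ℚ, f x ≠ 0 := by
  obtain ⟨f, hf⟩ := (Module.Baer.of_divisible ℚ).extension_property_addMonoidHom
    (zmultiplesHom M x) (fun s t h => by
      have h' : s • x = t • x := h
      rwa [← sub_eq_zero, ← sub_smul, IsAddTorsionFree.zsmul_eq_zero_iff_left hx,
        sub_eq_zero] at h') (Int.castAddHom ℚ)
  refine ⟨f, ?_⟩
  have := DFunLike.congr_fun hf 1
  simp only [AddMonoidHom.comp_apply, zmultiplesHom_apply, one_smul, Int.coe_castAddHom,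
    Int.cast_one] at this
  rw [this]
  exact one_ne_zero

theorem sq_sep {a b : M} (h : ∀ f : M →+ ℚ, f a ^ 2 = f b ^ 2) : a = b ∨ a = -b := by
  by_contra hcon
  push Not at hcon
  obtain ⟨f, hf⟩ := g2_form (sub_ne_zero.2 hcon.1)
  obtain ⟨g, hg⟩ := g2_form (sub_ne_zero.2 hcon.2)
  rw [map_sub, sub_ne_zero] at hf
  rw [map_sub, map_neg, sub_ne_zero] at hg
  have h1 := (sq_eq_sq_iff_eq_or_eq_neg.1 (h f)).resolve_left hf
  have h2 := (sq_eq_sq_iff_eq_or_eq_neg.1 (h g)).resolve_right hg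
  rcases sq_eq_sq_iff_eq_or_eq_neg.1 (h (f + g)) with e | e
  · simp only [AddMonoidHom.add_apply] at e
    exact hf (by linarith)
  · simp only [AddMonoidHom.add_apply] at e
    exact hg (by linarith)

omit [IsAddTorsionFree M] in
theorem li_of_rank {W : Type} [Finite W] (x : W → M) (r : ℕ)
    (h : ∀ U : Submodule ℂ (W → ℂ),
      (∀ f : M →+ ℚ, (fun w => ((f (x w) ^ 2 : ℚ) : ℂ)) ∈ U) → r ^ 2 < Module.finrank ℂ U) :
    ∃ w : Fin (r + 1) → W, LinearIndependent ℤ fun i => x (w i) := by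
  classical
  obtain ⟨s, hs, hmax⟩ := exists_maximal_linearIndepOn ℤ x
  have := Fintype.ofFinite s
  rcases lt_or_ge r (Fintype.card s) with hr | hr
  · obtain ⟨e⟩ := Function.Embedding.nonempty_of_card_le (α := Fin (r + 1)) (β := s)
      (by rw [Fintype.card_fin]; exact hr)
    exact ⟨fun i => e i, LinearIndependent.comp hs e e.injective⟩
  exfalso
  have hc : ∀ w, ∃ c : s → ℚ, ∀ f : M →+ ℚ, f (x w) = ∑ j, c j * f (x j) := fun w => by
    obtain ⟨n, hn, hm⟩ : ∃ n : ℤ, n ≠ 0 ∧ n • x w ∈ Submodule.span ℤ (x '' s) := by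
      by_cases hw : w ∈ s
      · exact ⟨1, one_ne_zero, by
          rw [one_smul]; exact Submodule.subset_span (Set.mem_image_of_mem x hw)⟩
      · exact hmax w hw
    rw [Set.image_eq_range] at hm
    obtain ⟨c, hc⟩ := (Submodule.mem_span_range_iff_exists_fun ℤ).1 hm
    refine ⟨fun j => c j / n, fun f => ?_⟩
    have e := congrArg f hc
    simp only [map_sum, map_zsmul, zsmul_eq_mul] at e
    have hn' : (n : ℚ) ≠ 0 := Int.cast_ne_zero.2 hn
    refine mul_left_cancel₀ hn' ?_
    rw [← e, Finset.mul_sum]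
    exact Finset.sum_congr rfl fun j _ => by field_simp
  choose c hc using hc
  let v : s × s → W → ℂ := fun q w => (c w q.1 : ℂ) * c w q.2
  have h1 := h (Submodule.span ℂ (Set.range v)) fun f => by
    refine (Submodule.mem_span_range_iff_exists_fun ℂ).2
      ⟨fun q => (f (x q.1) : ℂ) * f (x q.2), funext fun w => ?_⟩
    rw [hc w f, sq, Finset.sum_mul_sum, Finset.sum_apply, Fintype.sum_prod_type]
    push_cast
    refine Finset.sum_congr rfl fun j _ => Finset.sum_congr rfl fun l _ => ?_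
    simp only [v, Pi.smul_apply, smul_eq_mul]
    ring
  have h2 : Module.finrank ℂ (Submodule.span ℂ (Set.range v)) ≤ Fintype.card (s × s) :=
    finrank_range_le_card v
  rw [Fintype.card_prod] at h2
  have h3 : Fintype.card s * Fintype.card s ≤ r ^ 2 := by
    rw [sq]
    exact Nat.mul_le_mul hr hr
  omega

end Pool.Agent.Lib.MP_f61260_nt
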