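import Pool.Agent.Lib.MP_f61260_nt.Gal
import Pool.Agent.Lib.MP_f61260_nt.Sl.G1
import Pool.Agent.Lib.MP_f61260_nt.Sl.G2

/-! Independent conjugates with a small common orbit. -/

set_option autoImplicit false
set_option maxHeartbeats 400000

namespace Pool.Agent.Lib.MP_f61260_nt

open MulAction

/-- equality up to sign -/
def g3L {M : Type} [AddCommGroup M] (y z : M) : Prop := y = z ∨ y = -z

section

variable {G M : Type} [Group G] [AddCommGroup M] [DistribMulAction G M]

theorem g3L.refl (y : M) : g3L y y := Or.inl rfl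

theorem g3L.symm {y z : M} (h : g3L y z) : g3L z y :=
  h.elim (fun e => Or.inl e.symm) fun e => Or.inr (by rw [e, neg_neg])

theorem g3L.trans {y z w : M} (h : g3L y z) (h' : g3L z w) : g3L y w := by
  rcases h with rfl | rfl
  · exact h'
  · rcases h' with rfl | rfl
    · exact Or.inr rfl
    · exact Or.inl (neg_neg _)

theorem g3L.smul {y z : M} (h : g3L y z) (g : G) : g3L (g • y) (g • z) :=
  h.elim (fun e => Or.inl (by rw [e])) fun e => Or.inr (by rw [e, smul_neg])

theorem g3L.sq {y z : M} (h : g3L y z) (f : M →+ ℚ) : f y ^ 2 = f z ^ 2 :=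
  h.elim (fun e => by rw [e]) fun e => by rw [e, map_neg, neg_sq]

theorem g3_trans {B A A' : Subgroup G} {n m : ℕ} (h : IdxLe B A n) (h' : IdxLe A A' m)
    (hA : A ≤ B) : IdxLe B A' (n * m) :=
  (h.trans (h'.restrict le_rfl le_rfl : IdxLe A (A ⊓ A') m) hA inf_le_left).restrict le_rfl
    (inf_le_right.trans inf_le_right)

theorem g3_orb (B : Subgroup G) (y : M) (R : Finset M) (h : ∀ σ ∈ B, σ • y ∈ R) :
    IdxLe B (stabilizer G y) R.card :=
  exists_trans R (fun σ => σ • y) h fun σ _ τ _ e => by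
    rw [mem_stabilizer_iff, mul_smul, ← e, inv_smul_smul]

theorem g3_two (B : Subgroup G) (y : M) (h : ∀ σ ∈ B, g3L (σ • y) y) :
    IdxLe B (stabilizer G y) 2 := by
  classical
  refine (g3_orb B y {y, -y} fun σ hσ => ?_).mono Finset.card_le_two
  rw [Finset.mem_insert, Finset.mem_singleton]
  exact h σ hσ

theorem g3_fin {a : M} {D : ℕ} (h : IdxLe ⊤ (stabilizer G a) D) :
    ∃ R : Finset M, R.card ≤ D ∧ ∀ σ : G, σ • a ∈ R := by
  classical
  obtain ⟨T, hT⟩ := h
  refine ⟨Finset.univ.image fun i => T.r i • a, Finset.card_image_le.trans hT, fun σ => ?_⟩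
  obtain ⟨i, hi⟩ := T.ex σ (Subgroup.mem_top σ)
  refine Finset.mem_image.2 ⟨i, Finset.mem_univ i, ?_⟩
  rw [mem_stabilizer_iff, mul_smul, inv_smul_eq_iff] at hi
  exact hi.symm

theorem g3_index {a : M} {D : ℕ} (h : IdxLe ⊤ (stabilizer G a) D) :
    (stabilizer G a).index ≠ 0 := by
  obtain ⟨R, -, hR⟩ := g3_fin h
  rw [index_stabilizer]
  have hf : (orbit G a).Finite := R.finite_toSet.subset (by rintro _ ⟨σ, rfl⟩; exact hR σ)
  exact ((Set.ncard_pos hf).2 ⟨a, mem_orbit_self a⟩).ne'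

theorem g3_main [IsAddTorsionFree M] {a : M} {D : ℕ} (ha : a ≠ 0)
    (hD : IdxLe ⊤ (stabilizer G a) D) {A : Type} [AddCommGroup A] [Fintype A] {p : ℕ}
    (hp : p.Prime) (hA : ∀ x : A, p • x = 0) (ρ : A → G)
    (h1 : ∀ (n n' : A) (h : G), g3L (ρ (n + n') • h • a) (ρ n • ρ n' • h • a))
    (h2 : ∀ (σ : G) (n : A), ∃ m, ∀ h : G, g3L (σ • ρ n • h • a) (ρ m • σ • h • a))
    (h3 : ∃ n, ¬ g3L (ρ n • a) a) :
    ∃ r ≤ 18, ∃ τ : Fin (r + 1) → G, LinearIndependent ℤ (fun i => τ i • a) ∧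
      IdxLe ⊤ (⨅ i, stabilizer G (τ i • a)) ((2 * solbB + 2 ^ 19) * D ^ r) := by
  classical
  have h1' : ∀ n n' : A, g3L (ρ (n + n') • a) (ρ n • ρ n' • a) := fun n n' => by
    simpa using h1 n n' 1
  obtain ⟨R, hR, hR2⟩ := g3_fin hD
  let F : Set (A → ℚ) := {φ | ∃ f : M →+ ℚ, φ = fun n => f (ρ n • a) ^ 2}
  have hF : ∀ φ ∈ F, ∀ h, (fun x => φ (h + x)) ∈ F := by
    rintro _ ⟨f, rfl⟩ h
    exact ⟨f.comp (DistribSMul.toAddMonoidHom M (ρ h)), funext fun n => (h1' h n).sq f⟩
  rcases solb_core hp hA F hF with ⟨T, hT, hT2⟩ | ⟨g, hg⟩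
  · obtain ⟨n0, hn0⟩ := h3
    obtain ⟨t, ht, -, ht2⟩ := Subgroup.exists_pow_mem_of_index_ne_zero (g3_index hD) (ρ n0)
    have hli := pair_li ha ht ht2 (fun e => hn0 (Or.inl e)) fun e => hn0 (Or.inr e)
    refine ⟨1, by omega, ![1, ρ n0], ?_, ?_⟩
    · have e : (fun i => (![1, ρ n0] : Fin 2 → G) i • a) = ![a, ρ n0 • a] := by
        funext i
        fin_cases i <;> simp
      rw [e]
      exact hli
    have h4 := g3_orb (stabilizer G a) (ρ n0 • a)
      ((T.image fun t => ρ t • a) ∪ T.image fun t => -(ρ t • a)) fun σ hσ => by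
        obtain ⟨m, hm⟩ := h2 σ n0
        obtain ⟨t, ht, e⟩ := hT2 m
        have e1 := hm 1
        rw [one_smul, mem_stabilizer_iff.1 hσ] at e1
        have e2 : g3L (ρ m • a) (ρ t • a) := sq_sep fun f => e _ ⟨f, rfl⟩
        rw [Finset.mem_union]
        exact (e1.trans e2).imp (fun e => Finset.mem_image.2 ⟨t, ht, e.symm⟩)
          fun e => Finset.mem_image.2 ⟨t, ht, e.symm⟩
    have h5 : IdxLe (stabilizer G a) (stabilizer G a ⊓ stabilizer G (ρ n0 • a)) (2 * solbB) :=
      (h4.restrict le_rfl le_rfl).mono ((Finset.card_union_le _ _).trans (by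
        have := Finset.card_image_le (s := T) (f := fun t => ρ t • a)
        have := Finset.card_image_le (s := T) (f := fun t => -(ρ t • a))
        omega))
    refine ((g3_trans hD h5 le_top).restrict le_rfl ?_).mono ?_
    · refine inf_le_right.trans (le_iInf fun i => ?_)
      fin_cases i
      · simp
      · simp
    · rw [pow_one, mul_comm D]
      exact Nat.mul_le_mul_right D (Nat.le_add_right _ _)
  · obtain ⟨w, hw⟩ := li_of_rank (fun w : AddSubgroup.closure (Set.range g) => ρ w • a) 18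
      fun U hU => hg U (by rintro _ ⟨f, rfl⟩; exact hU f)
    refine ⟨18, le_rfl, fun i => ρ (w i), hw, ?_⟩
    have h4 : IdxLe ⊤ (⨅ i, stabilizer G (ρ (g i) • a)) (∏ _i : Fin 17, D) :=
      IdxLe.iInf fun i => (g3_orb ⊤ _ R fun σ _ => by rw [← mul_smul]; exact hR2 _).mono hR
    have h0 : g3L (ρ 0 • a) a := by
      have := (h1' 0 0).smul (ρ 0)⁻¹
      rw [add_zero, inv_smul_smul, inv_smul_smul] at this
      exact this.symm
    have h5 : ∀ σ ∈ stabilizer G a ⊓ ⨅ i, stabilizer G (ρ (g i) • a),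
        ∀ n ∈ AddSubgroup.closure (Set.range g), g3L (σ • ρ n • a) (ρ n • a) := by
      intro σ hσ
      have hσa : σ • a = a := hσ.1
      have hz : g3L (σ • ρ 0 • a) (ρ 0 • a) := (h0.smul σ).trans (by rw [hσa]; exact h0.symm)
      have hadd : ∀ n n', g3L (σ • ρ n • a) (ρ n • a) → g3L (σ • ρ n' • a) (ρ n' • a) →
          g3L (σ • ρ (n + n') • a) (ρ (n + n') • a) := fun n n' e e' => by
        obtain ⟨m, hm⟩ := h2 σ n
        have e1 := hm 1
        rw [one_smul, hσa] at e1
        refine ((h1' n n').smul σ).trans ((hm (ρ n')).trans ((e'.smul (ρ m)).trans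
          ((h1' m n').symm.trans ?_)))
        rw [add_comm m, add_comm n]
        exact (h1' n' m).trans (((e1.symm.trans e).smul (ρ n')).trans (h1' n' n).symm)
      have hmul : ∀ n, g3L (σ • ρ n • a) (ρ n • a) → ∀ j : ℕ,
          g3L (σ • ρ (j • n) • a) (ρ (j • n) • a) := fun n e j => by
        induction j with
        | zero => rwa [zero_nsmul]
        | succ j ih => rw [succ_nsmul]; exact hadd _ _ ih e
      intro n hn
      induction hn using AddSubgroup.closure_induction with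
      | mem x hx =>
        obtain ⟨i, rfl⟩ := hx
        exact Or.inl (Subgroup.mem_iInf.1 hσ.2 i)
      | zero => exact hz
      | add x y _ _ hx hy => exact hadd x y hx hy
      | neg x _ hx =>
        have e : -x = (p - 1) • x := by
          rw [neg_eq_iff_add_eq_zero, add_comm, ← succ_nsmul, Nat.sub_add_cancel hp.one_le, hA]
        rw [e]
        exact hmul x hx _
    have h6 : IdxLe (stabilizer G a ⊓ ⨅ i, stabilizer G (ρ (g i) • a))
        (⨅ i, stabilizer G (ρ (w i) • a)) (∏ _i : Fin (18 + 1), 2) :=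
      IdxLe.iInf fun i => g3_two _ _ fun σ hσ => h5 σ hσ _ (w i).2
    refine (g3_trans (hD.inf h4) h6 le_top).mono ?_
    rw [Finset.prod_const, Finset.prod_const, Finset.card_univ, Finset.card_univ, Fintype.card_fin,
      Fintype.card_fin, ← pow_succ', mul_comm]
    exact Nat.mul_le_mul_right _ (Nat.le_add_left _ _)

end

theorem solv_orbit : ∃ C : ℕ, 0 < C ∧ ∀ (G M : Type) [Group G] [AddCommGroup M]
    [IsAddTorsionFree M] [DistribMulAction G M] (a : M) (D l : ℕ), a ≠ 0 →
    IdxLe ⊤ (stabilizer G a) D → (∀ g ∈ derivedSeries G l, g • a = a) →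
    ∃ r ≤ 18, ∃ τ : Fin (r + 1) → G, LinearIndependent ℤ (fun i => τ i • a) ∧
      IdxLe ⊤ (⨅ i, stabilizer G (τ i • a)) (C * D ^ r) := by
  refine ⟨2 * solbB + 2 ^ 19, Nat.add_pos_right _ (by positivity), ?_⟩
  intro G M _ _ _ _ a D l ha hD hl
  classical
  let K : Subgroup G :=
    { carrier := {g | ∀ h : G, g3L (g • h • a) (h • a)}
      one_mem' := fun h => by rw [one_smul]; exact g3L.refl _
      mul_mem' := fun {x y} hx hy h => by
        rw [mul_smul]
        exact ((hy h).smul x).trans (hx h)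
      inv_mem' := fun {x} hx h => by
        have := (hx h).smul x⁻¹
        rw [inv_smul_smul] at this
        exact this.symm }
  have hK : ∀ g, g ∈ K ↔ ∀ h : G, g3L (g • h • a) (h • a) := fun _ => Iff.rfl
  have hKn : K.Normal := ⟨fun x hx g => (hK _).2 fun h => by
    have := ((hK x).1 hx (g⁻¹ * h)).smul g
    rwa [mul_smul g⁻¹, smul_inv_smul, ← mul_smul g x, ← mul_smul (g * x)] at this⟩
  have hle : ∀ H : Subgroup G, H.Normal → H ≤ stabilizer G a → H ≤ K := fun H hH h x hx =>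
    (hK x).2 fun g => Or.inl (by
      have : (g⁻¹ * x * g⁻¹⁻¹) • a = a := h (hH.conj_mem x hx g⁻¹)
      rwa [inv_inv, mul_smul, mul_smul, inv_smul_eq_iff] at this)
  have hfi : (stabilizer G a).FiniteIndex := ⟨g3_index hD⟩
  have hfK : K.FiniteIndex := Subgroup.finiteIndex_of_le
    (hle _ inferInstance (stabilizer G a).normalCore_le)
  have hπ : ∀ g g' : G, (g : G ⧸ K) = g' → ∀ h : G, g3L (g • h • a) (g' • h • a) :=
    fun g g' e h => by
      have := ((hK _).1 (QuotientGroup.eq.1 e) h).smul g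
      rw [mul_smul, smul_inv_smul] at this
      exact this.symm
  rcases subsingleton_or_nontrivial (G ⧸ K) with hs | hs
  · refine ⟨0, by omega, fun _ => 1, ?_, ?_⟩
    · exact (linearIndependent_unique_iff (ι := Fin 1)).2 (by rwa [one_smul])
    · refine ((g3_two ⊤ a fun σ _ => ?_).restrict le_rfl
        (inf_le_right.trans (le_iInf fun i => by simp))).mono ?_
      · simpa using hπ σ 1 (Subsingleton.elim _ _) 1
      · rw [pow_zero, mul_one]
        exact le_add_left (by norm_num)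
  have hsol : Group.IsSolvable (G ⧸ K) := ⟨⟨l, by
    rw [← map_derivedSeries_eq (QuotientGroup.mk'_surjective K), Subgroup.map_eq_bot_iff,
      QuotientGroup.ker_mk']
    exact hle _ (derivedSeries_normal G l) hl⟩⟩
  obtain ⟨p, N, hp, hN, hN0, hc, hpw⟩ := ex_elem_normal (G ⧸ K)
  let : CommGroup N :=
    { (inferInstance : Group N) with mul_comm := fun x y => Subtype.ext (hc x x.2 y y.2) }
  have := Fintype.ofFinite (Additive N)
  have h2 : ∀ (σ : G) (n : Additive N), ∃ m : Additive N, ∀ h : G,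
      g3L (σ • (n.toMul : G ⧸ K).out • h • a) ((m.toMul : G ⧸ K).out • σ • h • a) := fun σ n =>
    ⟨Additive.ofMul ⟨_, hN.conj_mem _ n.toMul.2 σ⟩, fun h => by
      rw [← mul_smul σ, ← mul_smul _ σ]
      exact hπ _ _ (by simp) h⟩
  refine g3_main ha hD (A := Additive N) hp (fun x => Subtype.ext (hpw _ x.toMul.2))
    (fun n => (n.toMul : G ⧸ K).out) (fun n n' h => ?_) h2 ?_
  · rw [← mul_smul (Quotient.out (n.toMul : G ⧸ K))]
    exact hπ _ _ (by simp) h
  · by_contra hcon
    push Not at hcon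
    refine hN0 ((Subgroup.eq_bot_iff_forall N).2 fun x hx => ?_)
    rw [← QuotientGroup.out_eq' x, QuotientGroup.eq_one_iff, hK]
    intro h
    obtain ⟨m, hm⟩ := h2 h⁻¹ (Additive.ofMul ⟨x, hx⟩)
    have e := hm h
    rw [inv_smul_smul] at e
    have e2 := (e.trans (hcon m)).smul h
    rwa [smul_inv_smul] at e2

end Pool.Agent.Lib.MP_f61260_nt
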