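import Pool.Agent.Lib.MP_f61260_nt.Sl.Defs
import Pool.Agent.Lib.MP_f61260_nt.Sl.G3

/-! Independent conjugates modulo the division group. -/

set_option autoImplicit false
set_option maxHeartbeats 400000

namespace Pool.Agent.Lib.MP_f61260_nt

lemma conj_back {𝒢 : Type} [Group 𝒢] {U A' : Subgroup 𝒢} {A : Subgroup U} {n : ℕ}
    (h : IdxLe ⊤ A n) (hA : ∀ u : U, u ∈ A → (u : 𝒢) ∈ A') : IdxLe U A' n := by
  classical
  obtain ⟨T, hT⟩ := h
  obtain ⟨T', hT'⟩ := exists_trans (B := U) (A := A') (Finset.univ : Finset T.ι)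
    (fun σ => if h : σ ∈ U then T.idx (Subgroup.mem_top ⟨σ, h⟩) else T.idx (Subgroup.mem_top 1))
    (fun _ _ => Finset.mem_univ _) fun σ hσ τ hτ h => by
      rw [dif_pos hσ, dif_pos hτ] at h
      have h1 := T.idx_spec (Subgroup.mem_top ⟨σ, hσ⟩)
      have h2 := T.idx_spec (Subgroup.mem_top ⟨τ, hτ⟩)
      rw [← h] at h2
      have h3 := A.mul_mem (A.inv_mem h1) h2
      rw [mul_inv_rev, inv_inv, mul_assoc, mul_inv_cancel_left] at h3
      exact hA _ h3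
  exact ⟨T', hT'.trans hT⟩

lemma Ctx.conj_act {ι : Type} [Fintype ι] {c : Ctx ι} {x : Qb} (h : c.Dv x) {u : GA}
    (hu : u ∈ c.G0) : c.Dv (u x) := by
  obtain ⟨ξ, h1, h2⟩ := h.act u hu
  rw [h2]
  exact (Ctx.dv_tor h1).mul h

lemma Ctx.conj_fix {ι : Type} [Fintype ι] {c : Ctx ι} {U : Subgroup GA} (hU : U ≤ c.G0) {x : Qb}
    (hx : x ≠ 0) (hr : Rig U x) {u : GA} (hu : u ∈ U) (h : c.Dv (x⁻¹ * u x)) : u x = x := by
  obtain ⟨ξ, ⟨n, hn, h1⟩, h2⟩ := h.act u (hU hu)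
  obtain ⟨_, hT⟩ := fiG x
  obtain ⟨N, hN, hN'⟩ := hT.exists_pow (Subgroup.mem_top u)
  have h3 : u ((x⁻¹ * u x) ^ n) = (x⁻¹ * u x) ^ n := by
    rw [map_pow, h2, mul_pow, h1, one_mul]
  have h4 : u (x ^ n) = (x⁻¹ * u x) ^ n * x ^ n := by
    rw [map_pow, ← mul_pow, mul_right_comm, inv_mul_cancel₀ hx, one_mul]
  have h5 := pow_act h4 h3 N
  rw [map_pow, mem_St.1 hN'] at h5
  have h6 : ((x⁻¹ * u x) ^ n) ^ N = 1 :=
    mul_right_cancel₀ (pow_ne_zero n hx) (by rw [← h5, one_mul])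
  refine hr u hu (n * N) (Nat.mul_pos hn hN) ?_
  rw [pow_mul, map_pow, h4, mul_pow, h6, one_mul]

theorem Ctx.solv_conj : ∃ C : ℕ, 0 < C ∧ ∀ (ι : Type) [Fintype ι] (c : Ctx ι) (U : Subgroup GA)
    (α β : Qb) (e D l : ℕ), U ≤ c.G0 → α ≠ 0 → ¬ c.Dv β → c.Dv (β / α ^ e) → Rig U β →
    IdxLe U (St ℚ β) D → (∀ g ∈ derivedSeries U l, (g : GA) α = α) →
    ∃ r ≤ 18, ∃ τ : Fin (r + 1) → GA, (∀ i, τ i ∈ U) ∧
      (∀ a, a ≠ 0 → ¬ c.Dv (mon (fun i => τ i β) a)) ∧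
      IdxLe U (⨅ i, St ℚ (τ i β)) (C * D ^ r) := by
  obtain ⟨C, hC, H⟩ := solv_orbit
  refine ⟨C, hC, fun ι _ c U α β e D l hU hα hβ hd hr hD hl => ?_⟩
  have hβ0 : β ≠ 0 := fun h => hd.ne (by rw [h, zero_div])
  let Ds : Subgroup Qbˣ :=
    { carrier := {u | c.Dv (u : Qb)}
      one_mem' := Ctx.dv_tor ⟨1, one_pos, by simp⟩
      mul_mem' := fun {a b} ha hb => by
        change c.Dv ((a * b : Qbˣ) : Qb)
        rw [Units.val_mul]
        exact Ctx.Dv.mul ha hb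
      inv_mem' := fun {a} ha => by
        change c.Dv ((a⁻¹ : Qbˣ) : Qb)
        rw [Units.val_inv_eq_inv_val]
        exact Ctx.Dv.inv ha }
  let φ : U → Qbˣ →* Qbˣ := fun g => Units.map ((g : GA) : Qb →* Qb)
  have hφ : ∀ g : U, Ds ≤ Ds.comap (φ g) := fun g x hx => Ctx.conj_act hx (hU g.2)
  let cl : Qbˣ → Additive (Qbˣ ⧸ Ds) := fun x => Additive.ofMul (QuotientGroup.mk' Ds x)
  have hcl : ∀ x y, cl x = cl y ↔ c.Dv ((x : Qb)⁻¹ * y) := fun x y => by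
    rw [← Units.val_inv_eq_inv_val, ← Units.val_mul]
    exact Additive.ofMul.injective.eq_iff.trans QuotientGroup.eq
  have hsurj : ∀ m, ∃ x, cl x = m := fun m => QuotientGroup.mk'_surjective Ds m.toMul
  let _ : DistribMulAction U (Additive (Qbˣ ⧸ Ds)) :=
    { smul := fun g m => Additive.ofMul (QuotientGroup.map Ds Ds (φ g) (hφ g) m.toMul)
      one_smul := fun m => by
        obtain ⟨x, rfl⟩ := hsurj m
        rfl
      mul_smul := fun g g' m => by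
        obtain ⟨x, rfl⟩ := hsurj m
        rfl
      smul_zero := fun g => congrArg Additive.ofMul (map_one (QuotientGroup.map Ds Ds (φ g) (hφ g)))
      smul_add := fun g m m' =>
        congrArg Additive.ofMul (map_mul (QuotientGroup.map Ds Ds (φ g) (hφ g)) m.toMul m'.toMul) }
  have hsm : ∀ (g : U) x, g • cl x = cl (φ g x) := fun g x => rfl
  have h0 : ∀ x, cl x = 0 ↔ c.Dv (x : Qb) := fun x =>
    Additive.ofMul.injective.eq_iff.trans (QuotientGroup.eq_one_iff x)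
  have : IsAddTorsionFree (Additive (Qbˣ ⧸ Ds)) := by
    refine (isAddTorsionFree_iff_not_isOfFinAddOrder (G := Additive (Qbˣ ⧸ Ds))).2
      fun m hm hf => hm ?_
    obtain ⟨x, rfl⟩ := hsurj m
    obtain ⟨n, hn, h⟩ := isOfFinAddOrder_iff_nsmul_eq_zero.1 hf
    have h1 : cl (x ^ n) = 0 := by
      rw [← h]
      simp only [cl, map_pow, ofMul_pow]
    rw [h0, Units.val_pow_eq_pow_val] at h1
    exact (h0 x).2 (Ctx.Dv.of_pow hn h1)
  obtain ⟨r, hr18, τ, h1, h2⟩ := H U (Additive (Qbˣ ⧸ Ds)) (cl (Units.mk0 β hβ0)) D l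
    (fun h => hβ ((h0 _).1 h))
    ((hD.comap U.subtype (B' := ⊤) fun σ _ => σ.2).restrict le_rfl fun g hg => by
      rw [MulAction.mem_stabilizer_iff, hsm]
      exact congrArg cl (Units.ext hg.2))
    fun g hg => by
      rw [hsm, eq_comm, hcl]
      obtain ⟨ξ, k1, k2⟩ := hd.act g (hU g.2)
      rw [map_div₀, map_pow, hl g hg, ← mul_div_assoc, div_left_inj' (pow_ne_zero _ hα)] at k2
      change c.Dv (β⁻¹ * (g : GA) β)
      rw [k2, mul_left_comm, inv_mul_cancel₀ hβ0, mul_one]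
      exact Ctx.dv_tor k1
  refine ⟨r, hr18, fun i => τ i, fun i => (τ i).2, fun a ha hdv => ha ?_,
    conj_back h2 fun u hu => Subgroup.mem_iInf.2 fun i => ?_⟩
  · refine funext (Fintype.linearIndependent_iff.1 h1 a ?_)
    have h3 : cl (∏ i, φ (τ i) (Units.mk0 β hβ0) ^ a i) = 0 := by
      rw [h0, Units.coe_prod]
      simp only [Units.val_zpow_eq_zpow_val]
      exact hdv
    rw [← h3]
    simp only [hsm, cl, map_prod, map_zpow, ofMul_prod, ofMul_zpow]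
  · have h3 := Subgroup.mem_iInf.1 hu i
    rw [MulAction.mem_stabilizer_iff, hsm, hsm, eq_comm, hcl] at h3
    exact Ctx.conj_fix hU ((map_ne_zero _).2 hβ0)
      (hr.conj fun v hv => U.mul_mem (U.mul_mem (U.inv_mem (τ i).2) hv) (τ i).2) u.2 h3

end Pool.Agent.Lib.MP_f61260_nt
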