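import Pool.Agent.Lib.MP_f61260_nt.Sl.Bd
import Pool.Agent.Lib.MP_f61260_nt.Sl.Avg

/-! Close automorphisms almost stabilise the orbit. -/

set_option autoImplicit false
set_option maxHeartbeats 400000

namespace Pool.Agent.Lib.MP_f61260_nt

open Module Submodule Real Filter

lemma core_sub {W A : Subgroup GA} (S : Subgroup GA)
    (hn : ∀ x ∈ W, ∀ u ∈ A, x⁻¹ * u * x ∈ A) :
    ∃ Y : Subgroup GA, ∀ w, w ∈ Y ↔ w ∈ W ∧ ∃ u ∈ A, u⁻¹ * w ∈ S := by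
  refine ⟨{ carrier := {w | w ∈ W ∧ ∃ u ∈ A, u⁻¹ * w ∈ S}
            one_mem' := ⟨W.one_mem, 1, A.one_mem, by simp⟩
            mul_mem' := ?_
            inv_mem' := ?_ }, fun _ => Iff.rfl⟩
  · rintro a b ⟨ha, u, hu, h1⟩ ⟨hb, v, hv, h2⟩
    refine ⟨W.mul_mem ha hb, _, A.mul_mem (hn _ (W.inv_mem ha) v hv) hu, ?_⟩
    have := S.mul_mem h1 h2
    rwa [show u⁻¹ * a * (v⁻¹ * b) = (a⁻¹⁻¹ * v * a⁻¹ * u)⁻¹ * (a * b) by group] at this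
  · rintro a ⟨ha, u, hu, h1⟩
    refine ⟨W.inv_mem ha, _, hn a ha _ (A.inv_mem hu), ?_⟩
    have := S.inv_mem h1
    rwa [show (u⁻¹ * a)⁻¹ = (a⁻¹ * u⁻¹ * a)⁻¹ * a⁻¹ by group] at this

lemma core_nrm {U W A : Subgroup GA} (ab : ∀ x ∈ W, ∀ y ∈ W, x⁻¹ * y * x * y⁻¹ ∈ U) (h1 : U ≤ A)
    (h2 : A ≤ W) : ∀ x ∈ W, ∀ u ∈ A, x⁻¹ * u * x ∈ A := fun x hx u hu => by
  have := A.mul_mem (h1 (ab x hx u (h2 hu))) hu
  rwa [inv_mul_cancel_right] at this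

lemma core_pos {k : Type} [Field k] [Algebra k Qb] {X : Submodule k Qb} [FiniteDimensional k X]
    (h : (1 : Qb) ∈ X) : 0 < finrank k X :=
  finrank_pos_iff.2 ⟨⟨⟨1, h⟩, 0, fun h => one_ne_zero (congrArg Subtype.val h)⟩⟩

lemma core_mon {σ : Type} [Fintype σ] (τ : GA) (P : σ → Qb) (q : ℕ) (a : σ → ℤ) :
    mon (fun i => τ (P i) ^ q) a = τ (mon P a ^ q) := by
  rw [mon_pw, map_pow, map_mon]

lemma core_fix {σ : Type} [Fintype σ] {P : σ → Qb} {k : σ → ℕ} {q ν : ℕ} (hk : ∀ i, k i ≤ ν)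
    {g : GA} (h : ∀ a ∈ bx (latK k) ν, g (mon P a ^ q) = mon P a ^ q) :
    ∀ a ∈ latK k, g (mon P a ^ q) = mon P a ^ q := by
  classical
  intro a ha
  obtain ⟨e, -, he⟩ := mon_lat (fun i => P i ^ q) ha
  rw [← mon_pw, he, map_prod]
  refine Finset.prod_congr rfl fun i _ => ?_
  have h1 := single_lat P k i
  have h2 := h _ (mem_bx.2 ⟨h1.1, fun j => by
    by_cases hj : j = i
    · subst hj
      simpa using hk j
    · simp [hj]⟩)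
  rw [h1.2, ← pow_mul, mul_comm, pow_mul] at h2
  rw [map_zpow₀, h2]

/-- counting of cosets -/
lemma core_cnt {σ : Type} [Fintype σ] {U W Γ : Subgroup GA} {N J q ν ν' : ℕ} (hU : U ≤ Γ)
    (hΓ : Γ ≤ W) (ab : ∀ x ∈ W, ∀ y ∈ W, x⁻¹ * y * x * y⁻¹ ∈ U) (hN : IdxLe W Γ N)
    {P : σ → Qb} {k : σ → ℕ} (hk : ∀ i, k i ≤ ν) {τ : GA} (n1 : ∀ u ∈ U, τ⁻¹ * u * τ ∈ U)
    (n2 : ∀ u ∈ U, τ * u * τ⁻¹ ∈ U) (n3 : ∀ u ∈ W, τ⁻¹ * u * τ ∈ W)
    (hJ : ¬ ∃ Y : Subgroup GA, U ≤ Y ∧ Y ≤ W ∧ IdxLe Γ Y J ∧ ∀ w ∈ Y, ∃ u ∈ U, ∀ a ∈ latK k,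
      w (τ (mon P a ^ q)) = u (τ (mon P a ^ q))) :
    ∃ M : Finset GA, M.card ≤ N ∧ M.card * ((J + 1) * HH U P k q ν') ≤
      finrank (Kf W) (Algebra.adjoin (Kf W)
        ((fun a => mon P a ^ q) '' (bx (latK k) ν : Set (σ → ℤ)))).toSubmodule ∧
      (∀ x ∈ M, x ∈ W) ∧ ∀ w ∈ W, ∃ x ∈ M, ∃ γ ∈ Γ, ∃ u ∈ U, ∀ a ∈ latK k,
        w (τ (mon P a ^ q)) = γ (u (x (τ (mon P a ^ q)))) := by
  classical
  obtain ⟨S, hS⟩ : ∃ S : Subgroup GA, ∀ g, g ∈ S ↔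
      ∀ a ∈ latK k, g (τ (mon P a ^ q)) = τ (mon P a ^ q) :=
    ⟨SL (fun i => τ (P i) ^ q) (latK k), fun g => by simp only [mem_SL, core_mon]⟩
  have hUW := hU.trans hΓ
  have nU := core_nrm ab le_rfl hUW
  obtain ⟨Y, hY⟩ := core_sub S nU
  obtain ⟨Z, hZ⟩ := core_sub Y (core_nrm ab hU hΓ)
  have y1 : U ≤ Y := fun u hu => (hY u).2 ⟨hUW hu, u, hu, by simp⟩
  have y2 : Y ≤ W := fun w hw => ((hY w).1 hw).1
  have y3 : ∀ w ∈ W, w ∈ S → w ∈ Y := fun w h1 h2 => (hY w).2 ⟨h1, 1, U.one_mem, by simpa using h2⟩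
  have z1 : Γ ≤ Z := fun u hu => (hZ u).2 ⟨hΓ hu, u, hu, by simp⟩
  have z2 : Z ≤ W := fun w hw => ((hZ w).1 hw).1
  have z3 : Y ≤ Z := fun w h1 => (hZ w).2 ⟨y2 h1, 1, Γ.one_mem, by simpa using h1⟩
  obtain ⟨V, ⟨T0⟩, hV⟩ := trG fun i => τ (P i)
  have v1 : V ≤ S := fun g hg => (hS g).2 fun a _ => by
    rw [← core_mon]
    exact Fx.prod _ (fun i _ => ((hV i).pow q).zpow _) g hg
  have v2 : IdxLe ⊤ V T0.card := ⟨T0, le_rfl⟩
  obtain ⟨T1, t1⟩ := hN.restrict le_rfl (inf_le_right.trans z1)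
  obtain ⟨T2, -⟩ := v2.restrict (B' := Z) (A' := Y) le_top fun g hg => y3 g (z2 hg.1) (v1 hg.2)
  obtain ⟨T3, -⟩ := v2.restrict (B' := Y) (A' := Y ⊓ S) le_top (inf_le_inf_left _ v1)
  have t2 : J + 1 ≤ T2.card := by
    by_contra hc
    refine hJ ⟨Y, y1, y2, IdxLe.restrict ⟨T2, by omega⟩ z1 inf_le_right, fun w hw => ?_⟩
    obtain ⟨-, u, hu, h1⟩ := (hY w).1 hw
    refine ⟨u, hu, fun a ha => ?_⟩
    conv_rhs => rw [← (hS _).1 h1 a ha]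
    rw [← AlgEquiv.mul_apply u, mul_inv_cancel_left]
  have t3 : HH U P k q ν' ≤ T3.card := by
    obtain ⟨e, e1, -, e3⟩ := exists_bas (k := Kf U) _
      ((bx (latK k) ν').finite_toSet.image fun a => mon P a ^ q)
    have := card_le_idx (li_conj n1 n2 e3) (V := S) (fun i g hg => by
      obtain ⟨a, ha, h1⟩ := e1 i
      rw [← h1]
      exact (hS g).1 hg a (mem_bx.1 ha).1)
      (IdxLe.restrict ⟨T3, le_rfl⟩ y1 (inf_le_right.trans inf_le_right))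
    rwa [Fintype.card_fin] at this
  obtain ⟨T, hT⟩ : ∃ T : Trans W (Y ⊓ S), T.card = T1.card * (T2.card * T3.card) :=
    ⟨T1.comp (T2.comp T3 z3 inf_le_left) z2 (inf_le_left.trans z3), by
      rw [Trans.comp_card, Trans.comp_card]⟩
  have t4 := emb_le (V := W) ((bx (latK k) ν).finite_toSet.image fun a => mon P a ^ q)
    (w := fun i => τ⁻¹ * T.r i * τ) (fun i => n3 _ (T.mem i)) fun i j h => by
      have h1 : (T.r i)⁻¹ * T.r j ∈ S := (hS _).2 fun a ha => by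
        have h2 := core_fix (P := P) (q := q) hk
          (g := (τ⁻¹ * T.r i * τ)⁻¹ * (τ⁻¹ * T.r j * τ)) (fun a ha => by
            rw [AlgEquiv.mul_apply, ← h _ ⟨a, ha, rfl⟩, ← AlgEquiv.mul_apply, inv_mul_cancel,
              AlgEquiv.one_apply]) a ha
        conv_rhs => rw [← h2]
        rw [← AlgEquiv.mul_apply, ← AlgEquiv.mul_apply]
        congr 1
        group
      exact T.uniq i j ⟨y3 _ (W.mul_mem (W.inv_mem (T.mem i)) (T.mem j)) h1, h1⟩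
  have t5 : (Finset.univ.image T1.r).card ≤ T1.card := Finset.card_image_le
  refine ⟨Finset.univ.image T1.r, t5.trans t1,
    (Nat.mul_le_mul t5 (Nat.mul_le_mul t2 t3)).trans (hT.ge.trans t4), fun x hx => ?_,
    fun w hw => ?_⟩
  · obtain ⟨i, -, rfl⟩ := Finset.mem_image.1 hx
    exact T1.mem i
  obtain ⟨i, hi⟩ := T1.ex w hw
  obtain ⟨-, γ, h1, h2⟩ := (hZ _).1 hi
  obtain ⟨-, u, h3, h4⟩ := (hY _).1 h2
  refine ⟨_, Finset.mem_image_of_mem _ (Finset.mem_univ i), γ, h1, _,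
    U.mul_mem (ab γ (hΓ h1) _ (T1.mem i)) (nU _ (W.inv_mem (T1.mem i)) u h3), fun a ha => ?_⟩
  conv_rhs => rw [← (hS _).1 h4 a ha]
  simp only [← AlgEquiv.mul_apply]
  congr 1
  group

theorem mcore {σ : Type} [Fintype σ] {p : ℕ} [hp : Fact p.Prime] {G U W Γ : Subgroup GA}
    {d N J T E μ : ℕ} (hG : IdxLe ⊤ G d) (hU : U ≤ Γ) (hΓ : Γ ≤ W) (hW : W ≤ G)
    (nU : ∀ τ ∈ G, ∀ u ∈ U, τ⁻¹ * u * τ ∈ U) (nW : ∀ τ ∈ G, ∀ u ∈ W, τ⁻¹ * u * τ ∈ W)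
    (ab : ∀ x ∈ W, ∀ y ∈ W, x⁻¹ * y * x * y⁻¹ ∈ U) (hN : IdxLe W Γ N)
    {P c : σ → Qb} {k : σ → ℕ} (h : Circ U P k μ) (hq : U ≤ Mu (p ^ E)) (hc0 : ∀ i, c i ≠ 0)
    (hc : ∀ τ ∈ G, ∀ i, ∃ ξ, Tor ξ ∧ τ (c i) = ξ * c i) {η : ℝ} (h0 : 0 ≤ η)
    (hη : η ^ p ^ E ≤ ‖(p : Om p)‖) (cl : ∀ w ∈ Γ, ∃ g, g⁻¹ * w ∈ U ∧ Cl p U c η g)
    {H : ℝ} (hH : ∑ i, ht (P i * c i) ≤ H) (par : Num (Fintype.card σ) d p E T J N μ H)
    {b : GA} (hb : b ∈ G) :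
    ∃ τ ∈ G, ∀ τ' ∈ ({τ, b * τ} : Set GA), ∃ Y : Subgroup GA, U ≤ Y ∧ Y ≤ W ∧ IdxLe Γ Y J ∧
      ∀ w ∈ Y, ∃ u ∈ U, ∀ a ∈ latK k,
        w (τ' (mon P a ^ p ^ E)) = u (τ' (mon P a ^ p ^ E)) := by
  by_contra hcon
  have hq0 : 0 < p ^ E := pow_pos hp.out.pos _
  obtain ⟨ν, hν⟩ : ∃ ν, ν = (p ^ E) ^ Fintype.card σ * μ := ⟨_, rfl⟩
  have m1 : μ ≤ ν := hν ▸ Nat.le_mul_of_pos_left _ (pow_pos hq0 _)
  obtain ⟨s, hs⟩ : ∃ s, s = (fun a => mon P a ^ p ^ E) '' (bx (latK k) ν : Set (σ → ℤ)) := ⟨_, rfl⟩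
  obtain ⟨n, hn⟩ : ∃ n, n = finrank (Kf W) (Algebra.adjoin (Kf W) s).toSubmodule := ⟨_, rfl⟩
  obtain ⟨H2, hH2⟩ : ∃ H2, H2 = HH U P k (p ^ E) ((8 * (J * N) + 4) * ν + ν) := ⟨_, rfl⟩
  have z0 : mon P 0 ^ p ^ E = 1 := by rw [mon_zero, one_pow]
  have z1 : ∀ a ∈ latK k, ∀ b ∈ latK k, mon P (a + b) ^ p ^ E = mon P a ^ p ^ E * mon P b ^ p ^ E :=
    fun a _ b _ => by rw [mon_add h.ne, mul_pow]
  have p2 : 0 < (J + 1) * H2 :=
    Nat.mul_pos J.succ_pos (hH2 ▸ core_pos (z0 ▸ mem_Sp (zero_bx _ _)))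
  obtain ⟨C, hC⟩ : ∃ C, C = min N (n / ((J + 1) * H2)) := ⟨_, rfl⟩
  have c1 : C ≤ N := hC ▸ min_le_left _ _
  have c2 : C * ((J + 1) * H2) ≤ n := (Nat.le_div_iff_mul_le p2).1 (hC ▸ min_le_right _ _)
  have e2 := par.e2
  have key : ∀ j, 0 < j → j ≤ 8 * (J * N) + 4 →
      HH W P k (p ^ E) (j * ν) ≤ C * J * HH U P k 1 (j * ν) := fun j j0 j1 => by
    have m2 : ((j * ν : ℕ) : ℝ) ≤ (2 * (p ^ E) ^ (Fintype.card σ + 1) * μ : ℕ) := by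
      refine Nat.cast_le.2 ((Nat.mul_le_mul_right _ (show j ≤ 2 * p ^ E by linarith)).trans
        (le_of_eq ?_))
      rw [hν]
      ring
    have m3 := Finset.sum_nonneg fun i (_ : i ∈ Finset.univ) => ht_nonneg (P i * c i)
    refine (rank_bd (C := C) hG hW nU nW h.ne hc0 hc h.pos (fun i => (h.le i).trans
      (m1.trans (Nat.le_mul_of_pos_left _ j0))) par.pos h0 hη hb (fun τ hτ => ?_)
      (le_trans ?_ par.e3) (le_trans ?_ par.e4)).trans (Nat.mul_le_mul_right _ ?_)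
    · obtain ⟨τ', h1, h2⟩ : ∃ τ' ∈ ({τ, b * τ} : Set GA), ¬ ∃ Y : Subgroup GA, U ≤ Y ∧ Y ≤ W ∧
          IdxLe Γ Y J ∧ ∀ w ∈ Y, ∃ u ∈ U, ∀ a ∈ latK k,
            w (τ' (mon P a ^ p ^ E)) = u (τ' (mon P a ^ p ^ E)) := by
        by_contra h3
        exact hcon ⟨τ, hτ, fun τ' h4 => by_contra fun h5 => h3 ⟨τ', h4, h5⟩⟩
      have h3 : τ' ∈ G := by
        rcases h1 with rfl | rfl
        exacts [hτ, G.mul_mem hb hτ]
      obtain ⟨M, a1, a2, a3, a4⟩ := core_cnt (ν := ν) (ν' := (8 * (J * N) + 4) * ν + ν) hU hΓ ab hN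
        (fun i => (h.le i).trans m1) (nU _ h3)
        (fun u hu => by simpa using nU _ (G.inv_mem h3) u hu) (nW _ h3) h2
      rw [← hs, ← hn, ← hH2] at a2
      refine ⟨τ', h1, M, hC ▸ le_min a1 ((Nat.le_div_iff_mul_le p2).2 a2),
        fun x hx => hW (a3 x hx), fun w hw => ?_⟩
      obtain ⟨x, b1, γ, b2, u, b3, b4⟩ := a4 w hw
      obtain ⟨g, g1, g2⟩ := cl γ b2
      refine ⟨x, b1, g, g2, _, U.mul_mem g1 b3, fun a ha => ?_⟩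
      rw [b4 a ha, ← AlgEquiv.mul_apply g, ← mul_assoc, mul_inv_cancel_left, AlgEquiv.mul_apply]
    · gcongr
    · have := m3.trans hH
      gcongr
    · rw [mul_comm 2 C, mul_assoc]
      exact Nat.mul_le_mul_left _ par.e1
  have hf : s.Finite := hs ▸ (bx _ _).finite_toSet.image _
  have sp : ∀ j, span (Kf W) s ^ j ≤ Sp (Kf W) (latK k) (fun a => mon P a ^ p ^ E) (j * ν) :=
    fun j => hs ▸ Sp_pow z1 z0 ν j
  rcases grow' (K := Kf W) s hf (fun x _ => Algebra.IsIntegral.isIntegral x)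
    (hs ▸ ⟨0, zero_bx _ _, z0⟩) (J * N) with g | g
  · have g1 := (finrank_mono (sp _)).trans (key (4 * (J * N) + 2) (by omega) (by omega))
    have g2 : HH U P k 1 ((4 * (J * N) + 2) * ν) ≤ finrank (Kf U) (span (Kf U) s) := by
      rw [hs]
      refine h.avg hq0 hq (ν := ν) ?_
      rw [← hν, ← add_one_mul]
      exact Nat.mul_le_mul_right _ (by linarith)
    refine (g.trans_le (g1.trans (Nat.mul_le_mul ?_
      (g2.trans (rank_field (hU.trans hΓ) hf))))).false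
    rw [mul_comm]
    exact Nat.mul_le_mul_left _ c1
  · have g0 := sp (8 * (J * N) + 4)
    rw [g] at g0
    have := Submodule.finiteDimensional_of_le g0
    have g1 := (finrank_mono g0).trans (key _ (by omega) le_rfl)
    have g2 : HH U P k 1 ((8 * (J * N) + 4) * ν) ≤ H2 :=
      hH2 ▸ h.avg hq0 hq (hν ▸ Nat.le_mul_of_pos_left _ hq0)
    have g3 : 0 < n := hn ▸ core_pos (Subalgebra.one_mem _)
    rw [← hn] at g1
    have g4 := g1.trans (Nat.mul_le_mul_left _ g2)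
    have g5 : C * H2 = 0 := by nlinarith
    rw [mul_right_comm, g5, zero_mul] at g4
    omega

theorem par_ev (n d K : ℕ) : ∀ᶠ x : ℕ in atTop, ∀ ρ ≤ n, ∀ (p E J N μ : ℕ) (H : ℝ), 2 ≤ p →
    p ^ E ≤ x ^ K → 2 * (x ^ 2) ^ ρ ≤ J → 4 * J * N + 3 ≤ p ^ E → μ ≤ 4 ^ x → 0 ≤ H →
    x ^ (K * (n + 2) + 3) * μ * H ≤ 1 → Num ρ d p E (x ^ 2) J N μ H := by
  obtain ⟨L, hL⟩ : ∃ L, L = K * (n + 1) + 5 := ⟨_, rfl⟩
  filter_upwards [eventually_ge_atTop (8 * d * (n * L + 2) + 4)] with x hx ρ hρ p E J N μ H h1 h2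
    h3 h4 h5 h6 h7
  have x4 : 4 ≤ x := le_of_add_le_right hx
  have x1 : 0 < x ^ K := by positivity
  have q1 : ∀ j, (p ^ E) ^ (ρ + j) ≤ x ^ (K * (n + j)) := fun j => by
    rw [pow_mul]
    exact (Nat.pow_le_pow_left h2 _).trans (Nat.pow_le_pow_right x1 (by omega))
  refine ⟨by positivity, h3, h4, ?_, le_trans ?_ h7⟩
  · have e1 : 2 * (2 * (p ^ E) ^ (ρ + 1) * μ) + 1 ≤ 2 ^ (x * L) := by
      have e2 : (p ^ E) ^ (ρ + 1) ≤ 2 ^ (x * (K * (n + 1))) := by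
        rw [pow_mul 2]
        exact (q1 1).trans (Nat.pow_le_pow_left Nat.lt_two_pow_self.le _)
      have e3 : 4 ^ x * 8 ≤ 2 ^ (x * 5) := by
        rw [mul_comm x, pow_mul, show 2 ^ 5 = 4 * 8 by norm_num, mul_pow]
        exact Nat.mul_le_mul_left _ (Nat.le_self_pow (by omega) _)
      have e4 := Nat.mul_le_mul e2 e3
      have e5 := Nat.mul_le_mul_left ((p ^ E) ^ (ρ + 1)) h5
      have e6 : 0 < (p ^ E) ^ (ρ + 1) * 4 ^ x := by positivity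
      rw [hL, mul_add x, pow_add 2]
      linarith
    have e2 := log_le_log (by positivity) (show (2 * (2 * (p ^ E) ^ (ρ + 1) * μ : ℕ) + 1 : ℝ) ≤
      2 ^ (x * L) by exact_mod_cast e1)
    rw [log_pow, Nat.cast_mul x L] at e2
    have e3 := log_two_lt_d9
    have e4 := log_two_gt_d9
    have e5 : log 2 ≤ log p := log_le_log two_pos (by exact_mod_cast h1)
    have e6 : (8 * d * (n * L + 2) + 4 : ℝ) ≤ x := by exact_mod_cast hx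
    have e7 : (4 : ℝ) ≤ x := by exact_mod_cast x4
    have e8 : (ρ : ℝ) ≤ n := by exact_mod_cast hρ
    have e9 : (x : ℝ) * L * log 2 ≤ x * L := mul_le_of_le_one_right (by positivity) (by linarith)
    have e10 := mul_le_mul e8 (e2.trans e9)
      (log_nonneg (le_add_of_nonneg_left (by positivity))) (by positivity)
    calc _ ≤ 4 * d * (n * (x * L) + 2 * x : ℝ) :=
          mul_le_mul_of_nonneg_left (by linarith) (by positivity)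
      _ = x * (8 * d * (n * L + 2)) * (1 / 2) := by ring
      _ ≤ x * x * log p := by gcongr <;> linarith
      _ = _ := by rw [Nat.cast_pow, sq]
  · refine mul_le_mul_of_nonneg_right ?_ h6
    have e1 : 2 * x ^ 2 * (2 * (p ^ E) ^ (ρ + 1) * μ) * p ^ E ≤ x ^ (K * (n + 2) + 3) * μ := by
      calc _ = 4 * (x ^ 2 * (p ^ E) ^ (ρ + 2) * μ) := by ring
        _ ≤ x * (x ^ 2 * x ^ (K * (n + 2)) * μ) := by
          have := q1 2
          gcongr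
        _ = _ := by ring
    exact_mod_cast e1

end Pool.Agent.Lib.MP_f61260_nt
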