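import Pool.Agent.Lib.MP_f61260_nt.Az6
import Pool.Agent.Lib.MP_f61260_nt.AdAbs

/-! Weighted lattices, circuits and close automorphisms. -/

set_option autoImplicit false
set_option maxHeartbeats 400000

namespace Pool.Agent.Lib.MP_f61260_nt

open Module Submodule Real

variable {σ : Type} [Fintype σ]

/-- vectors whose coordinates are multiples of given weights -/
def latK (k : σ → ℕ) : Submodule ℤ (σ → ℤ) where
  carrier := {a | ∀ i, (k i : ℤ) ∣ a i}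
  zero_mem' _ := dvd_zero _
  add_mem' ha hb i := dvd_add (ha i) (hb i)
  smul_mem' s _ ha i := (ha i).mul_left s

omit [Fintype σ] in
lemma mem_latK {k : σ → ℕ} {a : σ → ℤ} : a ∈ latK k ↔ ∀ i, (k i : ℤ) ∣ a i := Iff.rfl

/-- automorphisms fixing the monomials with exponents in a lattice -/
def SL (P : σ → Qb) (Λ : Submodule ℤ (σ → ℤ)) : Subgroup GA where
  carrier := {g | ∀ a ∈ Λ, g (mon P a) = mon P a}
  one_mem' _ _ := rfl
  mul_mem' {g h} hg hh a ha := by rw [AlgEquiv.mul_apply, hh a ha, hg a ha]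
  inv_mem' {g} hg a ha := (St ℚ _).inv_mem (hg a ha)

lemma mem_SL {P : σ → Qb} {Λ : Submodule ℤ (σ → ℤ)} {g : GA} :
    g ∈ SL P Λ ↔ ∀ a ∈ Λ, g (mon P a) = mon P a := Iff.rfl

/-- a minimal linear relation between monomials whose exponents generate the weighted lattice -/
structure Circ (U : Subgroup GA) (P : σ → Qb) (k : σ → ℕ) (μ : ℕ) : Prop where
  ne : ∀ i, P i ≠ 0
  pos : ∀ i, 0 < k i
  le : ∀ i, k i ≤ μ
  ex : ∃ (κ : Type) (_ : Fintype κ) (_ : Nonempty κ) (f : κ → σ → ℤ) (d : κ → Qb),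
    span ℤ (Set.range f) = latK k ∧
    (∀ j, f j ∈ bx (latK k) μ ∧ f j ≠ 0 ∧ Fx U (d j) ∧ d j ≠ 0) ∧
    LinearIndependent (Kf U) (fun j => mon P (f j)) ∧ ∑ j, d j * mon P (f j) = 1

/-- dimension of the span of the `q`-th powers of the monomials of a box -/
noncomputable def HH (U : Subgroup GA) (P : σ → Qb) (k : σ → ℕ) (q ν : ℕ) : ℕ :=
  finrank (Kf U) (Sp (Kf U) (latK k) (fun a => mon P a ^ q) ν)

/-- `g` is close to the identity on the fixed field of `U`, for the weights given by `c` -/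
def Cl (p : ℕ) [Fact p.Prime] (U : Subgroup GA) (c : σ → Qb) (η : ℝ) (g : GA) : Prop :=
  ∀ x, Fx U x → ∀ a : σ → ℤ, ‖io p x‖ ≤ ‖io p (mon c a)‖ →
    ‖io p (g x) - io p x‖ ≤ η * ‖io p (mon c a)‖

/-- the numerical conditions of the determinant argument -/
structure Num (ρ d p E T J N μ : ℕ) (H : ℝ) : Prop where
  pos : 0 < T
  e1 : 2 * T ^ ρ ≤ J
  e2 : 4 * J * N + 3 ≤ p ^ E
  e3 : 4 * d * (ρ * log (2 * (2 * (p ^ E) ^ (ρ + 1) * μ : ℕ) + 1) + 2) ≤ T * log p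
  e4 : 2 * T * (2 * (p ^ E) ^ (ρ + 1) * μ : ℕ) * p ^ E * H ≤ 1

/-- bound for the height of a point modulo the division group -/
def Ctx.HT {ι : Type} [Fintype ι] (c : Ctx ι) (P : σ → Qb) (H : ℝ) : Prop :=
  ∃ e : σ → Qb, (∀ i, c.Dv (e i)) ∧ ∑ i, ht (P i * e i) ≤ H

lemma HH_one (U : Subgroup GA) (P : σ → Qb) (k : σ → ℕ) (ν : ℕ) :
    HH U P k 1 ν = finrank (Kf U) (Sp (Kf U) (latK k) (mon P) ν) := by
  rw [HH, show (fun a => mon P a ^ 1) = mon P from funext fun _ => pow_one _]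

lemma mon_mul {F : Type} [Field F] (P Q : σ → F) (a : σ → ℤ) :
    mon (P * Q) a = mon P a * mon Q a := by
  simp [mon, mul_zpow, Finset.prod_mul_distrib]

lemma mon_pw {F : Type} [Field F] (P : σ → F) (q : ℕ) (a : σ → ℤ) :
    mon (fun i => P i ^ q) a = mon P a ^ q := by
  simp only [mon, ← Finset.prod_pow]
  exact Finset.prod_congr rfl fun i _ => by
    rw [← zpow_natCast, ← zpow_natCast, ← zpow_mul, ← zpow_mul, mul_comm]

lemma mon_one {F : Type} [Field F] (a : σ → ℤ) : mon (1 : σ → F) a = 1 := by simp [mon]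

lemma mon_lat {F : Type} [Field F] (P : σ → F) {k : σ → ℕ} {a : σ → ℤ} (ha : a ∈ latK k) :
    ∃ e : σ → ℤ, (∀ i, a i = k i * e i) ∧ mon P a = ∏ i, (P i ^ k i) ^ e i := by
  choose e he using ha
  exact ⟨e, he, Finset.prod_congr rfl fun i _ => by rw [he, zpow_mul, zpow_natCast]⟩

lemma single_lat [DecidableEq σ] {F : Type} [Field F] (P : σ → F) (k : σ → ℕ) (i : σ) :
    Pi.single i (k i : ℤ) ∈ latK k ∧ mon P (Pi.single i (k i : ℤ)) = P i ^ k i := by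
  refine ⟨fun j => ?_, ?_⟩
  · by_cases h : j = i
    · subst h; simp
    · simp [h]
  · rw [mon, Finset.prod_eq_single i (fun j _ hj => by simp [hj]) (by simp)]
    simp

lemma tor_mon {ε : σ → Qb} (h : ∀ i, Tor (ε i)) (a : σ → ℤ) : Tor (mon ε a) :=
  Tor.prod _ fun i _ => by
    obtain ⟨n, hn, h1⟩ := h i
    exact ⟨n, hn, by rw [← zpow_natCast, ← zpow_mul, mul_comm, zpow_mul, zpow_natCast, h1,
      one_zpow]⟩

lemma Ctx.dv_mon {ι : Type} [Fintype ι] {c : Ctx ι} {ε : σ → Qb} (h : ∀ i, c.Dv (ε i))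
    (a : σ → ℤ) : c.Dv (mon ε a) := Ctx.dv_prod _ fun i _ => (h i).zpow _

lemma Ctx.HT.mul {ι : Type} [Fintype ι] {c : Ctx ι} {P ε : σ → Qb} {H : ℝ} (h : c.HT P H)
    (hε : ∀ i, c.Dv (ε i)) : c.HT (P * ε) H := by
  obtain ⟨e, h1, h2⟩ := h
  refine ⟨fun i => (ε i)⁻¹ * e i, fun i => (hε i).inv.mul (h1 i), le_of_eq_of_le ?_ h2⟩
  exact Finset.sum_congr rfl fun i _ => by
    rw [Pi.mul_apply, mul_assoc, mul_inv_cancel_left₀ (hε i).ne]

lemma Mu_mono {m n : ℕ} (h : m ∣ n) : Mu n ≤ Mu m := fun _ hg x hx => hg x (by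
  obtain ⟨l, rfl⟩ := h
  rw [pow_mul, hx, one_pow])

lemma ab_mu {m : ℕ} (hm : 0 < m) : Ab (Mu m) := fun g h x hx => by
  rw [mul_assoc, mul_assoc, ← mul_assoc h⁻¹, AlgEquiv.mul_apply, conj_root _ _ hm hx,
    ← AlgEquiv.mul_apply, inv_mul_cancel, AlgEquiv.one_apply]

lemma Ctx.St_z {ι : Type} (c : Ctx ι) {m : ℕ} (hm : 0 < m) : St ℚ (c.z m) = Mu m :=
  le_antisymm (fun _ hg _ hx => fix_root hm (c.prim m hm) hg dvd_rfl hx)
    fun _ hg => hg _ (c.prim m hm).pow_eq_one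

lemma Ctx.Lv_mu {ι : Type} (c : Ctx ι) {m n q : ℕ} (hm : 0 < m) (hq : q ∣ m) :
    c.Lv m n ≤ Mu q := inf_le_left.trans ((c.St_z hm).le.trans (Mu_mono hq))

end Pool.Agent.Lib.MP_f61260_nt
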