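import Pool.Agent.Lib.MP_f61260_nt.Sl.Brg
import Pool.Agent.Lib.MP_f61260_nt.Sl.Df2

/-! Fields fixed by almost all groups of a sequence. -/

set_option autoImplicit false
set_option maxHeartbeats 400000

namespace Pool.Agent.Lib.MP_f61260_nt

open Polynomial Filter IntermediateField

/-- complex numbers that are algebraic and fixed by almost all groups of a sequence -/
def EvF (A : ℕ → Subgroup GA) : IntermediateField ℚ ℂ where
  carrier := {y | ∃ x : Qb, (x : ℂ) = y ∧ ∀ᶠ j in atTop, Fx (A j) x}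
  mul_mem' := by
    rintro _ _ ⟨x, rfl, h⟩ ⟨y, rfl, h'⟩
    exact ⟨x * y, rfl, (h.and h').mono fun _ h => h.1.mul h.2⟩
  add_mem' := by
    rintro _ _ ⟨x, rfl, h⟩ ⟨y, rfl, h'⟩
    exact ⟨x + y, rfl, (h.and h').mono fun _ h => h.1.add h.2⟩
  algebraMap_mem' q := ⟨algebraMap ℚ Qb q, rfl, .of_forall fun _ σ _ => σ.commutes q⟩
  inv_mem' := by
    rintro _ ⟨x, rfl, h⟩
    exact ⟨x⁻¹, rfl, h.mono fun _ h => h.inv⟩

variable {A A' : ℕ → Subgroup GA} {F : IntermediateField ℚ ℂ}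

lemma mem_EvF {x : Qb} : (x : ℂ) ∈ EvF A ↔ ∀ᶠ j in atTop, Fx (A j) x :=
  ⟨fun ⟨_, h, h'⟩ => Subtype.ext h ▸ h', fun h => ⟨x, rfl, h⟩⟩

lemma EvF_mono (h : ∀ j, A' j ≤ A j) : EvF A ≤ EvF A' := by
  rintro _ ⟨x, rfl, h'⟩
  exact ⟨x, rfl, h'.mono fun j h' => h'.mono (h j)⟩

lemma EvF_alg : EvF A ≤ algebraicClosure ℚ ℂ := by
  rintro _ ⟨x, rfl, -⟩
  exact x.2

lemma ev_ins (h : F ≤ EvF A) {x : Qb} (h1 : ∀ j, A' j ≤ A j) (h2 : ∀ j, A' j ≤ St ℚ x) :
    adjoin ℚ (insert (x : ℂ) (F : Set ℂ)) ≤ EvF A' :=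
  adjoin_le_iff.2 (Set.insert_subset (mem_EvF.2 (.of_forall h2)) (h.trans (EvF_mono h1)))

lemma ev_int (F : IntermediateField ℚ ℂ) (x : Qb) : IsIntegral F (x : ℂ) :=
  (mem_algebraicClosure_iff'.1 x.2).tower_top

lemma ev_root (h : F ≤ EvF A) (p : F[X]) :
    ∀ᶠ j in atTop, ∀ g ∈ A j, ∀ x : Qb, aeval (x : ℂ) p = 0 → aeval (g x : ℂ) p = 0 := by
  choose a ha ha' using fun i => h (p.coeff i).2
  have e : ∀ x : Qb, aeval (x : ℂ) p = ((∑ i ∈ p.support, a i * x ^ i : Qb) : ℂ) := fun x => by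
    rw [aeval_def, eval₂_eq_sum, sum_def]
    refine Eq.trans ?_ (map_sum (algebraMap Qb ℂ) _ _).symm
    exact Finset.sum_congr rfl fun i _ => by
      rw [map_mul, map_pow]
      exact congrArg (· * _) (ha i).symm
  filter_upwards [(eventually_all_finset p.support).2 fun i _ => ha' i] with j hj g hg x hx
  rw [e] at hx ⊢
  have h1 := congrArg g (Subtype.ext hx : _ = (0 : Qb))
  rw [map_sum, map_zero, Finset.sum_congr rfl fun i hi => by
    rw [map_mul, map_pow, hj i hi g hg]] at h1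
  rw [h1]
  rfl

lemma ev_idx (h : F ≤ EvF A) (x : Qb) :
    ∀ᶠ j in atTop, IdxLe (A j) (St ℚ x) (minpoly F (x : ℂ)).natDegree := by
  classical
  have h0 := minpoly.ne_zero (ev_int F x)
  filter_upwards [ev_root h (minpoly F (x : ℂ))] with j hj
  refine IdxLe.mono (exists_trans ((minpoly F (x : ℂ)).aroots ℂ).toFinset (fun σ => (σ x : ℂ))
    (fun σ hσ => Multiset.mem_toFinset.2 (mem_aroots.2 ⟨h0, hj σ hσ x (minpoly.aeval F _)⟩))
    fun σ _ τ _ e => ?_) ((Multiset.toFinset_card_le _).trans ((card_roots' _).trans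
      natDegree_map_le))
  rw [mem_St, AlgEquiv.mul_apply, ← Subtype.ext e, ← AlgEquiv.mul_apply, inv_mul_cancel,
    AlgEquiv.one_apply]

lemma ev_fin (h : F ≤ EvF A) (L : IntermediateField F ℂ) [FiniteDimensional F L] :
    ∃ ω : Qb, (∀ᶠ j in atTop, IdxLe (A j) (St ℚ ω) (Module.finrank F L)) ∧
      ∀ y ∈ L, y ∈ EvF fun j => A j ⊓ St ℚ ω := by
  obtain ⟨ω, hω⟩ := Field.exists_primitive_element F L
  have h1 : F⟮(ω : ℂ)⟯ = L := by
    rw [← lift_adjoin_simple, hω, IntermediateField.lift_top]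
  have : Algebra.IsAlgebraic ℚ F := ⟨fun y => (isAlgebraic_iff (S := F)).2
    (mem_algebraicClosure_iff.1 (EvF_alg (h y.2)))⟩
  have h2 : IsAlgebraic ℚ (ω : ℂ) :=
    ((isAlgebraic_iff (S := L)).1 (IsAlgebraic.of_finite F ω)).restrictScalars ℚ
  refine ⟨⟨ω, mem_algebraicClosure_iff.2 h2⟩, ?_, fun y hy => ?_⟩
  · have := ev_idx h ⟨ω, mem_algebraicClosure_iff.2 h2⟩
    rwa [← adjoin.finrank (ev_int F _), h1] at this
  · refine ev_ins (x := ⟨ω, mem_algebraicClosure_iff.2 h2⟩) h (fun _ => inf_le_left)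
      (fun _ => inf_le_right) ?_
    rw [← h1] at hy
    rw [Set.insert_eq, Set.union_comm]
    exact (restrictScalars_adjoin ℚ F {(ω : ℂ)}).le hy

lemma ev_gal (h : F ≤ EvF A) (x : Qb) : ∀ᶠ j in atTop, ∃ W ≤ A j,
    IdxLe (A j) W (Nat.card (minpoly F (x : ℂ)).Gal) ∧
      ∀ g ∈ A j, ∀ w ∈ W, g⁻¹ * w * g ∈ A j ⊓ St ℚ x := by
  have h0 := minpoly.ne_zero (ev_int F x)
  have hs := adjoin_rootSet_isSplittingField (IsAlgClosed.splits
    ((minpoly F (x : ℂ)).map (algebraMap F ℂ)))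
  have := IsSplittingField.finiteDimensional (adjoin F ((minpoly F (x : ℂ)).rootSet ℂ))
    (minpoly F (x : ℂ))
  obtain ⟨ω, h1, h2⟩ := ev_fin h (adjoin F ((minpoly F (x : ℂ)).rootSet ℂ))
  rw [Gal.card_of_separable (minpoly.irreducible (ev_int F x)).separable,
    ← (IsSplittingField.algEquiv (adjoin F ((minpoly F (x : ℂ)).rootSet ℂ))
      (minpoly F (x : ℂ))).toLinearEquiv.finrank_eq]
  choose! a ha ha' using fun y (hy : y ∈ (minpoly F (x : ℂ)).rootSet ℂ) =>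
    h2 y (subset_adjoin _ _ hy)
  filter_upwards [h1, ev_root h (minpoly F (x : ℂ)),
    (eventually_all_finite (rootSet_finite _ _)).2 ha'] with j e1 e2 e3
  refine ⟨A j ⊓ St ℚ ω, inf_le_left, e1.restrict le_rfl le_rfl, fun g hg w hw =>
    ⟨(A j).mul_mem ((A j).mul_mem ((A j).inv_mem hg) hw.1) hg, ?_⟩⟩
  have e4 : (g x : ℂ) ∈ (minpoly F (x : ℂ)).rootSet ℂ :=
    mem_rootSet.2 ⟨h0, e2 g hg x (minpoly.aeval F _)⟩
  have e5 := e3 _ e4 w hw
  rw [Subtype.ext (ha _ e4)] at e5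
  change g⁻¹ (w (g x)) = x
  rw [e5, ← AlgEquiv.mul_apply, inv_mul_cancel, AlgEquiv.one_apply]

lemma ev_solv {U : Subgroup GA} (h : F ≤ EvF fun _ => (derivedSeries U 2).map U.subtype) (x : Qb)
    (hs : Group.IsSolvable (minpoly F (x : ℂ)).Gal) :
    ∃ l, ∀ g ∈ derivedSeries U l, (g : GA) x = x := by
  have hle : F ≤ algebraicClosure ℚ ℂ := h.trans EvF_alg
  let _ : Algebra F Qb := (inclusion hle).toRingHom.toAlgebra
  have : IsScalarTower F Qb ℂ := IsScalarTower.of_algebraMap_eq fun _ => rfl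
  have hfix : ∀ g : derivedSeries U 2, ∀ y : F,
      ((g : U) : GA) (algebraMap F Qb y) = algebraMap F Qb y := fun g y =>
    (mem_EvF.1 (h y.2 : ((algebraMap F Qb y : Qb) : ℂ) ∈ _)).exists.choose_spec _ ⟨g, g.2, rfl⟩
  let φ : derivedSeries U 2 →* (Qb ≃ₐ[F] Qb) :=
    { toFun := fun g => AlgEquiv.ofRingEquiv (f := ((g : U) : GA).toRingEquiv) (hfix g)
      map_one' := AlgEquiv.ext fun _ => rfl
      map_mul' := fun _ _ => AlgEquiv.ext fun _ => rfl }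
  have hα : aeval x (minpoly F (x : ℂ)) = 0 := by
    have e : minpoly F (x : ℂ) = minpoly F x :=
      minpoly.algebraMap_eq (A := F) (B := Qb) (B' := ℂ) Subtype.val_injective x
    rw [e]
    exact minpoly.aeval F x
  obtain ⟨n, hn⟩ := brg_abs φ (minpoly.ne_zero (ev_int F x)) hs hα
  refine ⟨2 + n, fun g hg => ?_⟩
  rw [brg_ds] at hg
  obtain ⟨b, hb, rfl⟩ := hg
  exact hn b hb

end Pool.Agent.Lib.MP_f61260_nt
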