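import Pool.Agent.Lib.MP_f61260_nt.Sl.Mn3
import Pool.Agent.Lib.MP_f61260_nt.Sl.Ev

/-! Translation to complex numbers and Mahler measures. -/

set_option autoImplicit false
set_option maxHeartbeats 400000

namespace Pool.Agent.Lib.MP_f61260_nt

open Polynomial Real Filter IntermediateField

lemma fn2_conj {F : IntermediateField ℚ ℂ} (hle : F ≤ algebraicClosure ℚ ℂ) (α : Qb) {β : ℂ}
    (h : aeval β (minpoly F (α : ℂ)) = 0) :
    ∃ g : GA, (g α : ℂ) = β ∧ ∀ x : Qb, (x : ℂ) ∈ F → g x = x := by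
  let _ : Algebra F Qb := (inclusion hle).toRingHom.toAlgebra
  have : IsScalarTower F Qb ℂ := IsScalarTower.of_algebraMap_eq fun _ => rfl
  have : IsScalarTower ℚ F Qb := IsScalarTower.of_algebraMap_eq fun _ => rfl
  have hal : Algebra.IsAlgebraic F Qb := Algebra.IsAlgebraic.tower_top (K := ℚ) F
  have : IsAlgClosure F Qb := ⟨inferInstance, hal⟩
  have hβ : IsAlgebraic ℚ β := by
    have hint : IsIntegral ℚ (α : ℂ) := mem_algebraicClosure_iff'.1 α.2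
    refine ⟨minpoly ℚ (α : ℂ), minpoly.ne_zero hint, ?_⟩
    rw [← aeval_map_algebraMap F]
    exact aeval_eq_zero_of_dvd_aeval_eq_zero (minpoly.dvd_map_of_isScalarTower ℚ F _) h
  lift β to Qb using mem_algebraicClosure_iff.2 hβ
  have e : minpoly F (α : ℂ) = minpoly F α :=
    minpoly.algebraMap_eq (A := F) (B := Qb) (B' := ℂ) Subtype.val_injective α
  obtain ⟨σ, hσ⟩ := minpoly.exists_algEquiv_of_root' (hal.isAlgebraic α) (x := β)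
    ((algebraMap Qb ℂ).injective (by
      rw [← Polynomial.aeval_algebraMap_apply, map_zero, ← e]; exact h))
  exact ⟨σ.restrictScalars ℚ, congrArg Subtype.val hσ, fun x hx => σ.commutes ⟨x, hx⟩⟩

lemma fn2_tower {θ : ℕ → Qb} {F : ℕ → IntermediateField ℚ ℂ}
    (hF : ∀ i, F (i + 1) = adjoin ℚ (insert (θ i : ℂ) (F i : Set ℂ))) {A : ℕ → Subgroup GA}
    (h0 : F 0 ≤ EvF A) (i : ℕ) (h : ∀ k < i, ∀ j, A j ≤ St ℚ (θ k)) : F i ≤ EvF A := by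
  induction i with
  | zero => exact h0
  | succ i ih =>
    rw [hF]
    exact ev_ins (ih fun k hk => h k (by omega)) (fun _ => le_rfl) (h i (by omega))

lemma fn2_ctx (S : Finset ℕ) (Γ : Subgroup ℂˣ) (hΓ : Γ.FG) (halg : ∀ g ∈ Γ, IsAlgebraic ℚ (g : ℂ))
    {G : Set ℂ} (hG : G = {z : ℂ | z ≠ 0 ∧ ∃ k : ℕ, 1 ≤ k ∧ ∃ g ∈ Γ, (g : ℂ) = z ^ k}) :
    ∃ (ι : Type) (_ : Fintype ι) (c : Ctx ι) (S' : Finset ℕ), (∀ p ∈ S', p.Prime) ∧
      (∀ w : ι → ℤ, Tor (∏ a, c.t a 1 ^ w a) → w = 0) ∧ (∀ x : Qb, c.Dv x ↔ (x : ℂ) ∈ G) ∧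
      (∀ y ∈ G, ∃ x : Qb, (x : ℂ) = y) ∧ ∀ n0, 1 ≤ n0 → ∀ X : Set ℂ,
      X = {z : ℂ | ∃ s : ℕ, 1 ≤ s ∧
        (z ^ s = 1 ∨ (s.primeFactors ⊆ S ∧ ∃ g ∈ Γ, (g : ℂ) = z ^ (n0 * s)))} → X ⊆ G ∧
      ∃ m n : ℕ → ℕ, (∀ j, Lvl S' n0 (m j) (n j)) ∧ adjoin ℚ X ≤ EvF fun j => c.Lv (m j) (n j) := by
  classical
  subst hG
  obtain ⟨ι, _, γ, N, hN, h1, h2, h3⟩ := fg_basis Γ hΓ
  choose t ht1 ht2 using fun a => exists_sys (Complex.log (γ a)) (by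
    rw [Complex.exp_log (γ a).ne_zero]; exact halg _ (h1 a))
  obtain ⟨c0⟩ := exists_ctx
  let c : Ctx ι := ⟨c0.z, t, c0.hz, c0.prim, ht1⟩
  have h4 : ∀ w : ι → ℤ, ((∏ a, c.t a 1 ^ w a : Qb) : ℂ) = ((∏ a, γ a ^ w a : ℂˣ) : ℂ) := fun w => by
    simp only [Units.coe_prod, Units.val_zpow_eq_zpow_val]
    refine (map_prod (algebraMap Qb ℂ) _ _).trans (Finset.prod_congr rfl fun a _ => ?_)
    rw [map_zpow₀]
    exact congrArg (· ^ w a) ((ht2 a 1).trans (by simp [Complex.exp_log (γ _).ne_zero]))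
  have hq : ∀ y : ℂ, (y ≠ 0 ∧ ∃ k : ℕ, 1 ≤ k ∧ ∃ g ∈ Γ, (g : ℂ) = y ^ k) → ∃ x : Qb, (x : ℂ) = y :=
    fun y ⟨_, k, hk, g, hg, h⟩ =>
      ⟨⟨y, mem_algebraicClosure_iff.2 (IsAlgebraic.of_pow hk (h ▸ halg g hg))⟩, rfl⟩
  obtain ⟨S', hS'⟩ : ∃ S', S' = S.filter Nat.Prime ∪ N.primeFactors := ⟨_, rfl⟩
  have hS : ∀ p ∈ S', p.Prime := fun p hp => by
    rcases Finset.mem_union.1 (hS' ▸ hp) with h | h
    · exact (Finset.mem_filter.1 h).2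
    · exact Nat.prime_of_mem_primeFactors h
  have hQ : 0 < ∏ p ∈ S', p := Finset.prod_pos fun p hp => (hS p hp).pos
  refine ⟨ι, inferInstance, c, S', hS, fun w ⟨n, hn, h⟩ => ?_, fun x => ⟨fun h =>
    ⟨fun h' => h.ne (Subtype.ext h'), ?_⟩, fun ⟨_, n, hn, g, hg, h⟩ => ?_⟩, hq, fun n0 hn0 X hX => ?_⟩
  · have := h2 (fun a => w a * n) (Units.ext (by
      simp only [zpow_mul, zpow_natCast, Finset.prod_pow, Units.val_pow_eq_pow_val, ← h4]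
      exact congrArg Subtype.val h))
    exact funext fun a => (mul_eq_zero.1 (congrFun this a)).resolve_right
      (by exact_mod_cast hn.ne')
  · obtain ⟨n, hn, w, h⟩ := h
    exact ⟨n, hn, _, Γ.prod_mem fun a _ => Γ.zpow_mem (h1 a) (w a), by rw [← h4, ← h]; rfl⟩
  · obtain ⟨w, hw⟩ := h3 g hg
    exact ⟨n * N, Nat.mul_pos hn hN, w, Subtype.ext (by rw [h4, ← hw, pow_mul]; simp [h])⟩
  have hXG : X ⊆ {z : ℂ | z ≠ 0 ∧ ∃ k : ℕ, 1 ≤ k ∧ ∃ g ∈ Γ, (g : ℂ) = z ^ k} := by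
    rw [hX]
    rintro y ⟨s, hs, h | ⟨-, g, hg, h⟩⟩
    · exact ⟨fun e => by simp [e, Nat.ne_of_gt hs] at h, s, hs, 1, Γ.one_mem, by simp [h]⟩
    · have := Nat.mul_pos hn0 hs
      exact ⟨fun e => g.ne_zero (by rw [h, e, zero_pow this.ne']), _, this, g, hg, h⟩
  have hp : ∀ j : ℕ, 0 < n0 * (∏ p ∈ S', p) ^ j := fun j => Nat.mul_pos hn0 (pow_pos hQ j)
  refine ⟨hXG, fun j => n0 * (∏ p ∈ S', p) ^ j * j.factorial, fun j => n0 * (∏ p ∈ S', p) ^ j,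
    fun j => ⟨hn0, Nat.mul_pos (hp j) j.factorial_pos, dvd_mul_right _ _, _, pow_pos hQ j,
      fun p hp => ?_, dvd_rfl⟩, adjoin_le_iff.2 fun y hy => ?_⟩
  · have h5 := Nat.prime_of_mem_primeFactors hp
    obtain ⟨q, hq, h6⟩ := (h5.prime.dvd_finsetProd_iff _).1
      (h5.dvd_of_dvd_pow (Nat.dvd_of_mem_primeFactors hp))
    rwa [(Nat.prime_dvd_prime_iff_eq h5 (hS q hq)).1 h6]
  obtain ⟨x, rfl⟩ := hq y (hXG hy)
  rw [hX] at hy
  refine mem_EvF.2 ?_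
  obtain ⟨s, hs, h | ⟨hsS, g, hg, h⟩⟩ := hy
  · filter_upwards [eventually_ge_atTop s] with j hj σ hσ
    exact Ctx.fix (Nat.mul_pos (hp j) j.factorial_pos) hσ.1
      ((Nat.dvd_factorial hs hj).mul_left _) (Subtype.ext h)
  obtain ⟨w, hw⟩ := h3 g hg
  have hM := Nat.mul_pos hn0 (Nat.mul_pos hs hN)
  have h7 : (∏ a, c.t a (n0 * (s * N)) ^ w a) ≠ 0 :=
    Finset.prod_ne_zero_iff.2 fun a _ => zpow_ne_zero _ ((c.hs a).ne _)
  have h8 : (x / ∏ a, c.t a (n0 * (s * N)) ^ w a) ^ (n0 * (s * N)) = 1 := by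
    have e : ∀ a, (c.t a (n0 * (s * N)) ^ w a) ^ (n0 * (s * N)) = c.t a 1 ^ w a := fun a => by
      rw [← zpow_natCast, ← zpow_mul, mul_comm (w a), zpow_mul, zpow_natCast, (c.hs a).pw1 hM]
    rw [div_pow, div_eq_one_iff_eq (pow_ne_zero _ h7), ← Finset.prod_pow,
      Finset.prod_congr rfl fun a _ => e a]
    exact Subtype.ext (by rw [h4, ← hw, ← mul_assoc, pow_mul]; simp [h])
  filter_upwards [eventually_ge_atTop (s * N)] with j hj σ hσ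
  have h9 : n0 * (s * N) ∣ n0 * (∏ p ∈ S', p) ^ j := mul_dvd_mul_left _
    ((Nat.dvd_prod_primeFactors_pow_self (Nat.mul_pos hs hN).ne').trans
      ((pow_dvd_pow_of_dvd (Finset.prod_dvd_prod_of_subset _ _ _ (by
        rw [Nat.primeFactors_mul (by omega) hN.ne', hS']
        exact Finset.union_subset_union_left fun p hp =>
          Finset.mem_filter.2 ⟨hsS hp, Nat.prime_of_mem_primeFactors hp⟩)) _).trans
        (pow_dvd_pow _ hj)))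
  have h10 := Ctx.Lv_mono (Nat.mul_pos (hp j) j.factorial_pos) (hp j) (h9.mul_right _) h9 hσ
  have h11 := Ctx.fix hM h10.1 dvd_rfl h8
  rwa [map_div₀, Fx.prod (A := c.Lv (n0 * (s * N)) (n0 * (s * N))) _ (fun a _ =>
    Fx.zpow (fun _ hσ => (Ctx.mem_Lv.1 hσ).2 a) _) σ h10, div_left_inj' h7] at h11

theorem solv_tower2 (S : Finset ℕ) (Γ : Subgroup ℂˣ) (hΓ : Γ.FG)
    (halg : ∀ g ∈ Γ, IsAlgebraic ℚ (g : ℂ)) (G : Set ℂ)
    (hG : G = {z : ℂ | z ≠ 0 ∧ ∃ k : ℕ, 1 ≤ k ∧ ∃ g ∈ Γ, (g : ℂ) = z ^ k}) (m : ℕ) :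
    ∃ c : ℝ, 0 < c ∧ ∃ κ : ℕ, ∀ n : ℕ, 1 ≤ n →
      ∀ (θ : ℕ → ℂ) (F : ℕ → IntermediateField ℚ ℂ) (d : ℕ → ℕ), (∀ i, IsAlgebraic ℚ (θ i)) →
      F 0 = adjoin ℚ {z : ℂ | ∃ s : ℕ, 1 ≤ s ∧
        (z ^ s = 1 ∨ (s.primeFactors ⊆ S ∧ ∃ g ∈ Γ, (g : ℂ) = z ^ (n * s)))} →
      (∀ i, F (i + 1) = adjoin ℚ (insert (θ i) (F i : Set ℂ))) →
      (∀ i, d i = (minpoly (F i) (θ i)).natDegree) →
      ∀ α : ℂ, α ≠ 0 → α ∉ G → ∀ η ∈ G, ∀ j t : ℕ, j ≤ t → α * η ∈ F t →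
      (∀ i, j ≤ i → i < t → Group.IsSolvable (minpoly (F i) (θ i)).Gal ∨
        Nat.card (minpoly (F i) (θ i)).Gal ≤ d i ^ m ∨
        ∃ β : ℂ, aeval β (minpoly (adjoin ℚ ((F (i + 1) : Set ℂ) ∪ G)) α) = 0 ∧
          β / α ∉ G ∧ β * α ∉ G) →
      ∀ f : Polynomial ℤ, Irreducible f → aeval α f = 0 →
        c / ((∏ i ∈ Finset.range t, d i : ℕ) *
            Real.log (3 * (n * (∏ i ∈ Finset.range j, d i : ℕ))) ^ κ)
          ≤ Real.log (mahlerMeasure (f.map (Int.castRingHom ℂ))) / (f.natDegree : ℝ) := by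
  obtain ⟨ι, _, c, S', hS, hind, h5, hq, hL⟩ := fn2_ctx S Γ hΓ halg hG
  obtain ⟨C, hC, κ, h6⟩ := c.tower_main S' hS hind m
  refine ⟨C, hC, κ, fun n0 hn0 θ F d hθ hF0 hF hd α hα hnd η hη j t hj hmem hst f hf hfα => ?_⟩
  lift θ to ℕ → Qb using fun i => mem_algebraicClosure_iff.2 (hθ i)
  obtain ⟨hXG, m1, n1, hl, hX⟩ := hL n0 hn0 _ rfl
  rw [← hF0] at hX
  lift α to Qb using mem_algebraicClosure_iff.2
    (IsAlgebraic.extendScalars (FaithfulSMul.algebraMap_injective ℤ ℚ) ⟨f, hf.ne_zero, hfα⟩)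
  obtain ⟨η, rfl⟩ := hq η hη
  have hη' := (h5 η).2 hη
  have hα' : α ≠ 0 := fun h => hα (congrArg Subtype.val h)
  let U : ℕ → ℕ → Subgroup GA := fun i k => c.Lv (m1 k) (n1 k) ⊓ ⨅ l < i, St ℚ (θ l)
  have u1 : ∀ i k, U (i + 1) k = U i k ⊓ St ℚ (θ i) := fun i k => by
    simp only [U, Nat.iInf_lt_succ, inf_assoc]
  have u2 : ∀ i k, ∀ l < i, U i k ≤ St ℚ (θ l) := fun i k l hl =>
    inf_le_right.trans (iInf₂_le l hl)
  have u3 : ∀ i k, U i k ≤ c.G0 := fun i k => inf_le_left.trans (Ctx.Lv_le (hl k).npos)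
  have u4 : ∀ i, F i ≤ EvF (U i) := fun i =>
    fn2_tower hF (hX.trans (EvF_mono fun _ => inf_le_left)) i fun l hl k => u2 i k l hl
  have u5 : ∀ i, ∀ l < i, (θ l : ℂ) ∈ F i := fun i => by
    induction i with
    | zero => simp
    | succ i ih =>
      intro l hl
      rw [hF]
      refine subset_adjoin _ _ ?_
      rcases (Nat.lt_succ_iff.1 hl).eq_or_lt with rfl | h
      · exact Set.mem_insert _ _
      · exact Set.mem_insert_of_mem _ (ih l h)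
  obtain ⟨k, e1, e2, e3⟩ := (((mem_EvF (x := α * η)).1 (u4 t hmem)).and
    (((eventually_all_finset (Finset.range t)).2 fun i _ => ev_idx (u4 i) (θ i)).and
      ((eventually_all_finset (Finset.range t)).2 fun i _ => ev_gal (u4 i) (θ i)))).exists
  refine (h6 α η n0 _ _ j t (U · k) d (hl k) hj hα' (fun h => hnd ((h5 α).1 h)) hη' (by simp [U])
    (fun i hi => ⟨(u1 i k).le.trans inf_le_left, ?_, fun hji hdeg => ?_⟩) e1).trans
    (ht_le_mahler hf ((algebraMap Qb ℂ).injective (by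
      rw [← Polynomial.aeval_algebraMap_apply, map_zero]; exact hfα)))
  · rw [hd, u1]
    exact (e2 i (Finset.mem_range.2 hi)).restrict le_rfl le_rfl
  rcases hst i hji hi with h | h | ⟨β, h, b1, b2⟩
  · obtain ⟨l, hl⟩ := ev_solv (U := U i k) (fn2_tower hF (by
      rw [hF0, adjoin_le_iff]
      intro y hy
      obtain ⟨x, rfl⟩ := hq y (hXG hy)
      refine mem_EvF.2 (.of_forall fun _ => ?_)
      rintro _ ⟨g, hg, rfl⟩
      exact brg_fix c (u3 i k) ((h5 x).2 (hXG hy)) g hg) i fun l hl _ =>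
        (Subgroup.map_subtype_le _).trans (u2 i k l hl)) (θ i) h
    exact Or.inl ⟨l, fun g hg => (u1 i k).ge ⟨g.2, hl g hg⟩⟩
  · obtain ⟨W, a1, a2, a3⟩ := e3 i (Finset.mem_range.2 hi)
    exact Or.inr ⟨W, a1, a2.mono h, fun g hg w hw => (u1 i k).ge (a3 g hg w hw)⟩
  exfalso
  obtain ⟨g, rfl, hg⟩ := fn2_conj (adjoin_le_iff.2 (Set.union_subset ((u4 _).trans EvF_alg)
    fun y hy => by obtain ⟨x, rfl⟩ := hq y hy; exact x.2)) α h
  have g1 : ∀ x, c.Dv x → g x = x := fun x hx => hg x (subset_adjoin _ _ (Or.inr ((h5 x).1 hx)))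
  have g2 : g ∈ U (i + 1) k := ⟨Ctx.mem_Lv.2 ⟨g1 _ (Ctx.dv_tor ⟨_, (hl k).pos,
      (c.prim _ (hl k).pos).pow_eq_one⟩), fun a => g1 _ (Ctx.dv_t a (hl k).npos)⟩,
    Subgroup.mem_iInf.2 fun l => Subgroup.mem_iInf.2 fun hl =>
      hg _ (subset_adjoin _ _ (Or.inl (u5 _ l hl)))⟩
  rcases hdeg g g2 with h | h <;> rw [map_mul, g1 η hη'] at h
  · rw [mul_div_mul_right _ _ hη'.ne] at h
    exact b1 ((h5 _).1 h)
  · have := (h.mul hη'.inv).mul hη'.inv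
    rw [show g α * η * (α * η) * η⁻¹ * η⁻¹ = g α * α by field_simp [hη'.ne]] at this
    exact b2 ((h5 _).1 this)

theorem torus_log (S : Finset ℕ) (Γ : Subgroup ℂˣ) (hΓ : Γ.FG)
    (halg : ∀ g ∈ Γ, IsAlgebraic ℚ (g : ℂ)) (G : Set ℂ)
    (hG : G = {z : ℂ | z ≠ 0 ∧ ∃ k : ℕ, 1 ≤ k ∧ ∃ g ∈ Γ, (g : ℂ) = z ^ k}) (r : ℕ) :
    ∃ c : ℝ, 0 < c ∧ ∃ κ : ℕ, ∀ n : ℕ, 1 ≤ n → ∀ K : IntermediateField ℚ ℂ,
      K = adjoin ℚ {z : ℂ | ∃ s : ℕ, 1 ≤ s ∧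
        (z ^ s = 1 ∨ (s.primeFactors ⊆ S ∧ ∃ g ∈ Γ, (g : ℂ) = z ^ (n * s)))} →
      ∀ α η : Fin r → ℂ, (∀ i, α i ≠ 0) → (∀ a : Fin r → ℤ, a ≠ 0 → ∏ i, α i ^ a i ∉ G) →
      (∀ i, η i ∈ G) → ∀ D : ℕ, D = Module.finrank K (adjoin K (Set.range fun i => α i * η i)) →
      ∀ f : Fin r → Polynomial ℤ, (∀ i, Irreducible (f i)) → (∀ i, aeval (α i) (f i) = 0) →
      ∀ H : ℝ, (∀ i, Real.log (mahlerMeasure ((f i).map (Int.castRingHom ℂ))) /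
        ((f i).natDegree : ℝ) ≤ H) → c / (D * Real.log (3 * (n * D)) ^ κ) ≤ H ^ r := by
  obtain ⟨ι, _, c, S', hS, hind, h5, hq, hL⟩ := fn2_ctx S Γ hΓ halg hG
  obtain ⟨C, hC, κ, h6⟩ := c.relAD2 S' hS hind r
  refine ⟨C, hC, κ, fun n0 hn0 K hK α η hα hnd hη D hD f hf hfα H hH => ?_⟩
  obtain ⟨-, m1, n1, hl, hX⟩ := hL n0 hn0 _ rfl
  rw [← hK] at hX
  lift α to Fin r → Qb using fun i => mem_algebraicClosure_iff.2
    (IsAlgebraic.extendScalars (FaithfulSMul.algebraMap_injective ℤ ℚ) ⟨f i, (hf i).ne_zero, hfα i⟩)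
  lift η to Fin r → Qb using fun i => by obtain ⟨x, hx⟩ := hq _ (hη i); exact hx ▸ x.2
  have hη' := fun i => (h5 _).2 (hη i)
  have : FiniteDimensional K (adjoin K (Set.range fun i => (α i : ℂ) * η i)) :=
    finiteDimensional_adjoin (by rintro _ ⟨i, rfl⟩; exact ev_int K (α i * η i))
  obtain ⟨ω, e1, e2⟩ := ev_fin hX (adjoin K (Set.range fun i => (α i : ℂ) * η i))
  obtain ⟨k, e3, e4⟩ := (e1.and (eventually_all.2 fun i => mem_EvF.1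
    (e2 ((α i * η i : Qb) : ℂ) (subset_adjoin _ _ ⟨i, rfl⟩)))).exists
  have hD0 : 0 < D := hD ▸ Module.finrank_pos
  have h7 := h6 (α * η) n0 _ _ D H (hl k)
    (fun i => mul_ne_zero (fun h => hα i (congrArg Subtype.val h)) (hη' i).ne)
    (fun a ha h => hnd a ha (by
      have e5 := Ctx.dv_mon hη' a
      have e6 := h.mul e5.inv
      rw [mon_mul, mul_inv_cancel_right₀ e5.ne, h5] at e6
      refine Eq.subst ?_ e6
      exact (map_prod (algebraMap Qb ℂ) _ _).trans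
        (Finset.prod_congr rfl fun i _ => map_zpow₀ _ _ _)))
    (hD ▸ e3.restrict le_rfl (le_iInf e4)) fun i => ⟨_, (hη' i).inv, by
      rw [Pi.mul_apply, mul_inv_cancel_right₀ (hη' i).ne]
      exact (ht_le_mahler (hf i) ((algebraMap Qb ℂ).injective (by
        rw [← Polynomial.aeval_algebraMap_apply, map_zero]; exact hfα i))).trans (hH i)⟩
  have h8 : (1 : ℝ) ≤ n0 * D := by exact_mod_cast Nat.mul_pos hn0 hD0
  rwa [div_le_iff₀ (mul_pos (by positivity) (pow_pos (log_pos (by linarith)) _)), ← mul_assoc]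

end Pool.Agent.Lib.MP_f61260_nt
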