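import Pool.Agent.Lib.MP_f61260_nt.Sl.RA2
import Pool.Agent.Lib.MP_f61260_nt.Sl.Cj2

/-! From independent conjugates to the height bound. -/

set_option autoImplicit false
set_option maxHeartbeats 400000

namespace Pool.Agent.Lib.MP_f61260_nt

open Real

lemma mn2_log (K r κ D : ℕ) (hK : 0 < K) (hD : 0 < D) :
    log (3 * ((K * D ^ r : ℕ) : ℝ)) ^ κ ≤ ((r + 1) ^ κ * κ.factorial * (3 * K) : ℝ) * D := by
  have hK1 : (1 : ℝ) ≤ K := by exact_mod_cast hK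
  have hD1 : (1 : ℝ) ≤ D := by exact_mod_cast hD
  have h1 : (1 : ℝ) ≤ 3 * K := by linarith
  have h2 : (1 : ℝ) ≤ 3 * K * D := one_le_mul_of_one_le_of_one_le h1 hD1
  have h3 : (3 : ℝ) * ((K * D ^ r : ℕ) : ℝ) ≤ (3 * K * D) ^ (r + 1) := by
    rw [mul_pow, Nat.cast_mul, Nat.cast_pow, ← mul_assoc]
    exact mul_le_mul (le_self_pow₀ h1 (Nat.succ_ne_zero r)) (pow_le_pow_right₀ hD1 (Nat.le_succ r))
      (by positivity) (by positivity)
  have h4 : (1 : ℝ) ≤ 3 * ((K * D ^ r : ℕ) : ℝ) := by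
    rw [Nat.cast_mul, Nat.cast_pow, ← mul_assoc]
    exact one_le_mul_of_one_le_of_one_le h1 (one_le_pow₀ hD1)
  have h5 : log (3 * ((K * D ^ r : ℕ) : ℝ)) ≤ (r + 1) * log (3 * K * D) := by
    refine (log_le_log (by linarith) h3).trans (le_of_eq ?_)
    rw [log_pow]; push_cast; ring
  have h6 : log (3 * K * D) ^ κ ≤ κ.factorial * (3 * K * D) := by
    have := Real.pow_div_factorial_le_exp (log (3 * K * D)) (log_nonneg h2) κ
    rw [exp_log (by linarith), div_le_iff₀ (by positivity)] at this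
    linarith
  refine (pow_le_pow_left₀ (log_nonneg h4) h5 κ).trans ?_
  rw [mul_pow]
  refine (mul_le_mul_of_nonneg_left h6 (by positivity)).trans (le_of_eq ?_)
  ring

lemma mn2_one {x : ℝ} (hx : 1 ≤ x) : 1 ≤ log (3 * x) := by
  rw [le_log_iff_exp_le (by linarith)]
  linarith [exp_one_lt_d9]

lemma mn2_num (K r κ : ℕ) (hK : 0 < K) {C : ℝ} (hC : 0 < C) : ∃ C' > (0 : ℝ),
    ∀ (κ' n0 e E E' D1 D : ℕ) (h : ℝ), κ ≤ κ' → 0 < n0 → 0 < E → 0 < D1 → E ≤ E' →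
      e * E * D1 ≤ D → 0 ≤ h → C ≤ (e * h) ^ (r + 1) * ((K * E * D1 ^ r : ℕ) : ℝ) *
        log (3 * (n0 * ((K * E * D1 ^ r : ℕ) : ℝ))) ^ κ →
      C' ≤ D * h * log (3 * (n0 * E')) ^ κ' := by
  have hK0 : (0 : ℝ) < K := by exact_mod_cast hK
  have hB : (0 : ℝ) < K * 2 ^ κ * ((r + 1) ^ κ * κ.factorial * (3 * K)) := by positivity
  refine ⟨min 1 (C / (K * 2 ^ κ * ((r + 1) ^ κ * κ.factorial * (3 * K)))),
    lt_min one_pos (div_pos hC hB), fun κ' n0 e E E' D1 D h hκ hn hE hD1 hE' hD hh hle => ?_⟩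
  have n1 : (1 : ℝ) ≤ n0 := by exact_mod_cast hn
  have E1 : (1 : ℝ) ≤ E := by exact_mod_cast hE
  have E2 : (E : ℝ) ≤ E' := by exact_mod_cast hE'
  have M1 : (1 : ℝ) ≤ ((K * D1 ^ r : ℕ) : ℝ) := by
    exact_mod_cast Nat.mul_pos hK (pow_pos hD1 r)
  have hL : 1 ≤ log (3 * (n0 * E')) := mn2_one (one_le_mul_of_one_le_of_one_le n1 (E1.trans E2))
  have hM := mn2_one M1
  have hL' : 1 ≤ log (3 * (n0 * E')) ^ κ' := one_le_pow₀ hL
  rcases le_total 1 (D * h) with h1 | h1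
  · exact (min_le_left _ _).trans (one_le_mul_of_one_le_of_one_le h1 hL')
  refine (min_le_right _ _).trans ?_
  rw [div_le_iff₀ hB]
  have h2 : (e : ℝ) * E * D1 ≤ D := by exact_mod_cast hD
  have h3 : (e * D1 * h : ℝ) ^ (r + 1) * E ≤ D * h := by
    refine (mul_le_mul_of_nonneg_left (le_self_pow₀ E1 (Nat.succ_ne_zero r))
      (by positivity)).trans ?_
    rw [← mul_pow, show (e * D1 * h * E : ℝ) = e * E * D1 * h by ring]
    exact (pow_le_pow_left₀ (by positivity) (mul_le_mul_of_nonneg_right h2 hh) _).trans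
      (pow_le_of_le_one (by positivity) h1 (Nat.succ_ne_zero r))
  have e0 : (3 : ℝ) * (n0 * ((K * E * D1 ^ r : ℕ) : ℝ)) =
      n0 * E * (3 * ((K * D1 ^ r : ℕ) : ℝ)) := by
    push_cast
    ring
  have h4 : log (3 * (n0 * ((K * E * D1 ^ r : ℕ) : ℝ))) ≤
      2 * log (3 * (n0 * E')) * log (3 * ((K * D1 ^ r : ℕ) : ℝ)) := by
    have h5 : log (n0 * E) ≤ log (3 * (n0 * E')) :=
      log_le_log (by positivity) (by nlinarith)
    rw [e0, log_mul (by positivity) (by positivity)]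
    nlinarith
  have h5 : 0 ≤ log (3 * (n0 * ((K * E * D1 ^ r : ℕ) : ℝ))) := by
    rw [e0]
    exact log_nonneg (one_le_mul_of_one_le_of_one_le (one_le_mul_of_one_le_of_one_le n1 E1)
      (by linarith))
  have h6 : log (3 * (n0 * ((K * E * D1 ^ r : ℕ) : ℝ))) ^ κ ≤
      2 ^ κ * log (3 * (n0 * E')) ^ κ' * (((r + 1) ^ κ * κ.factorial * (3 * K) : ℝ) * D1) := by
    refine (pow_le_pow_left₀ h5 h4 κ).trans ?_
    rw [mul_pow, mul_pow]
    exact mul_le_mul (mul_le_mul_of_nonneg_left (pow_le_pow_right₀ hL hκ) (by positivity))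
      (mn2_log K r κ D1 hK hD1) (by positivity) (by positivity)
  refine hle.trans ((mul_le_mul_of_nonneg_left h6 (by positivity)).trans
    (le_trans (le_of_eq ?_) (mul_le_mul_of_nonneg_right
      (mul_le_mul_of_nonneg_right h3 (zero_le_one.trans hL')) hB.le)))
  push_cast
  ring

theorem Ctx.fin_bound {ι : Type} [Fintype ι] (c : Ctx ι) (S : Finset ℕ) (hS : ∀ p ∈ S, p.Prime)
    (hind : ∀ w : ι → ℤ, Tor (∏ a, c.t a 1 ^ w a) → w = 0) (R K : ℕ) :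
    ∃ C > (0 : ℝ), ∃ κ : ℕ, ∀ r ≤ R, ∀ (α η ξ : Qb) (n0 m n e E E' D1 D : ℕ)
      (τ : Fin (r + 1) → GA), Lvl S n0 m n → α ≠ 0 → c.Dv η → Tor ξ → 0 < e → 0 < E → 0 < D1 →
      E ≤ E' → e * E * D1 ≤ D → (∀ i, τ i ∈ c.G0) → (c.Ind fun i => τ i (α * η)) →
      IdxLe (c.Lv m n) (⨅ i, St ℚ (τ i (ξ * (α * η) ^ e))) (K * E * D1 ^ r) →
      C / (D * log (3 * (n0 * E')) ^ κ) ≤ ht α := by
  rcases K.eq_zero_or_pos with rfl | hK
  · refine ⟨1, one_pos, 0, fun r _ α η ξ n0 m n e E E' D1 D τ _ _ _ _ _ _ _ _ _ _ _ h => ?_⟩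
    obtain ⟨T, hT⟩ := h
    rw [zero_mul, zero_mul] at hT
    exact absurd hT T.card_pos.not_ge
  choose C1 hC1 κ hrel using fun r => c.relAD2 S hS hind (r + 1)
  choose C2 hC2 hnum using fun r => mn2_num K r (κ r) hK (hC1 r)
  obtain ⟨r0, -, hr0⟩ := Finset.exists_min_image (Finset.range (R + 1)) C2 ⟨0, by simp⟩
  refine ⟨C2 r0, hC2 r0, ∑ r ∈ Finset.range (R + 1), κ r,
    fun r hr α η ξ n0 m n e E E' D1 D τ hl hα hη hξ he hE hD1 hE' hD hτ hnd hidx => ?_⟩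
  have hr' : r ∈ Finset.range (R + 1) := Finset.mem_range.2 (Nat.lt_succ_of_le hr)
  have hx : c.Dv (ξ * η ^ e) := (Ctx.dv_tor hξ).mul (hη.pow e)
  have hαe : α ^ e ≠ 0 := pow_ne_zero _ hα
  have e1 : ξ * (α * η) ^ e = α ^ e * (ξ * η ^ e) := by rw [mul_pow]; ring
  have e2 : ξ * (α * η) ^ e * (ξ * η ^ e)⁻¹ = α ^ e := by
    rw [e1, mul_inv_cancel_right₀ hx.ne]
  have h1 := hrel r (fun i => τ i (ξ * (α * η) ^ e)) n0 m n _ (e * ht α) hl
    (fun i => (_root_.map_ne_zero _).2 (e1 ▸ mul_ne_zero hαe hx.ne))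
    ((Ctx.ind_pow hτ (Ctx.dv_tor hξ) he).2 hnd) hidx fun i => by
      obtain ⟨ζ, h1, h2⟩ := hx.inv.act _ (hτ i)
      refine ⟨τ i (ξ * η ^ e)⁻¹, h2 ▸ (Ctx.dv_tor h1).mul hx.inv, le_of_eq ?_⟩
      rw [← map_mul, e2, ht_conj, ht_pow]
  have h2 := (hr0 r hr').trans (hnum r _ n0 e E E' D1 D (ht α)
    (Finset.single_le_sum (f := κ) (fun _ _ => Nat.zero_le _) hr') hl.pos0 hE hD1 hE' hD
    (ht_nonneg α) h1)
  have hD0 : (0 : ℝ) < D := by exact_mod_cast (Nat.mul_pos (Nat.mul_pos he hE) hD1).trans_le hD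
  have hL : 1 ≤ log (3 * ((n0 : ℝ) * E')) := mn2_one (by
    exact_mod_cast Nat.mul_pos hl.pos0 (hE.trans_le hE'))
  rw [div_le_iff₀ (by positivity)]
  exact h2.trans (le_of_eq (by ring))

end Pool.Agent.Lib.MP_f61260_nt
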