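import Pool.Agent.Lib.MP_f61260_nt.Sl.Mn2

/-! The height bound along a tower. -/

set_option autoImplicit false
set_option maxHeartbeats 400000

namespace Pool.Agent.Lib.MP_f61260_nt

open Real

theorem Ctx.step_conj (μ : ℕ) : ∃ R K : ℕ, ∀ (ι : Type) [Fintype ι] (c : Ctx ι)
    (U A B : Subgroup GA) (γ : Qb) (E d D : ℕ), U ≤ c.G0 → A ≤ U → B ≤ A → γ ≠ 0 →
    IdxLe U A E → IdxLe A B d → IdxLe B (St ℚ γ) D → GStep μ A B d → c.Deg B γ → ¬ c.Deg A γ →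
    ∃ r ≤ R, ∃ (ξ : Qb) (e D1 : ℕ) (τ : Fin (r + 1) → GA), Tor ξ ∧ 0 < e ∧ 0 < D1 ∧
      e * D1 ≤ E * d * D ∧ (∀ i, τ i ∈ U) ∧ (c.Ind fun i => τ i γ) ∧
      IdxLe U (⨅ i, St ℚ (τ i (ξ * γ ^ e))) (K * D1 ^ r) := by
  obtain ⟨C, -, H1⟩ := Ctx.solv_conj2
  obtain ⟨B0, -, H2⟩ := Ctx.low_conj (μ + 1)
  refine ⟨18 + (μ + 1), C + 2 ^ (μ + 1 + 1) + B0,
    fun ι _ c U A B γ E d D hU hA hB hγ h1 h2 h3 hs hdB hdA => ?_⟩
  have hAG := hA.trans hU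
  have hBG := hB.trans hAG
  have hE : 0 < E := let ⟨T, hT⟩ := h1; T.card_pos.trans_le hT
  have hd : 0 < d := let ⟨T, hT⟩ := h2; T.card_pos.trans_le hT
  obtain ⟨e, D1, ξ, he, hD1, heD, hξ, k1, k2⟩ := exists_rig hγ (h2.trans' h3 hB)
  have hξ' := Ctx.dv_tor (c := c) hξ
  have hβ := mul_ne_zero hξ'.ne (pow_ne_zero e hγ)
  have k3 : ¬ c.Deg A (ξ * γ ^ e) := fun h => hdA ((Ctx.deg_pow hAG hγ hξ' he).1 h)
  rcases hs with ⟨l, hl⟩ | ⟨W, hW, hW1, hW2⟩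
  · obtain ⟨r, hr1, hr2, τ, a1, a2, a3⟩ := H1 ι c A _ D1 l hAG hβ k2 k1 k3 fun g hg =>
      (Ctx.deg_pow hBG hγ hξ' he).2 hdB g (hl g hg)
    refine ⟨r, by omega, ξ, e, E * D1, τ, hξ, he, Nat.mul_pos hE hD1, ?_, fun i => hA (a1 i),
      (Ctx.ind_pow (fun i => hAG (a1 i)) hξ' he).1 a2, (h1.trans' a3 hA).mono ?_⟩
    · rw [mul_left_comm, mul_assoc]
      exact Nat.mul_le_mul_left E heD
    · rw [mul_left_comm, mul_pow]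
      exact Nat.mul_le_mul ((Nat.le_add_right _ _).trans (Nat.le_add_right _ _))
        (Nat.mul_le_mul_right _ (Nat.le_self_pow (by omega) E))
  by_cases hex : ∃ τ : Fin (μ + 1 + 1) → GA, (∀ i, τ i ∈ A) ∧ c.Ind fun i => τ i γ
  · obtain ⟨τ, a1, a2⟩ := hex
    obtain ⟨e', D2, ζ, he', hD2, heD', hζ, -, k4⟩ := exists_rig hγ h3
    have hζ' := Ctx.dv_tor (c := c) hζ
    have k5 := Ctx.deg_two hBG (mul_ne_zero hζ'.ne (pow_ne_zero e' hγ)) k4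
      ((Ctx.deg_pow hBG hγ hζ' he').2 hdB)
    refine ⟨μ + 1, by omega, ζ, e', E * d, τ, hζ, he', Nat.mul_pos hE hd, ?_, fun i => hA (a1 i),
      a2, (h1.trans' (hW1.trans' (IdxLe.iInf fun i => idx_conj k5 (hW2 _ (a1 i))) hW) hA).mono ?_⟩
    · rw [mul_comm]
      exact Nat.mul_le_mul_left _ ((Nat.le_mul_of_pos_right e' hD2).trans heD')
    · rw [Finset.prod_const, Finset.card_univ, Fintype.card_fin, ← mul_assoc, mul_comm, mul_pow]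
      exact Nat.mul_le_mul (by omega) (Nat.mul_le_mul (Nat.le_self_pow (by omega) E)
        (Nat.pow_le_pow_right hd μ.le_succ))
  obtain ⟨τ, a1, a2, a3⟩ := H2 ι c A _ D1 hAG hβ k2 k1 k3 fun τ b1 b2 =>
    hex ⟨τ, b1, (Ctx.ind_pow (fun i => hAG (b1 i)) hξ' he).1 b2⟩
  refine ⟨1, by omega, ξ, e, E, τ, hξ, he, hE, ?_, fun i => hA (a1 i),
    (Ctx.ind_pow (fun i => hAG (a1 i)) hξ' he).1 a2, (h1.trans' a3 hA).mono ?_⟩
  · rw [mul_comm, mul_assoc]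
    exact Nat.mul_le_mul_left E ((Nat.le_mul_of_pos_right e hD1).trans heD)
  · rw [pow_one, mul_comm]
    exact Nat.mul_le_mul_right E (Nat.le_add_left _ _)

lemma mn3_idx {U : ℕ → Subgroup GA} {d : ℕ → ℕ} {t : ℕ}
    (h : ∀ i < t, U (i + 1) ≤ U i ∧ IdxLe (U i) (U (i + 1)) (d i)) {a b : ℕ} (hab : a ≤ b)
    (hb : b ≤ t) : U b ≤ U a ∧ IdxLe (U a) (U b) (∏ i ∈ Finset.Ico a b, d i) := by
  induction b, hab using Nat.le_induction with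
  | base => exact ⟨le_rfl, (idxLe_of_le le_rfl).mono (by simp)⟩
  | succ b hab ih =>
    obtain ⟨h1, h2⟩ := ih (by omega)
    rw [Finset.prod_Ico_succ_top hab]
    exact ⟨(h b hb).1.trans h1, h2.trans' (h b hb).2 h1⟩

theorem Ctx.tower_conj (μ : ℕ) : ∃ R K : ℕ, ∀ (ι : Type) [Fintype ι] (c : Ctx ι)
    (U : ℕ → Subgroup GA) (d : ℕ → ℕ) (j t : ℕ) (γ : Qb), j ≤ t → U 0 ≤ c.G0 → γ ≠ 0 → ¬ c.Dv γ →
    (∀ i < t, U (i + 1) ≤ U i ∧ IdxLe (U i) (U (i + 1)) (d i) ∧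
      (j ≤ i → c.Deg (U (i + 1)) γ → GStep μ (U i) (U (i + 1)) (d i))) → Fx (U t) γ →
    ∃ r ≤ R, ∃ (ξ : Qb) (e E D1 : ℕ) (τ : Fin (r + 1) → GA), Tor ξ ∧ 0 < e ∧ 0 < E ∧ 0 < D1 ∧
      E ≤ ∏ i ∈ Finset.range j, d i ∧ e * E * D1 ≤ ∏ i ∈ Finset.range t, d i ∧
      (∀ i, τ i ∈ U 0) ∧ (c.Ind fun i => τ i γ) ∧
      IdxLe (U 0) (⨅ i, St ℚ (τ i (ξ * γ ^ e))) (K * E * D1 ^ r) := by
  classical
  obtain ⟨R, K, H⟩ := Ctx.step_conj μ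
  refine ⟨R, K + 2, fun ι _ c U d j t γ hj hU hγ hnd h hf => ?_⟩
  have h' := fun a b => mn3_idx (a := a) (b := b) fun i hi => ⟨(h i hi).1, (h i hi).2.1⟩
  have h1 : ∀ a ≤ t, IdxLe (U a) (St ℚ γ) (∏ i ∈ Finset.Ico a t, d i) := fun a ha =>
    (h' a t ha le_rfl).2.restrict le_rfl (inf_le_right.trans hf.le)
  have h2 : ∀ a ≤ t, U a ≤ U 0 ∧ IdxLe (U 0) (U a) (∏ i ∈ Finset.range a, d i) := fun a ha => by
    rw [Finset.range_eq_Ico]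
    exact h' 0 a a.zero_le ha
  have hE : 0 < ∏ i ∈ Finset.range j, d i := let ⟨T, hT⟩ := (h2 j hj).2; T.card_pos.trans_le hT
  by_cases hd : c.Deg (U j) γ
  · have hG := (h2 j hj).1.trans hU
    obtain ⟨e, D1, ξ, he, hD1, heD, hξ, -, k2⟩ := exists_rig hγ (h1 j hj)
    have hξ' := Ctx.dv_tor (c := c) hξ
    have k3 := Ctx.deg_two hG (mul_ne_zero hξ'.ne (pow_ne_zero e hγ)) k2
      ((Ctx.deg_pow hG hγ hξ' he).2 hd)
    refine ⟨0, R.zero_le, ξ, e, _, 1, fun _ => 1, hξ, he, hE, one_pos, le_rfl, ?_,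
      fun _ => (U 0).one_mem, fun a ha k4 => hnd ?_, (((h2 j hj).2.trans' k3 (h2 j hj).1).restrict
        le_rfl (inf_le_right.trans (le_iInf fun _ => le_rfl))).mono ?_⟩
    · rw [mul_one, mul_comm, ← Finset.prod_range_mul_prod_Ico d hj]
      exact Nat.mul_le_mul_left _ ((Nat.le_mul_of_pos_right e hD1).trans heD)
    · have ha0 : a 0 ≠ 0 := fun h0 => ha (funext fun i => by
        rw [Subsingleton.elim (α := Fin 1) i 0]; exact h0)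
      exact Ctx.Dv.of_zpow ha0 (by simpa [mon] using k4)
    · rw [pow_zero, mul_one, mul_comm]
      exact Nat.mul_le_mul_right _ (by omega)
  have hex : ∃ n, j ≤ n ∧ c.Deg (U n) γ := ⟨t, hj, fun g hg => Or.inl (by
    rw [hf g hg, div_self hγ]; exact Ctx.dv_tor ⟨1, one_pos, one_pow 1⟩)⟩
  have k0 : Nat.find hex ≤ t := Nat.find_min' hex ⟨hj, fun g hg => Or.inl (by
    rw [hf g hg, div_self hγ]; exact Ctx.dv_tor ⟨1, one_pos, one_pow 1⟩)⟩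
  obtain ⟨k1, k2⟩ := Nat.find_spec hex
  have k3 : Nat.find hex ≠ j := fun e => hd (e ▸ k2)
  obtain ⟨i, hi⟩ : ∃ i, Nat.find hex = i + 1 := ⟨Nat.find hex - 1, by omega⟩
  have k4 : ¬ c.Deg (U i) γ := fun e => Nat.find_min hex (show i < Nat.find hex by omega)
    ⟨by omega, e⟩
  rw [hi] at k0 k1 k2 k3
  obtain ⟨r, hr, ξ, e, D1, τ, a1, a2, a3, a4, a5, a6, a7⟩ := H ι c (U 0) (U i) (U (i + 1)) γ _ _ _
    hU (h2 i (by omega)).1 (h i k0).1 hγ (h2 i (by omega)).2 (h i k0).2.1 (h1 (i + 1) k0)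
    ((h i k0).2.2 (by omega) k2) k2 k4
  refine ⟨r, hr, ξ, e, 1, D1, τ, a1, a2, one_pos, a3, hE, ?_, a5, a6, a7.mono ?_⟩
  · rwa [mul_one, ← Finset.prod_range_mul_prod_Ico d k0, Finset.prod_range_succ]
  · rw [mul_one]
    exact Nat.mul_le_mul_right _ (by omega)

theorem Ctx.tower_main {ι : Type} [Fintype ι] (c : Ctx ι) (S : Finset ℕ) (hS : ∀ p ∈ S, p.Prime)
    (hind : ∀ w : ι → ℤ, Tor (∏ a, c.t a 1 ^ w a) → w = 0) (μ : ℕ) :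
    ∃ C > (0 : ℝ), ∃ κ : ℕ, ∀ (α η : Qb) (n0 m n j t : ℕ) (U : ℕ → Subgroup GA) (d : ℕ → ℕ),
      Lvl S n0 m n → j ≤ t → α ≠ 0 → ¬ c.Dv α → c.Dv η → U 0 = c.Lv m n →
      (∀ i < t, U (i + 1) ≤ U i ∧ IdxLe (U i) (U (i + 1)) (d i) ∧
        (j ≤ i → c.Deg (U (i + 1)) (α * η) → GStep μ (U i) (U (i + 1)) (d i))) →
      Fx (U t) (α * η) → C / ((∏ i ∈ Finset.range t, d i : ℕ) *
        log (3 * (n0 * (∏ i ∈ Finset.range j, d i : ℕ))) ^ κ) ≤ ht α := by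
  obtain ⟨R, K, h1⟩ := Ctx.tower_conj μ
  obtain ⟨C, hC, κ, h2⟩ := c.fin_bound S hS hind R K
  refine ⟨C, hC, κ, fun α η n0 m n j t U d hl hj hα hd hη hU ht hf => ?_⟩
  have hG : U 0 ≤ c.G0 := hU ▸ Ctx.Lv_le hl.npos
  obtain ⟨r, hr, ξ, e, E, D1, τ, a1, a2, a3, a4, a5, a6, a7, a8, a9⟩ := h1 ι c U d j t (α * η) hj
    hG (mul_ne_zero hα hη.ne) (fun h => hd (by
      have := h.mul hη.inv
      rwa [mul_inv_cancel_right₀ hη.ne] at this)) ht hf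
  exact h2 r hr α η ξ n0 m n e E _ D1 _ τ hl hα hη a1 a2 a3 a4 a5 a6 (fun i => hG (a7 i)) a8
    (hU ▸ a9)

end Pool.Agent.Lib.MP_f61260_nt
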