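import Pool.Agent.Lib.MP_f61260_nt.Sl.Defs
import Pool.Agent.Lib.MP_f61260_nt.Sl.Ul

/-! Powers of the relations between monomials. -/

set_option autoImplicit false
set_option maxHeartbeats 400000

namespace Pool.Agent.Lib.MP_f61260_nt

open Module Submodule

variable {σ : Type} [Fintype σ]

lemma pad_bd {k : σ → ℕ} (hk : ∀ i, 0 < k i) {ν : ℕ} {a : σ → ℤ} (ha : a ∈ bx (latK k) ν) (i : σ) :
    |a i| ≤ (ν / k i : ℕ) * k i := by
  obtain ⟨h1, h2⟩ := mem_bx.1 ha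
  obtain ⟨α, hα⟩ := h1 i
  have h3 := h2 i
  have h4 : (0 : ℤ) < k i := by exact_mod_cast hk i
  rw [hα, abs_mul, abs_of_pos h4, mul_comm] at h3 ⊢
  push_cast
  exact mul_le_mul_of_nonneg_right ((Int.le_ediv_iff_mul_le h4).2 h3) h4.le

theorem tile {k : σ → ℕ} (hk : ∀ i, 0 < k i) {ν T : ℕ} (hν : ∀ i, k i ≤ ν) (hT : 0 < T) :
    ∃ R C : Finset (σ → ℤ), R.card ≤ T ^ Fintype.card σ ∧ R ⊆ bx (latK k) (T * ν) ∧
      bx (latK k) ν ⊆ C ∧ C ⊆ bx (latK k) (2 * T * ν) ∧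
      (∀ m ∈ C, ∃ r ∈ R, ∃ a ∈ bx (latK k) ν, m = r + T • a) ∧
      (∀ r ∈ R, ∀ r' ∈ R, ∀ a ∈ latK k, ∀ a' ∈ latK k, r + T • a = r' + T • a' →
        r = r' ∧ a = a') ∧
      ∀ r ∈ R, ∀ t : Fin T → σ → ℤ, (∀ j, t j ∈ bx (latK k) ν) → r + ∑ j, t j ∈ C := by
  classical
  have k0 : ∀ i, (0 : ℤ) < k i := fun i => by exact_mod_cast hk i
  have kν : ∀ i, (k i : ℤ) ≤ ν := fun i => by exact_mod_cast hν i
  have T0 : (0 : ℤ) < T := by exact_mod_cast hT
  have M0 : ∀ i, (0 : ℤ) ≤ (ν / k i : ℕ) := fun i => Nat.cast_nonneg _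
  have Mν : ∀ i, ((ν / k i : ℕ) : ℤ) * k i ≤ ν := fun i => by
    exact_mod_cast Nat.div_mul_le_self ν (k i)
  have hR : ∀ r ∈ Finset.univ.image fun (j : σ → Fin T) i => (k i : ℤ) * (j i : ℕ),
      r ∈ bx (latK k) (T * ν) := by
    intro r hr
    obtain ⟨j, -, rfl⟩ := Finset.mem_image.1 hr
    refine mem_bx.2 ⟨fun i => dvd_mul_right _ _, fun i => ?_⟩
    have h1 : ((j i : ℕ) : ℤ) ≤ T := by exact_mod_cast (j i).2.le
    rw [abs_of_nonneg (by positivity), Nat.cast_mul, mul_comm]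
    exact mul_le_mul h1 (kν i) (k0 i).le T0.le
  refine ⟨Finset.univ.image fun (j : σ → Fin T) i => (k i : ℤ) * (j i : ℕ),
    (bx (latK k) (2 * T * ν)).filter fun m => ∀ i, -(T * ((ν / k i : ℕ) * k i) : ℤ) ≤ m i ∧
      m i < T * (((ν / k i : ℕ) + 1) * k i), Finset.card_image_le.trans (by simp), hR,
    fun a ha => Finset.mem_filter.2 ⟨bx_mono (Nat.le_mul_of_pos_left _ (by omega)) ha, fun i => ?_⟩,
    Finset.filter_subset _ _, fun m hm => ?_, ?_, fun r hr t ht => Finset.mem_filter.2 ⟨?_, ?_⟩⟩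
  · have h1 := abs_le.1 (pad_bd hk ha i)
    have h2 := mul_nonneg (M0 i) (k0 i).le
    have h3 := k0 i
    constructor <;> nlinarith [h1.1, h1.2]
  · obtain ⟨h1, h2⟩ := Finset.mem_filter.1 hm
    choose μ hμ using (mem_bx.1 h1).1
    refine ⟨fun i => k i * (μ i % T), Finset.mem_image.2 ⟨fun i => ⟨(μ i % T).toNat, ?_⟩,
      Finset.mem_univ _, funext fun i => ?_⟩, fun i => k i * (μ i / T),
      mem_bx.2 ⟨fun i => dvd_mul_right _ _, fun i => le_trans ?_ (Mν i)⟩, funext fun i => ?_⟩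
    · have := Int.emod_lt_of_pos (μ i) T0
      omega
    · simp only [Int.toNat_of_nonneg (Int.emod_nonneg (μ i) T0.ne')]
    · obtain ⟨h3, h4⟩ := h2 i
      rw [hμ i] at h3 h4
      have h5 : -((ν / k i : ℕ) : ℤ) * T ≤ μ i := le_of_mul_le_mul_left (by linarith) (k0 i)
      have h6 : μ i < (((ν / k i : ℕ) : ℤ) + 1) * T := lt_of_mul_lt_mul_left (by linarith) (k0 i).le
      rw [abs_mul, abs_of_pos (k0 i), mul_comm]
      refine mul_le_mul_of_nonneg_right (abs_le.2 ⟨(Int.le_ediv_iff_mul_le T0).2 h5, ?_⟩) (k0 i).le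
      exact Int.lt_add_one_iff.1 ((Int.ediv_lt_iff_lt_mul T0).2 h6)
    · rw [Pi.add_apply, Pi.smul_apply, nsmul_eq_mul, hμ i]
      conv_lhs => rw [← Int.emod_add_mul_ediv (μ i) T]
      ring
  · intro r hr r' hr' a ha a' ha' h
    obtain ⟨j, -, rfl⟩ := Finset.mem_image.1 hr
    obtain ⟨j', -, rfl⟩ := Finset.mem_image.1 hr'
    have h1 : ∀ i, ((j i : ℕ) : ℤ) = (j' i : ℕ) := fun i => by
      obtain ⟨α, hα⟩ := ha i
      obtain ⟨α', hα'⟩ := ha' i
      have h2 := congrFun h i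
      rw [Pi.add_apply, Pi.add_apply, Pi.smul_apply, Pi.smul_apply, nsmul_eq_mul, nsmul_eq_mul,
        hα, hα'] at h2
      have h3 : ((j i : ℕ) : ℤ) + T * α = (j' i : ℕ) + T * α' :=
        mul_left_cancel₀ (k0 i).ne' (by linarith)
      have h4 := congrArg (· % (T : ℤ)) h3
      simp only [Int.add_mul_emod_self_left] at h4
      rwa [Int.emod_eq_of_lt (by positivity) (by exact_mod_cast (j i).2),
        Int.emod_eq_of_lt (by positivity) (by exact_mod_cast (j' i).2)] at h4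
    simp only [h1, add_right_inj] at h ⊢
    exact ⟨trivial, nsmul_right_injective hT.ne' h⟩
  · rw [mul_assoc, two_mul]
    refine add_bx (hR r hr) (mem_bx.2 ⟨sum_mem fun j _ => (mem_bx.1 (ht j)).1, fun i => ?_⟩)
    rw [Finset.sum_apply]
    refine (Finset.abs_sum_le_sum_abs _ _).trans
      ((Finset.sum_le_sum fun j _ => (mem_bx.1 (ht j)).2 i).trans (by simp))
  · intro i
    obtain ⟨j, -, rfl⟩ := Finset.mem_image.1 hr
    have h1 : |∑ l, t l i| ≤ T * ((ν / k i : ℕ) * k i) := (Finset.abs_sum_le_sum_abs _ _).trans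
      ((Finset.sum_le_sum fun l _ => pad_bd hk (ht l) i).trans (by simp))
    have h2 : ((j i : ℕ) : ℤ) < T := by exact_mod_cast (j i).2
    have h3 := mul_lt_mul_of_pos_left h2 (k0 i)
    have h4 : (0 : ℤ) ≤ k i * (j i : ℕ) := by positivity
    rw [abs_le] at h1
    simp only [Pi.add_apply, Finset.sum_apply]
    constructor <;> linarith [h1.1, h1.2]

variable {p : ℕ} [hp : Fact p.Prime]

theorem ech_rel (U : Subgroup GA) (P : σ → Qb) (k : σ → ℕ) (ν : ℕ) {c : σ → Qb}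
    (hc : ∀ i, c i ≠ 0) (lam : (σ → ℤ) →+ ℝ) :
    ∃ A : Finset (σ → ℤ), A ⊆ bx (latK k) ν ∧ (bx (latK k) ν).card ≤ A.card + HH U P k 1 ν ∧
      ∀ a ∈ A, ∃ e : (σ → ℤ) → Qb, e a = 1 ∧ ∑ b ∈ bx (latK k) ν, e b * mon P b = 0 ∧
        ∀ b ∈ bx (latK k) ν, Fx U (e b) ∧ ‖io p (e b)‖ ≤ ‖io p (mon c (b - a))‖ ∧
          (lam a < lam b → ‖io p (e b)‖ < ‖io p (mon c (b - a))‖) := by
  classical
  let Q : (σ → ℤ) → Prop := fun a => ∃ e : (σ → ℤ) → Qb, e a = 1 ∧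
    ∑ b ∈ bx (latK k) ν, e b * mon P b = 0 ∧
      ∀ b ∈ bx (latK k) ν, Fx U (e b) ∧ ‖io p (e b)‖ ≤ ‖io p (mon c (b - a))‖ ∧
        (lam a < lam b → ‖io p (e b)‖ < ‖io p (mon c (b - a))‖)
  refine ⟨(bx (latK k) ν).filter Q, Finset.filter_subset _ _, ?_,
    fun a ha => (Finset.mem_filter.1 ha).2⟩
  rw [← Finset.card_filter_add_card_filter_not (s := bx (latK k) ν) Q, HH_one]
  refine Nat.add_le_add_left ?_ _
  set N := (bx (latK k) ν).filter fun a => ¬ Q a with hN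
  have hNB : N ⊆ bx (latK k) ν := Finset.filter_subset _ _
  rw [← Fintype.card_coe]
  refine LinearIndependent.fintype_card_le_finrank
    (b := fun a : N => (⟨mon P a, mem_Sp (hNB a.2)⟩ : Sp (Kf U) (latK k) (mon P) ν))
    (LinearIndependent.of_comp (Submodule.subtype _) (Fintype.linearIndependent_iff.2
      fun g hg a1 => ?_))
  by_contra h1
  let d : (σ → ℤ) → Qb := fun b => if h : b ∈ N then g ⟨b, h⟩ else 0
  have d1 : ∀ b, Fx U (d b) := fun b => by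
    simp only [d]
    split_ifs
    · exact kf_fx _
    · exact fun u _ => map_zero u
  have d2 : ∑ b ∈ bx (latK k) ν, d b * mon P b = 0 := by
    rw [← Finset.sum_subset hNB fun b _ hb => by simp [d, hb], ← Finset.sum_coe_sort, ← hg]
    exact Finset.sum_congr rfl fun b _ => by simp [d, IntermediateField.smul_def]
  have c0 : ∀ b, 0 < ‖io p (mon c b)‖ := fun b =>
    norm_pos_iff.2 ((_root_.map_ne_zero _).2 (mon_ne hc b))
  let w : (σ → ℤ) → ℝ := fun b => ‖io p (d b)‖ / ‖io p (mon c b)‖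
  obtain ⟨a0, ha0, m0⟩ := (bx (latK k) ν).exists_max_image w ⟨_, hNB a1.2⟩
  obtain ⟨a, ha, m1⟩ := ((bx (latK k) ν).filter fun b => w b = w a0).exists_max_image lam
    ⟨a0, Finset.mem_filter.2 ⟨ha0, rfl⟩⟩
  obtain ⟨ha1, ha2⟩ := Finset.mem_filter.1 ha
  have w0 : 0 < w a := ha2 ▸ lt_of_lt_of_le (div_pos (norm_pos_iff.2 ((_root_.map_ne_zero _).2 (by
    simpa [d] using h1))) (c0 _)) (m0 _ (hNB a1.2))
  have n0 : 0 < ‖io p (d a)‖ := (div_pos_iff_of_pos_right (c0 a)).1 w0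
  have d0 : d a ≠ 0 := (_root_.map_ne_zero _).1 (norm_pos_iff.1 n0)
  have haN : a ∈ N := by
    by_contra h
    exact d0 (dif_neg h)
  refine (Finset.mem_filter.1 haN).2 ⟨fun b => d b / d a, div_self d0, by
    simp only [div_mul_eq_mul_div, ← Finset.sum_div, d2, zero_div], fun b hb => ?_⟩
  have e1 : ‖io p (mon c (b - a))‖ = ‖io p (mon c b)‖ / ‖io p (mon c a)‖ := by
    rw [sub_eq_add_neg, mon_add hc, mon_neg, map_mul, map_inv₀, norm_mul, norm_inv, div_eq_mul_inv]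
  have e2 : w b ≤ w a := ha2 ▸ m0 b hb
  rw [e1, map_div₀, norm_div, div_le_div_iff₀ n0 (c0 a), div_lt_div_iff₀ n0 (c0 a),
    mul_comm ‖io p (mon c b)‖, ← div_le_div_iff₀ (c0 b) (c0 a), ← div_lt_div_iff₀ (c0 b) (c0 a)]
  refine ⟨fun u hu => by rw [map_div₀, d1 b u hu, d1 a u hu], e2, fun h => lt_of_le_of_ne e2 ?_⟩
  exact fun h' => absurd (m1 b (Finset.mem_filter.2 ⟨hb, ha2 ▸ h'⟩)) (not_le.2 h)

lemma pad_nsum_lt {K : Type} [NormedField K] [IsUltrametricDist K] {ι : Type} {s : Finset ι}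
    {f : ι → K} (h : ∀ i ∈ s, ‖f i‖ < 1) : ‖∑ i ∈ s, f i‖ < 1 := by
  classical
  induction s using Finset.induction_on with
  | empty => simp
  | insert a s ha ih =>
    rw [Finset.sum_insert ha]
    exact nadd_lt (h a (by simp)) (ih fun i hi => h i (by simp [hi]))

lemma pad_nprod {K : Type} [NormedField K] {ι : Type} [Fintype ι] {f : ι → K}
    (h : ∀ i, ‖f i‖ ≤ 1) : ‖∏ i, f i‖ ≤ 1 ∧ ∀ j, ‖f j‖ < 1 → ‖∏ i, f i‖ < 1 := by
  classical
  rw [norm_prod]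
  refine ⟨Finset.prod_le_one (fun _ _ => norm_nonneg _) fun i _ => h i, fun j hj => ?_⟩
  rw [← Finset.mul_prod_erase _ _ (Finset.mem_univ j)]
  exact (mul_le_of_le_one_right (norm_nonneg _)
    (Finset.prod_le_one (fun _ _ => norm_nonneg _) fun i _ => h i)).trans_lt hj

omit [Fintype σ] in
lemma pad_lam {lam : (σ → ℤ) →+ ℝ} (hl : Function.Injective lam) {T : ℕ} {a : σ → ℤ}
    {t : Fin T → σ → ℤ} (h1 : lam (T • a) ≤ lam (∑ j, t j)) (h2 : t ≠ fun _ => a) :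
    ∃ j, lam a < lam (t j) := by
  by_contra h
  push Not at h
  obtain ⟨j, hj⟩ := Function.ne_iff.1 h2
  have := Finset.sum_lt_sum (s := Finset.univ) (fun i _ => h i)
    ⟨j, Finset.mem_univ _, lt_of_le_of_ne (h j) (hl.ne hj)⟩
  rw [map_sum, map_nsmul] at h1
  rw [Finset.sum_const, Finset.card_univ, Fintype.card_fin] at this
  exact absurd h1 (not_le.2 this)

theorem padic_sub (U : Subgroup GA) {P c : σ → Qb} (hP : ∀ i, P i ≠ 0) (hc : ∀ i, c i ≠ 0)
    {k : σ → ℕ} (hk : ∀ i, 0 < k i) {ν T E : ℕ} (hν : ∀ i, k i ≤ ν) (hT : 0 < T) {η : ℝ}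
    (h0 : 0 ≤ η) (hη : η ^ p ^ E ≤ ‖(p : Om p)‖) :
    ∃ Z : Submodule (Om p) (bx (latK k) ν → Om p),
      finrank (Om p) Z ≤ T ^ Fintype.card σ * HH U P k 1 ν ∧
      ∀ g : GA, Cl p U c η g → ∀ u ∈ U, ∀ β : ℝ, 1 ≤ β →
        (∀ n : ℕ, ∀ a ∈ bx (latK k) (n * ν), ‖io p (g (u (mon P a)) * mon c a)‖ ≤ β ^ n) →
        ∃ z ∈ Z, ∀ a : bx (latK k) ν, ‖io p (g (u (mon P a)) * mon c a) ^ p ^ E - z a‖ ≤
          ‖(p : Om p)‖ ^ T * β ^ (2 * T * p ^ E) := by
  classical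
  obtain ⟨lam, hl⟩ := ex_order σ
  obtain ⟨R, C, r1, r2, r3, -, r5, r6, r7⟩ := tile hk hν hT
  obtain ⟨A, a1, a2, a3⟩ := ech_rel (p := p) U P k ν hc lam
  choose! e e1 e2 e3 using a3
  set B := bx (latK k) ν with hB
  have q0 : p ^ E ≠ 0 := (pow_pos hp.out.pos E).ne'
  have c1 : ∀ a b, ‖io p (mon c (b - a))‖ * ‖io p (mon c (a - b))‖ = 1 := fun a b => by
    rw [← norm_mul, ← map_mul, ← mon_add hc, sub_add_sub_cancel, sub_self, mon_zero, map_one,
      norm_one]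
  have c0 : ∀ b, 0 < ‖io p (mon c b)‖ := fun b =>
    norm_pos_iff.2 ((_root_.map_ne_zero _).2 (mon_ne hc b))
  obtain ⟨f, hf⟩ : ∃ f : (σ → ℤ) → (σ → ℤ) → Om p,
    ∀ a b, f a b = io p (e a b) * io p (mon c (a - b)) := ⟨_, fun _ _ => rfl⟩
  have f1 : ∀ a ∈ A, ∀ b ∈ B, ‖f a b‖ ≤ 1 := fun a ha b hb => by
    rw [hf, norm_mul, ← c1 a b]
    exact mul_le_mul_of_nonneg_right (e3 a ha b hb).2.1 (norm_nonneg _)
  have f2 : ∀ a ∈ A, ∀ b ∈ B, ‖f a b ^ p ^ E‖ ≤ 1 := fun a ha b hb => by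
    rw [norm_pow]
    exact pow_le_one₀ (norm_nonneg _) (f1 a ha b hb)
  have f3 : ∀ a ∈ A, ∀ b ∈ B, lam a < lam b → ‖f a b ^ p ^ E‖ < 1 := fun a ha b hb h => by
    rw [norm_pow]
    refine pow_lt_one₀ (norm_nonneg _) ?_ q0
    rw [hf, norm_mul, ← c1 a b]
    exact mul_lt_mul_of_pos_right ((e3 a ha b hb).2.2 h) (c0 _)
  have f4 : ∀ a ∈ A, ∀ t ∈ Fintype.piFinset fun _ : Fin T => B, lam (T • a) ≤ lam (∑ j, t j) →
      (t ≠ fun _ => a) → ‖∏ j, f a (t j) ^ p ^ E‖ < 1 := fun a ha t ht h1 h2 => by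
    obtain ⟨j, hj⟩ := pad_lam hl h1 h2
    exact (pad_nprod fun i => f2 a ha _ (Fintype.mem_piFinset.1 ht i)).2 j
      (f3 a ha _ (Fintype.mem_piFinset.1 ht j) hj)
  have s0 : ∀ a : σ → ℤ, ∑ _j : Fin T, a = T • a := fun a => by
    rw [Finset.sum_const, Finset.card_univ, Fintype.card_fin]
  obtain ⟨Z, z1, z2⟩ := approx_sub (F := Om p) (C := C) (L := R × A)
    (fun l => ⟨l.1 + T • l.2, s0 l.2 ▸ r7 _ l.1.2 _ fun _ => a1 l.2.2⟩)
    (fun l l' h => by
      obtain ⟨h1, h2⟩ := r6 _ l.1.2 _ l'.1.2 _ (mem_bx.1 (a1 l.2.2)).1 _ (mem_bx.1 (a1 l'.2.2)).1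
        (congrArg Subtype.val h)
      exact Prod.ext (Subtype.ext h1) (Subtype.ext h2))
    (fun m => lam m) (hl.comp Subtype.val_injective)
    (fun l m => ∑ t ∈ (Fintype.piFinset fun _ : Fin T => B).filter
      fun t => l.1.1 + ∑ j, t j = m, ∏ j, f l.2 (t j) ^ p ^ E)
    (fun l m => nsum_le zero_le_one fun t ht => (pad_nprod fun i => f2 _ l.2.2 _
      (Fintype.mem_piFinset.1 (Finset.mem_filter.1 ht).1 i)).1)
    (fun l => by
      rw [← Finset.add_sum_erase _ _ (a := fun _ => l.2.1) (Finset.mem_filter.2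
        ⟨Fintype.mem_piFinset.2 fun _ => a1 l.2.2, congrArg (l.1.1 + ·) (s0 _)⟩),
        Finset.prod_eq_one fun _ _ => by simp [hf, e1 _ l.2.2, mon_zero], add_sub_cancel_left]
      refine pad_nsum_lt fun t ht => ?_
      obtain ⟨h1, h2⟩ := Finset.mem_erase.1 ht
      obtain ⟨h3, h4⟩ := Finset.mem_filter.1 h2
      exact f4 _ l.2.2 t h3 (by rw [add_left_cancel h4]) h1)
    (fun l m h => pad_nsum_lt fun t ht => by
      obtain ⟨h3, h4⟩ := Finset.mem_filter.1 ht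
      rw [← h4, map_add, map_add, add_lt_add_iff_left] at h
      refine f4 _ l.2.2 t h3 h.le fun h5 => ?_
      rw [h5, s0] at h
      exact lt_irrefl _ h)
  refine ⟨Z.map (LinearMap.funLeft (Om p) (Om p) fun a : B => (⟨a, r3 a.2⟩ : C)),
    (finrank_map_le _ _).trans ?_, fun g hg u hu β hβ hb => ?_⟩
  · have h1 : C.card ≤ R.card * B.card := by
      rw [← Finset.card_product]
      refine le_trans (Finset.card_le_card fun m hm => ?_)
        (Finset.card_image_le (f := fun x => x.1 + T • x.2))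
      obtain ⟨r, hr, a, ha, rfl⟩ := r5 m hm
      exact Finset.mem_image.2 ⟨(r, a), Finset.mem_product.2 ⟨hr, ha⟩, rfl⟩
    rw [Fintype.card_prod, Fintype.card_coe, Fintype.card_coe, Fintype.card_coe] at z1
    have h2 := Nat.mul_le_mul_left R.card a2
    have h3 := Nat.mul_le_mul_right (HH U P k 1 ν) r1
    rw [mul_add] at h2
    omega
  obtain ⟨y, hy⟩ : ∃ y : (σ → ℤ) → Om p, ∀ b, y b = io p (g (u (mon P b)) * mon c b) :=
    ⟨_, fun _ => rfl⟩
  simp only [← hy] at hb ⊢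
  have y1 : ∀ a b, y (a + b) = y a * y b := fun a b => by
    simp only [hy, mon_add hP, mon_add hc, map_mul]
    ring
  have y2 : ∀ t : Fin T → σ → ℤ, y (∑ j, t j) = ∏ j, y (t j) := fun t => by
    induction (Finset.univ : Finset (Fin T)) using Finset.induction_on with
    | empty => simp [hy, mon_zero]
    | insert j s hj ih => rw [Finset.sum_insert hj, Finset.prod_insert hj, y1, ih]
  have y3 : ∀ b ∈ B, ‖y b‖ ≤ β := fun b h => by simpa using hb 1 b (by rwa [one_mul])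
  have β0 : 0 ≤ β := zero_le_one.trans hβ
  have y4 : ∀ a ∈ A, ‖∑ b ∈ B, f a b * y b‖ ≤ η * β := fun a ha => by
    have h1 : ∑ b ∈ B, io p (g (e a b)) * io p (mon c (a - b)) * y b = 0 := by
      have h2 := congrArg (fun x => io p (g (u x) * mon c a)) (e2 a ha)
      simp only [map_zero, zero_mul, map_sum, Finset.sum_mul] at h2
      rw [← h2]
      refine Finset.sum_congr rfl fun b hb => ?_
      conv_rhs => rw [← sub_add_cancel a b, mon_add hc, sub_add_cancel]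
      simp only [hy, map_mul, (e3 a ha b hb).1 u hu]
      ring
    rw [← sub_zero (∑ b ∈ B, _), ← h1, ← Finset.sum_sub_distrib]
    refine nsum_le (by positivity) fun b hb => ?_
    rw [hf, ← sub_mul, ← sub_mul, norm_mul, norm_mul, norm_sub_rev]
    refine mul_le_mul ?_ (y3 b hb) (norm_nonneg _) h0
    refine (mul_le_mul_of_nonneg_right (hg _ (e3 a ha b hb).1 _ (e3 a ha b hb).2.1)
      (norm_nonneg _)).trans_eq ?_
    rw [mul_assoc, c1, mul_one]
  have y5 : ∀ a ∈ A, ‖∑ b ∈ B, (f a b * y b) ^ p ^ E‖ ≤ ‖(p : Om p)‖ * β ^ p ^ E := fun a ha => by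
    rw [← sub_sub_cancel ((∑ b ∈ B, f a b * y b) ^ p ^ E) (∑ b ∈ B, _)]
    refine nsub_le ?_ (sum_pow_q hp.out E B _ β0 fun b hb => ?_)
    · rw [norm_pow]
      refine (pow_le_pow_left₀ (norm_nonneg _) (y4 a ha) _).trans ?_
      rw [mul_pow]
      gcongr
    · rw [norm_mul]
      exact (mul_le_of_le_one_left (norm_nonneg _) (f1 a ha b hb)).trans (y3 b hb)
  obtain ⟨z, hz, z3⟩ := z2 (fun m => y m ^ p ^ E) (‖(p : Om p)‖ ^ T * β ^ (2 * T * p ^ E))
    (by positivity) fun l => by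
      have h1 : ∑ m : C, (∑ t ∈ (Fintype.piFinset fun _ : Fin T => B).filter
          fun t => l.1.1 + ∑ j, t j = m, ∏ j, f l.2 (t j) ^ p ^ E) * y m ^ p ^ E =
          y l.1 ^ p ^ E * ∏ _j : Fin T, ∑ b ∈ B, (f l.2 b * y b) ^ p ^ E := by
        rw [Finset.sum_coe_sort C fun m => (∑ t ∈ (Fintype.piFinset fun _ : Fin T => B).filter
          fun t => l.1.1 + ∑ j, t j = m, ∏ j, f l.2 (t j) ^ p ^ E) * y m ^ p ^ E,
          Finset.prod_univ_sum, Finset.mul_sum, ← Finset.sum_fiberwise_of_maps_to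
            (g := fun t => l.1.1 + ∑ j, t j) fun t ht => r7 _ l.1.2 t (Fintype.mem_piFinset.1 ht)]
        refine Finset.sum_congr rfl fun m _ => ?_
        rw [Finset.sum_mul]
        refine Finset.sum_congr rfl fun t ht => ?_
        rw [← (Finset.mem_filter.1 ht).2, y1, y2]
        simp only [mul_pow, Finset.prod_mul_distrib, Finset.prod_pow]
        ring
      rw [h1, norm_mul, Finset.prod_const, Finset.card_univ, Fintype.card_fin, norm_pow, norm_pow]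
      calc _ ≤ (β ^ T) ^ p ^ E * (‖(p : Om p)‖ * β ^ p ^ E) ^ T := by
            gcongr
            · exact hb T _ (r2 l.1.2)
            · exact y5 _ l.2.2
        _ = _ := by ring
  exact ⟨_, mem_map_of_mem hz, fun a => z3 ⟨a, r3 a.2⟩⟩

end Pool.Agent.Lib.MP_f61260_nt
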