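import Pool.Agent.Lib.MP_f61260_nt.Sl.Cn2
import Pool.Agent.Lib.MP_f61260_nt.Sl.S3

/-! The height bound in several variables over Kummer towers, uniformly in the base level. -/

set_option autoImplicit false
set_option maxHeartbeats 400000

namespace Pool.Agent.Lib.MP_f61260_nt

open Module Submodule Real Filter

namespace Ctx

variable {ι : Type} [Fintype ι] (c : Ctx ι)

theorem indep_lv2 (S : Finset ℕ) (hS : ∀ p ∈ S, p.Prime)
    (hind : ∀ w : ι → ℤ, Tor (∏ a, c.t a 1 ^ w a) → w = 0) (σ : Type) [Fintype σ] :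
    ∃ κ : ℕ, ∀ᶠ x : ℕ in atTop, ∀ (P : σ → Qb) (δ n0 m n : ℕ) (H : ℝ), Lvl S n0 m n →
      (∀ i, P i ≠ 0) → c.Ind P → c.HT P H → n0 * δ ≤ 2 ^ x → x ^ κ * δ * H ≤ 1 →
      LinearIndependent (Kf (c.Lv m n)) fun a : bx (⊤ : Submodule ℤ (σ → ℤ)) δ => mon P a := by
  obtain ⟨C, hC, h0⟩ := circ_of_dep σ
  choose κ1 h1 using fun ρ : ℕ => c.descent4 (Fin ρ) S hS fun p hp => kf hind (hS p hp)
  choose κ2 h2 using fun ρ : ℕ => c.no_circ_lv2 hind (Fin ρ) (κ1 ρ + 1)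
  refine ⟨∑ ρ ∈ Finset.range (Fintype.card σ + 1), (κ1 ρ + κ2 ρ) + 1, ?_⟩
  filter_upwards [(eventually_all_finset (Finset.range (Fintype.card σ + 1))).2 fun ρ _ => h1 ρ,
    (eventually_all_finset (Finset.range (Fintype.card σ + 1))).2 fun ρ _ => h2 ρ,
    eventually_ge_atTop (C * Fintype.card σ + C)] with x e1 e2 e3 P δ n0 m n H hL hP hD hH hδ0 hx
  have hδ : δ ≤ 2 ^ x := (Nat.le_mul_of_pos_left δ hL.pos0).trans hδ0
  by_contra hc
  obtain ⟨ρ, hρ, P', k, b, a1, a2, a3, a4⟩ := h0 _ P ⊤ δ hP hc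
  have hρ' : ρ ∈ Finset.range (Fintype.card σ + 1) := Finset.mem_range.2 (Nat.lt_succ_of_le hρ)
  have hH0 : 0 ≤ H := let ⟨_, _, h⟩ := hH; (Finset.sum_nonneg fun _ _ => ht_nonneg _).trans h
  have b1 : C * δ ≤ x * 2 ^ x := Nat.mul_le_mul (by omega) hδ
  have b2 : C * δ ≤ 4 ^ x := b1.trans (by
    rw [show 4 = 2 * 2 from rfl, mul_pow]
    exact Nat.mul_le_mul_right _ Nat.lt_two_pow_self.le)
  have b3 : ∀ l ≤ κ1 ρ + κ2 ρ, (x : ℝ) ^ l * (C * δ : ℕ) * (Fintype.card σ * H) ≤ 1 := by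
    intro l hl
    have c1 : (1 : ℝ) ≤ x := by exact_mod_cast (show 1 ≤ x by omega)
    have c2 : (C : ℝ) * Fintype.card σ ≤ x := by
      exact_mod_cast (show C * Fintype.card σ ≤ x by omega)
    have c3 := hl.trans (Finset.single_le_sum (f := fun ρ => κ1 ρ + κ2 ρ)
      (fun _ _ => Nat.zero_le _) hρ')
    refine le_trans ?_ hx
    calc (x : ℝ) ^ l * (C * δ : ℕ) * (Fintype.card σ * H)
        = x ^ l * (C * Fintype.card σ) * δ * H := by push_cast; ring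
      _ ≤ x ^ (∑ ρ ∈ Finset.range (Fintype.card σ + 1), (κ1 ρ + κ2 ρ)) * x * δ * H := by gcongr
      _ = _ := by rw [pow_succ]
  have b4 := hH.root hρ a1.pos a2 a3
  obtain ⟨ε, m1, n1, d1, d2, d3, d4, d5⟩ := e1 ρ hρ' P' k _ n0 m n _ hL a1 b4 b2
    (b3 _ (Nat.le_add_right _ _))
  have b5 : n1 * (C * δ) ≤ x ^ (κ1 ρ + 1) * 2 ^ x :=
    calc n1 * (C * δ) ≤ n0 * x ^ κ1 ρ * (C * δ) := Nat.mul_le_mul_right _ d4
      _ = x ^ κ1 ρ * C * (n0 * δ) := by ring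
      _ ≤ x ^ κ1 ρ * x * 2 ^ x := Nat.mul_le_mul (Nat.mul_le_mul_left _ (by omega)) hδ0
      _ = _ := by rw [pow_succ]
  refine absurd (e2 ρ hρ' _ k _ m1 n1 _ d2 d3 b5 d5 (fun a ha ha0 h => ?_) (b4.mul d1))
    (not_lt.2 (b3 _ (Nat.le_add_left _ _)))
  obtain ⟨a', -, f1, f2⟩ := a4 a ha ha0
  have f3 := dv_mon d1 a
  have f4 := h.mul f3.inv
  rw [mon_mul, mul_inv_cancel_right₀ f3.ne, f2] at f4
  exact hD a' f1 f4

theorem relAD2 (S : Finset ℕ) (hS : ∀ p ∈ S, p.Prime)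
    (hind : ∀ w : ι → ℤ, Tor (∏ a, c.t a 1 ^ w a) → w = 0) (r : ℕ) :
    ∃ C > (0 : ℝ), ∃ κ : ℕ, ∀ (P : Fin r → Qb) (n0 m n N : ℕ) (H : ℝ), Lvl S n0 m n →
      (∀ i, P i ≠ 0) → c.Ind P → IdxLe (c.Lv m n) (⨅ i, St ℚ (P i)) N →
      (∀ i, ∃ η, c.Dv η ∧ ht (P i * η) ≤ H) → C ≤ H ^ r * N * log (3 * (n0 * N)) ^ κ := by
  classical
  rcases r.eq_zero_or_pos with rfl | hr
  · exact ⟨1, one_pos, 0, fun P n0 m n N H _ _ _ ⟨T, hT⟩ _ => by
      simpa using (show (1 : ℝ) ≤ N by exact_mod_cast T.card_pos.trans_le hT)⟩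
  obtain ⟨κ, h0⟩ := c.indep_lv2 S hS hind (Fin r)
  obtain ⟨x0, h0⟩ := eventually_atTop.1 h0
  refine ⟨1 / ((2 * r) ^ r * (x0 + 3) ^ (κ * r)), by positivity, κ * r,
    fun P n0 m n N H hL hP hD hN hH => ?_⟩
  have hN0 : 0 < N := let ⟨T, hT⟩ := hN; T.card_pos.trans_le hT
  obtain ⟨x, hx, h1, h2⟩ := ex_lev x0 (Nat.mul_pos hL.pos0 hN0)
  rw [Nat.cast_mul] at h2
  have hex : ∃ δ, N ≤ δ ^ r := ⟨N, Nat.le_self_pow hr.ne' N⟩
  obtain ⟨δ, hδ⟩ : ∃ δ, δ = Nat.find hex := ⟨_, rfl⟩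
  have h3 : N ≤ δ ^ r := hδ ▸ Nat.find_spec hex
  have h4 : 1 ≤ δ := Nat.pos_of_ne_zero fun h => by simp [h, hr.ne', hN0.ne'] at h3
  have h5 : δ ^ r ≤ 2 ^ r * N := by
    rcases h4.eq_or_lt with rfl | h
    · rw [one_pow]; exact Nat.mul_pos (by positivity) hN0
    · have := not_le.1 (Nat.find_min hex (show δ - 1 < Nat.find hex by omega))
      exact (Nat.pow_le_pow_left (show δ ≤ 2 * (δ - 1) by omega) r).trans
        (by rw [mul_pow]; exact Nat.mul_le_mul_left _ this.le)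
  have hV : ∀ e, Fx (⨅ i, St ℚ (P i)) (mon P e) := fun e =>
    Fx.prod _ fun i _ => (Fx.of_le (iInf_le (fun i => St ℚ (P i)) i)).zpow _
  choose η h7 h8 using hH
  have h9 : c.HT P (r * H) := ⟨η, h7, by
    simpa using Finset.sum_le_card_nsmul _ _ _ fun i (_ : i ∈ Finset.univ) => h8 i⟩
  have h6 : 1 < (x : ℝ) ^ κ * δ * (r * H) := by
    by_contra hc
    have e5 := card_le_idx (h0 x hx P δ n0 m n _ hL hP hD h9
      ((Nat.mul_le_mul_left n0 (show δ ≤ N from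
        hδ ▸ Nat.find_min' hex (Nat.le_self_pow hr.ne' N))).trans h1) (not_lt.1 hc))
      (fun e => hV e) hN
    have e6 : (bx (⊤ : Submodule ℤ (Fin r → ℤ)) δ).card = (2 * δ + 1) ^ r := by
      have : bx (⊤ : Submodule ℤ (Fin r → ℤ)) δ =
          Fintype.piFinset fun _ => Finset.Icc (-(δ : ℤ)) δ := by
        ext e
        simp [mem_bx, abs_le]
      rw [this, Fintype.card_piFinset, Finset.prod_const, Finset.card_univ, Int.card_Icc,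
        Fintype.card_fin]
      congr 1
      omega
    rw [Fintype.card_coe, e6] at e5
    exact absurd (e5.trans h3) (not_le.2 (Nat.pow_lt_pow_left (by omega) hr.ne'))
  have h10 : 0 ≤ H := (ht_nonneg _).trans (h8 ⟨0, hr⟩)
  have h11 : (δ : ℝ) ^ r ≤ 2 ^ r * N := by exact_mod_cast h5
  have h12 := (Nat.cast_nonneg x).trans h2
  rw [div_le_iff₀ (by positivity)]
  calc (1 : ℝ) ≤ ((x : ℝ) ^ κ * δ * (r * H)) ^ r := one_le_pow₀ h6.le
    _ = r ^ r * H ^ r * x ^ (κ * r) * δ ^ r := by ring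
    _ ≤ r ^ r * H ^ r * ((x0 + 3) * log (3 * (n0 * N))) ^ (κ * r) * (2 ^ r * N) := by gcongr
    _ = _ := by rw [mul_pow 2, mul_pow _ (log _)]; ring

end Ctx

end Pool.Agent.Lib.MP_f61260_nt
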