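import Pool.Agent.Lib.MP_f61260_nt.Sl.Core
import Pool.Agent.Lib.MP_f61260_nt.Sl.Tw

/-! Descent of circuits in Kummer towers: the two cases. -/

set_option autoImplicit false
set_option maxHeartbeats 400000

namespace Pool.Agent.Lib.MP_f61260_nt

open Module Submodule Real

namespace Ctx

variable {ι σ : Type} [Fintype ι] [Fintype σ] {c : Ctx ι} {p : ℕ} [hp : Fact p.Prime]
  {P : σ → Qb} {k : σ → ℕ} {μ T E : ℕ} {H : ℝ}

theorem coreC {C d0 : ℕ} (hC : c.GD p C) (hd : IdxLe ⊤ c.G0 d0) {m' n' s d i J j : ℕ}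
    (hm : ¬ p ∣ m') (hnm : n' ∣ m') (h1 : s + C ≤ i) (h2 : J + 1 ≤ i) (h3 : d ≤ i)
    (h4 : s + d ≤ i + J + 1) (h5 : j + 1 ≤ i) (h6 : J + 1 + Fintype.card ι * d ≤ E)
    (h7 : E ≤ i + J + 1) (h : Circ (c.Lv (m' * p ^ (i + J + 1)) (n' * p ^ (s + d))) P k μ)
    (hH : c.HT P H) (par : Num (Fintype.card σ) d0 p E T (p ^ (j + 1) - 1)
      (p ^ (J + 1 + Fintype.card ι * d)) μ H) :
    ∃ g ∈ c.Lv (m' * p ^ i) (n' * p ^ s), g (c.z (p ^ (i + j))) = c.z (p ^ (i + j)) ∧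
      g (c.z (p ^ (i + j + 1))) ≠ c.z (p ^ (i + j + 1)) ∧ ∀ b ∈ c.G0,
      ∃ τ ∈ c.G0, ∀ τ' ∈ ({τ, b * τ} : Set GA),
        ∃ u ∈ c.Lv (m' * p ^ (i + J + 1)) (n' * p ^ (s + d)), ∀ a ∈ latK k,
          (u * g) (τ' (mon P a ^ p ^ E)) = τ' (mon P a ^ p ^ E) := by
  have hm0 : 0 < m' := Nat.pos_of_ne_zero fun h => hm (h ▸ dvd_zero p)
  have hn0 := Nat.pos_of_dvd_of_pos hnm hm0
  have hpp := fun l => pow_pos hp.out.pos l
  obtain ⟨g, hg, hg1, hg2, η, h8, h9, h10⟩ := hC m' n' s d i J hm (fun h => hm (h.trans hnm)) h1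
  have e1 : m' * p ^ (i + J + 1) = m' * p ^ i * p ^ (J + 1) := by ring
  have e2 : n' * p ^ (s + d) = n' * p ^ s * p ^ d := by ring
  have hst := c.step (m := m' * p ^ i) (n := n' * p ^ s) (k1 := p ^ (J + 1)) (k2 := p ^ d)
    (Nat.mul_pos hm0 (hpp _)) (Nat.mul_pos hn0 (hpp _))
    ((pow_dvd_pow p h2).mul_left _) ((pow_dvd_pow p h3).mul_left _)
  have hidx := c.idx_Lv (Nat.mul_pos hm0 (hpp i)) (Nat.mul_pos hn0 (hpp s)) (hpp (J + 1)) (hpp d)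
  rw [← e1, ← e2] at hst hidx
  rw [← pow_add] at hst
  rw [← pow_mul, ← pow_add, mul_comm d] at hidx
  have nU := c.Lv_normal (m := m' * p ^ (i + J + 1)) (n := n' * p ^ (s + d))
    (Nat.mul_pos hm0 (hpp _)) (mul_dvd_mul hnm (pow_dvd_pow p h4))
  have nW := c.Lv_normal (m := m' * p ^ i) (n := n' * p ^ s)
    (Nat.mul_pos hm0 (hpp _)) (mul_dvd_mul hnm (pow_dvd_pow p (by omega)))
  have hW := c.Lv_le (m := m' * p ^ i) (Nat.mul_pos hn0 (hpp s))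
  have hmv := (c.cyc (p := p)).move_pow hp.out h5
    (c.hz.fix_dvd (Nat.mul_pos hm0 (hpp i)) (dvd_mul_left _ _) hg.1) hg1
  have hUW : c.Lv (m' * p ^ (i + J + 1)) (n' * p ^ (s + d)) ≤ c.Lv (m' * p ^ i) (n' * p ^ s) :=
    c.Lv_mono (Nat.mul_pos hm0 (hpp _)) (Nat.mul_pos hn0 (hpp _))
      (e1 ▸ dvd_mul_right _ _) (e2 ▸ dvd_mul_right _ _)
  have hq : c.Lv (m' * p ^ (i + J + 1)) (n' * p ^ (s + d)) ≤ Mu (p ^ E) :=
    c.Lv_mu (Nat.mul_pos hm0 (hpp _)) ((pow_dvd_pow p h7).mul_left _)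
  have hT0 := hst.2 g hg
  have ab := hst.1
  set U := c.Lv (m' * p ^ (i + J + 1)) (n' * p ^ (s + d)) with hUd
  set W := c.Lv (m' * p ^ i) (n' * p ^ s) with hWd
  have hgG : ∀ l : ℕ, g ^ l ∈ c.G0 := fun l => hW (W.pow_mem hg l)
  obtain ⟨Q, hQ⟩ : ∃ Q, p ^ (J + 1 + d) = Q + 1 := ⟨_, (Nat.succ_pred_eq_of_pos (hpp _)).symm⟩
  let Γ : Subgroup GA :=
    { carrier := {w | ∃ l : ℕ, (g ^ l)⁻¹ * w ∈ U}
      one_mem' := ⟨0, by simp⟩
      mul_mem' := by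
        rintro w w' ⟨l, hl⟩ ⟨l', hl'⟩
        refine ⟨l + l', ?_⟩
        have e : (g ^ (l + l'))⁻¹ * (w * w') =
            (g ^ l')⁻¹ * ((g ^ l)⁻¹ * w) * g ^ l' * ((g ^ l')⁻¹ * w') := by
          rw [pow_add]; group
        rw [e]
        exact U.mul_mem (nU _ (hgG l') _ hl) hl'
      inv_mem' := by
        rintro w ⟨l, hl⟩
        refine ⟨Q * l, ?_⟩
        have e : (g ^ (Q * l))⁻¹ * w⁻¹ = (g ^ (Q * l))⁻¹ * ((g ^ l)⁻¹ * w)⁻¹ * g ^ (Q * l) *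
            ((g ^ (Q + 1)) ^ l)⁻¹ := by
          rw [← pow_mul, add_mul, one_mul, add_comm (Q * l) l, pow_add]; group
        rw [e]
        exact U.mul_mem (nU _ (hgG _) _ (U.inv_mem hl)) (U.inv_mem (U.pow_mem (hQ ▸ hT0) l)) }
  have hUΓ : U ≤ Γ := fun u hu => ⟨0, by simpa using hu⟩
  have hΓW : Γ ≤ W := by
    rintro w ⟨l, hl⟩
    have := W.mul_mem (W.pow_mem hg l) (hUW hl)
    rwa [mul_inv_cancel_left] at this
  have hpw : ∀ l : ℕ, (∀ x, ‖io p ((g ^ l) x)‖ = ‖io p x‖) ∧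
      ∀ x, Fx U x → Rel η (io p ((g ^ l) x)) (io p x) := by
    intro l
    induction l with
    | zero => exact ⟨fun _ => rfl, fun x _ => Rel.refl h8 _⟩
    | succ l ih =>
      refine ⟨fun x => by rw [pow_succ, AlgEquiv.mul_apply, ih.1, hg2], fun x hx => ?_⟩
      have h11 := h10 x hx
      have h12 := ih.2 x hx
      unfold Rel at h11 h12 ⊢
      rw [← map_sub, ← ih.1, map_sub, map_sub, ← AlgEquiv.mul_apply, ← pow_succ] at h11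
      rw [← sub_add_sub_cancel _ (io p ((g ^ l) x))]
      exact nadd_le h11 h12
  have hη1 : η ≤ 1 := by
    by_contra hc
    exact absurd (h9.trans np_lt.le) (not_le.2 (one_lt_pow₀ (not_le.1 hc) (hpp _).ne'))
  have hη : η ^ p ^ E ≤ ‖(p : Om p)‖ :=
    (pow_le_pow_of_le_one h8 hη1 (Nat.pow_le_pow_right hp.out.pos h6)).trans h9
  obtain ⟨e, he1, he2⟩ := hH
  refine ⟨g ^ p ^ j, Subgroup.pow_mem _ hg _, hmv.1, hmv.2, fun b hb => ?_⟩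
  obtain ⟨τ, hτ, h11⟩ := mcore hd hUΓ hΓW hW nU nW ab
    (hidx.restrict le_rfl (inf_le_right.trans hUΓ)) h hq (fun i => (he1 i).ne)
    (fun τ hτ i => (he1 i).act τ hτ) h8 hη
    (fun w hw => by
      obtain ⟨l, hl⟩ := hw
      exact ⟨g ^ l, hl, fun x hx a ha =>
        le_trans ((hpw l).2 x hx) (mul_le_mul_of_nonneg_left ha h8)⟩) he2 par hb
  refine ⟨τ, hτ, fun τ' hτ' => ?_⟩
  obtain ⟨Y, hUY, -, hY, h12⟩ := h11 τ' hτ'
  obtain ⟨l, hl, hl', h13⟩ := hY.exists_pow' (σ := g) ⟨1, by simp⟩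
  have h14 : g ^ l.gcd (p ^ (J + 1 + d)) ∈ Y := by
    rw [← zpow_natCast, Nat.gcd_eq_gcd_ab, zpow_add, zpow_mul, zpow_mul, zpow_natCast,
      zpow_natCast]
    exact Y.mul_mem (Y.zpow_mem h13 _) (Y.zpow_mem (hUY hT0) _)
  obtain ⟨v, -, hv⟩ := (Nat.dvd_prime_pow hp.out).1 (Nat.gcd_dvd_right l (p ^ (J + 1 + d)))
  have h15 : v ≤ j := Nat.lt_succ_iff.1 ((Nat.pow_lt_pow_iff_right hp.out.one_lt).1
    ((hv ▸ Nat.gcd_le_left _ hl).trans_lt (hl'.trans_lt (Nat.sub_lt (hpp _) one_pos))))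
  obtain ⟨v', rfl⟩ := Nat.exists_eq_add_of_le h15
  have h16 := Y.pow_mem h14 (p ^ v')
  rw [hv, ← pow_mul, ← pow_add] at h16
  obtain ⟨u, hu, h17⟩ := h12 _ h16
  refine ⟨u⁻¹, U.inv_mem hu, fun a ha => ?_⟩
  rw [AlgEquiv.mul_apply, h17 a ha, ← AlgEquiv.mul_apply, inv_mul_cancel, AlgEquiv.one_apply]

theorem caseAC {C d0 : ℕ} (hC : c.GD p C) (hd : IdxLe ⊤ c.G0 d0) {m' n' s i j : ℕ}
    (hm : ¬ p ∣ m') (hnm : n' ∣ m') (h1 : s + C ≤ i) (h2 : j + 1 ≤ i) (h6 : j + 1 ≤ E)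
    (h7 : E ≤ i + j) (h : Circ (c.Lv (m' * p ^ (i + j + 1)) (n' * p ^ s)) P k μ)
    (hH : c.HT P H) (par : Num (Fintype.card σ) d0 p E T (p ^ (j + 1) - 1) (p ^ (j + 1)) μ H) :
    ∃ ε : σ → Qb, (∀ i, c.Dv (ε i)) ∧
      Circ (c.Lv (m' * p ^ (i + j)) (n' * p ^ s)) (P * ε) k μ := by
  have hm0 : 0 < m' := Nat.pos_of_ne_zero fun h => hm (h ▸ dvd_zero p)
  have hn0 := Nat.pos_of_dvd_of_pos hnm hm0
  have hpp := fun l => pow_pos hp.out.pos l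
  obtain ⟨g, hW, h3, h4, h5⟩ := coreC hC hd (d := 0) (E := E) hm hnm h1 h2 i.zero_le (by omega) h2
    h6 (by omega) h hH par
  obtain ⟨τ, hτ, h8⟩ := h5 1 (Subgroup.one_mem _)
  obtain ⟨u, hu, h9⟩ := h8 τ (Or.inl rfl)
  have hM := Nat.mul_pos hm0 (hpp (i + j))
  have hM1 := Nat.mul_pos hm0 (hpp (i + j + 1))
  have hUV : c.Lv (m' * p ^ (i + j + 1)) (n' * p ^ s) ≤ c.Lv (m' * p ^ (i + j)) (n' * p ^ s) :=
    c.Lv_mono hM1 (Nat.mul_pos hn0 (hpp _)) (mul_dvd_mul_left _ (pow_dvd_pow p (by omega))) dvd_rfl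
  have hU : c.Lv (m' * p ^ (i + j)) (n' * p ^ s) ⊓ ⨅ _ : Unit, St ℚ (c.z (m' * p ^ (i + j + 1))) =
      c.Lv (m' * p ^ (i + j + 1)) (n' * p ^ s) := by
    rw [iInf_const]
    exact le_antisymm (fun σ hσ => ⟨hσ.2, hσ.1.2⟩) (le_inf hUV inf_le_left)
  have h10 : g ∈ c.Lv (m' * p ^ (i + j)) (n' * p ^ s) := ⟨c.hz.fix_mul hm0 (hpp _)
    (Nat.Coprime.pow_right _ ((Nat.Prime.coprime_iff_not_dvd hp.out).2 hm).symm)
    (c.hz.fix_dvd (Nat.mul_pos hm0 (hpp i)) (dvd_mul_right _ _) hW.1) h3, hW.2⟩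
  obtain ⟨ε, h11, h12⟩ := Circ.desc (κ := Unit) (V := c.Lv (m' * p ^ (i + j)) (n' * p ^ s))
    (y := fun _ => c.z (m' * p ^ (i + j + 1))) (fun _ => c.hz.ne _) hp.out hM
    (c.Lv_mu hM dvd_rfl) (q := p ^ E)
    ((pow_dvd_pow p h7).mul_left _) ((dvd_pow_self p (by omega)).mul_left _)
    (fun _ => by
      rw [pow_succ, ← mul_assoc, c.hz.pw _ _ hM hp.out.pos]; exact Fx.of_le inf_le_left)
    (hU ▸ h) (fun _ => τ⁻¹ * (u * g) * τ)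
    (fun _ => c.Lv_normal hM (mul_dvd_mul hnm (pow_dvd_pow p (by omega))) τ hτ _
      (Subgroup.mul_mem _ (hUV hu) h10))
    (fun _ h13 => h4 (c.hz.fix_dvd hM1 (dvd_mul_left _ _) (u.injective (by
      rw [conj_root _ _ hM1 (c.prim _ hM1).pow_eq_one] at h13
      exact h13.trans (mem_St.1 hu.1).symm))))
    (fun _ _ h => absurd rfl h)
    (fun _ x hx => by
      rw [AlgEquiv.mul_apply, AlgEquiv.mul_apply, h9 x hx, ← AlgEquiv.mul_apply, inv_mul_cancel,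
        AlgEquiv.one_apply])
  refine ⟨ε, fun l => ?_, h12⟩
  obtain ⟨e, he⟩ := h11 l
  refine Dv.of_pow (h.pos l) ?_
  rw [he]
  exact dv_prod _ fun _ _ => (dv_tor ⟨_, hM1, (c.prim _ hM1).pow_eq_one⟩).pow _

theorem caseBC {C C' d0 : ℕ} (hC : c.GD p C) (hC' : c.KF p C') (hd : IdxLe ⊤ c.G0 d0)
    {m' n' s d i J j : ℕ} (hm : ¬ p ∣ m') (hnm : n' ∣ m') (h1 : s + C ≤ i) (h2 : J + 1 ≤ i)
    (h3 : d + 1 ≤ i) (h4 : s + (d + 1) ≤ i + J + 1) (h5 : j + 1 ≤ i)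
    (h6 : i + j + 1 + C' ≤ s + (d + 1)) (h7 : J + 1 + Fintype.card ι * (d + 1) ≤ E)
    (h8 : E ≤ i + J + 1)
    (h : Circ (c.Lv (m' * p ^ (i + J + 1)) (n' * p ^ (s + (d + 1)))) P k μ) (hH : c.HT P H)
    (par : Num (Fintype.card σ) d0 p E T (p ^ (j + 1) - 1)
      (p ^ (J + 1 + Fintype.card ι * (d + 1))) μ H) :
    ∃ ε : σ → Qb, (∀ i, c.Dv (ε i)) ∧
      Circ (c.Lv (m' * p ^ (i + J + 1)) (n' * p ^ (s + d))) (P * ε) k μ := by
  have hm0 : 0 < m' := Nat.pos_of_ne_zero fun h => hm (h ▸ dvd_zero p)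
  have hn0 := Nat.pos_of_dvd_of_pos hnm hm0
  have hpp := fun l => pow_pos hp.out.pos l
  have hcop : ∀ l, n'.Coprime (p ^ l) := fun l => Nat.Coprime.pow_right _
    ((Nat.Prime.coprime_iff_not_dvd hp.out).2 fun h => hm (h.trans hnm)).symm
  obtain ⟨g, hW, hg1, hg2, h10⟩ := coreC hC hd hm hnm h1 h2 h3 h4 h5 h7 h8 h hH par
  set M := m' * p ^ (i + J + 1) with hMd
  have hM : 0 < M := Nat.mul_pos hm0 (hpp _)
  have hsM : p ^ (s + (d + 1)) ∣ M := (pow_dvd_pow p h4).mul_left _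
  have hnM : n' * p ^ (s + (d + 1)) ∣ M := mul_dvd_mul hnm (pow_dvd_pow p h4)
  have hN := Nat.mul_pos hn0 (hpp (s + (d + 1)))
  have hN' := Nat.mul_pos hn0 (hpp (s + d))
  choose b hb hb1 hb2 using hC' M _ _ hM hsM h6
  have hG : g ∈ c.G0 := c.Lv_le (Nat.mul_pos hn0 (hpp s)) hW
  have hUV : c.Lv M (n' * p ^ (s + (d + 1))) ≤ c.Lv M (n' * p ^ (s + d)) :=
    c.Lv_mono hM hN dvd_rfl (mul_dvd_mul_left _ (pow_dvd_pow p (by omega)))
  have hU : c.Lv M (n' * p ^ (s + d)) ⊓ ⨅ a, St ℚ (c.t a (n' * p ^ (s + (d + 1)))) =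
      c.Lv M (n' * p ^ (s + (d + 1))) :=
    le_antisymm (fun σ hσ => ⟨hσ.1.1, hσ.2⟩) (le_inf hUV inf_le_right)
  have key : ∀ a, ∃ x ∈ c.Lv M (n' * p ^ (s + d)),
      x (c.t a (n' * p ^ (s + (d + 1)))) ≠ c.t a (n' * p ^ (s + (d + 1))) ∧
      (∀ a', a' ≠ a → x (c.t a' (n' * p ^ (s + (d + 1)))) = c.t a' (n' * p ^ (s + (d + 1)))) ∧
      ∀ y ∈ latK k, x (mon P y ^ p ^ E) = mon P y ^ p ^ E := by
    intro a
    have hbG : b a ∈ c.G0 := (hb a).2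
    obtain ⟨τ, hτ, h11⟩ := h10 _ hbG
    obtain ⟨u1, hu1, h12⟩ := h11 τ (Or.inl rfl)
    obtain ⟨u2, hu2, h13⟩ := h11 _ (Or.inr rfl)
    have nU := c.Lv_normal hM hnM
    set cm := g⁻¹ * (b a)⁻¹ * g * b a with hcm
    have hu3 := nU g hG _ (Subgroup.mul_mem _ (Subgroup.inv_mem _ hu1) (nU _ hbG _ hu2))
    set u3 := g⁻¹ * (u1⁻¹ * ((b a)⁻¹ * u2 * b a)) * g with hu3d
    have hact : ∀ (a' : ι) (n : ℕ) (ξ : Qb), n ∣ M → b a (c.t a' n) = ξ * c.t a' n →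
        cm (c.t a' n) = ξ / g⁻¹ ξ * c.t a' n := by
      intro a' n ξ hn h14
      have hn1 := Nat.pos_of_dvd_of_pos hn hM
      obtain ⟨κ, h15, h16⟩ := mult_ex g ((c.hs a').ne n) (n := n)
        (by rw [(c.hs a').pw1 hn1, mem_G0.1 hG])
      obtain ⟨ξ', h17, h18⟩ := mult_ex (b a) ((c.hs a').ne n) (n := n)
        (by rw [(c.hs a').pw1 hn1, mem_G0.1 hbG])
      obtain rfl : ξ = ξ' := mul_right_cancel₀ ((c.hs a').ne n) (h14.symm.trans h18)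
      exact comm_act (fun h' => by simp [h', hn1.ne'] at h17) h16 h14 (fix hM (hb a).1 hn h15)
        (fix hM (hb a).1 hn h17) (fix hM (hb a).1 hn (by rw [← map_pow, h17, map_one]))
    have f1 : ∀ a', cm (c.t a' n') = c.t a' n' := fun a' => by
      obtain ⟨ξ, h17, h18⟩ := mult_ex (b a) ((c.hs a').ne n') (n := n')
        (by rw [(c.hs a').pw1 hn0, mem_G0.1 hbG])
      rw [hact a' n' ξ (hnm.mul_right _) h18, fix (Nat.mul_pos hm0 (hpp i))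
        (Subgroup.inv_mem _ hW).1 (hnm.mul_right _) h17,
        div_self fun h' => by simp [h', hn0.ne'] at h17, one_mul]
    have f2 : ∀ a', a' ≠ a → cm (c.t a' (p ^ (s + (d + 1)))) = c.t a' (p ^ (s + (d + 1))) :=
      fun a' ha' => by simpa using hact a' _ 1 hsM (by rw [one_mul]; exact hb2 a a' ha')
    have f3 := hact a _ _ hsM (hb1 a)
    have hpw : ∀ a', c.t a' (p ^ (s + (d + 1))) ^ p = c.t a' (p ^ (s + d)) := fun a' => by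
      rw [← add_assoc, pow_succ]; exact (c.hs a').pw _ _ (hpp _) hp.out.pos
    have f4 : ∀ a', cm (c.t a' (p ^ (s + d))) = c.t a' (p ^ (s + d)) := fun a' => by
      rw [← hpw, map_pow]
      by_cases ha' : a' = a
      · rw [ha', f3, mul_pow, div_pow, ← map_pow, (c.cyc (p := p)).pw,
          mem_St.1 ((St ℚ _).inv_mem hg1), div_self (c.hz.ne _), one_mul]
      · rw [f2 a' ha']
    have f5 : cm (c.z M) = c.z M := by
      rw [hcm, mul_assoc, mul_assoc, ← mul_assoc (b a)⁻¹, AlgEquiv.mul_apply,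
        conj_root _ _ hM (c.prim _ hM).pow_eq_one, ← AlgEquiv.mul_apply, inv_mul_cancel,
        AlgEquiv.one_apply]
    have f6 : u3 * cm ∈ c.Lv M (n' * p ^ (s + d)) := Subgroup.mul_mem _ (hUV hu3)
      (mem_Lv.2 ⟨f5, fun a' => (c.hs a').fix_mul hn0 (hpp _) (hcop _) (f1 a') (f4 a')⟩)
    refine ⟨τ⁻¹ * (u3 * cm) * τ, c.Lv_normal hM ((mul_dvd_mul_left _
      (pow_dvd_pow p (by omega))).trans hnM) τ hτ _ f6, fun h14 => ?_, fun a' ha' => ?_,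
      fun y hy => ?_⟩
    · rw [conj_iff hM hnM hτ f6.1, ← (mem_Lv.1 hu3).2 a, AlgEquiv.mul_apply,
        (mem_Lv.1 hu3).2 a, ← (mem_Lv.1 hu3).2 a, u3.injective.eq_iff, (mem_Lv.1 hu3).2 a] at h14
      have h15 := (c.hs a).fix_dvd hN (dvd_mul_left _ _) h14
      rw [f3, mul_eq_right₀ ((c.hs a).ne _), div_eq_one_iff_eq
        ((_root_.map_ne_zero _).2 (c.hz.ne _))] at h15
      apply hg2
      conv_lhs => rw [h15]
      rw [← AlgEquiv.mul_apply, mul_inv_cancel, AlgEquiv.one_apply]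
    · rw [conj_iff hM hnM hτ f6.1, AlgEquiv.mul_apply,
        (c.hs a').fix_mul hn0 (hpp _) (hcop _) (f1 a') (f2 a' ha'), (mem_Lv.1 hu3).2 a']
    · have e : τ⁻¹ * (u3 * cm) * τ = τ⁻¹ * (u1 * g)⁻¹ * ((b a)⁻¹ * (u2 * g * (b a * τ))) := by
        rw [hu3d, hcm]; group
      rw [e, AlgEquiv.mul_apply, AlgEquiv.mul_apply (b a)⁻¹, AlgEquiv.mul_apply (u2 * g),
        h13 y hy, ← AlgEquiv.mul_apply (b a)⁻¹, inv_mul_cancel_left, AlgEquiv.mul_apply,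
        mem_St.1 ((St ℚ _).inv_mem (h12 y hy)), ← AlgEquiv.mul_apply, inv_mul_cancel,
        AlgEquiv.one_apply]
  choose x hx1 hx2 hx3 hx4 using key
  obtain ⟨ε, h11, h12⟩ := Circ.desc (V := c.Lv M (n' * p ^ (s + d)))
    (y := fun a => c.t a (n' * p ^ (s + (d + 1)))) (fun a => (c.hs a).ne _) hp.out hM
    (c.Lv_mu hM dvd_rfl) ((pow_dvd_pow p h8).mul_left _) ((dvd_pow_self p (by omega)).mul_left _)
    (fun a => by
      rw [← add_assoc, pow_succ, ← mul_assoc, (c.hs a).pw _ _ hN' hp.out.pos]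
      exact Fx.of_le (inf_le_right.trans (iInf_le _ a)))
    (hU ▸ h) x hx1 hx2 hx3 hx4
  refine ⟨ε, fun l => ?_, h12⟩
  obtain ⟨e, he⟩ := h11 l
  refine Dv.of_pow (h.pos l) ?_
  rw [he]
  exact dv_prod _ fun a _ => (dv_t a hN).pow _

end Ctx

end Pool.Agent.Lib.MP_f61260_nt
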