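import Pool.Agent.Lib.MP_f61260_nt.Sl.S1

/-! Descent of circuits to a small Kummer level. -/

set_option autoImplicit false
set_option maxHeartbeats 400000

namespace Pool.Agent.Lib.MP_f61260_nt

open Module Submodule Real Filter

lemma s2_e2 {p j l : ℕ} (hp : 2 ≤ p) : 4 * (p ^ (j + 1) - 1) * p ^ l + 3 ≤ p ^ (l + j + 3) := by
  have h1 : 0 < p ^ (j + 1) := pow_pos (by omega) _
  have h2 : 0 < p ^ l := pow_pos (by omega) _
  have h3 : p ^ (l + j + 3) = p ^ 2 * (p ^ (j + 1) * p ^ l) := by ring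
  have h4 : 2 ^ 2 ≤ p ^ 2 := Nat.pow_le_pow_left hp 2
  obtain ⟨y, hy⟩ : ∃ y, p ^ (j + 1) = y + 1 := ⟨p ^ (j + 1) - 1, by omega⟩
  rw [h3, hy, Nat.add_sub_cancel]
  nlinarith [Nat.mul_le_mul_right ((y + 1) * p ^ l) h4]

lemma s2_step {ι σ : Type} [Fintype ι] [Fintype σ] {c : Ctx ι} {p : ℕ} [hp : Fact p.Prime]
    {C C' d0 j T μ m n : ℕ} {H : ℝ} {P : σ → Qb} {k : σ → ℕ} (hC : c.GD p C) (hC' : c.KF p C')
    (hd : IdxLe ⊤ c.G0 d0) (h1 : C ≤ j + 1) (h2 : C' ≤ j + 1)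
    (par : ∀ l, l + j + 3 ≤ (10 + 3 * Fintype.card ι) * (j + 1) →
      Num (Fintype.card σ) d0 p (l + j + 3) T (p ^ (j + 1) - 1) (p ^ l) μ H)
    (hm : 0 < m) (hn : n ∣ m) (h : Circ (c.Lv m n) P k μ) (hH : c.HT P H)
    (hpm : p ^ ((10 + 3 * Fintype.card ι) * (j + 1)) ∣ m) :
    ∃ (ε : σ → Qb) (m1 n1 : ℕ), (∀ i, c.Dv (ε i)) ∧ m1 + n1 < m + n ∧ 0 < m1 ∧ n1 ∣ m1 ∧ n1 ∣ n ∧
      Circ (c.Lv m1 n1) (P * ε) k μ := by
  have hq := hp.out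
  have hn0 := Nat.pos_of_dvd_of_pos hn hm
  obtain ⟨r, m', hm', rfl⟩ := Nat.exists_eq_pow_mul_and_not_dvd hm.ne' p hq.ne_one
  obtain ⟨s, n', hn', rfl⟩ := Nat.exists_eq_pow_mul_and_not_dvd hn0.ne' p hq.ne_one
  have hcop : ∀ {a : ℕ} (l : ℕ), ¬ p ∣ a → (p ^ l).Coprime a := fun l h =>
    Nat.Coprime.pow_left l ((Nat.Prime.coprime_iff_not_dvd hq).2 h)
  have hnm : n' ∣ m' := (hcop r hn').symm.dvd_of_dvd_mul_left ((dvd_mul_left _ _).trans hn)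
  have hsr : s ≤ r := (Nat.pow_dvd_pow_iff_le_right hq.one_lt).1
    ((hcop s hm').dvd_of_dvd_mul_right ((dvd_mul_right _ _).trans hn))
  have hr : (10 + 3 * Fintype.card ι) * (j + 1) ≤ r := (Nat.pow_dvd_pow_iff_le_right hq.one_lt).1
    ((hcop _ hm').dvd_of_dvd_mul_right hpm)
  have hm0 : 0 < m' := Nat.pos_of_mul_pos_left hm
  have hn0' : 0 < n' := Nat.pos_of_mul_pos_left hn0
  rw [mul_comm (p ^ r), mul_comm (p ^ s)] at h ⊢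
  have hρ' : (10 + 3 * Fintype.card ι) * (j + 1) =
      10 * (j + 1) + Fintype.card ι * (3 * j + 2 + 1) := by ring
  by_cases hA : s + 3 * (j + 1) ≤ r
  · obtain ⟨i, rfl⟩ : ∃ i, r = i + j + 1 := ⟨r - (j + 1), by omega⟩
    obtain ⟨ε, h3, h4⟩ := Ctx.caseAC hC hd hm' hnm (by omega) (by omega) (by omega) (by omega) h hH
      (par (j + 1) (by omega))
    exact ⟨ε, _, _, h3, Nat.add_lt_add_right (Nat.mul_lt_mul_of_pos_left
      (Nat.pow_lt_pow_right hq.one_lt (by omega)) hm0) _, Nat.mul_pos hm0 (pow_pos hq.pos _),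
      mul_dvd_mul hnm (pow_dvd_pow p (by omega)), dvd_rfl, h4⟩
  · obtain ⟨s0, rfl⟩ : ∃ s0, s = s0 + (3 * j + 2 + 1) := ⟨s - (3 * j + 3), by omega⟩
    obtain ⟨J, rfl⟩ : ∃ J, r = s0 + (j + 1) + J + 1 := ⟨r - (s0 + j + 2), by omega⟩
    obtain ⟨ε, h3, h4⟩ := Ctx.caseBC (j := j) hC hC' hd hm' hnm (by omega) (by omega) (by omega)
      (by omega) (by omega) (by omega) (by omega) (by omega) h hH (par _ (by omega))
    exact ⟨ε, _, _, h3, Nat.add_lt_add_left (Nat.mul_lt_mul_of_pos_left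
      (Nat.pow_lt_pow_right hq.one_lt (by omega)) hn0') _, Nat.mul_pos hm0 (pow_pos hq.pos _),
      mul_dvd_mul hnm (pow_dvd_pow p (by omega)), mul_dvd_mul_left _ (pow_dvd_pow p (by omega)), h4⟩

theorem Ctx.descent3 {ι : Type} [Fintype ι] (c : Ctx ι) (σ : Type) [Fintype σ] (S : Finset ℕ)
    (hS : ∀ p ∈ S, p.Prime) (hKF : ∀ p ∈ S, ∃ C, c.KF p C) :
    ∃ κ : ℕ, ∀ᶠ x : ℕ in atTop, ∀ (P : σ → Qb) (k : σ → ℕ) (μ m n : ℕ) (H : ℝ), 0 < m → n ∣ m →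
      n.primeFactors ⊆ S → Circ (c.Lv m n) P k μ → c.HT P H → μ ≤ 4 ^ x →
      x ^ κ * μ * H ≤ 1 → ∃ (ε : σ → Qb) (m1 n1 : ℕ), (∀ i, c.Dv (ε i)) ∧ 0 < m1 ∧ n1 ∣ m1 ∧
        n1 ≤ x ^ κ ∧ Circ (c.Lv m1 n1) (P * ε) k μ := by
  obtain ⟨d0, hd0⟩ := c.idx_G0
  obtain ⟨R, hR⟩ : ∃ R, R = 10 + 3 * Fintype.card ι := ⟨_, rfl⟩
  obtain ⟨ρ, hρ⟩ : ∃ ρ, ρ = Fintype.card σ := ⟨_, rfl⟩
  obtain ⟨K, hK⟩ : ∃ K, K = 2 * ((∑ p ∈ S, p) * (R * (2 * ρ + 2))) := ⟨_, rfl⟩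
  refine ⟨K * (ρ + 2) + 3 + K * S.card, ?_⟩
  have hev : ∀ p ∈ S, ∀ᶠ x : ℕ in atTop, ∀ [Fact p.Prime], ∃ C C', c.GD p C ∧ c.KF p C' ∧
      2 ^ C ≤ x ∧ 2 ^ C' ≤ x := fun p hp => by
    have : Fact p.Prime := ⟨hS p hp⟩
    obtain ⟨C, hC⟩ := c.gd (p := p)
    obtain ⟨C', hC'⟩ := hKF p hp
    filter_upwards [eventually_ge_atTop (2 ^ C), eventually_ge_atTop (2 ^ C')] with x h1 h2 _
    exact ⟨C, C', hC, hC', h1, h2⟩
  rw [← eventually_all_finset] at hev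
  filter_upwards [hev, par_ev ρ d0 K, eventually_ge_atTop 2] with x hx hpar hx2 P k μ m n H
  obtain ⟨i, hi⟩ : ∃ i, i = Nat.log 2 x + 1 := ⟨_, rfl⟩
  have e1 : x ≤ 2 ^ i := hi ▸ (Nat.lt_pow_succ_log_self one_lt_two x).le
  have e2 : 2 ^ i ≤ x ^ 2 := by
    rw [hi, pow_succ, sq]
    exact Nat.mul_le_mul (Nat.pow_log_le_self 2 (by omega)) hx2
  obtain ⟨j, hj⟩ : ∃ j, j + 1 = i * (2 * ρ + 2) := ⟨i * (2 * ρ + 2) - 1,
    Nat.sub_add_cancel (Nat.mul_pos (by omega) (by omega))⟩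
  have e3 : ∀ C, 2 ^ C ≤ x → C ≤ j + 1 := fun C h => by
    have := (Nat.pow_le_pow_iff_right one_lt_two).1 (h.trans e1)
    rw [hj]
    exact this.trans (Nat.le_mul_of_pos_right _ (by omega))
  have e4 : ∀ p ∈ S, p ^ (R * (j + 1)) ≤ x ^ K := fun p hp =>
    calc _ ≤ (2 ^ ∑ p ∈ S, p) ^ (R * (j + 1)) := Nat.pow_le_pow_left (Nat.lt_two_pow_self.le.trans
          (Nat.pow_le_pow_right two_pos (Finset.single_le_sum (f := fun p => p)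
            (fun _ _ => Nat.zero_le _) hp))) _
      _ = (2 ^ i) ^ ((∑ p ∈ S, p) * (R * (2 * ρ + 2))) := by
          rw [hj, ← pow_mul, ← pow_mul]; congr 1; ring
      _ ≤ _ := by rw [hK, pow_mul x]; exact Nat.pow_le_pow_left e2 _
  have e5 : ∀ p, 2 ≤ p → 2 * (x ^ 2) ^ ρ ≤ p ^ (j + 1) - 1 := fun p hp => by
    have h1 : x ^ (2 * ρ + 2) ≤ p ^ (j + 1) := by
      refine (Nat.pow_le_pow_left e1 _).trans ?_
      rw [← pow_mul, ← hj]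
      exact Nat.pow_le_pow_left hp _
    have h2 : 0 < (x ^ 2) ^ ρ := by positivity
    have h3 : 2 ^ 2 ≤ x ^ 2 := Nat.pow_le_pow_left hx2 2
    rw [pow_add, pow_mul] at h1
    have h4 := (Nat.mul_le_mul_left ((x ^ 2) ^ ρ) h3).trans h1
    omega
  induction hmn : m + n using Nat.strong_induction_on generalizing P m n with
  | _ l ihl =>
  intro hm hn hs h hH hμ hκ
  have hn0 := Nat.pos_of_dvd_of_pos hn hm
  by_cases hc : ∃ p ∈ S, p ^ (R * (j + 1)) ∣ m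
  · obtain ⟨p, hpS, hc⟩ := hc
    have hp := hS p hpS
    have : Fact p.Prime := ⟨hp⟩
    obtain ⟨C, C', hC, hC', h1, h2⟩ := hx p hpS
    have hH0 : 0 ≤ H := let ⟨_, _, h3⟩ := hH; (Finset.sum_nonneg fun _ _ => ht_nonneg _).trans h3
    obtain ⟨ε, m1, n1, h3, h4, h5, h6, h7, h8⟩ := s2_step (T := x ^ 2) hC hC' hd0 (e3 C h1)
      (e3 C' h2) (fun l hl => hρ ▸ hpar ρ le_rfl p _ _ _ μ H hp.two_le
        ((Nat.pow_le_pow_right hp.pos (hR ▸ hl)).trans (e4 p hpS)) (e5 p hp.two_le)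
        (s2_e2 hp.two_le) hμ hH0 (le_trans (mul_le_mul_of_nonneg_right (mul_le_mul_of_nonneg_right
          (pow_le_pow_right₀ (by exact_mod_cast one_le_two.trans hx2) (Nat.le_add_right _ _))
          μ.cast_nonneg) hH0) hκ)) hm hn h hH (hR ▸ hc)
    obtain ⟨ε', m2, n2, a1, a2, a3, a4, a5⟩ := ihl _ (hmn ▸ h4) (P * ε) m1 n1 rfl h5 h6
      ((Nat.primeFactors_mono h7 hn0.ne').trans hs) h8 (hH.mul h3) hμ hκ
    exact ⟨ε * ε', m2, n2, fun i => (h3 i).mul (a1 i), a2, a3, a4, mul_assoc P ε ε' ▸ a5⟩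
  · push Not at hc
    refine ⟨1, m, n, fun _ => ⟨1, one_pos, 0, by simp⟩, hm, hn, ?_, by rwa [mul_one]⟩
    have h1 : n ∣ ∏ p ∈ S, p ^ (R * (j + 1)) := by
      rw [Nat.dvd_iff_prime_pow_dvd_dvd]
      intro p l hp hl
      rcases Nat.eq_zero_or_pos l with rfl | h0
      · exact one_dvd _
      have hpS := hs (Nat.mem_primeFactors.2 ⟨hp, (dvd_pow_self p h0.ne').trans hl, hn0.ne'⟩)
      refine (pow_dvd_pow p ?_).trans (Finset.dvd_prod_of_mem (fun p => p ^ (R * (j + 1))) hpS)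
      by_contra h2
      exact hc p hpS (((pow_dvd_pow p (by omega)).trans hl).trans hn)
    refine (Nat.le_of_dvd (Finset.prod_pos fun p hp => pow_pos (hS p hp).pos _) h1).trans
      ((Finset.prod_le_pow_card _ _ _ e4).trans ?_)
    rw [← pow_mul]
    exact Nat.pow_le_pow_right (by omega) (by omega)

end Pool.Agent.Lib.MP_f61260_nt
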